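import Pool.Agent.Lib.MP_211f72_nt.V.Spec

/-!
# MP_211f72_nt, V/BadM: for most `ξ` the point of Minkowski's theorem has a large first coordinate
-/

namespace Pool.Agent.MP211V

open Polynomial MeasureTheory

namespace BadM

/-- measure of a finite union of balls -/
theorem vol_balls (T : Finset (ℝ × ℝ)) (hT : ∀ p ∈ T, 0 ≤ p.2) :
    volume {ξ : ℝ | ∃ p ∈ T, |ξ - p.1| ≤ p.2} ≤ ENNReal.ofReal (∑ p ∈ T, 2 * p.2) := by
  have hsub : {ξ : ℝ | ∃ p ∈ T, |ξ - p.1| ≤ p.2} ⊆ ⋃ p ∈ T, Metric.closedBall p.1 p.2 := by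
    intro ξ hξ
    obtain ⟨p, hp, h⟩ := hξ
    simp only [Set.mem_iUnion]
    exact ⟨p, hp, by rw [Metric.mem_closedBall, Real.dist_eq]; exact h⟩
  refine (measure_mono hsub).trans ((measure_biUnion_finset_le T _).trans ?_)
  rw [ENNReal.ofReal_sum_of_nonneg (fun p hp => by have := hT p hp; positivity)]
  exact Finset.sum_le_sum (fun p hp => by rw [Real.volume_closedBall])

/-- a set of integer points all of whose finite subsets are small is a small finite set -/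
theorem fin_of_card {α : Type*} (A : Set α) (B : ℝ)
    (h : ∀ S : Finset α, (∀ x ∈ S, x ∈ A) → (S.card : ℝ) ≤ B) :
    ∃ S : Finset α, (∀ x, x ∈ S ↔ x ∈ A) ∧ (S.card : ℝ) ≤ B := by
  classical
  have hfin : A.Finite := by
    by_contra hinf
    obtain ⟨m, hm⟩ := exists_nat_gt B
    obtain ⟨S, hS, hcard⟩ := Set.Infinite.exists_subset_card_eq hinf m
    have := h S (fun x hx => hS hx)
    rw [hcard] at this
    linarith
  refine ⟨hfin.toFinset, fun x => by simp, h _ (fun x hx => by simpa using hx)⟩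

theorem oneScale (hC : S_Cnt) (n : ℕ) (mu κ' : ℝ) (hn : 4 ≤ n) (h1 : 1 / (n : ℝ) < mu)
    (h2 : mu < 1 / ((n : ℝ) - 1)) (hκ : 0 < κ') (j1 : Fin (n + 1)) :
    ∃ e Y₀ : ℝ, 0 < e ∧ 1 ≤ Y₀ ∧ ∀ Y η : ℝ, Y₀ ≤ Y → 0 ≤ η → η ≤ 1 →
      volume {ξ : ℝ | ∃ x : Fin (n + 1) → ℤ, 0 ≤ (x j1 : ℝ) / (x 0 : ℝ) ∧
        (x j1 : ℝ) / (x 0 : ℝ) ≤ 1 ∧
        |ξ - (x j1 : ℝ) / (x 0 : ℝ)| ≤ 2 * η / Y ∧ Nr n Y mu ((x j1 : ℝ) / (x 0 : ℝ)) x} ≤
      ENNReal.ofReal (10 * Y ^ (-e) + 4 * η * Y ^ (1 - ((n : ℝ) - 1) * mu + κ')) := by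
  classical
  have hnR : (4 : ℝ) ≤ n := by exact_mod_cast hn
  have hn0 : (0 : ℝ) < n := by linarith
  have hmu0 : 0 < mu := lt_trans (by positivity) h1
  have hmu1 : mu < 1 := by
    refine h2.trans_le ?_
    rw [div_le_one (by linarith)]; linarith
  have hnmu : 1 < n * mu := by
    rw [div_lt_iff₀ hn0] at h1; linarith
  have hs : sdim n mu < 1 := by
    unfold sdim
    rw [div_lt_one (by linarith)]
    linarith
  obtain ⟨e, Y₀, he, hY₀, H⟩ := hC n mu 1 κ' hn h1 h2 hs le_rfl hκ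
  refine ⟨e, Y₀, he, hY₀, ?_⟩
  intro Y η hY hη0 hη1
  have hY1 : 1 ≤ Y := hY₀.trans hY
  have hYpos : 0 < Y := by linarith
  obtain ⟨T, hT1, hT2, hT3⟩ := H Y hY
  obtain ⟨S, hS, hScard⟩ := fin_of_card {x : Fin (n + 1) → ℤ | ∃ ξ : ℝ, 0 ≤ ξ ∧ ξ ≤ 1 ∧
    Nr n Y mu ξ x ∧ ∀ p ∈ T, p.2 < |ξ - p.1|} (Y ^ (2 - ((n : ℝ) - 1) * mu + κ'))
    (fun S hS => hT3 S hS)
  -- the radii of T are at least 1/(2Y)
  have hth : Y⁻¹ ≤ th mu Y := by
    unfold th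
    rw [← Real.rpow_neg_one]
    exact Real.rpow_le_rpow_of_exponent_le hY1 (by linarith)
  have hYinv : 0 < Y⁻¹ := inv_pos.mpr hYpos
  have hTr : ∀ p ∈ T, Y⁻¹ ≤ 2 * p.2 := fun p hp => by have := hT1 p hp; linarith
  have hTpos : ∀ p ∈ T, 0 ≤ p.2 := fun p hp => by have := hTr p hp; linarith
  set T5 : Finset (ℝ × ℝ) := T.image (fun p => (p.1, 5 * p.2)) with hT5
  set TS : Finset (ℝ × ℝ) := S.image (fun x => ((x j1 : ℝ) / (x 0 : ℝ), 2 * η / Y)) with hTS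
  have hsub : {ξ : ℝ | ∃ x : Fin (n + 1) → ℤ, 0 ≤ (x j1 : ℝ) / (x 0 : ℝ) ∧
        (x j1 : ℝ) / (x 0 : ℝ) ≤ 1 ∧
        |ξ - (x j1 : ℝ) / (x 0 : ℝ)| ≤ 2 * η / Y ∧ Nr n Y mu ((x j1 : ℝ) / (x 0 : ℝ)) x} ⊆
      {ξ : ℝ | ∃ p ∈ T5, |ξ - p.1| ≤ p.2} ∪ {ξ : ℝ | ∃ p ∈ TS, |ξ - p.1| ≤ p.2} := by
    rintro ξ ⟨x, hx0, hx1, hx2, hx3⟩
    by_cases hcov : ∃ p ∈ T, |(x j1 : ℝ) / (x 0 : ℝ) - p.1| ≤ p.2
    · left
      obtain ⟨p, hp, hpc⟩ := hcov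
      refine ⟨(p.1, 5 * p.2), Finset.mem_image_of_mem _ hp, ?_⟩
      have h3 : 2 * η / Y ≤ 4 * p.2 := by
        rw [div_eq_mul_inv]
        have := hTr p hp
        nlinarith
      have h4 : ξ - p.1 = (ξ - (x j1 : ℝ) / (x 0 : ℝ)) + ((x j1 : ℝ) / (x 0 : ℝ) - p.1) := by ring
      simp only
      rw [h4]
      refine (abs_add_le _ _).trans ?_
      linarith
    · right
      push Not at hcov
      refine ⟨((x j1 : ℝ) / (x 0 : ℝ), 2 * η / Y), Finset.mem_image_of_mem _ ?_, hx2⟩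
      rw [hS]
      exact ⟨_, hx0, hx1, hx3, hcov⟩
  refine (measure_mono hsub).trans ((measure_union_le _ _).trans ?_)
  rw [ENNReal.ofReal_add (by positivity) (by positivity)]
  refine add_le_add ?_ ?_
  · refine (vol_balls T5 ?_).trans (ENNReal.ofReal_le_ofReal ?_)
    · intro p hp
      rw [hT5, Finset.mem_image] at hp
      obtain ⟨q, hq, rfl⟩ := hp
      have := hTpos q hq
      simp only
      linarith
    · have h5 : ∑ p ∈ T5, 2 * p.2 ≤ ∑ p ∈ T, 2 * (5 * p.2) := by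
        rw [hT5]
        refine Finset.sum_image_le_of_nonneg (f := fun p : ℝ × ℝ => 2 * p.2)
          (g := fun p : ℝ × ℝ => (p.1, 5 * p.2)) (fun p hp => ?_)
        obtain ⟨q, hq, rfl⟩ := Finset.mem_image.mp hp
        have := hTpos q hq
        simp only
        linarith
      refine h5.trans ?_
      have h6 : ∑ p ∈ T, 2 * (5 * p.2) = 10 * ∑ p ∈ T, p.2 ^ (1 : ℝ) := by
        rw [Finset.mul_sum]
        refine Finset.sum_congr rfl (fun p _ => ?_)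
        rw [Real.rpow_one]; ring
      rw [h6]
      exact mul_le_mul_of_nonneg_left hT2 (by norm_num)
  · refine (vol_balls TS ?_).trans (ENNReal.ofReal_le_ofReal ?_)
    · intro p hp
      rw [hTS, Finset.mem_image] at hp
      obtain ⟨q, hq, rfl⟩ := hp
      simp only
      positivity
    · have h5 : ∑ p ∈ TS, 2 * p.2 ≤ ∑ _x ∈ S, 2 * (2 * η / Y) := by
        rw [hTS]
        refine Finset.sum_image_le_of_nonneg (f := fun p : ℝ × ℝ => 2 * p.2)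
          (g := fun x : Fin (n + 1) → ℤ => ((x j1 : ℝ) / (x 0 : ℝ), 2 * η / Y)) (fun p hp => ?_)
        obtain ⟨q, hq, rfl⟩ := Finset.mem_image.mp hp
        simp only
        positivity
      refine h5.trans ?_
      rw [Finset.sum_const, nsmul_eq_mul]
      have h7 : Y ^ (2 - ((n : ℝ) - 1) * mu + κ') = Y ^ (1 - ((n : ℝ) - 1) * mu + κ') * Y := by
        have : 2 - ((n : ℝ) - 1) * mu + κ' = (1 - ((n : ℝ) - 1) * mu + κ') + 1 := by ring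
        rw [this, Real.rpow_add_one hYpos.ne']
      rw [h7] at hScard
      have h8 : (S.card : ℝ) * (2 * (2 * η / Y)) ≤
          (Y ^ (1 - ((n : ℝ) - 1) * mu + κ') * Y) * (2 * (2 * η / Y)) :=
        mul_le_mul_of_nonneg_right hScard (by positivity)
      refine h8.trans (le_of_eq ?_)
      field_simp
      ring

/-- the rational point `x_1/x_0` of a point of the box -/
theorem core (hYc : S_Yc) (n : ℕ) (κ ξ η δ : ℝ) (j1 : Fin (n + 1)) (hj1 : (j1 : ℕ) = 1)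
    (x : Fin (n + 1) → ℤ) (hx : x ≠ 0) (hη0 : 0 ≤ η) (hη1 : η ≤ 1) (hδ0 : 0 ≤ δ) (hηκ : η ≤ κ)
    (hηn : 2 ^ n * η < 1) (hδn : 2 ^ n * δ < 1) (hξ0 : κ ≤ ξ) (hξ1 : ξ ≤ 1 - κ)
    (hb1 : |yc n x ξ j1| ≤ η) (hb : ∀ j : Fin (n + 1), 2 ≤ (j : ℕ) → |yc n x ξ j| ≤ δ) :
    1 ≤ |(x 0 : ℝ)| ∧ 0 ≤ (x j1 : ℝ) / x 0 ∧ (x j1 : ℝ) / x 0 ≤ 1 ∧
    |ξ - (x j1 : ℝ) / x 0| ≤ η / |(x 0 : ℝ)| ∧
    ∀ j : Fin (n + 1), |(x 0 : ℝ) * ((x j1 : ℝ) / x 0) ^ (j : ℕ) - x j| ≤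
      4 ^ n * (η ^ 2 / |(x 0 : ℝ)| + δ) := by
  obtain ⟨y1, y2, y3, y4, y5, y6⟩ := hYc n x
  have hκ0 : 0 ≤ κ := hη0.trans hηκ
  have hξnn : 0 ≤ ξ := hκ0.trans hξ0
  have hξle : ξ ≤ 1 := by linarith
  have habs : |ξ| ≤ 1 := by rw [abs_of_nonneg hξnn]; exact hξle
  have h2n : (1 + |ξ|) ^ n ≤ 2 ^ n := pow_le_pow_left₀ (by positivity) (by linarith) n
  -- x 0 is not 0
  have hx0 : x 0 ≠ 0 := by
    intro h0
    apply hx
    funext j
    have hm : (0 : ℝ) ≤ max η δ := le_max_of_le_left hη0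
    have h := y6 ξ (max η δ) hm (fun i hi => by
      rcases Nat.lt_or_ge (i : ℕ) 2 with h' | h'
      · have : i = j1 := Fin.ext (by omega)
        rw [this]; exact hb1.trans (le_max_left _ _)
      · exact (hb i h').trans (le_max_right _ _)) j
    rw [h0] at h
    simp only [Int.cast_zero, zero_mul, zero_sub, abs_neg] at h
    have h' : |(x j : ℝ)| < 1 := by
      refine h.trans_lt ((mul_le_mul_of_nonneg_right h2n hm).trans_lt ?_)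
      rcases max_cases η δ with ⟨h1, _⟩ | ⟨h1, _⟩ <;> rw [h1] <;> assumption
    have h'' : |x j| < 1 := by exact_mod_cast h'
    exact Int.abs_lt_one_iff.mp h''
  have hq1 : (1 : ℝ) ≤ |(x 0 : ℝ)| := by
    have : 1 ≤ |x 0| := Int.one_le_abs hx0
    exact_mod_cast this
  have hx0R : (x 0 : ℝ) ≠ 0 := by exact_mod_cast hx0
  have hqpos : 0 < |(x 0 : ℝ)| := by linarith
  have hyc1 : yc n x ξ j1 = x j1 - ξ * x 0 := y2 ξ j1 0 hj1 rfl
  set ζ : ℝ := (x j1 : ℝ) / x 0 with hζ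
  have hdist : |ξ - ζ| ≤ η / |(x 0 : ℝ)| := by
    rw [le_div_iff₀ hqpos, ← abs_mul]
    have : (ξ - ζ) * (x 0 : ℝ) = -(x j1 - ξ * x 0) := by
      rw [hζ]; field_simp; ring
    rw [this, abs_neg, ← hyc1]
    exact hb1
  have hdist1 : η / |(x 0 : ℝ)| ≤ η := div_le_self hη0 hq1
  have hd2 : |ξ - ζ| ≤ κ := hdist.trans (hdist1.trans hηκ)
  have hd3 := abs_le.mp hd2
  have hζ0 : 0 ≤ ζ := by linarith [hd3.2]
  have hζ1 : ζ ≤ 1 := by linarith [hd3.1]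
  refine ⟨hq1, hζ0, hζ1, hdist, ?_⟩
  -- coordinates at ζ
  set B : ℝ := η ^ 2 / |(x 0 : ℝ)| + δ with hB
  have hB0 : 0 ≤ B := by positivity
  have hηq : (η / |(x 0 : ℝ)|) ≤ 1 := hdist1.trans hη1
  have hηq0 : 0 ≤ η / |(x 0 : ℝ)| := by positivity
  have hyB : ∀ i : Fin (n + 1), (i : ℕ) ≠ 0 → |yc n x ζ i| ≤ 2 ^ n * B := by
    intro j hj0
    rcases Nat.lt_or_ge (j : ℕ) 2 with h' | h'
    · have hj : j = j1 := Fin.ext (by omega)
      rw [hj, y2 ζ j1 0 hj1 rfl]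
      have : (x j1 : ℝ) - ζ * (x 0 : ℝ) = 0 := by rw [hζ]; field_simp; ring
      rw [this, abs_zero]
      positivity
    · have h3 := y3 ξ (ζ - ξ) j
      have e : ξ + (ζ - ξ) = ζ := by ring
      rw [e] at h3
      rw [h3]
      have hterm : ∀ i : Fin (n + 1), |((j : ℕ).choose (i : ℕ) : ℝ) *
          (-(ζ - ξ)) ^ ((j : ℕ) - (i : ℕ)) * yc n x ξ i| ≤ ((j : ℕ).choose (i : ℕ) : ℝ) * B := by
        intro i
        rw [abs_mul, abs_mul, abs_pow, Nat.abs_cast, mul_assoc]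
        refine mul_le_mul_of_nonneg_left ?_ (by positivity)
        have e2 : |(-(ζ - ξ))| = |ξ - ζ| := by congr 1; ring
        rw [e2]
        have hpow : |ξ - ζ| ^ ((j : ℕ) - (i : ℕ)) ≤ (η / |(x 0 : ℝ)|) ^ ((j : ℕ) - (i : ℕ)) :=
          pow_le_pow_left₀ (abs_nonneg _) hdist _
        rcases Nat.lt_trichotomy (i : ℕ) 1 with hi | hi | hi
        · have hi0 : i = 0 := Fin.ext (by
            have h00 : ((0 : Fin (n + 1)) : ℕ) = 0 := rfl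
            rw [h00]; omega)
          subst hi0
          rw [y1 ξ]
          have h5 : (η / |(x 0 : ℝ)|) ^ ((j : ℕ) - ((0 : Fin (n + 1)) : ℕ)) ≤
              (η / |(x 0 : ℝ)|) ^ 2 := by
            refine pow_le_pow_of_le_one hηq0 hηq ?_
            simp; exact h'
          calc |ξ - ζ| ^ ((j : ℕ) - ((0 : Fin (n + 1)) : ℕ)) * |(x 0 : ℝ)|
              ≤ (η / |(x 0 : ℝ)|) ^ 2 * |(x 0 : ℝ)| :=
                mul_le_mul_of_nonneg_right (hpow.trans h5) hqpos.le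
            _ = η ^ 2 / |(x 0 : ℝ)| := by field_simp
            _ ≤ B := by rw [hB]; linarith
        · have hi1 : i = j1 := Fin.ext (by omega)
          subst hi1
          have h5 : (η / |(x 0 : ℝ)|) ^ ((j : ℕ) - (i : ℕ)) ≤ (η / |(x 0 : ℝ)|) ^ 1 := by
            refine pow_le_pow_of_le_one hηq0 hηq ?_
            omega
          rw [pow_one] at h5
          calc |ξ - ζ| ^ ((j : ℕ) - (i : ℕ)) * |yc n x ξ i|
              ≤ (η / |(x 0 : ℝ)|) * η :=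
                mul_le_mul (hpow.trans h5) hb1 (abs_nonneg _) hηq0
            _ = η ^ 2 / |(x 0 : ℝ)| := by ring
            _ ≤ B := by rw [hB]; linarith
        · have h5 : (η / |(x 0 : ℝ)|) ^ ((j : ℕ) - (i : ℕ)) ≤ 1 := pow_le_one₀ hηq0 hηq
          calc |ξ - ζ| ^ ((j : ℕ) - (i : ℕ)) * |yc n x ξ i|
              ≤ 1 * δ := mul_le_mul (hpow.trans h5) (hb i (by omega)) (abs_nonneg _) zero_le_one
            _ = δ := one_mul _
            _ ≤ B := by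
              rw [hB]
              have : 0 ≤ η ^ 2 / |(x 0 : ℝ)| := by positivity
              linarith
      refine (Finset.abs_sum_le_sum_abs _ _).trans ((Finset.sum_le_sum (fun i _ => hterm i)).trans ?_)
      rw [← Finset.sum_mul]
      refine mul_le_mul_of_nonneg_right ?_ hB0
      -- sum of binomial coefficients
      have h6 : ∑ i : Fin (n + 1), ((j : ℕ).choose (i : ℕ) : ℝ) =
          ∑ i ∈ Finset.range (n + 1), ((j : ℕ).choose i : ℝ) :=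
        Fin.sum_univ_eq_sum_range (fun i => ((j : ℕ).choose i : ℝ)) (n + 1)
      have h7 : ∑ i ∈ Finset.range (n + 1), ((j : ℕ).choose i : ℝ) =
          ∑ i ∈ Finset.range ((j : ℕ) + 1), ((j : ℕ).choose i : ℝ) := by
        symm
        refine Finset.sum_subset ?_ ?_
        · intro i hi
          simp only [Finset.mem_range] at hi ⊢
          have := j.isLt
          omega
        · intro i _ hi
          simp only [Finset.mem_range, not_lt] at hi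
          rw [Nat.choose_eq_zero_of_lt (by omega)]
          simp
      have h8 : ∑ i ∈ Finset.range ((j : ℕ) + 1), ((j : ℕ).choose i : ℝ) = 2 ^ (j : ℕ) := by
        exact_mod_cast Nat.sum_range_choose (j : ℕ)
      rw [h6, h7, h8]
      exact pow_le_pow_right₀ (by norm_num) (by have := j.isLt; omega)
  intro j
  have h := y6 ζ (2 ^ n * B) (by positivity) hyB j
  refine h.trans ?_
  have habsζ : |ζ| ≤ 1 := by rw [abs_of_nonneg hζ0]; exact hζ1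
  have h2nζ : (1 + |ζ|) ^ n ≤ 2 ^ n := pow_le_pow_left₀ (by positivity) (by linarith) n
  calc (1 + |ζ|) ^ n * (2 ^ n * B) ≤ 2 ^ n * (2 ^ n * B) :=
        mul_le_mul_of_nonneg_right h2nζ (by positivity)
    _ = 4 ^ n * B := by
        rw [← mul_assoc, ← mul_pow]; norm_num

/-- the grid of exponents -/
theorem grid (n : ℕ) (hn : 4 ≤ n) (lam ε κ' : ℝ) (h1 : 1 / (n : ℝ) < lam)
    (h2 : lam < 1 / ((n : ℝ) - 1)) (hε0 : 0 < ε) (hε1 : ε < 1) (hκ' : 0 < κ')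
    (hκε : 16 * n * κ' ≤ ε) (hκγ : 16 * n * κ' ≤ 1 - ((n : ℝ) - 1) * lam) :
    ∃ G : Finset ℝ, (∀ μ ∈ G, lam ≤ μ ∧ μ < 1 / ((n : ℝ) - 1)) ∧
      ∀ σ : ℝ, 0 < σ → σ ≤ 1 - ε / 2 → ∃ μ ∈ G, σ * μ ≤ lam - κ' * σ ∧
        σ * (1 - ((n : ℝ) - 1) * μ + κ') - (1 - ((n : ℝ) - 1) * lam) ≤ -κ' := by
  classical
  have hnR : (4 : ℝ) ≤ n := by exact_mod_cast hn
  have hn0 : (0 : ℝ) < n := by linarith
  have hn1 : (0 : ℝ) < (n : ℝ) - 1 := by linarith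
  have hlam0 : 0 < lam := lt_trans (by positivity) h1
  obtain ⟨m, hm⟩ := exists_nat_gt ((1 / ((n : ℝ) - 1) - lam) / κ')
  set h : ℝ := (1 / ((n : ℝ) - 1) - lam) / ((m : ℝ) + 1) with hh
  have hm1 : (0 : ℝ) < (m : ℝ) + 1 := by positivity
  have hhpos : 0 < h := div_pos (by linarith) hm1
  have hhκ : h ≤ κ' := by
    rw [hh, div_le_iff₀ hm1]
    rw [div_lt_iff₀ hκ'] at hm
    nlinarith
  have hmh : ((m : ℝ) + 1) * h = 1 / ((n : ℝ) - 1) - lam := by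
    rw [hh]; field_simp
  refine ⟨(Finset.range (m + 1)).image (fun i : ℕ => lam + (i : ℝ) * h), ?_, ?_⟩
  · intro μ hμ
    obtain ⟨i, hi, rfl⟩ := Finset.mem_image.mp hμ
    rw [Finset.mem_range] at hi
    have hi' : (i : ℝ) < (m : ℝ) + 1 := by exact_mod_cast hi
    constructor
    · have : 0 ≤ (i : ℝ) * h := by positivity
      linarith
    · nlinarith
  · intro σ hσ0 hσ1
    have hnlam : 1 < n * lam := by rw [div_lt_iff₀ hn0] at h1; linarith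
    let P : ℕ → Prop := fun i => σ * (lam + (i : ℝ) * h) ≤ lam - κ' * σ
    have hP0 : P 0 := by
      simp only [P, Nat.cast_zero, zero_mul, add_zero]
      -- lam (1-σ) ≥ lam ε/2 ≥ ε/(2n) ≥ 8 κ'
      have h3 : ε / 2 ≤ 1 - σ := by linarith
      have h4 : κ' * σ ≤ κ' := by nlinarith
      have h5 : 8 * n * κ' ≤ 1 - σ := by linarith
      have h6 : (8 * n * κ') * lam ≤ (1 - σ) * lam := mul_le_mul_of_nonneg_right h5 hlam0.le
      have h7 : κ' ≤ (n * lam) * κ' := by nlinarith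
      nlinarith
    set i := Nat.findGreatest P m with hi
    have hPi : P i := Nat.findGreatest_spec (Nat.zero_le m) hP0
    have him : i ≤ m := Nat.findGreatest_le m
    refine ⟨lam + (i : ℝ) * h, Finset.mem_image_of_mem _ (Finset.mem_range.mpr (by omega)), hPi, ?_⟩
    have hσle : σ ≤ 1 := by linarith
    rcases Nat.lt_or_ge i m with hlt | hge
    · have hnot : ¬ P (i + 1) := Nat.findGreatest_is_greatest (P := P) (n := m)
        (Nat.lt_succ_self _) (by omega)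
      simp only [P, not_le] at hnot
      push_cast at hnot
      -- σ μ > lam - κ' σ - σ h ≥ lam - 2 κ' σ
      have h3 : lam - 2 * (κ' * σ) ≤ σ * (lam + (i : ℝ) * h) := by
        have : σ * h ≤ σ * κ' := mul_le_mul_of_nonneg_left hhκ hσ0.le
        nlinarith
      have h4 : ((n : ℝ) - 1) * (lam - 2 * (κ' * σ)) ≤
          ((n : ℝ) - 1) * (σ * (lam + (i : ℝ) * h)) := mul_le_mul_of_nonneg_left h3 hn1.le
      have h5 : κ' * σ ≤ κ' := by nlinarith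
      have h6 : (2 * (n : ℝ) - 1) * (κ' * σ) ≤ (2 * (n : ℝ) - 1) * κ' :=
        mul_le_mul_of_nonneg_left h5 (by linarith)
      have h7 : (n : ℝ) * κ' * 16 ≤ ε := by linarith
      nlinarith
    · have him' : i = m := by omega
      have h3 : 1 - ((n : ℝ) - 1) * (lam + (i : ℝ) * h) = ((n : ℝ) - 1) * h := by
        rw [him']
        have h4 : lam + (m : ℝ) * h = 1 / ((n : ℝ) - 1) - h := by linarith
        rw [h4]; field_simp; ring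
      rw [h3]
      have h5 : ((n : ℝ) - 1) * h ≤ ((n : ℝ) - 1) * κ' := mul_le_mul_of_nonneg_left hhκ hn1.le
      have h6 : σ * (((n : ℝ) - 1) * h + κ') ≤ 1 * (((n : ℝ) - 1) * h + κ') :=
        mul_le_mul_of_nonneg_right hσle (by positivity)
      have h7 : 0 < (n : ℝ) * κ' := by positivity
      nlinarith

theorem pos_lb (G : Finset ℝ) (f : ℝ → ℝ) (hf : ∀ μ ∈ G, 0 < f μ) :
    ∃ c : ℝ, 0 < c ∧ ∀ μ ∈ G, c ≤ f μ := by
  rcases G.eq_empty_or_nonempty with h | h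
  · exact ⟨1, one_pos, by simp [h]⟩
  · obtain ⟨a, ha, hmin⟩ := Finset.exists_min_image G f h
    exact ⟨f a, hf a ha, hmin⟩

theorem evSmall (a C t : ℝ) (ha : 0 < a) (ht : 0 < t) :
    ∀ᶠ Q : ℝ in Filter.atTop, C * Q ^ (-a) < t := by
  have h := (tendsto_rpow_neg_atTop ha).const_mul C
  rw [mul_zero] at h
  exact h.eventually (gt_mem_nhds ht)

theorem evBig (a C : ℝ) (ha : 0 < a) : ∀ᶠ Q : ℝ in Filter.atTop, C ≤ Q ^ a :=
  (tendsto_rpow_atTop ha).eventually_ge_atTop C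

/-- the set of one large scale -/
def Lg (n : ℕ) (j1 : Fin (n + 1)) (η δ Y : ℝ) : Set ℝ :=
  {ξ : ℝ | ∃ x : Fin (n + 1) → ℤ, Y / 2 ≤ |(x 0 : ℝ)| ∧ |(x 0 : ℝ)| ≤ Y ∧
    0 ≤ (x j1 : ℝ) / x 0 ∧ (x j1 : ℝ) / x 0 ≤ 1 ∧ |ξ - (x j1 : ℝ) / x 0| ≤ η / |(x 0 : ℝ)| ∧
    ∀ j : Fin (n + 1), |(x 0 : ℝ) * ((x j1 : ℝ) / x 0) ^ (j : ℕ) - x j| ≤
      4 ^ n * (η ^ 2 / |(x 0 : ℝ)| + δ)}

/-- one large scale -/
theorem perScale (n : ℕ) (hn : 4 ≤ n) (lam ε κ' c γ : ℝ) (j1 : Fin (n + 1)) (G : Finset ℝ)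
    (e Y₀ : ℝ → ℝ) (hlam0 : 0 < lam) (hγ0 : 0 < γ) (hκ'0 : 0 < κ')
    (hG : ∀ μ ∈ G, lam ≤ μ ∧ μ < 1 / ((n : ℝ) - 1))
    (hGσ : ∀ σ : ℝ, 0 < σ → σ ≤ 1 - ε / 2 → ∃ μ ∈ G, σ * μ ≤ lam - κ' * σ ∧
      σ * (1 - ((n : ℝ) - 1) * μ + κ') - γ ≤ -κ')
    (he : ∀ μ ∈ G, 0 < e μ ∧ 1 ≤ Y₀ μ ∧ ∀ Y η : ℝ, Y₀ μ ≤ Y → 0 ≤ η → η ≤ 1 →
      volume {ξ : ℝ | ∃ x : Fin (n + 1) → ℤ, 0 ≤ (x j1 : ℝ) / (x 0 : ℝ) ∧
        (x j1 : ℝ) / (x 0 : ℝ) ≤ 1 ∧
        |ξ - (x j1 : ℝ) / (x 0 : ℝ)| ≤ 2 * η / Y ∧ Nr n Y μ ((x j1 : ℝ) / (x 0 : ℝ)) x} ≤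
      ENNReal.ofReal (10 * Y ^ (-(e μ)) + 4 * η * Y ^ (1 - ((n : ℝ) - 1) * μ + κ')))
    (hc : c ≤ κ') (hcG : ∀ μ ∈ G, c ≤ γ / 4 * e μ)
    (Q : ℝ) (hQ1 : 1 < Q) (hQ2 : 4 ^ n * 4 * Q ^ (-γ) < 1) (hQ3 : 2 * 4 ^ n ≤ Q ^ (γ / 4 * κ'))
    (hQ4 : ∀ μ ∈ G, Y₀ μ ≤ Q ^ (γ / 4))
    (Y : ℝ) (hY1 : Q ^ (γ / 4) ≤ Y) (hY2 : Y ≤ Q ^ (1 - ε / 2)) :
    volume (Lg n j1 (Q ^ (-γ)) (Q ^ (-lam)) Y) ≤ ENNReal.ofReal (14 * Q ^ (-c)) := by
  have hnR : (4 : ℝ) ≤ n := by exact_mod_cast hn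
  have hQ0 : 0 < Q := by linarith
  have hlogQ : 0 < Real.log Q := Real.log_pos hQ1
  have hQg : 1 < Q ^ (γ / 4) := Real.one_lt_rpow hQ1 (by positivity)
  have hYgt : 1 < Y := hQg.trans_le hY1
  have hY0 : 0 < Y := by linarith
  have hlogY : 0 < Real.log Y := Real.log_pos hYgt
  set σ : ℝ := Real.log Y / Real.log Q with hσ
  have hσ0 : 0 < σ := div_pos hlogY hlogQ
  have hQσ : Q ^ σ = Y := by
    rw [Real.rpow_def_of_pos hQ0, hσ, mul_div_cancel₀ _ hlogQ.ne', Real.exp_log hY0]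
  have hσ1 : σ ≤ 1 - ε / 2 := by
    rw [hσ, div_le_iff₀ hlogQ]
    have := Real.log_le_log hY0 hY2
    rwa [Real.log_rpow hQ0] at this
  obtain ⟨μ, hμ, hA, hB⟩ := hGσ σ hσ0 hσ1
  obtain ⟨he0, hY₀1, hvol⟩ := he μ hμ
  obtain ⟨hμ1, hμ2⟩ := hG μ hμ
  have hμ0 : 0 < μ := hlam0.trans_le hμ1
  have hμle : μ ≤ 1 := by
    refine hμ2.le.trans ?_
    rw [div_le_one (by linarith)]; linarith
  have hη0 : 0 < Q ^ (-γ) := Real.rpow_pos_of_pos hQ0 _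
  have h4n : (1 : ℝ) ≤ 4 ^ n := one_le_pow₀ (by norm_num)
  have hη1 : Q ^ (-γ) ≤ 1 := by nlinarith
  have hδ0 : 0 < Q ^ (-lam) := Real.rpow_pos_of_pos hQ0 _
  -- the exponent A
  have hYμ0 : 0 < Y ^ (-μ) := Real.rpow_pos_of_pos hY0 _
  have hA1 : Q ^ (-lam) * Y ^ κ' ≤ Y ^ (-μ) := by
    rw [← hQσ, ← Real.rpow_mul hQ0.le, ← Real.rpow_mul hQ0.le, ← Real.rpow_add hQ0]
    exact Real.rpow_le_rpow_of_exponent_le hQ1.le (by nlinarith)
  have hA2 : 2 * 4 ^ n ≤ Y ^ κ' := by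
    refine hQ3.trans ?_
    rw [Real.rpow_mul hQ0.le]
    exact Real.rpow_le_rpow (by positivity) hY1 hκ'0.le
  have hA3 : 2 * (4 ^ n * Q ^ (-lam)) ≤ Y ^ (-μ) := by
    calc 2 * (4 ^ n * Q ^ (-lam)) = Q ^ (-lam) * (2 * 4 ^ n) := by ring
      _ ≤ Q ^ (-lam) * Y ^ κ' := mul_le_mul_of_nonneg_left hA2 hδ0.le
      _ ≤ _ := hA1
  have hA4 : Y⁻¹ ≤ Y ^ (-μ) := by
    rw [← Real.rpow_neg_one]
    exact Real.rpow_le_rpow_of_exponent_le hYgt.le (by linarith)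
  have hA5 : Y ^ (-μ) ≤ (Y / 2) ^ (-μ) :=
    Real.rpow_le_rpow_of_nonpos (by positivity) (by linarith) (by linarith)
  have hsub : Lg n j1 (Q ^ (-γ)) (Q ^ (-lam)) Y ⊆
      {ξ : ℝ | ∃ x : Fin (n + 1) → ℤ, 0 ≤ (x j1 : ℝ) / (x 0 : ℝ) ∧
        (x j1 : ℝ) / (x 0 : ℝ) ≤ 1 ∧
        |ξ - (x j1 : ℝ) / (x 0 : ℝ)| ≤ 2 * Q ^ (-γ) / Y ∧
        Nr n Y μ ((x j1 : ℝ) / (x 0 : ℝ)) x} := by
    rintro ξ ⟨x, hx1, hx2, hx3, hx4, hx5, hx6⟩
    have hq0 : 0 < |(x 0 : ℝ)| := by linarith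
    have hinv : 1 / |(x 0 : ℝ)| ≤ 2 / Y := by
      rw [div_le_div_iff₀ hq0 hY0]; linarith
    refine ⟨x, hx3, hx4, ?_, hx1, hx2, ?_⟩
    · refine hx5.trans ?_
      calc Q ^ (-γ) / |(x 0 : ℝ)| = Q ^ (-γ) * (1 / |(x 0 : ℝ)|) := by ring
        _ ≤ Q ^ (-γ) * (2 / Y) := mul_le_mul_of_nonneg_left hinv hη0.le
        _ = _ := by ring
    · intro j
      refine (hx6 j).trans (le_trans ?_ hA5)
      have h5 : 4 ^ n * ((Q ^ (-γ)) ^ 2 / |(x 0 : ℝ)|) ≤ Y ^ (-μ) / 2 := by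
        calc 4 ^ n * ((Q ^ (-γ)) ^ 2 / |(x 0 : ℝ)|)
            = (4 ^ n * (Q ^ (-γ)) ^ 2) * (1 / |(x 0 : ℝ)|) := by ring
          _ ≤ (4 ^ n * (Q ^ (-γ)) ^ 2) * (2 / Y) := mul_le_mul_of_nonneg_left hinv (by positivity)
          _ ≤ (4 ^ n * (Q ^ (-γ) * 1)) * (2 / Y) := by
              refine mul_le_mul_of_nonneg_right ?_ (by positivity)
              refine mul_le_mul_of_nonneg_left ?_ (by positivity)
              rw [sq]
              exact mul_le_mul_of_nonneg_left hη1 hη0.le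
          _ = (4 ^ n * 4 * Q ^ (-γ)) * (Y⁻¹ / 2) := by
              rw [div_eq_mul_inv]; ring
          _ ≤ 1 * (Y⁻¹ / 2) := mul_le_mul_of_nonneg_right hQ2.le (by positivity)
          _ ≤ Y ^ (-μ) / 2 := by linarith
      rw [mul_add]
      linarith
  refine (measure_mono hsub).trans ((hvol Y (Q ^ (-γ)) ((hQ4 μ hμ).trans hY1) hη0.le hη1).trans ?_)
  refine ENNReal.ofReal_le_ofReal ?_
  have hb1 : Y ^ (-(e μ)) ≤ Q ^ (-c) := by
    calc Y ^ (-(e μ)) ≤ (Q ^ (γ / 4)) ^ (-(e μ)) :=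
          Real.rpow_le_rpow_of_nonpos (by positivity) hY1 (by linarith)
      _ = Q ^ (γ / 4 * (-(e μ))) := by rw [Real.rpow_mul hQ0.le]
      _ ≤ Q ^ (-c) := Real.rpow_le_rpow_of_exponent_le hQ1.le (by have := hcG μ hμ; linarith)
  have hb2 : Q ^ (-γ) * Y ^ (1 - ((n : ℝ) - 1) * μ + κ') ≤ Q ^ (-c) := by
    rw [← hQσ, ← Real.rpow_mul hQ0.le, ← Real.rpow_add hQ0]
    exact Real.rpow_le_rpow_of_exponent_le hQ1.le (by linarith)
  calc 10 * Y ^ (-(e μ)) + 4 * Q ^ (-γ) * Y ^ (1 - ((n : ℝ) - 1) * μ + κ')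
      = 10 * Y ^ (-(e μ)) + 4 * (Q ^ (-γ) * Y ^ (1 - ((n : ℝ) - 1) * μ + κ')) := by ring
    _ ≤ 10 * Q ^ (-c) + 4 * Q ^ (-c) := by linarith
    _ = _ := by ring

/-- the small scales -/
theorem small (Z η : ℝ) (hZ : 1 ≤ Z) (hη : 0 ≤ η) :
    volume {ξ : ℝ | ∃ a b : ℤ, |(a : ℝ)| ≤ Z ∧ |(b : ℝ)| ≤ Z ∧ |ξ - (b : ℝ) / a| ≤ η} ≤
      ENNReal.ofReal (18 * (Z ^ 2 * η)) := by
  classical
  set N : ℤ := ⌊Z⌋ with hN
  have hN1 : 1 ≤ N := Int.le_floor.mpr (by simpa using hZ)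
  have hNZ : (N : ℝ) ≤ Z := Int.floor_le Z
  set I : Finset ℤ := Finset.Icc (-N) N with hI
  set T : Finset (ℝ × ℝ) := (I ×ˢ I).image (fun p => ((p.2 : ℝ) / p.1, η)) with hT
  have hmem : ∀ a : ℤ, |(a : ℝ)| ≤ Z → a ∈ I := by
    intro a ha
    have h1 : |a| ≤ N := Int.le_floor.mpr (by push_cast; exact ha)
    rw [hI, Finset.mem_Icc]
    exact abs_le.mp h1
  have hsub : {ξ : ℝ | ∃ a b : ℤ, |(a : ℝ)| ≤ Z ∧ |(b : ℝ)| ≤ Z ∧ |ξ - (b : ℝ) / a| ≤ η} ⊆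
      {ξ : ℝ | ∃ p ∈ T, |ξ - p.1| ≤ p.2} := by
    rintro ξ ⟨a, b, ha, hb, hab⟩
    refine ⟨((b : ℝ) / a, η), ?_, hab⟩
    rw [hT, Finset.mem_image]
    exact ⟨(a, b), Finset.mem_product.mpr ⟨hmem a ha, hmem b hb⟩, rfl⟩
  refine (measure_mono hsub).trans ((vol_balls T ?_).trans (ENNReal.ofReal_le_ofReal ?_))
  · intro p hp
    rw [hT, Finset.mem_image] at hp
    obtain ⟨q, _, rfl⟩ := hp
    exact hη
  · have h5 : ∑ p ∈ T, 2 * p.2 ≤ ∑ _x ∈ I ×ˢ I, 2 * η := by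
      rw [hT]
      refine Finset.sum_image_le_of_nonneg (f := fun p : ℝ × ℝ => 2 * p.2)
        (g := fun p : ℤ × ℤ => ((p.2 : ℝ) / p.1, η)) (fun p hp => ?_)
      obtain ⟨q, _, rfl⟩ := Finset.mem_image.mp hp
      simp only
      positivity
    refine h5.trans ?_
    rw [Finset.sum_const, nsmul_eq_mul, Finset.card_product]
    have hcard : (I.card : ℝ) ≤ 3 * Z := by
      rw [hI, Int.card_Icc]
      have h6 : ((N + 1 - -N).toNat : ℝ) = ((N + 1 - -N : ℤ) : ℝ) := by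
        rw [← Int.cast_natCast, Int.toNat_of_nonneg (by omega)]
      rw [h6]; push_cast; linarith
    push_cast
    have h7 : (I.card : ℝ) * I.card ≤ (3 * Z) * (3 * Z) :=
      mul_le_mul hcard hcard (by positivity) (by positivity)
    calc (I.card : ℝ) * I.card * (2 * η) ≤ (3 * Z) * (3 * Z) * (2 * η) :=
          mul_le_mul_of_nonneg_right h7 (by positivity)
      _ = _ := by ring

/-- the total -/
theorem total (h2 : S_Yc) (n : ℕ) (lam ε κ c γ : ℝ) (j1 : Fin (n + 1))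
    (hj1 : (j1 : ℕ) = 1) (hγ0 : 0 < γ) (hγ : γ = 1 - ((n : ℝ) - 1) * lam)
    (hε0 : 0 < ε) (Q : ℝ) (hQ1 : 1 < Q) (hQκ : Q ^ (-γ) < κ) (hQ5 : 2 ^ n * Q ^ (-γ) < 1)
    (hQ6 : 2 ^ n * Q ^ (-lam) < 1) (hQ7 : 2 ≤ Q ^ (ε / 2))
    (hper : ∀ Y : ℝ, Q ^ (γ / 4) ≤ Y → Y ≤ Q ^ (1 - ε / 2) →
      volume (Lg n j1 (Q ^ (-γ)) (Q ^ (-lam)) Y) ≤ ENNReal.ofReal (14 * Q ^ (-c))) :
    volume {ξ : ℝ | κ ≤ ξ ∧ ξ ≤ 1 - κ ∧ ∃ x : Fin (n + 1) → ℤ, x ≠ 0 ∧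
      |(x 0 : ℝ)| ≤ Q ^ (1 - ε) ∧ BoxN n x ξ Q lam} ≤
    ENNReal.ofReal (18 * Q ^ (-(γ / 2)) + (Real.log Q / Real.log 2 + 1) * (14 * Q ^ (-c))) := by
  classical
  have hQ0 : 0 < Q := by linarith
  have hη0 : 0 < Q ^ (-γ) := Real.rpow_pos_of_pos hQ0 _
  have hδ0 : 0 < Q ^ (-lam) := Real.rpow_pos_of_pos hQ0 _
  have hlog2 : 0 < Real.log 2 := Real.log_pos (by norm_num)
  have hlogQ : 0 < Real.log Q := Real.log_pos hQ1
  have h2n : (1 : ℝ) ≤ 2 ^ n := one_le_pow₀ (by norm_num)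
  have hη1 : Q ^ (-γ) ≤ 1 := by nlinarith
  set N : ℕ := ⌊Real.log Q / Real.log 2⌋₊ + 1 with hN
  have hNle : (N : ℝ) ≤ Real.log Q / Real.log 2 + 1 := by
    rw [hN]; push_cast
    have := Nat.floor_le (div_nonneg hlogQ.le hlog2.le)
    linarith
  set Sm : Set ℝ := {ξ : ℝ | ∃ a b : ℤ, |(a : ℝ)| ≤ Q ^ (γ / 4) ∧ |(b : ℝ)| ≤ Q ^ (γ / 4) ∧
    |ξ - (b : ℝ) / a| ≤ Q ^ (-γ)} with hSm
  set W : ℕ → Set ℝ := fun k =>
    if Q ^ (γ / 4) ≤ 2 ^ (k + 1) ∧ (2 : ℝ) ^ (k + 1) ≤ Q ^ (1 - ε / 2) then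
      Lg n j1 (Q ^ (-γ)) (Q ^ (-lam)) (2 ^ (k + 1)) else ∅ with hW
  have hWvol : ∀ k, volume (W k) ≤ ENNReal.ofReal (14 * Q ^ (-c)) := by
    intro k
    simp only [hW]
    split_ifs with hk
    · exact hper _ hk.1 hk.2
    · simp
  have hsub : {ξ : ℝ | κ ≤ ξ ∧ ξ ≤ 1 - κ ∧ ∃ x : Fin (n + 1) → ℤ, x ≠ 0 ∧
      |(x 0 : ℝ)| ≤ Q ^ (1 - ε) ∧ BoxN n x ξ Q lam} ⊆ Sm ∪ ⋃ k ∈ Finset.range N, W k := by
    rintro ξ ⟨hξ0, hξ1, x, hx, hxQ, hbox⟩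
    have hb1 : |yc n x ξ j1| ≤ Q ^ (-γ) := by
      have := hbox j1 (by omega)
      rw [if_pos hj1] at this
      have e : ((n : ℝ) - 1) * lam - 1 = -γ := by rw [hγ]; ring
      rwa [e] at this
    have hb : ∀ j : Fin (n + 1), 2 ≤ (j : ℕ) → |yc n x ξ j| ≤ Q ^ (-lam) := by
      intro j hj
      have := hbox j (by omega)
      rwa [if_neg (by omega)] at this
    obtain ⟨hq1, hz0, hz1, hdist, herr⟩ := core h2 n κ ξ (Q ^ (-γ)) (Q ^ (-lam)) j1 hj1 x hx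
      hη0.le hη1 hδ0.le hQκ.le hQ5 hQ6 hξ0 hξ1 hb1 hb
    have hq0 : 0 < |(x 0 : ℝ)| := by linarith
    obtain ⟨k, hk1, hk2⟩ := exists_nat_pow_near hq1 (by norm_num : (1 : ℝ) < 2)
    rcases lt_or_ge ((2 : ℝ) ^ (k + 1)) (Q ^ (γ / 4)) with hlt | hge
    · left
      refine ⟨x 0, x j1, by linarith, ?_, hdist.trans (div_le_self hη0.le hq1)⟩
      have h5 : |(x j1 : ℝ)| ≤ |(x 0 : ℝ)| := by
        have h6 : |(x j1 : ℝ) / x 0| ≤ 1 := by rw [abs_of_nonneg hz0]; exact hz1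
        rw [abs_div, div_le_one hq0] at h6
        exact h6
      linarith
    · right
      simp only [Set.mem_iUnion]
      refine ⟨k, ?_, ?_⟩
      · -- k < N
        rw [Finset.mem_range, hN, Nat.lt_succ_iff]
        refine Nat.le_floor ?_
        rw [le_div_iff₀ hlog2, ← Real.log_pow]
        refine Real.log_le_log (by positivity) (hk1.trans (hxQ.trans ?_))
        calc Q ^ (1 - ε) ≤ Q ^ (1 : ℝ) := Real.rpow_le_rpow_of_exponent_le hQ1.le (by linarith)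
          _ = Q := Real.rpow_one Q
      · have hYle : (2 : ℝ) ^ (k + 1) ≤ Q ^ (1 - ε / 2) := by
          calc (2 : ℝ) ^ (k + 1) = 2 ^ k * 2 := pow_succ _ _
            _ ≤ Q ^ (1 - ε) * Q ^ (ε / 2) :=
              mul_le_mul (hk1.trans hxQ) hQ7 (by norm_num) (by positivity)
            _ = Q ^ (1 - ε / 2) := by rw [← Real.rpow_add hQ0]; congr 1; ring
        simp only [hW]
        rw [if_pos ⟨hge, hYle⟩]
        refine ⟨x, ?_, hk2.le, hz0, hz1, hdist, herr⟩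
        calc (2 : ℝ) ^ (k + 1) / 2 = 2 ^ k := by rw [pow_succ]; ring
          _ ≤ _ := hk1
  refine (measure_mono hsub).trans ((measure_union_le _ _).trans ?_)
  have hlogN : 0 ≤ Real.log Q / Real.log 2 + 1 := by positivity
  rw [ENNReal.ofReal_add (by positivity) (by positivity)]
  refine add_le_add ?_ ?_
  · refine (small (Q ^ (γ / 4)) (Q ^ (-γ)) (Real.one_le_rpow hQ1.le (by positivity)) hη0.le).trans
      (ENNReal.ofReal_le_ofReal (le_of_eq ?_))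
    congr 1
    rw [← Real.rpow_natCast, ← Real.rpow_mul hQ0.le, ← Real.rpow_add hQ0]
    congr 1
    push_cast
    ring
  · refine (measure_biUnion_finset_le _ _).trans ?_
    refine (Finset.sum_le_sum (fun k _ => hWvol k)).trans ?_
    rw [Finset.sum_const, Finset.card_range, nsmul_eq_mul,
      ← ENNReal.ofReal_natCast N, ← ENNReal.ofReal_mul (by positivity)]
    exact ENNReal.ofReal_le_ofReal (mul_le_mul_of_nonneg_right hNle (by positivity))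

end BadM

theorem vBadM (h1 : S_Cnt) (h2 : S_Yc) : S_BadM := by
  classical
  intro n lam ε κ τ hn hl1 hl2 hε0 hε1 hκ hτ
  have hnR : (4 : ℝ) ≤ n := by exact_mod_cast hn
  have hn0 : (0 : ℝ) < n := by linarith
  have hn1 : (0 : ℝ) < (n : ℝ) - 1 := by linarith
  have hlam0 : 0 < lam := lt_trans (by positivity) hl1
  set γ : ℝ := 1 - ((n : ℝ) - 1) * lam with hγ
  have hγ0 : 0 < γ := by
    have h := hl2
    rw [lt_div_iff₀ hn1] at h; linarith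
  have hmin : 0 < min ε γ := lt_min hε0 hγ0
  set κ' : ℝ := min ε γ / (16 * n) with hκ'
  have hκ'0 : 0 < κ' := by positivity
  have hκ'e : 16 * n * κ' = min ε γ := by rw [hκ']; field_simp
  have hκε : 16 * n * κ' ≤ ε := hκ'e.le.trans (min_le_left _ _)
  have hκγ : 16 * n * κ' ≤ γ := hκ'e.le.trans (min_le_right _ _)
  obtain ⟨G, hG, hGσ⟩ := BadM.grid n hn lam ε κ' hl1 hl2 hε0 hε1 hκ'0 hκε hκγ
  let j1 : Fin (n + 1) := ⟨1, by omega⟩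
  have hj1 : (j1 : ℕ) = 1 := rfl
  have hex : ∀ μ : ℝ, ∃ e Y₀ : ℝ, μ ∈ G → (0 < e ∧ 1 ≤ Y₀ ∧ ∀ Y η : ℝ, Y₀ ≤ Y → 0 ≤ η → η ≤ 1 →
      volume {ξ : ℝ | ∃ x : Fin (n + 1) → ℤ, 0 ≤ (x j1 : ℝ) / (x 0 : ℝ) ∧
        (x j1 : ℝ) / (x 0 : ℝ) ≤ 1 ∧
        |ξ - (x j1 : ℝ) / (x 0 : ℝ)| ≤ 2 * η / Y ∧ Nr n Y μ ((x j1 : ℝ) / (x 0 : ℝ)) x} ≤
      ENNReal.ofReal (10 * Y ^ (-e) + 4 * η * Y ^ (1 - ((n : ℝ) - 1) * μ + κ'))) := by
    intro μ
    by_cases hμ : μ ∈ G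
    · obtain ⟨e, Y₀, h⟩ := BadM.oneScale h1 n μ κ' hn (hl1.trans_le (hG μ hμ).1) (hG μ hμ).2
        hκ'0 j1
      exact ⟨e, Y₀, fun _ => h⟩
    · exact ⟨0, 0, fun h => absurd h hμ⟩
  choose e Y₀ he using hex
  obtain ⟨c₀, hc₀, hc₀G⟩ := BadM.pos_lb G (fun μ => γ / 4 * e μ)
    (fun μ hμ => mul_pos (by positivity) (he μ hμ).1)
  set c : ℝ := min c₀ κ' with hc
  have hc0 : 0 < c := lt_min hc₀ hκ'0
  -- the total is small
  have hlog2 : (1 : ℝ) / 2 ≤ Real.log 2 := by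
    have := Real.log_two_gt_d9; linarith
  have E9 : ∀ᶠ Q : ℝ in Filter.atTop,
      18 * Q ^ (-(γ / 2)) + (Real.log Q / Real.log 2 + 1) * (14 * Q ^ (-c)) ≤ τ := by
    filter_upwards [BadM.evSmall (γ / 2) 18 (τ / 2) (by positivity) (by positivity),
      BadM.evSmall (c / 2) ((4 / c + 1) * 14) (τ / 2) (by positivity) (by positivity),
      Filter.eventually_gt_atTop 1] with Q h3 h4 hQ1
    have hQ0 : 0 < Q := by linarith
    have hlogQ : 0 < Real.log Q := Real.log_pos hQ1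
    have h5 : Real.log Q ≤ Q ^ (c / 2) / (c / 2) := Real.log_le_rpow_div hQ0.le (by positivity)
    have h6 : Real.log Q / Real.log 2 ≤ 2 * Real.log Q := by
      rw [div_le_iff₀ (by linarith)]; nlinarith
    have h7 : 1 ≤ Q ^ (c / 2) := Real.one_le_rpow hQ1.le (by positivity)
    have h8 : Real.log Q / Real.log 2 + 1 ≤ (4 / c + 1) * Q ^ (c / 2) := by
      calc Real.log Q / Real.log 2 + 1 ≤ 2 * (Q ^ (c / 2) / (c / 2)) + Q ^ (c / 2) := by linarith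
        _ = (4 / c + 1) * Q ^ (c / 2) := by field_simp; ring
    have h9 : (Real.log Q / Real.log 2 + 1) * (14 * Q ^ (-c)) ≤
        (4 / c + 1) * 14 * Q ^ (-(c / 2)) := by
      calc (Real.log Q / Real.log 2 + 1) * (14 * Q ^ (-c))
          ≤ ((4 / c + 1) * Q ^ (c / 2)) * (14 * Q ^ (-c)) :=
            mul_le_mul_of_nonneg_right h8 (by positivity)
        _ = (4 / c + 1) * 14 * (Q ^ (c / 2) * Q ^ (-c)) := by ring
        _ = (4 / c + 1) * 14 * Q ^ (-(c / 2)) := by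
            rw [← Real.rpow_add hQ0]; congr 2; ring
    linarith
  have E7 : ∀ᶠ Q : ℝ in Filter.atTop, ∀ μ ∈ G, Y₀ μ ≤ Q ^ (γ / 4) := by
    rw [Filter.eventually_all_finset]
    intro μ _
    exact BadM.evBig (γ / 4) (Y₀ μ) (by positivity)
  have E := (Filter.eventually_gt_atTop (1 : ℝ)).and
    ((BadM.evSmall γ 1 κ hγ0 hκ).and
    ((BadM.evSmall γ (2 ^ n) 1 hγ0 one_pos).and
    ((BadM.evSmall lam (2 ^ n) 1 hlam0 one_pos).and
    ((BadM.evBig (ε / 2) 2 (by positivity)).and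
    ((BadM.evSmall γ (4 ^ n * 4) 1 hγ0 one_pos).and
    ((BadM.evBig (γ / 4 * κ') (2 * 4 ^ n) (by positivity)).and (E7.and E9)))))))
  obtain ⟨Q₀, hQ₀⟩ := Filter.eventually_atTop.mp E
  refine ⟨Q₀, fun Q hQ => ?_⟩
  obtain ⟨e1, e2, e3, e4, e5, e6, e7, e8, e9⟩ := hQ₀ Q hQ
  refine (BadM.total h2 n lam ε κ c γ j1 hj1 hγ0 hγ hε0 Q e1 (by linarith) e3 e4 e5
    (fun Y hY1 hY2 => ?_)).trans (ENNReal.ofReal_le_ofReal e9)
  exact BadM.perScale n hn lam ε κ' c γ j1 G e Y₀ hlam0 hγ0 hκ'0 hG hGσ he (min_le_right _ _)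
    (fun μ hμ => (min_le_left _ _).trans (hc₀G μ hμ)) Q e1 e6 e7 e8 Y hY1 hY2

end Pool.Agent.MP211V
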