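import Pool.Agent.Lib.MP_211f72_nt.V.Spec

/-!
# MP_211f72_nt, second theorem: classes whose intervals are expensive
-/

namespace Pool.Agent.MP211V

namespace Cheap

theorem log_one_add_le (L a : ℝ) (hL : 0 ≤ L) (ha : 0 < a) :
    Real.log (1 + L) ≤ a * L + a + |Real.log a| := by
  have h0 : 0 < 1 + L := by linarith
  have h1 : Real.log (a * (1 + L)) ≤ a * (1 + L) - 1 := Real.log_le_sub_one_of_pos (by positivity)
  rw [Real.log_mul ha.ne' h0.ne'] at h1
  have h2 := neg_abs_le (Real.log a)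
  linarith

end Cheap

open Cheap in
theorem vCheap (h1 : S_Count) (h2 : S_Quad) : S_Cheap := by
  classical
  have h1' : ∀ d : ℕ, ∃ C : ℝ, 1 ≤ C ∧ (1 ≤ d → ∀ (h ω t : ℝ) (S : Finset (ℝ × ℝ)),
      1 ≤ h → 0 < ω → 0 < t → t ≤ 1 →
      (∀ p ∈ S, Cls d h (h * ω) t p.1 p.2) →
      (S.card : ℝ) ≤ C * h ^ (d + 1) ∧
      (2 ≤ d → ∀ β : ℝ, 0 < β → β ≤ 1 →
        (C * h ^ (2 * d) * (ω ^ 3 / t ^ 2) ^ β < 1 ∨
          (ω ≤ t ^ (1 + β) ∧ C * h ^ (2 * d) * ω ^ (2 * β) < 1) ∨
          (t ^ (1 + β) ≤ ω ∧ C * h ^ (2 * d) * (t ^ β * (ω / t) ^ 3) < 1)) →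
        (S.card : ℝ) ≤ C * t ^ (-β))) := by
    intro d
    by_cases hd : 1 ≤ d
    · obtain ⟨C, hC, H⟩ := h1 d hd
      exact ⟨C, hC, fun _ => H⟩
    · exact ⟨1, le_rfl, fun h => absurd h hd⟩
  choose Cf hCf hcount using h1'
  obtain ⟨Cq, hCq, hquad⟩ := h2
  intro n s s' ε₁ ε₂ hs hss hs1 hε₁ hε₂
  have hss' : 0 < s' - s := sub_pos.mpr hss
  obtain ⟨κ, hκd, hκ0⟩ : ∃ κ : ℝ, (∀ d ≤ n, Real.log (Cf d) ≤ κ) ∧ 0 ≤ κ :=
    ⟨∑ d ∈ Finset.range (n + 1), Real.log (Cf d),
      fun d hd => Finset.single_le_sum (f := fun d => Real.log (Cf d))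
        (fun i _ => Real.log_nonneg (hCf i)) (Finset.mem_range.mpr (by omega)),
      Finset.sum_nonneg fun i _ => Real.log_nonneg (hCf i)⟩
  obtain ⟨E, hE⟩ : ∃ E : ℝ, E = Real.exp (2 * κ / ((s' - s) * ε₁)) := ⟨_, rfl⟩
  have hE0 : 0 < E := hE ▸ Real.exp_pos _
  obtain ⟨q, hq⟩ : ∃ q : ℝ, q = Real.log (2 * Cq) + ε₂ / 2 + |Real.log (ε₂ / 2)| := ⟨_, rfl⟩
  have hlogCq : 0 ≤ Real.log (2 * Cq) := Real.log_nonneg (by linarith)
  have hq0 : 0 ≤ q := by
    rw [hq]
    have := abs_nonneg (Real.log (ε₂ / 2))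
    linarith
  obtain ⟨c, hc⟩ : ∃ c : ℝ, c = min (ε₂ / 2) ((s' - s) * ε₁ / 2) := ⟨_, rfl⟩
  have hc1 : c ≤ ε₂ / 2 := hc ▸ min_le_left _ _
  have hc2 : c ≤ (s' - s) * ε₁ / 2 := hc ▸ min_le_right _ _
  have hc0 : 0 < c := by
    rw [hc]
    exact lt_min (by linarith) (by positivity)
  refine ⟨c, 1 + κ + E + q, hc0, by linarith, ?_⟩
  intro Y d h ω t S hY hd1 hdn hh hhY hω ht htY hcls hbig
  have hY1 : 1 ≤ Y := by linarith
  have hY0 : 0 < Y := by linarith
  have hh0 : 0 < h := by linarith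
  obtain ⟨L, hL⟩ : ∃ L : ℝ, L = Real.log Y := ⟨_, rfl⟩
  have hL0 : 0 ≤ L := hL ▸ Real.log_nonneg hY1
  obtain ⟨U, hU⟩ : ∃ U : ℝ, U = Real.log h := ⟨_, rfl⟩
  have hU0 : 0 ≤ U := hU ▸ Real.log_nonneg hh
  have hUL : U ≤ L := by
    rw [hU, hL]
    exact Real.log_le_log hh0 hhY
  have ht1 : t ≤ 1 := htY.trans (Real.rpow_le_one_of_one_le_of_nonpos hY1 (by linarith))
  obtain ⟨p, hp⟩ : ∃ p : ℝ, p = -Real.log t := ⟨_, rfl⟩
  obtain ⟨w, hw⟩ : ∃ w : ℝ, w = -Real.log ω := ⟨_, rfl⟩
  have hpL : ε₁ * L ≤ p := by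
    have := Real.log_le_log ht htY
    rw [Real.log_rpow hY0] at this
    rw [hp, hL]
    linarith
  have hp0 : 0 ≤ p := le_trans (by positivity) hpL
  -- the large `L`
  have hLbig : 2 * κ ≤ (s' - s) * ε₁ * L := by
    have h3 : 2 * κ / ((s' - s) * ε₁) ≤ L := by
      rw [hL, Real.le_log_iff_exp_le hY0, ← hE]
      linarith
    rw [div_le_iff₀ (by positivity)] at h3
    linarith
  -- (*)
  have hcard0 : 0 < (S.card : ℝ) := by
    have h3 : 0 < Y ^ (-c) := Real.rpow_pos_of_pos hY0 _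
    have h4 : 0 < t ^ s' := Real.rpow_pos_of_pos ht _
    by_contra hcon
    have h5 : (S.card : ℝ) * t ^ s' ≤ 0 := mul_nonpos_of_nonpos_of_nonneg (not_lt.mp hcon) h4.le
    linarith
  have hstar : s' * p < Real.log S.card + c * L := by
    have h3 := Real.log_lt_log (Real.rpow_pos_of_pos hY0 _) hbig
    rw [Real.log_rpow hY0, Real.log_mul hcard0.ne' (Real.rpow_pos_of_pos ht _).ne',
      Real.log_rpow ht] at h3
    rw [hp, hL]
    linarith
  have hsp : s * p ≤ s' * p := mul_le_mul_of_nonneg_right hss.le hp0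
  obtain ⟨hcnt1, hcnt2⟩ := hcount d hd1 h ω t S hh hω ht ht1 hcls
  have hC0 : 0 < Cf d := by linarith [hCf d]
  have hCκ := hκd d hdn
  have hClog : 0 ≤ Real.log (Cf d) := Real.log_nonneg (hCf d)
  -- the contradiction
  have hcontra : (S.card : ℝ) ≤ Cf d * t ^ (-s) → False := by
    intro h3
    have h4 := Real.log_le_log hcard0 h3
    rw [Real.log_mul hC0.ne' (Real.rpow_pos_of_pos ht _).ne', Real.log_rpow ht] at h4
    have h5 : (s' - s) * p < κ + c * L := by
      have h6 : -s * Real.log t = s * p := by rw [hp]; ring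
      rw [h6] at h4
      linarith
    have h7 : (s' - s) * (ε₁ * L) ≤ (s' - s) * p := mul_le_mul_of_nonneg_left hpL hss'.le
    have h8 : c * L ≤ (s' - s) * ε₁ / 2 * L := mul_le_mul_of_nonneg_right hc2 hL0
    linarith
  -- second alternative of (2)
  have hsec : 2 ≤ d → (1 + s) * p ≤ w → s * w ≤ d * U + (1 + κ + E + q) := by
    intro hd2 hwp
    by_contra hcon
    rw [not_le] at hcon
    apply hcontra
    refine hcnt2 hd2 s hs hs1 (Or.inr (Or.inl ⟨?_, ?_⟩))
    · rw [← Real.log_le_log_iff hω (Real.rpow_pos_of_pos ht _), Real.log_rpow ht]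
      have : (1 + s) * p = -((1 + s) * Real.log t) := by rw [hp]; ring
      rw [this, hw] at hwp
      linarith
    · have h3 : 0 < Cf d * h ^ (2 * d) * ω ^ (2 * s) := by positivity
      rw [← Real.log_neg_iff h3, Real.log_mul (by positivity) (by positivity),
        Real.log_mul hC0.ne' (by positivity), Real.log_pow, Real.log_rpow hω, ← hU]
      have h4 : 2 * s * Real.log ω = -(2 * (s * w)) := by rw [hw]; ring
      rw [h4]
      push_cast
      linarith
  have hfst : 2 ≤ d → w ≤ (1 + s) * p →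
      s * p + 3 * (w - p) ≤ 2 * d * U + (1 + κ + E + q) := by
    intro hd2 hwp
    by_contra hcon
    rw [not_le] at hcon
    apply hcontra
    refine hcnt2 hd2 s hs hs1 (Or.inr (Or.inr ⟨?_, ?_⟩))
    · rw [← Real.log_le_log_iff (Real.rpow_pos_of_pos ht _) hω, Real.log_rpow ht]
      have : (1 + s) * p = -((1 + s) * Real.log t) := by rw [hp]; ring
      rw [this, hw] at hwp
      linarith
    · have h3 : 0 < Cf d * h ^ (2 * d) * (t ^ s * (ω / t) ^ 3) := by positivity
      rw [← Real.log_neg_iff h3, Real.log_mul (by positivity) (by positivity),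
        Real.log_mul hC0.ne' (by positivity), Real.log_pow,
        Real.log_mul (by positivity) (by positivity), Real.log_rpow ht, Real.log_pow,
        Real.log_div hω.ne' ht.ne', ← hU]
      have h4 : s * Real.log t = -(s * p) := by rw [hp]; ring
      have h5 : Real.log ω - Real.log t = -(w - p) := by rw [hp, hw]; ring
      rw [h4, h5]
      push_cast
      linarith
  rw [← hL, ← hU, ← hp, ← hw]
  refine ⟨?_, ?_, ?_⟩
  · have h3 := Real.log_le_log hcard0 hcnt1
    rw [Real.log_mul hC0.ne' (by positivity), Real.log_pow, ← hU] at h3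
    push_cast at h3
    have h4 : c * L ≤ ε₂ * L := mul_le_mul_of_nonneg_right (by linarith) hL0
    linarith
  · intro hd2
    rcases le_total ((1 + s) * p) w with hwp | hwp
    · exact Or.inr (hsec hd2 hwp)
    · exact Or.inl (hfst hd2 hwp)
  · intro hd2
    rcases lt_or_ge (2 * p) w with hwp | hwp
    · left
      have h3 : (1 + s) * p ≤ w := by
        have : (1 + s) * p ≤ 2 * p := mul_le_mul_of_nonneg_right (by linarith) hp0
        linarith
      have h4 := hsec (by omega) h3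
      rw [hd2] at h4
      push_cast at h4
      exact h4
    · right
      have ht2 : t ^ 2 ≤ ω := by
        rw [← Real.log_le_log_iff (by positivity) hω, Real.log_pow]
        push_cast
        rw [hp, hw] at hwp
        linarith
      subst hd2
      have h3 := hquad h ω t S hh hω ht ht1 ht2 hcls
      rw [← hU] at h3
      have h1U : 1 + U ≤ 1 + L := by linarith
      have h1L : 0 < 1 + L := by linarith
      have hlog := log_one_add_le L (ε₂ / 2) hL0 (by linarith)
      have h8 : c * L ≤ ε₂ / 2 * L := mul_le_mul_of_nonneg_right hc1 hL0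
      have hCq0 : 0 < Cq := by linarith
      have ha : 0 < h ^ 2 := by positivity
      have hb : 0 < h ^ 3 * (ω / t) ^ 2 := by positivity
      have key : ∀ m : ℝ, h ^ 2 ≤ m → h ^ 3 * (ω / t) ^ 2 ≤ m →
          s * p ≤ Real.log m + ε₂ * L + q := by
        intro m hm1 hm2
        have hm0 : 0 < m := lt_of_lt_of_le ha hm1
        have h5 : (S.card : ℝ) ≤ (2 * Cq) * (1 + L) * m := by
          calc (S.card : ℝ) ≤ Cq * (1 + U) * (h ^ 2 + h ^ 3 * (ω / t) ^ 2) := h3
            _ ≤ Cq * (1 + L) * (m + m) := by gcongr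
            _ = (2 * Cq) * (1 + L) * m := by ring
        have h6 := Real.log_le_log hcard0 h5
        rw [Real.log_mul (by positivity) hm0.ne', Real.log_mul (by positivity) h1L.ne'] at h6
        linarith
      rcases le_total (h ^ 3 * (ω / t) ^ 2) (h ^ 2) with hm | hm
      · left
        have h5 := key (h ^ 2) le_rfl hm
        rw [Real.log_pow, ← hU] at h5
        push_cast at h5
        linarith
      · right
        have h5 := key (h ^ 3 * (ω / t) ^ 2) hm le_rfl
        rw [Real.log_mul (by positivity) (by positivity), Real.log_pow, Real.log_pow,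
          Real.log_div hω.ne' ht.ne', ← hU] at h5
        have h6 : Real.log ω - Real.log t = -(w - p) := by rw [hp, hw]; ring
        rw [h6] at h5
        push_cast at h5
        linarith

end Pool.Agent.MP211V
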