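import Pool.Agent.Lib.MP_211f72_nt.V.Spec

namespace Pool.Agent.MP211V.Cnt

open Polynomial

private lemma sdim_gt {n : ℕ} {lam : ℝ} (hn : 4 ≤ n) (h1 : 1 / (n : ℝ) < lam)
    (h2 : lam < 1 / ((n : ℝ) - 1)) : 3 / 4 < sdim n lam := by
  have hn' : (4 : ℝ) ≤ n := by exact_mod_cast hn
  have hlam : 0 < lam := lt_trans (by positivity) h1
  have h3 : lam * ((n : ℝ) - 1) < 1 := by
    rwa [lt_div_iff₀ (by linarith)] at h2
  unfold sdim
  rw [lt_div_iff₀ (by linarith)]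
  have h4 : lam < 1 / 3 := by nlinarith
  nlinarith

private lemma finite_class (h3 : S_Count) {d : ℕ} (hd : 1 ≤ d) {h ω t : ℝ} (hh : 1 ≤ h)
    (hω : 0 < ω) (ht : 0 < t) (ht1 : t ≤ 1) :
    ∃ F : Finset (ℝ × ℝ), ∀ p, p ∈ F ↔ Cls d h (h * ω) t p.1 p.2 := by
  obtain ⟨C, hC, H⟩ := h3 d hd
  have hfin : {p : ℝ × ℝ | Cls d h (h * ω) t p.1 p.2}.Finite := by
    by_contra hinf
    obtain ⟨S, hS, hcard⟩ :=
      Set.Infinite.exists_subset_card_eq hinf (⌊C * h ^ (d + 1)⌋₊ + 1)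
    have h5 := (H h ω t S hh hω ht ht1 (fun p hp => hS hp)).1
    rw [hcard] at h5
    push_cast at h5
    have h6 := Nat.lt_floor_add_one (C * h ^ (d + 1))
    linarith
  exact ⟨hfin.toFinset, fun p => by simp⟩

private lemma log_bound (D δ A : ℝ) (hδ : 0 < δ) (hA : 1 ≤ A) : ∃ Y₀ : ℝ, 1 ≤ Y₀ ∧
    ∀ Y, Y₀ ≤ Y → D * (2 * Real.log (A * Y) + 2) ^ 2 ≤ Y ^ δ := by
  have hη : 0 < δ / 4 := by positivity
  set E : ℝ := |D| * (2 / (δ / 4) + 2) ^ 2 * A ^ (δ / 2) with hE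
  have hev := (tendsto_rpow_atTop (show 0 < δ / 2 by positivity)).eventually_ge_atTop E
  obtain ⟨Y₀, hY₀⟩ := Filter.eventually_atTop.mp hev
  refine ⟨max 1 Y₀, le_max_left _ _, fun Y hY => ?_⟩
  have hY1 : 1 ≤ Y := le_trans (le_max_left _ _) hY
  have hYE : E ≤ Y ^ (δ / 2) := hY₀ Y (le_trans (le_max_right _ _) hY)
  have hA0 : 0 < A := by linarith
  have hY0 : 0 < Y := by linarith
  have hAY : 1 ≤ A * Y := by nlinarith
  have hAY0 : 0 < A * Y := by positivity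
  have hl0 : 0 ≤ Real.log (A * Y) := Real.log_nonneg hAY
  have hl : Real.log (A * Y) ≤ (A * Y) ^ (δ / 4) / (δ / 4) :=
    Real.log_le_rpow_div hAY0.le hη
  have hp1 : 1 ≤ (A * Y) ^ (δ / 4) := Real.one_le_rpow hAY hη.le
  have h1 : 2 * Real.log (A * Y) + 2 ≤ (2 / (δ / 4) + 2) * (A * Y) ^ (δ / 4) := by
    have : 2 * ((A * Y) ^ (δ / 4) / (δ / 4)) = 2 / (δ / 4) * (A * Y) ^ (δ / 4) := by ring
    nlinarith
  have h2 : (2 * Real.log (A * Y) + 2) ^ 2 ≤ (2 / (δ / 4) + 2) ^ 2 * (A * Y) ^ (δ / 2) := by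
    have e : (A * Y) ^ (δ / 2) = ((A * Y) ^ (δ / 4)) ^ 2 := by
      rw [← Real.rpow_natCast, ← Real.rpow_mul hAY0.le]
      congr 1
      push_cast
      ring
    rw [e, ← mul_pow]
    exact pow_le_pow_left₀ (by linarith) h1 2
  have h3 : (A * Y) ^ (δ / 2) = A ^ (δ / 2) * Y ^ (δ / 2) := Real.mul_rpow hA0.le hY0.le
  have h4 : Y ^ δ = Y ^ (δ / 2) * Y ^ (δ / 2) := by
    rw [← Real.rpow_add hY0]
    congr 1
    ring
  calc D * (2 * Real.log (A * Y) + 2) ^ 2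
      ≤ |D| * (2 * Real.log (A * Y) + 2) ^ 2 :=
        mul_le_mul_of_nonneg_right (le_abs_self D) (by positivity)
    _ ≤ |D| * ((2 / (δ / 4) + 2) ^ 2 * (A * Y) ^ (δ / 2)) :=
        mul_le_mul_of_nonneg_left h2 (abs_nonneg D)
    _ = E * Y ^ (δ / 2) := by rw [h3, hE]; ring
    _ ≤ Y ^ (δ / 2) * Y ^ (δ / 2) :=
        mul_le_mul_of_nonneg_right hYE (by positivity)
    _ = Y ^ δ := h4.symm

private lemma sum_biUnion_le' {ι α : Type*} [DecidableEq ι] [DecidableEq α] (s : Finset ι)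
    (f : ι → Finset α) (g : α → ℝ) (hg : ∀ i ∈ s, ∀ x ∈ f i, 0 ≤ g x) :
    ∑ x ∈ s.biUnion f, g x ≤ ∑ i ∈ s, ∑ x ∈ f i, g x := by
  induction s using Finset.induction_on with
  | empty => simp
  | insert a s ha ih =>
    rw [Finset.biUnion_insert, Finset.sum_insert ha]
    have h1 := ih (fun i hi => hg i (Finset.mem_insert_of_mem hi))
    have h2 := Finset.sum_union_inter (s₁ := f a) (s₂ := s.biUnion f) (f := g)
    have h3 : 0 ≤ ∑ x ∈ f a ∩ s.biUnion f, g x := by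
      refine Finset.sum_nonneg fun x hx => ?_
      exact hg a (Finset.mem_insert_self _ _) x (Finset.mem_inter.mp hx).1
    linarith

private lemma card_caps (G : Finset ℕ) (θ a b : ℝ) (hθ : 0 < θ) (hab : a ≤ b)
    (hG : ∀ j ∈ G, a ≤ j * θ ∧ j * θ + θ ≤ b) : (G.card : ℝ) * θ ≤ b - a := by
  rcases G.eq_empty_or_nonempty with rfl | hne
  · simp
    linarith
  · have hsub : G ⊆ Finset.Icc (G.min' hne) (G.max' hne) := fun j hj =>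
      Finset.mem_Icc.mpr ⟨G.min'_le j hj, G.le_max' j hj⟩
    have hc := Finset.card_le_card hsub
    rw [Nat.card_Icc] at hc
    have h1 := (hG _ (G.min'_mem hne)).1
    have h2 := (hG _ (G.max'_mem hne)).2
    have h3 : G.min' hne ≤ G.max' hne := G.min'_le _ (G.max'_mem hne)
    have h4 : (G.card : ℝ) + (G.min' hne : ℕ) ≤ (G.max' hne : ℕ) + 1 := by
      have : G.card + G.min' hne ≤ G.max' hne + 1 := by omega
      exact_mod_cast this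
    nlinarith

private lemma eval_rp_mul (k : ℤ) (Q : ℤ[X]) (x : ℝ) :
    (rp (C k * Q)).eval x = (k : ℝ) * (rp Q).eval x := by
  simp [rp]

private lemma natDegree_rp (Q : ℤ[X]) : (rp Q).natDegree = Q.natDegree :=
  natDegree_map_eq_of_injective (RingHom.injective_int _) Q

/-- the structure of the small polynomials on a cap which is not bad -/
private lemma cap_struct (h2 : S_MxEx) {n : ℕ} (hn : 1 ≤ n) {A Y H θ a C₀ : ℝ} (hA : 1 ≤ A)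
    (hY1 : 1 ≤ Y) (hθ : 0 < θ) (hθ4 : θ ≤ 1 / 4) (ha0 : 0 ≤ a) (ha1 : a ≤ 1) (hC₀ : 1 ≤ C₀)
    (hInt : ∀ (P : ℤ[X]) (c a b t : ℝ), P.natDegree = n → P ≠ 0 → 0 < t → t ≤ 1 → t ≤ b - a →
      |a| ≤ 3 → Sl (rp P) c a b → t ^ n ≤ C₀ * c)
    (hY : C₀ * A * 4 ^ n < Y)
    (hTwo : ∀ P Q : ℤ[X], Irreducible P → Irreducible Q → P.natDegree = n → Q.natDegree = n →
      Hb P H → Hb Q H → Sl (rp P) (A / Y) a (a + θ) → Sl (rp Q) (A / Y) a (a + θ) →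
      P = Q ∨ P = -Q)
    (hbad : ¬ Bad n H (A / Y) a (a + θ))
    (M : Finset ℤ[X])
    (hM : ∀ P ∈ M, P.natDegree ≤ n ∧ Hb P H ∧ Sl (rp P) (A / Y) a (a + θ)) :
    M.card ≤ 1 ∨ ∃ (m l : ℕ) (a' b' : ℝ), (2 : ℝ) ^ m ≤ H ∧ θ * 2 ^ l ≤ 1 / 2 ∧
      Cls n (H / 2 ^ m) (A / (Y * 2 ^ m)) (θ * 2 ^ l) a' b' ∧ a' ≤ a ∧ a + θ ≤ b' ∧
      M.card ≤ 6 * 2 ^ m := by
  by_cases hcard : M.card ≤ 1
  · exact Or.inl hcard
  right
  have hY0 : 0 < Y := by linarith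
  obtain ⟨P₀, hP₀M, hP₀⟩ : ∃ P₀ ∈ M, P₀ ≠ 0 := by
    obtain ⟨x, hx, y, hy, hxy⟩ := Finset.one_lt_card.mp (not_le.mp hcard)
    by_cases hx0 : x = 0
    · exact ⟨y, hy, fun h => hxy (by rw [hx0, h])⟩
    · exact ⟨x, hx, hx0⟩
  -- every nonzero element is a multiple of an irreducible polynomial of degree n
  have hdec : ∀ P ∈ M, P ≠ 0 → ∃ (k : ℤ) (Q : ℤ[X]), k ≠ 0 ∧ P = C k * Q ∧ Irreducible Q ∧
      Q.natDegree = n ∧ Hb Q H ∧ Sl (rp Q) (A / Y) a (a + θ) := by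
    intro P hP hP0
    obtain ⟨hd, hb, hs⟩ := hM P hP
    by_contra hcon
    apply hbad
    refine ⟨P, hP0, hd, hb, hs, ?_⟩
    rintro ⟨k, Q, hPQ, hQ, hQd⟩
    apply hcon
    have hk : k ≠ 0 := by
      rintro rfl
      apply hP0
      rw [hPQ]
      simp
    have hk1 : (1 : ℝ) ≤ |(k : ℝ)| := by
      have := Int.one_le_abs hk
      exact_mod_cast this
    refine ⟨k, Q, hk, hPQ, hQ, hQd, fun i => ?_, fun x hx1 hx2 => ?_⟩
    · have h := hb i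
      rw [hPQ, coeff_C_mul, Int.cast_mul, abs_mul] at h
      nlinarith [abs_nonneg ((Q.coeff i : ℤ) : ℝ)]
    · have h := hs x hx1 hx2
      rw [hPQ, eval_rp_mul, abs_mul] at h
      nlinarith [abs_nonneg ((rp Q).eval x)]
  obtain ⟨k₀, Q₀, hk₀, hPQ₀, hQ₀, hQ₀d, hQ₀b, hQ₀s⟩ := hdec P₀ hP₀M hP₀
  have hall : ∀ P ∈ M, ∃ k : ℤ, P = C k * Q₀ := by
    intro P hP
    by_cases hP0 : P = 0
    · exact ⟨0, by simp [hP0]⟩
    · obtain ⟨k, Q, hk, hPQ, hQ, hQd, hQb, hQs⟩ := hdec P hP hP0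
      rcases hTwo Q Q₀ hQ hQ₀ hQd hQ₀d hQb hQ₀b hQs hQ₀s with h | h
      · exact ⟨k, by rw [hPQ, h]⟩
      · refine ⟨-k, ?_⟩
        rw [hPQ, h]
        simp
  choose! f hf using hall
  obtain ⟨P₁, hP₁M, hP₁⟩ := Finset.exists_max_image M (fun P => (f P).natAbs) ⟨P₀, hP₀M⟩
  set M₀ := (f P₁).natAbs with hM₀
  have hM₀1 : 1 ≤ M₀ := by
    have h := hP₁ P₀ hP₀M
    have h' : f P₀ ≠ 0 := by
      intro h0
      apply hP₀
      rw [hf P₀ hP₀M, h0]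
      simp
    have : 1 ≤ (f P₀).natAbs := by omega
    exact le_trans this h
  have hcardM : M.card ≤ 2 * M₀ + 1 := by
    have hinj : Set.InjOn f (M : Set ℤ[X]) := by
      intro P hP P' hP' h
      rw [hf P hP, hf P' hP', h]
    have hmaps : ∀ P ∈ M, f P ∈ Finset.Icc (-(M₀ : ℤ)) M₀ := by
      intro P hP
      have h : (f P).natAbs ≤ M₀ := hP₁ P hP
      rw [Finset.mem_Icc]
      omega
    have := Finset.card_le_card_of_injOn f hmaps hinj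
    rw [Int.card_Icc] at this
    omega
  set m := Nat.log 2 M₀ with hm
  have hm1 : 2 ^ m ≤ M₀ := Nat.pow_log_le_self 2 (by omega)
  have hm2 : M₀ < 2 ^ (m + 1) := Nat.lt_pow_succ_log_self (by norm_num) M₀
  have hfabs : |((f P₁ : ℤ) : ℝ)| = (M₀ : ℝ) := by
    rw [hM₀, Nat.cast_natAbs, Int.cast_abs]
  have hm1' : (2 : ℝ) ^ m ≤ (M₀ : ℝ) := by exact_mod_cast hm1
  have h2m : (0 : ℝ) < 2 ^ m := by positivity
  have hQb : ∀ i : ℕ, |((Q₀.coeff i : ℤ) : ℝ)| * 2 ^ m ≤ H := by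
    intro i
    have h := (hM P₁ hP₁M).2.1 i
    rw [hf P₁ hP₁M, coeff_C_mul, Int.cast_mul, abs_mul, hfabs] at h
    have h' := mul_le_mul_of_nonneg_right hm1' (abs_nonneg ((Q₀.coeff i : ℤ) : ℝ))
    linarith [mul_comm |((Q₀.coeff i : ℤ) : ℝ)| ((2 : ℝ) ^ m)]
  have hQs : Sl (rp Q₀) (A / (Y * 2 ^ m)) a (a + θ) := by
    intro x hx1 hx2
    have h := (hM P₁ hP₁M).2.2 x hx1 hx2
    rw [hf P₁ hP₁M, eval_rp_mul, abs_mul, hfabs] at h
    have h' := mul_le_mul_of_nonneg_right hm1' (abs_nonneg ((rp Q₀).eval x))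
    rw [← div_div, le_div_iff₀ h2m]
    linarith [mul_comm |(rp Q₀).eval x| ((2 : ℝ) ^ m)]
  have hQ₀0 : Q₀ ≠ 0 := hQ₀.ne_zero
  have h2mH : (2 : ℝ) ^ m ≤ H := by
    have h := hQb Q₀.natDegree
    have hlc : Q₀.coeff Q₀.natDegree ≠ 0 := by
      rw [coeff_natDegree]
      exact leadingCoeff_ne_zero.mpr hQ₀0
    have h1 : (1 : ℝ) ≤ |((Q₀.coeff Q₀.natDegree : ℤ) : ℝ)| := by
      have := Int.one_le_abs hlc
      exact_mod_cast this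
    nlinarith
  obtain ⟨a', b', ha', hb', hMx⟩ := h2 (rp Q₀) (A / (Y * 2 ^ m)) a (a + θ)
    (by rw [natDegree_rp, hQ₀d]; omega) (by linarith) hQs
  have hcle : A / (Y * 2 ^ m) ≤ A / Y := by
    apply div_le_div_of_nonneg_left (by linarith) hY0
    have : (1 : ℝ) ≤ 2 ^ m := one_le_pow₀ (by norm_num)
    nlinarith
  have hlen : b' - a' ≤ 1 / 2 := by
    by_contra hcon
    push Not at hcon
    have hkey : ((1 : ℝ) / 4) ^ n ≤ C₀ * (A / (Y * 2 ^ m)) := by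
      by_cases hc : a + 1 / 4 ≤ b'
      · apply hInt Q₀ (A / (Y * 2 ^ m)) a (a + 1 / 4) (1 / 4) hQ₀d hQ₀0 (by norm_num)
          (by norm_num) (by linarith) (by rw [abs_le]; constructor <;> linarith)
        intro x hx1 hx2
        exact hMx.2.1 x (by linarith) (by linarith)
      · push Not at hc
        apply hInt Q₀ (A / (Y * 2 ^ m)) (a - 1 / 4) a (1 / 4) hQ₀d hQ₀0 (by norm_num)
          (by norm_num) (by linarith) (by rw [abs_le]; constructor <;> linarith)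
        intro x hx1 hx2
        exact hMx.2.1 x (by linarith) (by linarith)
    have h4 : ((1 : ℝ) / 4) ^ n ≤ C₀ * (A / Y) :=
      le_trans hkey (mul_le_mul_of_nonneg_left hcle (by linarith))
    have h5 : ((1 : ℝ) / 4) ^ n * 4 ^ n = 1 := by
      rw [← mul_pow]
      norm_num
    have h6 : C₀ * (A / Y) * 4 ^ n < 1 := by
      have : C₀ * (A / Y) * 4 ^ n = C₀ * A * 4 ^ n / Y := by ring
      rw [this, div_lt_one hY0]
      exact hY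
    have h7 : ((1 : ℝ) / 4) ^ n * 4 ^ n ≤ C₀ * (A / Y) * 4 ^ n :=
      mul_le_mul_of_nonneg_right h4 (by positivity)
    linarith
  obtain ⟨l, hl1, hl2⟩ := exists_nat_pow_near (x := (b' - a') / θ) (y := (2 : ℝ))
    (by rw [le_div_iff₀ hθ]; linarith) (by norm_num)
  rw [le_div_iff₀ hθ] at hl1
  rw [div_lt_iff₀ hθ] at hl2
  refine ⟨m, l, a', b', h2mH, by linarith, ⟨Q₀, hQ₀, hQ₀d, ?_, hMx, by linarith, ?_, ?_⟩,
    ha', hb', ?_⟩
  · intro i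
    rw [le_div_iff₀ h2m]
    exact hQb i
  · rw [pow_succ] at hl2
    linarith
  · rw [abs_le]
    constructor <;> linarith
  · have : 2 ^ (m + 1) = 2 * 2 ^ m := by ring
    omega

/-- the double counting of the caps inside the intervals of the classes -/
private lemma sum_caps (J : Finset ℕ) (g : ℕ → ℝ) (N : ℕ) (F : ℕ → ℕ → Finset (ℝ × ℝ))
    (good : ℕ → ℕ → Prop) (θ K : ℝ) (hθ : 0 < θ) (hK : 0 ≤ K)
    (hF : ∀ m l, good m l → ((F m l).card : ℝ) ≤ K / (θ * 2 ^ l * 2 ^ m))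
    (hlen : ∀ m l, good m l → ∀ p ∈ F m l, 0 ≤ p.2 - p.1 ∧ p.2 - p.1 ≤ 2 * (θ * 2 ^ l))
    (hg : ∀ j ∈ J, g j ≤ 1 ∨ ∃ m l : ℕ, m < N ∧ l < N ∧ good m l ∧ ∃ p ∈ F m l,
      p.1 ≤ j * θ ∧ j * θ + θ ≤ p.2 ∧ g j ≤ 6 * 2 ^ m) :
    ∑ j ∈ J, g j ≤ J.card + 12 * K * (N : ℝ) ^ 2 / θ := by
  classical
  set I : Finset (ℕ × ℕ) := (Finset.range N ×ˢ Finset.range N).filter (fun i => good i.1 i.2)
    with hI
  have h1 : ∀ j ∈ J, g j ≤ 1 + ∑ i ∈ I, ∑ p ∈ F i.1 i.2,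
      (if p.1 ≤ j * θ ∧ j * θ + θ ≤ p.2 then (6 * 2 ^ i.1 : ℝ) else 0) := by
    intro j hj
    have hnn : ∀ i ∈ I, 0 ≤ ∑ p ∈ F i.1 i.2,
        (if p.1 ≤ j * θ ∧ j * θ + θ ≤ p.2 then (6 * 2 ^ i.1 : ℝ) else 0) := by
      intro i _
      refine Finset.sum_nonneg fun p _ => ?_
      split_ifs
      · positivity
      · exact le_refl _
    rcases hg j hj with h | ⟨m, l, hm, hl, hgd, p, hp, hp1, hp2, hgj⟩
    · have := Finset.sum_nonneg hnn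
      linarith
    · have hmem : (m, l) ∈ I := by
        rw [hI, Finset.mem_filter, Finset.mem_product, Finset.mem_range, Finset.mem_range]
        exact ⟨⟨hm, hl⟩, hgd⟩
      have h2 := Finset.single_le_sum hnn hmem
      have hnn' : ∀ q ∈ F m l, 0 ≤
          (if q.1 ≤ j * θ ∧ j * θ + θ ≤ q.2 then (6 * 2 ^ m : ℝ) else 0) := by
        intro q _
        split_ifs
        · positivity
        · exact le_refl _
      have h3 := Finset.single_le_sum hnn' hp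
      rw [if_pos ⟨hp1, hp2⟩] at h3
      simp only at h2
      linarith
  have hterm : ∀ i ∈ I, ∑ p ∈ F i.1 i.2, ∑ j ∈ J,
      (if p.1 ≤ (j : ℝ) * θ ∧ (j : ℝ) * θ + θ ≤ p.2 then (6 * 2 ^ i.1 : ℝ) else 0) ≤
      12 * K / θ := by
    intro i hi
    obtain ⟨_, hgd⟩ := Finset.mem_filter.mp hi
    have h2i : (0 : ℝ) < 2 ^ i.1 := by positivity
    have h2l : (0 : ℝ) < 2 ^ i.2 := by positivity
    have hp : ∀ p ∈ F i.1 i.2, ∑ j ∈ J,
        (if p.1 ≤ (j : ℝ) * θ ∧ (j : ℝ) * θ + θ ≤ p.2 then (6 * 2 ^ i.1 : ℝ) else 0) ≤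
        12 * 2 ^ i.2 * 2 ^ i.1 := by
      intro p hp
      obtain ⟨hl0, hl1⟩ := hlen _ _ hgd p hp
      rw [← Finset.sum_filter, Finset.sum_const, nsmul_eq_mul]
      have hc := card_caps (J.filter fun j : ℕ => p.1 ≤ (j : ℝ) * θ ∧ (j : ℝ) * θ + θ ≤ p.2)
        θ p.1 p.2 hθ (by linarith) (fun j hj => (Finset.mem_filter.mp hj).2)
      have hc2 : ((J.filter fun j : ℕ => p.1 ≤ (j : ℝ) * θ ∧ (j : ℝ) * θ + θ ≤ p.2).card : ℝ)
          ≤ 2 * 2 ^ i.2 := by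
        have : ((J.filter fun j : ℕ =>
            p.1 ≤ (j : ℝ) * θ ∧ (j : ℝ) * θ + θ ≤ p.2).card : ℝ) * θ ≤ 2 * 2 ^ i.2 * θ := by
          linarith
        exact le_of_mul_le_mul_right this hθ
      nlinarith
    calc ∑ p ∈ F i.1 i.2, ∑ j ∈ J,
          (if p.1 ≤ (j : ℝ) * θ ∧ (j : ℝ) * θ + θ ≤ p.2 then (6 * 2 ^ i.1 : ℝ) else 0)
        ≤ ∑ p ∈ F i.1 i.2, (12 * 2 ^ i.2 * 2 ^ i.1 : ℝ) := Finset.sum_le_sum hp
      _ = (F i.1 i.2).card * (12 * 2 ^ i.2 * 2 ^ i.1) := by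
          rw [Finset.sum_const, nsmul_eq_mul]
      _ ≤ K / (θ * 2 ^ i.2 * 2 ^ i.1) * (12 * 2 ^ i.2 * 2 ^ i.1) :=
          mul_le_mul_of_nonneg_right (hF _ _ hgd) (by positivity)
      _ = 12 * K / θ := by
          field_simp
  calc ∑ j ∈ J, g j
      ≤ ∑ j ∈ J, (1 + ∑ i ∈ I, ∑ p ∈ F i.1 i.2,
          (if p.1 ≤ j * θ ∧ j * θ + θ ≤ p.2 then (6 * 2 ^ i.1 : ℝ) else 0)) :=
        Finset.sum_le_sum h1
    _ = J.card + ∑ i ∈ I, ∑ p ∈ F i.1 i.2, ∑ j ∈ J,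
          (if p.1 ≤ (j : ℝ) * θ ∧ (j : ℝ) * θ + θ ≤ p.2 then (6 * 2 ^ i.1 : ℝ) else 0) := by
        rw [Finset.sum_add_distrib, Finset.sum_const, nsmul_eq_mul, mul_one,
          Finset.sum_comm]
        congr 1
        refine Finset.sum_congr rfl fun i _ => ?_
        rw [Finset.sum_comm]
    _ ≤ J.card + ∑ i ∈ I, 12 * K / θ := by
        have := Finset.sum_le_sum hterm
        linarith
    _ = J.card + I.card * (12 * K / θ) := by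
        rw [Finset.sum_const, nsmul_eq_mul]
    _ ≤ J.card + (N : ℝ) ^ 2 * (12 * K / θ) := by
        have hc : (I.card : ℝ) ≤ (N : ℝ) ^ 2 := by
          have : I.card ≤ N ^ 2 := by
            calc I.card ≤ (Finset.range N ×ˢ Finset.range N).card := Finset.card_filter_le _ _
              _ = N ^ 2 := by rw [Finset.card_product, Finset.card_range, sq]
          exact_mod_cast this
        have h0 : 0 ≤ 12 * K / θ := by positivity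
        have := mul_le_mul_of_nonneg_right hc h0
        linarith
    _ = J.card + 12 * K * (N : ℝ) ^ 2 / θ := by ring

/-- the exceptional family of the classes with `t^(-3/10) < M` -/
private lemma bad_family {n N : ℕ} (hn : 1 ≤ n) {A Y H θ s' K C₀ : ℝ} (hA : 1 ≤ A) (hY1 : 1 ≤ Y)
    (hθ : 0 < θ) (hs : 3 / 4 < s') (hK : 1 ≤ K) (hC₀ : 1 ≤ C₀)
    (hInt : ∀ (P : ℤ[X]) (c a b t : ℝ), P.natDegree = n → P ≠ 0 → 0 < t → t ≤ 1 → t ≤ b - a →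
      |a| ≤ 3 → Sl (rp P) c a b → t ^ n ≤ C₀ * c)
    (F : ℕ → ℕ → Finset (ℝ × ℝ))
    (hFm : ∀ m l : ℕ, (2 : ℝ) ^ m ≤ H → θ * 2 ^ l ≤ 1 / 2 → ∀ p, p ∈ F m l ↔
      Cls n (H / 2 ^ m) (A / (Y * 2 ^ m)) (θ * 2 ^ l) p.1 p.2)
    (hIrr : ∀ m l : ℕ, (2 : ℝ) ^ m ≤ H → θ * 2 ^ l ≤ 1 / 2 →
      (θ * 2 ^ l) ^ (-(3 / 10) : ℝ) ≤ 2 ^ m →
      ((F m l).card : ℝ) ≤ K * (θ * 2 ^ l) ^ (-(7 / 10) : ℝ)) :
    ∃ T : Finset (ℝ × ℝ), (∀ p ∈ T, θ / 2 ≤ p.2) ∧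
      ∑ p ∈ T, p.2 ^ s' ≤ (N : ℝ) ^ 2 * (K * (C₀ * A / Y) ^ (1 / (20 * (n : ℝ)))) ∧
      ∀ m l : ℕ, m < N → l < N → (2 : ℝ) ^ m ≤ H → θ * 2 ^ l ≤ 1 / 2 →
        (θ * 2 ^ l) ^ (-(3 / 10) : ℝ) ≤ 2 ^ m → ∀ p ∈ F m l,
        ((p.1 + p.2) / 2, (p.2 - p.1) / 2) ∈ T := by
  classical
  have hY0 : 0 < Y := by linarith
  set I : Finset (ℕ × ℕ) := (Finset.range N ×ˢ Finset.range N).filter
    (fun i => (2 : ℝ) ^ i.1 ≤ H ∧ θ * 2 ^ i.2 ≤ 1 / 2 ∧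
      (θ * 2 ^ i.2) ^ (-(3 / 10) : ℝ) ≤ 2 ^ i.1) with hI
  set φ : ℝ × ℝ → ℝ × ℝ := fun p => ((p.1 + p.2) / 2, (p.2 - p.1) / 2) with hφ
  have hIm : ∀ i ∈ I, (2 : ℝ) ^ i.1 ≤ H ∧ θ * 2 ^ i.2 ≤ 1 / 2 ∧
      (θ * 2 ^ i.2) ^ (-(3 / 10) : ℝ) ≤ 2 ^ i.1 := fun i hi => (Finset.mem_filter.mp hi).2
  have hrad : ∀ i ∈ I, ∀ x ∈ (F i.1 i.2).image φ, θ / 2 ≤ x.2 ∧ x.2 ≤ θ * 2 ^ i.2 := by
    intro i hi x hx
    obtain ⟨hi1, hi2, hi3⟩ := hIm i hi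
    obtain ⟨p, hp, rfl⟩ := Finset.mem_image.mp hx
    obtain ⟨P, _, _, _, _, hp1, hp2, _⟩ := (hFm _ _ hi1 hi2 p).mp hp
    have h2l : (1 : ℝ) ≤ 2 ^ i.2 := one_le_pow₀ (by norm_num)
    simp only [hφ]
    constructor
    · nlinarith
    · linarith
  refine ⟨I.biUnion fun i => (F i.1 i.2).image φ, ?_, ?_, ?_⟩
  · intro p hp
    obtain ⟨i, hi, hpi⟩ := Finset.mem_biUnion.mp hp
    exact (hrad i hi p hpi).1
  · have hnn : ∀ i ∈ I, ∀ x ∈ (F i.1 i.2).image φ, 0 ≤ x.2 ^ s' := by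
      intro i hi x hx
      have := (hrad i hi x hx).1
      exact Real.rpow_nonneg (by linarith) _
    refine le_trans (sum_biUnion_le' I (fun i => (F i.1 i.2).image φ) (fun x => x.2 ^ s') hnn) ?_
    have hterm : ∀ i ∈ I, ∑ x ∈ (F i.1 i.2).image φ, x.2 ^ s' ≤
        K * (C₀ * A / Y) ^ (1 / (20 * (n : ℝ))) := by
      intro i hi
      obtain ⟨hi1, hi2, hi3⟩ := hIm i hi
      have hbase : 0 ≤ (C₀ * A / Y) ^ (1 / (20 * (n : ℝ))) := by positivity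
      rcases (F i.1 i.2).eq_empty_or_nonempty with he | ⟨p, hp⟩
      · rw [he]
        simp only [Finset.image_empty, Finset.sum_empty]
        positivity
      set t := θ * 2 ^ i.2 with ht
      have ht0 : 0 < t := by positivity
      have ht1 : t ≤ 1 := by linarith
      obtain ⟨P, hPi, hPd, _, hMx, hp1, hp2, hp3⟩ := (hFm _ _ hi1 hi2 p).mp hp
      have htn : t ^ n ≤ C₀ * A / Y := by
        have h := hInt P (A / (Y * 2 ^ i.1)) p.1 p.2 t hPd hPi.ne_zero ht0 ht1 hp1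
          (by linarith) hMx.2.1
        refine le_trans h ?_
        rw [mul_div_assoc]
        apply mul_le_mul_of_nonneg_left _ (by linarith)
        apply div_le_div_of_nonneg_left (by linarith) hY0
        have : (1 : ℝ) ≤ 2 ^ i.1 := one_le_pow₀ (by norm_num)
        nlinarith
      have hn0 : (0 : ℝ) < n := by exact_mod_cast hn
      have e1 : t ^ (s' - 7 / 10) ≤ (C₀ * A / Y) ^ (1 / (20 * (n : ℝ))) := by
        calc t ^ (s' - 7 / 10) ≤ t ^ ((1 : ℝ) / 20) :=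
              Real.rpow_le_rpow_of_exponent_ge ht0 ht1 (by linarith)
          _ = (t ^ n) ^ (1 / (20 * (n : ℝ))) := by
              rw [← Real.rpow_natCast, ← Real.rpow_mul ht0.le]
              congr 1
              field_simp
          _ ≤ (C₀ * A / Y) ^ (1 / (20 * (n : ℝ))) :=
              Real.rpow_le_rpow (by positivity) htn (by positivity)
      calc ∑ x ∈ (F i.1 i.2).image φ, x.2 ^ s'
          ≤ ((F i.1 i.2).image φ).card • t ^ s' := by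
            refine Finset.sum_le_card_nsmul _ _ _ fun x hx => ?_
            obtain ⟨hx1, hx2⟩ := hrad i hi x hx
            exact Real.rpow_le_rpow (by linarith) hx2 (by linarith)
        _ = ((F i.1 i.2).image φ).card * t ^ s' := by rw [nsmul_eq_mul]
        _ ≤ (F i.1 i.2).card * t ^ s' := by
            apply mul_le_mul_of_nonneg_right _ (by positivity)
            exact_mod_cast Finset.card_image_le
        _ ≤ K * t ^ (-(7 / 10) : ℝ) * t ^ s' :=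
            mul_le_mul_of_nonneg_right (hIrr _ _ hi1 hi2 hi3) (by positivity)
        _ = K * t ^ (s' - 7 / 10) := by
            rw [mul_assoc, ← Real.rpow_add ht0]
            congr 2
            ring
        _ ≤ K * (C₀ * A / Y) ^ (1 / (20 * (n : ℝ))) :=
            mul_le_mul_of_nonneg_left e1 (by linarith)
    calc ∑ i ∈ I, ∑ x ∈ (F i.1 i.2).image φ, x.2 ^ s'
        ≤ ∑ i ∈ I, K * (C₀ * A / Y) ^ (1 / (20 * (n : ℝ))) := Finset.sum_le_sum hterm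
      _ = I.card * (K * (C₀ * A / Y) ^ (1 / (20 * (n : ℝ)))) := by
          rw [Finset.sum_const, nsmul_eq_mul]
      _ ≤ (N : ℝ) ^ 2 * (K * (C₀ * A / Y) ^ (1 / (20 * (n : ℝ)))) := by
          apply mul_le_mul_of_nonneg_right _ (by positivity)
          have : I.card ≤ N ^ 2 := by
            calc I.card ≤ (Finset.range N ×ˢ Finset.range N).card := Finset.card_filter_le _ _
              _ = N ^ 2 := by rw [Finset.card_product, Finset.card_range, sq]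
          exact_mod_cast this
  · intro m l hm hl h1 h2 h3 p hp
    refine Finset.mem_biUnion.mpr ⟨(m, l), ?_, ?_⟩
    · rw [hI, Finset.mem_filter, Finset.mem_product, Finset.mem_range, Finset.mem_range]
      exact ⟨⟨hm, hl⟩, h1, h2, h3⟩
    · exact Finset.mem_image.mpr ⟨p, hp, rfl⟩

private lemma lt_N {A Y : ℝ} {m : ℕ} (h : (2 : ℝ) ^ m ≤ A * Y) :
    m < ⌊2 * Real.log (A * Y)⌋₊ + 1 := by
  have h1 : (m : ℝ) * Real.log 2 ≤ Real.log (A * Y) := by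
    rw [← Real.log_pow]
    exact Real.log_le_log (by positivity) h
  have h2 : (1 : ℝ) / 2 ≤ Real.log 2 := by
    have := Real.log_two_gt_d9
    linarith
  have h3 : (m : ℝ) ≤ 2 * Real.log (A * Y) := by
    have : 0 ≤ (m : ℝ) := Nat.cast_nonneg m
    nlinarith
  exact Nat.lt_succ_of_le (Nat.le_floor h3)


private lemma theta_facts {lam Y : ℝ} (hlam : 0 < lam) (hlam1 : lam < 1) (hY16 : 16 ≤ Y) :
    0 < th lam Y ∧ th lam Y ≤ 1 / 4 ∧ 1 ≤ th lam Y * Y := by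
  have hY0 : 0 < Y := by linarith
  have hY1 : 1 ≤ Y := by linarith
  unfold th
  refine ⟨Real.rpow_pos_of_pos hY0 _, ?_, ?_⟩
  · calc Y ^ (-(1 + lam) / 2) ≤ Y ^ (-(1 / 2) : ℝ) :=
          Real.rpow_le_rpow_of_exponent_le hY1 (by linarith)
      _ ≤ (16 : ℝ) ^ (-(1 / 2) : ℝ) :=
          Real.rpow_le_rpow_of_nonpos (by norm_num) hY16 (by norm_num)
      _ = 1 / 4 := by
          rw [Real.rpow_neg (by norm_num), show (16 : ℝ) = 4 ^ (2 : ℝ) by norm_num,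
            ← Real.rpow_mul (by norm_num)]
          norm_num
  · have : Y ^ (-(1 + lam) / 2) * Y = Y ^ (-(1 + lam) / 2 + 1) := by
      rw [Real.rpow_add hY0, Real.rpow_one]
    rw [this]
    exact Real.one_le_rpow hY1 (by linarith)

private lemma cls_eq {A Y lam : ℝ} (m : ℕ) (hY0 : 0 < Y) :
    A * Y ^ lam / 2 ^ m * Y ^ (-1 - lam) = A / (Y * 2 ^ m) := by
  have e1 : Y ^ lam * Y ^ (-1 - lam) = Y⁻¹ := by
    rw [← Real.rpow_add hY0, show lam + (-1 - lam) = (-1 : ℝ) by ring, Real.rpow_neg_one]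
  calc A * Y ^ lam / 2 ^ m * Y ^ (-1 - lam) = A / 2 ^ m * (Y ^ lam * Y ^ (-1 - lam)) := by
        ring
    _ = A / (Y * 2 ^ m) := by
        rw [e1]
        field_simp

private lemma total_small {n : ℕ} {N K C₀ A Y B δ ε₁ : ℝ} (hn : 1 ≤ n)
    (hδdef : δ = 1 / (40 * (n : ℝ))) (hK : 1 ≤ K) (hC₀ : 1 ≤ C₀) (hA : 1 ≤ A) (hY1 : 1 ≤ Y)
    (hε : 0 < min ε₁ δ / 2) (hN2 : N ^ 2 ≤ B)
    (HL : K * (C₀ * A) ^ (1 / (20 * (n : ℝ))) * B ≤ Y ^ δ)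
    (hYh : (2 : ℝ) ^ (1 / (min ε₁ δ / 2)) ≤ Y) :
    Y ^ (-ε₁) + N ^ 2 * (K * (C₀ * A / Y) ^ (1 / (20 * (n : ℝ)))) ≤ Y ^ (-(min ε₁ δ / 2)) := by
  have hn0 : (0 : ℝ) < n := by exact_mod_cast hn
  have hY0 : 0 < Y := by linarith
  have hA0 : 0 < A := by linarith
  set ε := min ε₁ δ / 2 with hεdef
  have hmin1 : 2 * ε ≤ ε₁ := by
    rw [hεdef]
    linarith [min_le_left ε₁ δ]
  have hmin2 : 2 * ε ≤ δ := by
    rw [hεdef]
    linarith [min_le_right ε₁ δ]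
  have e4 : Y ^ (-ε₁) ≤ Y ^ (-(2 * ε)) :=
    Real.rpow_le_rpow_of_exponent_le hY1 (by linarith)
  have e5 : N ^ 2 * (K * (C₀ * A / Y) ^ (1 / (20 * (n : ℝ)))) ≤ Y ^ (-δ) := by
    have f1 : (C₀ * A / Y) ^ (1 / (20 * (n : ℝ))) =
        (C₀ * A) ^ (1 / (20 * (n : ℝ))) / Y ^ (1 / (20 * (n : ℝ))) :=
      Real.div_rpow (by positivity) hY0.le _
    have f2 : Y ^ (1 / (20 * (n : ℝ))) = Y ^ δ * Y ^ δ := by
      rw [← Real.rpow_add hY0]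
      congr 1
      rw [hδdef]
      field_simp
      norm_num
    have f3 : Y ^ (-δ) = 1 / Y ^ δ := by
      rw [Real.rpow_neg hY0.le, one_div]
    have f4 : 0 < Y ^ δ := by positivity
    have f6 : N ^ 2 * (K * (C₀ * A) ^ (1 / (20 * (n : ℝ)))) ≤ Y ^ δ := by
      refine le_trans ?_ HL
      rw [mul_comm]
      exact mul_le_mul_of_nonneg_left hN2 (by positivity)
    rw [f1, f2, f3, le_div_iff₀ f4]
    calc N ^ 2 * (K * ((C₀ * A) ^ (1 / (20 * (n : ℝ))) / (Y ^ δ * Y ^ δ))) * Y ^ δ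
        = N ^ 2 * (K * (C₀ * A) ^ (1 / (20 * (n : ℝ)))) / Y ^ δ := by
          field_simp
      _ ≤ 1 := by
          rw [div_le_one f4]
          exact f6
  have e6 : Y ^ (-δ) ≤ Y ^ (-(2 * ε)) :=
    Real.rpow_le_rpow_of_exponent_le hY1 (by linarith)
  have e7 : 2 * Y ^ (-(2 * ε)) ≤ Y ^ (-ε) := by
    have g1 : Y ^ (-(2 * ε)) = Y ^ (-ε) * Y ^ (-ε) := by
      rw [← Real.rpow_add hY0]
      congr 1
      ring
    have g2 : (2 : ℝ) ≤ Y ^ ε := by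
      calc (2 : ℝ) = ((2 : ℝ) ^ (1 / ε)) ^ ε := by
            rw [← Real.rpow_mul (by norm_num), one_div, inv_mul_cancel₀ hε.ne',
              Real.rpow_one]
        _ ≤ Y ^ ε := Real.rpow_le_rpow (by positivity) hYh hε.le
    have g3 : Y ^ (-ε) * Y ^ ε = 1 := by
      rw [← Real.rpow_add hY0]
      simp
    have g4 : 0 < Y ^ (-ε) := by positivity
    have g5 : 2 * Y ^ (-ε) ≤ 1 := by
      rw [← g3]
      nlinarith
    rw [g1]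
    nlinarith
  linarith

/-- the final estimate -/
private lemma final_est {c A K N θ B E Y κ Jc Sg : ℝ} (hA : 1 ≤ A) (hK : 1 ≤ K) (hN1 : 1 ≤ N)
    (hθ : 0 < θ) (hE : 0 < E) (hN2 : N ^ 2 ≤ B) (HL : 14 * A * K * B ≤ Y ^ κ)
    (hJ : Jc * θ ≤ 2) (hSg : Sg ≤ Jc + 12 * K * N ^ 2 / θ) (hc : c ≤ A * (E * θ) * Sg) :
    c ≤ E * Y ^ κ := by
  have f1 : θ * Sg ≤ θ * (Jc + 12 * K * N ^ 2 / θ) :=
    mul_le_mul_of_nonneg_left hSg hθ.le
  have f2 : θ * (Jc + 12 * K * N ^ 2 / θ) = Jc * θ + 12 * K * N ^ 2 := by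
    field_simp
  have f3 : (1 : ℝ) ≤ K * N ^ 2 := by
    have : (1 : ℝ) ≤ N ^ 2 := one_le_pow₀ hN1
    nlinarith
  have htot : θ * Sg ≤ 14 * K * N ^ 2 := by linarith
  have hA0 : 0 < A := by linarith
  calc c ≤ A * (E * θ) * Sg := hc
    _ = A * E * (θ * Sg) := by ring
    _ ≤ A * E * (14 * K * N ^ 2) := mul_le_mul_of_nonneg_left htot (by positivity)
    _ = E * (14 * A * K * N ^ 2) := by ring
    _ ≤ E * (14 * A * K * B) := by
        apply mul_le_mul_of_nonneg_left _ hE.le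
        exact mul_le_mul_of_nonneg_left hN2 (by positivity)
    _ ≤ E * Y ^ κ := mul_le_mul_of_nonneg_left HL hE.le

/-- the points: choice of the caps -/
private lemma points {n N : ℕ} (hn : 1 ≤ n) (h2 : S_MxEx) {A Y H lam θ E K C₀ : ℝ} (hA : 1 ≤ A)
    (hY1 : 1 ≤ Y) (hθ : 0 < θ) (hθ4 : θ ≤ 1 / 4) (hθY : 1 ≤ θ * Y) (hHY : H ≤ A * Y)
    (hC₀ : 1 ≤ C₀) (hK : 1 ≤ K) (hYg : C₀ * A * 4 ^ n < Y)
    (hN : N = ⌊2 * Real.log (A * Y)⌋₊ + 1)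
    (HInt : ∀ (P : ℤ[X]) (c a b t : ℝ), P.natDegree = n → P ≠ 0 → 0 < t → t ≤ 1 → t ≤ b - a →
      |a| ≤ 3 → Sl (rp P) c a b → t ^ n ≤ C₀ * c)
    (HT : ∀ (a : ℝ) (P Q : ℤ[X]), |a| ≤ 1 → Irreducible P → Irreducible Q →
      P.natDegree = n → Q.natDegree = n → Hb P H → Hb Q H →
      Sl (rp P) (A / Y) a (a + θ) → Sl (rp Q) (A / Y) a (a + θ) → P = Q ∨ P = -Q)
    (HP : ∀ (ξ₀ : ℝ) (S : Finset (Fin (n + 1) → ℤ)), |ξ₀| ≤ 1 →
      (∀ x ∈ S, ∃ ξ : ℝ, ξ₀ ≤ ξ ∧ ξ ≤ ξ₀ + θ ∧ Nr n Y lam ξ x) →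
      ∃ M : Finset ℤ[X], (∀ P ∈ M, P.natDegree ≤ n ∧ Hb P H ∧
        Sl (rp P) (A / Y) ξ₀ (ξ₀ + θ)) ∧ (S.card : ℝ) ≤ A * (E * θ) * M.card)
    (F : ℕ → ℕ → Finset (ℝ × ℝ))
    (hF : ∀ m l : ℕ, (2 : ℝ) ^ m ≤ H → θ * 2 ^ l ≤ 1 / 2 → ∀ p, p ∈ F m l ↔
      Cls n (H / 2 ^ m) (A / (Y * 2 ^ m)) (θ * 2 ^ l) p.1 p.2)
    (hcls : ∀ m l : ℕ, (2 : ℝ) ^ m ≤ H → θ * 2 ^ l ≤ 1 / 2 →
      (2 : ℝ) ^ m ≤ (θ * 2 ^ l) ^ (-(3 / 10) : ℝ) →
        ((F m l).card : ℝ) ≤ K / (θ * 2 ^ l * 2 ^ m))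
    (T : Finset (ℝ × ℝ))
    (hTR3 : ∀ a : ℝ, 0 ≤ a → a ≤ 1 → Bad n H (A / Y) a (a + θ) →
      ∀ ξ : ℝ, a ≤ ξ → ξ ≤ a + θ → ∃ p ∈ T, |ξ - p.1| ≤ p.2)
    (hTB3 : ∀ m l : ℕ, m < N → l < N → (2 : ℝ) ^ m ≤ H → θ * 2 ^ l ≤ 1 / 2 →
      (θ * 2 ^ l) ^ (-(3 / 10) : ℝ) ≤ 2 ^ m → ∀ p ∈ F m l,
      ((p.1 + p.2) / 2, (p.2 - p.1) / 2) ∈ T)
    (S : Finset (Fin (n + 1) → ℤ))
    (hS : ∀ x ∈ S, ∃ ξ : ℝ, 0 ≤ ξ ∧ ξ ≤ 1 ∧ Nr n Y lam ξ x ∧ ∀ p ∈ T, p.2 < |ξ - p.1|) :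
    ∃ Jc Sg : ℝ, Jc * θ ≤ 2 ∧ Sg ≤ Jc + 12 * K * (N : ℝ) ^ 2 / θ ∧
      (S.card : ℝ) ≤ A * (E * θ) * Sg := by
  classical
  choose! ξ hξ using hS
  set jf : (Fin (n + 1) → ℤ) → ℕ := fun x => ⌊ξ x / θ⌋₊ with hjf
  have hj1 : ∀ x ∈ S, (jf x : ℝ) * θ ≤ ξ x := by
    intro x hx
    have := Nat.floor_le (show 0 ≤ ξ x / θ from div_nonneg (hξ x hx).1 hθ.le)
    rwa [le_div_iff₀ hθ] at this
  have hj2 : ∀ x ∈ S, ξ x ≤ (jf x : ℝ) * θ + θ := by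
    intro x hx
    have := Nat.lt_floor_add_one (ξ x / θ)
    rw [div_lt_iff₀ hθ] at this
    simp only [hjf]
    linarith
  set J := S.image jf with hJ
  have hJx : ∀ j ∈ J, ∃ x ∈ S, jf x = j := fun j hj => Finset.mem_image.mp hj
  have hJ01 : ∀ j ∈ J, 0 ≤ (j : ℝ) * θ ∧ (j : ℝ) * θ ≤ 1 := by
    intro j hj
    obtain ⟨x, hx, rfl⟩ := hJx j hj
    exact ⟨by positivity, le_trans (hj1 x hx) (hξ x hx).2.1⟩
  have hpts : ∀ j ∈ J, ∃ M : Finset ℤ[X],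
      (∀ P ∈ M, P.natDegree ≤ n ∧ Hb P H ∧
        Sl (rp P) (A / Y) ((j : ℝ) * θ) ((j : ℝ) * θ + θ)) ∧
      ((S.filter fun x => jf x = j).card : ℝ) ≤ A * (E * θ) * M.card := by
    intro j hj
    obtain ⟨h01, h02⟩ := hJ01 j hj
    refine HP ((j : ℝ) * θ) (S.filter fun x => jf x = j)
      (by rw [abs_le]; constructor <;> linarith) ?_
    intro x hx
    obtain ⟨hxS, hxj⟩ := Finset.mem_filter.mp hx
    refine ⟨ξ x, ?_, ?_, (hξ x hxS).2.2.1⟩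
    · rw [← hxj]
      exact hj1 x hxS
    · rw [← hxj]
      exact hj2 x hxS
  choose! M hM1 hM2 using hpts
  have hAY0 : 0 < A * Y := by positivity
  have hgJ : ∀ j ∈ J, ((M j).card : ℝ) ≤ 1 ∨ ∃ m l : ℕ, m < N ∧ l < N ∧
      ((2 : ℝ) ^ m ≤ H ∧ θ * 2 ^ l ≤ 1 / 2 ∧
        (2 : ℝ) ^ m ≤ (θ * 2 ^ l) ^ (-(3 / 10) : ℝ)) ∧ ∃ p ∈ F m l,
      p.1 ≤ j * θ ∧ j * θ + θ ≤ p.2 ∧ ((M j).card : ℝ) ≤ 6 * 2 ^ m := by
    intro j hj
    obtain ⟨h01, h02⟩ := hJ01 j hj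
    obtain ⟨x₀, hx₀, hxj⟩ := hJx j hj
    have hξ1 : (j : ℝ) * θ ≤ ξ x₀ := by
      rw [← hxj]
      exact hj1 x₀ hx₀
    have hξ2 : ξ x₀ ≤ (j : ℝ) * θ + θ := by
      rw [← hxj]
      exact hj2 x₀ hx₀
    have hunc := (hξ x₀ hx₀).2.2.2
    have hnb : ¬ Bad n H (A / Y) ((j : ℝ) * θ) ((j : ℝ) * θ + θ) := by
      intro hb
      obtain ⟨p, hp, hpξ⟩ := hTR3 ((j : ℝ) * θ) h01 h02 hb (ξ x₀) hξ1 hξ2
      exact absurd hpξ (not_le.mpr (hunc p hp))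
    rcases cap_struct h2 (n := n) hn hA hY1 hθ hθ4 h01 h02 hC₀ HInt hYg
      (fun P Q e1 e2 e3 e4 e5 e6 e7 e8 => HT ((j : ℝ) * θ) P Q
        (by rw [abs_le]; constructor <;> linarith) e1 e2 e3 e4 e5 e6 e7 e8) hnb (M j)
      (hM1 j hj) with h | ⟨m, l, a', b', hm, hl, hc, ha', hb', hcard⟩
    · left
      exact_mod_cast h
    · right
      have hmN : m < N := by
        rw [hN]
        exact lt_N (le_trans hm hHY)
      have hlN : l < N := by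
        rw [hN]
        apply lt_N
        have h2l : (2 : ℝ) ^ l ≤ Y := by
          have hp : (0 : ℝ) < 2 ^ l := by positivity
          have g1 : (2 : ℝ) ^ l * 1 ≤ 2 ^ l * (θ * Y) := mul_le_mul_of_nonneg_left hθY hp.le
          have g2 : θ * 2 ^ l * Y ≤ 1 / 2 * Y := mul_le_mul_of_nonneg_right hl (by linarith)
          have g3 : (2 : ℝ) ^ l * (θ * Y) = θ * 2 ^ l * Y := by ring
          linarith
        have g4 : 1 * Y ≤ A * Y := mul_le_mul_of_nonneg_right hA (by linarith)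
        linarith
      have hpF : (a', b') ∈ F m l := (hF m l hm hl (a', b')).mpr hc
      have hgood : (2 : ℝ) ^ m ≤ (θ * 2 ^ l) ^ (-(3 / 10) : ℝ) := by
        by_contra hcon
        push Not at hcon
        have hT := hTB3 m l hmN hlN hm hl hcon.le (a', b') hpF
        have := hunc _ hT
        simp only at this
        have habs : |ξ x₀ - (a' + b') / 2| ≤ (b' - a') / 2 := by
          rw [abs_le]
          constructor <;> linarith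
        exact absurd habs (not_le.mpr this)
      refine ⟨m, l, hmN, hlN, ⟨hm, hl, hgood⟩, (a', b'), hpF, ha', hb', ?_⟩
      exact_mod_cast hcard
  have hsum := sum_caps J (fun j => ((M j).card : ℝ)) N F
    (fun m l => (2 : ℝ) ^ m ≤ H ∧ θ * 2 ^ l ≤ 1 / 2 ∧
      (2 : ℝ) ^ m ≤ (θ * 2 ^ l) ^ (-(3 / 10) : ℝ)) θ K hθ (by linarith)
    (fun m l hg => hcls m l hg.1 hg.2.1 hg.2.2)
    (by
      intro m l hg p hp
      obtain ⟨P, _, _, _, hMx, hp1, hp2, _⟩ := (hF m l hg.1 hg.2.1 p).mp hp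
      exact ⟨sub_nonneg.mpr hMx.1.le, hp2⟩) hgJ
  have hJc : (J.card : ℝ) * θ ≤ 2 := by
    have := card_caps J θ 0 (1 + θ) hθ (by linarith) (fun j hj => by
      obtain ⟨h01, h02⟩ := hJ01 j hj
      exact ⟨h01, by linarith⟩)
    linarith
  refine ⟨J.card, _, hJc, hsum, ?_⟩
  have hScard : (S.card : ℝ) = ∑ j ∈ J, ((S.filter fun x => jf x = j).card : ℝ) := by
    rw [Finset.card_eq_sum_card_image jf S]
    push_cast
    rfl
  rw [hScard, Finset.mul_sum]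
  exact Finset.sum_le_sum fun j hj => hM2 j hj

end Pool.Agent.MP211V.Cnt

namespace Pool.Agent.MP211V

open Polynomial Cnt

/-- **Cnt.** -/
theorem vCnt (h1 : S_Int) (h2 : S_MxEx) (h3 : S_Count) (h4 : S_Pts) (h5 : S_Two) (h6 : S_Irr)
    (h7 : S_Red) : S_Cnt := by
  intro n lam s' κ hn hl1 hl2 hs hs1 hκ
  classical
  have hn' : (4 : ℝ) ≤ n := by exact_mod_cast hn
  have hlam : 0 < lam := lt_trans (by positivity) hl1
  have hlam1 : lam < 1 := by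
    refine lt_of_lt_of_le hl2 ?_
    rw [div_le_one (by linarith)]
    linarith
  have hs34 : 3 / 4 < s' := lt_trans (sdim_gt hn hl1 hl2) hs
  obtain ⟨A, Y₁, hA, hY₁, HP⟩ := h4 n lam (by omega) hlam hlam1
  obtain ⟨Y₂, hY₂, HT⟩ := h5 n lam A (by omega) hlam hl2 hA
  obtain ⟨K, Y₃, hK, hY₃, HI⟩ := h6 n lam A hn hl1 hl2 hA
  obtain ⟨ε₁, Y₄, hε₁, hY₄, HR⟩ := h7 n lam s' A hn hl1 hl2 hs hs1 hA
  obtain ⟨C₀, hC₀, HInt'⟩ := h1 n
  have HInt : ∀ (P : ℤ[X]) (c a b t : ℝ), P.natDegree = n → P ≠ 0 → 0 < t → t ≤ 1 →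
      t ≤ b - a → |a| ≤ 3 → Sl (rp P) c a b → t ^ n ≤ C₀ * c :=
    fun P c a b t e1 e2 e3 e4 e5 e6 e7 => (HInt' P c a b t e1 e2 e3 e4 e5 e6 e7).2
  set δ : ℝ := 1 / (40 * (n : ℝ)) with hδdef
  have hδ : 0 < δ := by positivity
  obtain ⟨Y₅, hY₅, HL1⟩ := log_bound (K * (C₀ * A) ^ (1 / (20 * (n : ℝ)))) δ A hδ hA
  obtain ⟨Y₆, hY₆, HL2⟩ := log_bound (14 * A * K) κ A hκ hA
  have hε : 0 < min ε₁ δ / 2 := by
    have : 0 < min ε₁ δ := lt_min hε₁ hδ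
    positivity
  have hCA : 0 < C₀ * A * 4 ^ n := by positivity
  have h2ε : 0 < (2 : ℝ) ^ (1 / (min ε₁ δ / 2)) := by positivity
  refine ⟨min ε₁ δ / 2, Y₁ + Y₂ + Y₃ + Y₄ + Y₅ + Y₆ + 16 + C₀ * A * 4 ^ n + 1 +
    (2 : ℝ) ^ (1 / (min ε₁ δ / 2)), hε, by linarith, fun Y hY => ?_⟩
  have hYa : Y₁ ≤ Y := by linarith
  have hYb : Y₂ ≤ Y := by linarith
  have hYc : Y₃ ≤ Y := by linarith
  have hYd : Y₄ ≤ Y := by linarith
  have hYe : Y₅ ≤ Y := by linarith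
  have hYf : Y₆ ≤ Y := by linarith
  have hY16 : 16 ≤ Y := by linarith
  have hYg : C₀ * A * 4 ^ n < Y := by linarith
  have hYh : (2 : ℝ) ^ (1 / (min ε₁ δ / 2)) ≤ Y := by linarith
  clear hY hY₁ hY₂ hY₃ hY₄ hY₅ hY₆ hCA h2ε
  have hY1 : 1 ≤ Y := by linarith
  have hY0 : 0 < Y := by linarith
  have hA0 : 0 < A := by linarith
  have hAY : 1 ≤ A * Y := by nlinarith
  obtain ⟨hθ, hθ4, hθY⟩ := theta_facts hlam hlam1 hY16
  have hHY : A * Y ^ lam ≤ A * Y := by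
    apply mul_le_mul_of_nonneg_left _ hA0.le
    calc Y ^ lam ≤ Y ^ (1 : ℝ) := Real.rpow_le_rpow_of_exponent_le hY1 hlam1.le
      _ = Y := Real.rpow_one Y
  obtain ⟨N, hN⟩ : ∃ N : ℕ, N = ⌊2 * Real.log (A * Y)⌋₊ + 1 := ⟨_, rfl⟩
  have hlog0 : 0 ≤ Real.log (A * Y) := Real.log_nonneg hAY
  have hN1 : (1 : ℝ) ≤ N := by
    rw [hN]
    push_cast
    have : (0 : ℝ) ≤ ⌊2 * Real.log (A * Y)⌋₊ := Nat.cast_nonneg _
    linarith
  have hNle : (N : ℝ) ≤ 2 * Real.log (A * Y) + 2 := by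
    rw [hN]
    push_cast
    have := Nat.floor_le (show 0 ≤ 2 * Real.log (A * Y) by linarith)
    linarith
  have hN2 : (N : ℝ) ^ 2 ≤ (2 * Real.log (A * Y) + 2) ^ 2 :=
    pow_le_pow_left₀ (by linarith) hNle 2
  -- the classes
  have hex : ∀ m l : ℕ, ∃ F : Finset (ℝ × ℝ), (2 : ℝ) ^ m ≤ A * Y ^ lam →
      th lam Y * 2 ^ l ≤ 1 / 2 → ∀ p, p ∈ F ↔
        Cls n (A * Y ^ lam / 2 ^ m) (A / (Y * 2 ^ m)) (th lam Y * 2 ^ l) p.1 p.2 := by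
    intro m l
    by_cases hml : (2 : ℝ) ^ m ≤ A * Y ^ lam ∧ th lam Y * 2 ^ l ≤ 1 / 2
    · obtain ⟨F, hF⟩ := finite_class h3 (d := n) (by omega) (h := A * Y ^ lam / 2 ^ m)
        (ω := Y ^ (-1 - lam)) (t := th lam Y * 2 ^ l)
        (by rw [le_div_iff₀ (by positivity), one_mul]; exact hml.1)
        (by positivity) (by positivity) (le_trans hml.2 (by norm_num))
      refine ⟨F, fun _ _ p => ?_⟩
      rw [hF p, cls_eq m hY0]
    · refine ⟨∅, fun e1 e2 => absurd ⟨e1, e2⟩ hml⟩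
  choose F hF using hex
  have hcls : ∀ m l : ℕ, (2 : ℝ) ^ m ≤ A * Y ^ lam → th lam Y * 2 ^ l ≤ 1 / 2 →
      ((2 : ℝ) ^ m ≤ (th lam Y * 2 ^ l) ^ (-(3 / 10) : ℝ) →
        ((F m l).card : ℝ) ≤ K / (th lam Y * 2 ^ l * 2 ^ m)) ∧
      ((th lam Y * 2 ^ l) ^ (-(3 / 10) : ℝ) ≤ 2 ^ m →
        ((F m l).card : ℝ) ≤ K * (th lam Y * 2 ^ l) ^ (-(7 / 10) : ℝ)) := by
    intro m l e1 e2
    have h2l : (1 : ℝ) ≤ 2 ^ l := one_le_pow₀ (by norm_num)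
    exact HI Y (2 ^ m) (th lam Y * 2 ^ l) (F m l) hYc (one_le_pow₀ (by norm_num))
      (le_mul_of_one_le_right hθ.le h2l) e2 (fun p hp => (hF m l e1 e2 p).mp hp)
  obtain ⟨TR, hTR1, hTR2, hTR3⟩ := HR Y hYd
  obtain ⟨TB, hTB1, hTB2, hTB3⟩ := bad_family (n := n) (N := N) (by omega) (A := A) (Y := Y)
    (H := A * Y ^ lam) (θ := th lam Y) (s' := s') (K := K) (C₀ := C₀) hA hY1 hθ hs34 hK hC₀
    HInt F hF (fun m l e1 e2 e3 => (hcls m l e1 e2).2 e3)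
  refine ⟨TR ∪ TB, ?_, ?_, ?_⟩
  · intro p hp
    rcases Finset.mem_union.mp hp with h | h
    · exact hTR1 p h
    · exact hTB1 p h
  · have e1 : ∑ p ∈ TR ∪ TB, p.2 ^ s' ≤ ∑ p ∈ TR, p.2 ^ s' + ∑ p ∈ TB, p.2 ^ s' := by
      have e2 := Finset.sum_union_inter (s₁ := TR) (s₂ := TB) (f := fun p : ℝ × ℝ => p.2 ^ s')
      have e3 : 0 ≤ ∑ p ∈ TR ∩ TB, p.2 ^ s' := by
        refine Finset.sum_nonneg fun p hp => ?_
        have := hTB1 p (Finset.mem_inter.mp hp).2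
        exact Real.rpow_nonneg (by linarith) _
      linarith
    have e4 := total_small (ε₁ := ε₁) (by omega) hδdef hK hC₀ hA hY1 hε hN2 (HL1 Y hYe) hYh
    linarith
  · intro S hS
    obtain ⟨Jc, Sg, g1, g2, g3⟩ := points (n := n) (N := N) (by omega) h2 (A := A) (Y := Y)
      (H := A * Y ^ lam) (lam := lam) (θ := th lam Y) (E := Y ^ (2 - ((n : ℝ) - 1) * lam))
      (K := K) (C₀ := C₀) hA hY1 hθ hθ4 hθY hHY hC₀ hK hYg hN HInt
      (fun a P Q e0 e1 e2 e3 e4 e5 e6 e7 e8 => HT Y a P Q hYb e0 e1 e2 e3 e4 e5 e6 e7 e8)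
      (fun ξ₀ S' e0 e1 => HP Y ξ₀ S' hYa e0 e1) F hF
      (fun m l e1 e2 e3 => (hcls m l e1 e2).1 e3) (TR ∪ TB)
      (fun a e1 e2 e3 ξ e4 e5 => by
        obtain ⟨p, hp, hp'⟩ := hTR3 a e1 e2 e3 ξ e4 e5
        exact ⟨p, Finset.mem_union_left _ hp, hp'⟩)
      (fun m l e1 e2 e3 e4 e5 p hp => Finset.mem_union_right _ (hTB3 m l e1 e2 e3 e4 e5 p hp))
      S hS
    have g4 := final_est (Y := Y) (κ := κ) hA hK hN1 hθ
      (show 0 < Y ^ (2 - ((n : ℝ) - 1) * lam) by positivity) hN2 (HL2 Y hYf) g1 g2 g3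
    rwa [Real.rpow_add hY0]

end Pool.Agent.MP211V
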