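import Pool.Agent.Lib.MP_211f72_nt.V.Spec

set_option autoImplicit false

namespace Pool.Agent.MP211V

open Polynomial in
theorem vCoef : S_Coef := by
  intro n
  obtain ⟨v, hvdef⟩ : ∃ v : Fin (n + 1) → ℝ, v = fun i : Fin (n + 1) => ((i : ℕ) : ℝ) / ((n : ℝ) + 1) := ⟨_, rfl⟩
  have hn : (0 : ℝ) < (n : ℝ) + 1 := by positivity
  have hv : Set.InjOn v (↑(Finset.univ : Finset (Fin (n + 1)))) := by
    intro i _ j _ hij
    rw [hvdef] at hij
    simp only at hij
    have h1 : ((i : ℕ) : ℝ) = ((j : ℕ) : ℝ) := by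
      field_simp at hij
      exact hij
    exact Fin.ext (by exact_mod_cast h1)
  have hv0 : ∀ i, 0 ≤ v i := by
    intro i
    rw [hvdef]
    positivity
  have hv1 : ∀ i, v i ≤ 1 := by
    intro i
    rw [hvdef]
    simp only
    rw [div_le_one hn]
    have := i.isLt
    exact_mod_cast this.le
  have hnn : 0 ≤ ∑ i : Fin (n + 1), ∑ k ∈ Finset.range (n + 1),
      |(Lagrange.basis Finset.univ v i).coeff k| :=
    Finset.sum_nonneg fun i _ => Finset.sum_nonneg fun k _ => abs_nonneg _
  refine ⟨1 + ∑ i : Fin (n + 1), ∑ k ∈ Finset.range (n + 1),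
      |(Lagrange.basis Finset.univ v i).coeff k|, by linarith, ?_⟩
  intro P a hP hS j
  have ha : 0 ≤ a := le_trans (abs_nonneg _) (hS 0 le_rfl zero_le_one)
  by_cases hj : j ≤ n
  · have hdeg : P.degree < (Finset.univ : Finset (Fin (n + 1))).card := by
      rw [Finset.card_univ, Fintype.card_fin]
      refine lt_of_le_of_lt degree_le_natDegree ?_
      exact_mod_cast Nat.lt_succ_of_le hP
    have hint := Lagrange.eq_interpolate hv hdeg
    have hc : P.coeff j = ∑ i : Fin (n + 1), P.eval (v i) * (Lagrange.basis Finset.univ v i).coeff j := by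
      conv_lhs => rw [hint]
      rw [Lagrange.interpolate_apply, finsetSum_coeff]
      refine Finset.sum_congr rfl fun i _ => ?_
      rw [coeff_C_mul]
    rw [hc]
    refine le_trans (Finset.abs_sum_le_sum_abs _ _) ?_
    have h1 : ∀ i ∈ (Finset.univ : Finset (Fin (n + 1))),
        |P.eval (v i) * (Lagrange.basis Finset.univ v i).coeff j| ≤
        (∑ k ∈ Finset.range (n + 1), |(Lagrange.basis Finset.univ v i).coeff k|) * a := by
      intro i _
      rw [abs_mul, mul_comm]
      refine mul_le_mul ?_ (hS (v i) (hv0 i) (hv1 i)) (abs_nonneg _) ?_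
      · exact Finset.single_le_sum (f := fun k => |(Lagrange.basis Finset.univ v i).coeff k|)
          (fun k _ => abs_nonneg _) (Finset.mem_range.2 (Nat.lt_succ_of_le hj))
      · exact Finset.sum_nonneg fun k _ => abs_nonneg _
    refine le_trans (Finset.sum_le_sum h1) ?_
    rw [← Finset.sum_mul]
    refine mul_le_mul_of_nonneg_right ?_ ha
    linarith
  · have hz : P.coeff j = 0 := coeff_eq_zero_of_natDegree_lt (by omega)
    rw [hz, abs_zero]
    exact mul_nonneg (by linarith) ha

end Pool.Agent.MP211V
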