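import Pool.Agent.Lib.MP_211f72_nt.V.Spec

set_option autoImplicit false

namespace Pool.Agent.MP211V

open Polynomial

namespace Count

theorem rp_neg (P : ℤ[X]) : rp (-P) = - rp P := by
  unfold rp
  exact Polynomial.map_neg (Int.castRingHom ℝ)

theorem sl_neg {P : ℝ[X]} {c a b : ℝ} (h : Sl P c a b) : Sl (-P) c a b := by
  intro x h1 h2
  rw [Polynomial.eval_neg, abs_neg]
  exact h x h1 h2

theorem mx_neg {P : ℝ[X]} {c a b : ℝ} (h : Mx P c a b) : Mx (-P) c a b := by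
  refine ⟨h.1, sl_neg h.2.1, fun a' b' h1 h2 h3 => h.2.2 a' b' h1 h2 ?_⟩
  have h4 := sl_neg h3
  rwa [neg_neg] at h4

theorem natDegree_rp (P : ℤ[X]) : (rp P).natDegree = P.natDegree := by
  unfold rp
  exact Polynomial.natDegree_map_eq_of_injective (RingHom.injective_int (Int.castRingHom ℝ)) P

/-- the conclusion of `Sep` -/
def SB (d : ℕ) (C : ℝ) : Prop :=
  ∀ (P Q : ℤ[X]) (h ω t β a₁ b₁ a₂ b₂ : ℝ), Irreducible P → Irreducible Q → P.natDegree = d →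
  Q.natDegree = d → P ≠ Q → P ≠ -Q → 1 ≤ h → 0 < ω → 0 < t → t ≤ 1 → 0 < β → β ≤ 1 →
  |a₁| ≤ 3 → |a₂| ≤ 3 → Hb P h → Hb Q h → Sl (rp P) (h * ω) a₁ b₁ → Sl (rp Q) (h * ω) a₂ b₂ →
  t ≤ b₁ - a₁ → t ≤ b₂ - a₂ → |a₁ - a₂| ≤ t ^ β →
  1 ≤ C * h ^ (2 * d) * (ω ^ 3 / t ^ 2) ^ β ∧
  (ω ≤ t ^ (1 + β) → 1 ≤ C * h ^ (2 * d) * ω ^ (2 * β)) ∧
  (t ^ (1 + β) ≤ ω → 1 ≤ C * h ^ (2 * d) * (t ^ β * (ω / t) ^ 3))

/-- maximal intervals of one polynomial (up to the sign) -/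
theorem card_fib (h2 : S_MxCard) {d : ℕ} (hd : 1 ≤ d) {c : ℝ} (T : Finset (ℝ × ℝ))
    (P : ℝ × ℝ → ℤ[X]) (hdeg : ∀ p ∈ T, (P p).natDegree = d)
    (hmx : ∀ p ∈ T, Mx (rp (P p)) c p.1 p.2)
    (heq : ∀ p ∈ T, ∀ q ∈ T, P p = P q ∨ P p = - P q) : T.card ≤ 2 * d := by
  rcases T.eq_empty_or_nonempty with hT | ⟨p0, hp0⟩
  · rw [hT]
    simp
  · have hdeg0 : (rp (P p0)).natDegree = d := by rw [natDegree_rp, hdeg p0 hp0]
    have h3 := h2 (rp (P p0)) c T (by omega) (by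
      intro p hp
      rcases heq p hp p0 hp0 with h | h
      · rw [← h]
        exact hmx p hp
      · have h5 : P p0 = - P p := by rw [h, neg_neg]
        rw [h5, rp_neg]
        exact mx_neg (hmx p hp))
    rwa [hdeg0] at h3

theorem abs_floor {h : ℝ} {c : ℤ} (hc : |(c : ℝ)| ≤ h) : c ∈ Finset.Icc (-⌊h⌋) ⌊h⌋ := by
  rw [abs_le] at hc
  rw [Finset.mem_Icc]
  constructor
  · have h1 : -c ≤ ⌊h⌋ := Int.le_floor.mpr (by push_cast; linarith [hc.1])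
    omega
  · exact Int.le_floor.mpr hc.2

/-- part (i) -/
theorem part1 (h2 : S_MxCard) {d : ℕ} (hd : 1 ≤ d) {h c : ℝ} (hh : 1 ≤ h)
    (S : Finset (ℝ × ℝ)) (P : ℝ × ℝ → ℤ[X]) (hdeg : ∀ p ∈ S, (P p).natDegree = d)
    (hmx : ∀ p ∈ S, Mx (rp (P p)) c p.1 p.2) (hb : ∀ p ∈ S, Hb (P p) h) :
    (S.card : ℝ) ≤ (2 * d * 3 ^ (d + 1)) * h ^ (d + 1) := by
  classical
  set f : ℝ × ℝ → (Fin (d + 1) → ℤ) := fun p i => (P p).coeff i with hf
  have h3 : S.card ≤ 2 * d * (S.image f).card := by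
    refine Finset.card_le_mul_card_image S (2 * d) ?_
    intro a _
    refine card_fib h2 hd (c := c) _ P ?_ ?_ ?_
    · intro p hp
      exact hdeg p (Finset.mem_filter.mp hp).1
    · intro p hp
      exact hmx p (Finset.mem_filter.mp hp).1
    · intro p hp q hq
      left
      obtain ⟨hp1, hp2⟩ := Finset.mem_filter.mp hp
      obtain ⟨hq1, hq2⟩ := Finset.mem_filter.mp hq
      ext n
      rcases Nat.lt_or_ge n (d + 1) with hn | hn
      · have h4 : f p ⟨n, hn⟩ = f q ⟨n, hn⟩ := by rw [hp2, hq2]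
        exact h4
      · rw [Polynomial.coeff_eq_zero_of_natDegree_lt (by rw [hdeg p hp1]; omega),
          Polynomial.coeff_eq_zero_of_natDegree_lt (by rw [hdeg q hq1]; omega)]
  have h4 : S.image f ⊆ Fintype.piFinset (fun _ : Fin (d + 1) => Finset.Icc (-⌊h⌋) ⌊h⌋) := by
    intro a ha
    obtain ⟨p, hp, rfl⟩ := Finset.mem_image.mp ha
    rw [Fintype.mem_piFinset]
    intro i
    exact abs_floor (hb p hp i)
  have h5 := Finset.card_le_card h4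
  rw [Fintype.card_piFinset_const, Int.card_Icc] at h5
  have hfl : (1 : ℤ) ≤ ⌊h⌋ := Int.le_floor.mpr (by push_cast; exact hh)
  have h6 : (((⌊h⌋ + 1 - -⌊h⌋).toNat : ℕ) : ℝ) ≤ 3 * h := by
    have h7 : (((⌊h⌋ + 1 - -⌊h⌋).toNat : ℤ)) = ⌊h⌋ + 1 - -⌊h⌋ := Int.toNat_of_nonneg (by omega)
    have h8 : (((⌊h⌋ + 1 - -⌊h⌋).toNat : ℕ) : ℝ) = (⌊h⌋ : ℝ) + 1 + ⌊h⌋ := by
      have h9 : ((((⌊h⌋ + 1 - -⌊h⌋).toNat : ℕ) : ℤ) : ℝ) = ((⌊h⌋ + 1 - -⌊h⌋ : ℤ) : ℝ) := by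
        rw [h7]
      rw [Int.cast_natCast] at h9
      rw [h9]
      push_cast
      ring
    rw [h8]
    have h10 := Int.floor_le h
    linarith
  have h11 : ((S.image f).card : ℝ) ≤ (3 * h) ^ (d + 1) := by
    have h12 : ((S.image f).card : ℝ) ≤ (((⌊h⌋ + 1 - -⌊h⌋).toNat : ℕ) : ℝ) ^ (d + 1) := by
      exact_mod_cast h5
    exact h12.trans (pow_le_pow_left₀ (Nat.cast_nonneg _) h6 _)
  have h13 : (S.card : ℝ) ≤ 2 * d * ((S.image f).card : ℝ) := by exact_mod_cast h3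
  calc (S.card : ℝ) ≤ 2 * d * ((S.image f).card : ℝ) := h13
    _ ≤ 2 * d * (3 * h) ^ (d + 1) := mul_le_mul_of_nonneg_left h11 (by positivity)
    _ = (2 * d * 3 ^ (d + 1)) * h ^ (d + 1) := by rw [mul_pow]; ring

/-- part (ii), counting of the cells -/
theorem part2 (h2 : S_MxCard) {d : ℕ} (hd : 1 ≤ d) {c t β : ℝ} (ht : 0 < t) (ht1 : t ≤ 1)
    (hβ : 0 < β) (S : Finset (ℝ × ℝ)) (P : ℝ × ℝ → ℤ[X])
    (hdeg : ∀ p ∈ S, (P p).natDegree = d) (hmx : ∀ p ∈ S, Mx (rp (P p)) c p.1 p.2)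
    (hab : ∀ p ∈ S, |p.1| ≤ 2)
    (heq : ∀ p ∈ S, ∀ q ∈ S, |p.1 - q.1| ≤ t ^ β → P p = P q ∨ P p = - P q) :
    (S.card : ℝ) ≤ (10 * d) * t ^ (-β) := by
  classical
  have htb : 0 < t ^ β := Real.rpow_pos_of_pos ht β
  have htb1 : t ^ β ≤ 1 := Real.rpow_le_one ht.le ht1 hβ.le
  set g : ℝ × ℝ → ℤ := fun p => ⌊(p.1 + 2) / t ^ β⌋ with hg
  have h3 : S.card ≤ 2 * d * (S.image g).card := by
    refine Finset.card_le_mul_card_image S (2 * d) ?_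
    intro a _
    refine card_fib h2 hd (c := c) _ P ?_ ?_ ?_
    · intro p hp
      exact hdeg p (Finset.mem_filter.mp hp).1
    · intro p hp
      exact hmx p (Finset.mem_filter.mp hp).1
    · intro p hp q hq
      obtain ⟨hp1, hp2⟩ := Finset.mem_filter.mp hp
      obtain ⟨hq1, hq2⟩ := Finset.mem_filter.mp hq
      refine heq p hp1 q hq1 ?_
      have h4 : |(p.1 + 2) / t ^ β - (q.1 + 2) / t ^ β| < 1 :=
        Int.abs_sub_lt_one_of_floor_eq_floor (show g p = g q by rw [hp2, hq2])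
      have h5 : (p.1 + 2) / t ^ β - (q.1 + 2) / t ^ β = (p.1 - q.1) / t ^ β := by ring
      rw [h5, abs_div, abs_of_pos htb, div_lt_one htb] at h4
      exact h4.le
  have h4 : S.image g ⊆ Finset.Icc 0 ⌊4 / t ^ β⌋ := by
    intro a ha
    obtain ⟨p, hp, rfl⟩ := Finset.mem_image.mp ha
    have h5 := abs_le.mp (hab p hp)
    rw [Finset.mem_Icc]
    constructor
    · exact Int.floor_nonneg.mpr (div_nonneg (by linarith [h5.1]) htb.le)
    · exact Int.floor_le_floor (div_le_div_of_nonneg_right (by linarith [h5.2]) htb.le)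
  have h5 := Finset.card_le_card h4
  rw [Int.card_Icc] at h5
  have hfl : (0 : ℤ) ≤ ⌊4 / t ^ β⌋ := Int.floor_nonneg.mpr (by positivity)
  have h6 : (((⌊4 / t ^ β⌋ + 1 - 0).toNat : ℕ) : ℝ) ≤ 5 * t ^ (-β) := by
    have h7 : (((⌊4 / t ^ β⌋ + 1 - 0).toNat : ℤ)) = ⌊4 / t ^ β⌋ + 1 - 0 :=
      Int.toNat_of_nonneg (by omega)
    have h8 : (((⌊4 / t ^ β⌋ + 1 - 0).toNat : ℕ) : ℝ) = (⌊4 / t ^ β⌋ : ℝ) + 1 := by
      have h9 : ((((⌊4 / t ^ β⌋ + 1 - 0).toNat : ℕ) : ℤ) : ℝ) = ((⌊4 / t ^ β⌋ + 1 - 0 : ℤ) : ℝ) := by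
        rw [h7]
      rw [Int.cast_natCast] at h9
      rw [h9]
      push_cast
      ring
    rw [h8, Real.rpow_neg ht.le]
    have h10 := Int.floor_le (4 / t ^ β)
    have h11 : 1 ≤ (t ^ β)⁻¹ := (one_le_inv₀ htb).mpr htb1
    rw [div_eq_mul_inv] at h10
    rw [div_eq_mul_inv]
    linarith
  have h11 : ((S.image g).card : ℝ) ≤ 5 * t ^ (-β) := by
    have h12 : ((S.image g).card : ℝ) ≤ (((⌊4 / t ^ β⌋ + 1 - 0).toNat : ℕ) : ℝ) := by
      exact_mod_cast h5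
    exact h12.trans h6
  have h13 : (S.card : ℝ) ≤ 2 * d * ((S.image g).card : ℝ) := by exact_mod_cast h3
  calc (S.card : ℝ) ≤ 2 * d * ((S.image g).card : ℝ) := h13
    _ ≤ 2 * d * (5 * t ^ (-β)) := mul_le_mul_of_nonneg_left h11 (by positivity)
    _ = (10 * d) * t ^ (-β) := by ring

end Count

open _root_.Pool.Agent.MP211V.Count in
theorem vCount (h1 : S_Sep) (h2 : S_MxCard) : S_Count := by
  intro d hd
  obtain ⟨C0, hC0, hSep⟩ : ∃ C0 : ℝ, 0 < C0 ∧ (2 ≤ d → SB d C0) := by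
    by_cases h : 2 ≤ d
    · obtain ⟨C, hC, hC2⟩ := h1 d h
      exact ⟨C, hC, fun _ => hC2⟩
    · exact ⟨1, one_pos, fun h' => absurd h' h⟩
  have hA : (0 : ℝ) ≤ 2 * d * 3 ^ (d + 1) := by positivity
  have hB : (0 : ℝ) ≤ 10 * d := by positivity
  refine ⟨C0 + 2 * d * 3 ^ (d + 1) + 10 * d + 1, by linarith, ?_⟩
  intro h ω t S hh hω ht ht1 hS
  have hex : ∀ p : ℝ × ℝ, ∃ P : ℤ[X], p ∈ S → Irreducible P ∧ P.natDegree = d ∧ Hb P h ∧
      Mx (rp P) (h * ω) p.1 p.2 ∧ t ≤ p.2 - p.1 ∧ p.2 - p.1 ≤ 2 * t ∧ |p.1| ≤ 2 := by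
    intro p
    by_cases hp : p ∈ S
    · obtain ⟨P, hP⟩ := hS p hp
      exact ⟨P, fun _ => hP⟩
    · exact ⟨0, fun h' => absurd h' hp⟩
  choose P hP using hex
  have hh0 : 0 < h := by linarith
  have key : ∀ X : ℝ, 0 ≤ X → (C0 + 2 * d * 3 ^ (d + 1) + 10 * d + 1) * h ^ (2 * d) * X < 1 →
      C0 * h ^ (2 * d) * X < 1 := by
    intro X hX h5
    refine lt_of_le_of_lt ?_ h5
    refine mul_le_mul_of_nonneg_right (mul_le_mul_of_nonneg_right ?_ (by positivity)) hX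
    linarith
  constructor
  · have h3 := part1 h2 hd hh S P (fun p hp => (hP p hp).2.1) (fun p hp => (hP p hp).2.2.2.1)
      (fun p hp => (hP p hp).2.2.1)
    refine h3.trans (mul_le_mul_of_nonneg_right ?_ (by positivity))
    linarith
  · intro hd2 β hβ hβ1 hor
    have h3 := part2 h2 hd ht ht1 hβ S P (fun p hp => (hP p hp).2.1)
      (fun p hp => (hP p hp).2.2.2.1) (fun p hp => (hP p hp).2.2.2.2.2.2) (by
        intro p hp q hq hpq
        by_contra hne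
        push Not at hne
        obtain ⟨hp1, hp2, hp3, hp4, hp5, _, hp7⟩ := hP p hp
        obtain ⟨hq1, hq2, hq3, hq4, hq5, _, hq7⟩ := hP q hq
        obtain ⟨k1, k2, k3⟩ := hSep hd2 (P p) (P q) h ω t β p.1 p.2 q.1 q.2 hp1 hq1 hp2 hq2
          hne.1 hne.2 hh hω ht ht1 hβ hβ1 (by linarith) (by linarith) hp3 hq3 hp4.2.1 hq4.2.1
          hp5 hq5 hpq
        rcases hor with h6 | ⟨h6, h7⟩ | ⟨h6, h7⟩
        · exact absurd k1 (not_le.mpr (key _ (by positivity) h6))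
        · exact absurd (k2 h6) (not_le.mpr (key _ (by positivity) h7))
        · exact absurd (k3 h6) (not_le.mpr (key _ (by positivity) h7)))
    refine h3.trans (mul_le_mul_of_nonneg_right ?_ (by positivity))
    linarith

end Pool.Agent.MP211V
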