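import Pool.Agent.Lib.MP_211f72_nt.Spec

/-!
# MP_211f72_nt, second theorem: level sets of `λ_n` on the first interval `[1/n, 1/(n-1))`, all `n ≥ 4`

Definitions.  The exponent itself (`Approx`, `lambdaExp`) and the tools `Limsup`, `ContentZero`, `Avoid`,
`HasKids`, `CZ` are those of `Pool.Agent.Lib.MP_211f72_nt` (namespace `MP_211f72_nt`).
-/

namespace Pool.Agent.MP211V

open Polynomial

/-- the integer polynomial `P` as a real polynomial -/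
noncomputable def rp (P : ℤ[X]) : ℝ[X] := P.map (Int.castRingHom ℝ)

/-- the Taylor coefficients of `P` at `x`: `P(T) = ∑ tc P x j (T - x)^j` -/
noncomputable def tc (P : ℝ[X]) (x : ℝ) (j : ℕ) : ℝ := (taylor x P).coeff j

/-- all coefficients of `P` are at most `h` in absolute value -/
def Hb (P : ℤ[X]) (h : ℝ) : Prop := ∀ i : ℕ, |((P.coeff i : ℤ) : ℝ)| ≤ h

/-- `|P| ≤ c` on the interval `[a, b]` -/
def Sl (P : ℝ[X]) (c a b : ℝ) : Prop := ∀ x : ℝ, a ≤ x → x ≤ b → |P.eval x| ≤ c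

/-- `[a, b]` is a maximal interval (of positive length) on which `|P| ≤ c` -/
def Mx (P : ℝ[X]) (c a b : ℝ) : Prop :=
  a < b ∧ Sl P c a b ∧ ∀ a' b' : ℝ, a' ≤ a → b ≤ b' → Sl P c a' b' → a' = a ∧ b' = b

/-- the class of the intervals `[a, b]`: maximal for `|P| ≤ c`, `P` irreducible in `ℤ[X]` of degree `d`
with coefficients at most `h`, of length between `t` and `2t`, left endpoint in `[-2, 2]` -/
def Cls (d : ℕ) (h c t a b : ℝ) : Prop :=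
  ∃ P : ℤ[X], Irreducible P ∧ P.natDegree = d ∧ Hb P h ∧ Mx (rp P) c a b ∧
    t ≤ b - a ∧ b - a ≤ 2 * t ∧ |a| ≤ 2

/-- the dimension: `(2 - (n-1) λ)/(1 + λ)` -/
noncomputable def sdim (n : ℕ) (lam : ℝ) : ℝ := (2 - ((n : ℝ) - 1) * lam) / (1 + lam)

/-- the length of a cap: `θ = Y^(-(1+λ)/2)`, so that `θ² = Y^(-1-λ)` -/
noncomputable def th (lam Y : ℝ) : ℝ := Y ^ (-(1 + lam) / 2)

/-- the integer point `x` is near the curve at `ξ`, at the scale `Y` -/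
def Nr (n : ℕ) (Y lam ξ : ℝ) (x : Fin (n + 1) → ℤ) : Prop :=
  Y / 2 ≤ |(x 0 : ℝ)| ∧ |(x 0 : ℝ)| ≤ Y ∧
    ∀ j : Fin (n + 1), |(x 0 : ℝ) * ξ ^ (j : ℕ) - (x j : ℝ)| ≤ (Y / 2) ^ (-lam)

/-- some nonzero integer polynomial of degree at most `n` with coefficients at most `H`, small on
`[a, b]`, is not an integer multiple of an irreducible polynomial of degree `n` -/
def Bad (n : ℕ) (H φ a b : ℝ) : Prop :=
  ∃ P : ℤ[X], P ≠ 0 ∧ P.natDegree ≤ n ∧ Hb P H ∧ Sl (rp P) φ a b ∧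
    ¬ ∃ (k : ℤ) (Q : ℤ[X]), P = C k * Q ∧ Irreducible Q ∧ Q.natDegree = n

/-- the coordinates `y_j(ξ) = ∑_{i ≤ j} (j choose i) (-ξ)^(j-i) x_i` of an integer point -/
noncomputable def yc (n : ℕ) (x : Fin (n + 1) → ℤ) (ξ : ℝ) (j : Fin (n + 1)) : ℝ :=
  ∑ i : Fin (n + 1), ((j : ℕ).choose (i : ℕ) : ℝ) * (-ξ) ^ ((j : ℕ) - (i : ℕ)) * (x i : ℝ)

/-- the box of Minkowski's theorem: `|y_1| ≤ Q^((n-1)λ-1)`, `|y_j| ≤ Q^(-λ)` for `j ≥ 2` -/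
def BoxN (n : ℕ) (x : Fin (n + 1) → ℤ) (ξ Q lam : ℝ) : Prop :=
  ∀ j : Fin (n + 1), (j : ℕ) ≠ 0 →
    |yc n x ξ j| ≤ if (j : ℕ) = 1 then Q ^ (((n : ℝ) - 1) * lam - 1) else Q ^ (-lam)

/-- there is a point `x` with `|x_0| ≥ M`, `x_0 ≠ 0` and errors at most `|x_0|^(-λ)` -/
def GdN (n : ℕ) (lam : ℝ) (M : ℕ) (ξ : ℝ) : Prop :=
  ∃ x : Fin (n + 1) → ℤ, (M : ℝ) ≤ |(x 0 : ℝ)| ∧ x 0 ≠ 0 ∧
    ∀ j : Fin (n + 1), 1 ≤ (j : ℕ) →
      |(x 0 : ℝ) * ξ ^ (j : ℕ) - (x j : ℝ)| ≤ |(x 0 : ℝ)| ^ (-lam)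

/-- children for the exponent `λ` with parameter `s` -/
def KidsForN (n : ℕ) (s lam : ℝ) : Prop := ∃ K : ℝ, 0 < K ∧
  ∀ (u v t L : ℝ) (M : ℕ), 0 ≤ u → u < v → v ≤ 1 → 0 < t → t < s →
    MP_211f72_nt.HasKids K (GdN n lam M) u v t L

end Pool.Agent.MP211V
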