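import Pool.Agent.Lib.MP_211f72_nt.V.Spec
import Pool.Agent.Lib.MP_211f72_nt.Expo

/-!
# MP_211f72_nt, second theorem: Dirichlet's theorem and the case `λ = 1/n`
-/

namespace Pool.Agent.MP211V

open MeasureTheory

namespace DirN

theorem floor_mem (N : ℕ) (hN : 0 < N) (x : ℝ) :
    ⌊(N : ℝ) * Int.fract x⌋₊ ∈ Finset.range N := by
  have hN' : (0 : ℝ) < N := by exact_mod_cast hN
  rw [Finset.mem_range, Nat.floor_lt (mul_nonneg hN'.le (Int.fract_nonneg x))]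
  nlinarith [Int.fract_lt_one x]

theorem close (N : ℕ) (hN : 0 < N) (x y : ℝ)
    (h : ⌊(N : ℝ) * Int.fract x⌋₊ = ⌊(N : ℝ) * Int.fract y⌋₊) :
    |(x - y) - ((⌊x⌋ - ⌊y⌋ : ℤ) : ℝ)| ≤ 1 / N := by
  have hN' : (0 : ℝ) < N := by exact_mod_cast hN
  have e : (x - y) - ((⌊x⌋ - ⌊y⌋ : ℤ) : ℝ) = Int.fract x - Int.fract y := by
    push_cast
    rw [← Int.self_sub_floor, ← Int.self_sub_floor]
    ring
  rw [e]
  have h1 := Nat.floor_le (mul_nonneg hN'.le (Int.fract_nonneg x))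
  have h2 := Nat.lt_floor_add_one ((N : ℝ) * Int.fract x)
  have h3 := Nat.floor_le (mul_nonneg hN'.le (Int.fract_nonneg y))
  have h4 := Nat.lt_floor_add_one ((N : ℝ) * Int.fract y)
  rw [h] at h1 h2
  rw [le_div_iff₀ hN', ← abs_of_pos hN', ← abs_mul, abs_le]
  constructor <;> nlinarith

theorem dirichletN (n : ℕ) (hn : 1 ≤ n) (ξ : ℝ) : MP_211f72_nt.Approx n ξ (1 / (n : ℝ)) := by
  intro X₀
  obtain ⟨N₀, hN₀⟩ := exists_nat_ge X₀
  obtain ⟨N, hNdef⟩ : ∃ N : ℕ, N = N₀ + 1 := ⟨_, rfl⟩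
  have hN : 0 < N := by omega
  have hN' : (0 : ℝ) < N := by exact_mod_cast hN
  have hN1 : (1 : ℝ) ≤ N := by exact_mod_cast hN
  have hNN : (N : ℝ) ≤ (N : ℝ) ^ n := le_self_pow₀ hN1 (by omega)
  refine ⟨(N : ℝ) ^ n, ?_, ?_⟩
  · have : (N₀ : ℝ) ≤ N := by exact_mod_cast (by omega : N₀ ≤ N)
    linarith
  obtain ⟨f, hfdef⟩ : ∃ f : ℕ → (Fin n → ℕ), f = fun (q : ℕ) (j : Fin n) =>
    ⌊(N : ℝ) * Int.fract ((q : ℝ) * ξ ^ ((j : ℕ) + 1))⌋₊ := ⟨_, rfl⟩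
  have hf : ∀ q ∈ Finset.range (N ^ n + 1),
      f q ∈ Fintype.piFinset (fun _ : Fin n => Finset.range N) := by
    intro q _
    rw [Fintype.mem_piFinset, hfdef]
    exact fun j => floor_mem N hN _
  have hcard : (Fintype.piFinset (fun _ : Fin n => Finset.range N)).card
      < (Finset.range (N ^ n + 1)).card := by
    rw [Fintype.card_piFinset, Finset.card_range]
    simp
  obtain ⟨q1, hq1, q2, hq2, hne, heq⟩ := Finset.exists_ne_map_eq_of_card_lt_of_maps_to hcard hf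
  rw [Finset.mem_range] at hq1 hq2
  wlog hlt : q2 < q1 generalizing q1 q2
  · exact this q2 hq2 q1 hq1 hne.symm heq.symm (by omega)
  refine ⟨Fin.cons ((q1 : ℤ) - (q2 : ℤ)) (fun j : Fin n =>
    ⌊(q1 : ℝ) * ξ ^ ((j : ℕ) + 1)⌋ - ⌊(q2 : ℝ) * ξ ^ ((j : ℕ) + 1)⌋), ?_, ?_, ?_⟩
  · have h1 : (0 : ℤ) < (q1 : ℤ) - (q2 : ℤ) := by omega
    have h2 : (0 : ℝ) < (((q1 : ℤ) - (q2 : ℤ) : ℤ) : ℝ) := by exact_mod_cast h1
    rw [Fin.cons_zero]
    exact abs_pos_of_pos h2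
  · have h1 : (0 : ℤ) ≤ (q1 : ℤ) - (q2 : ℤ) := by omega
    have h2 : (0 : ℝ) ≤ (((q1 : ℤ) - (q2 : ℤ) : ℤ) : ℝ) := by exact_mod_cast h1
    have h3 : (q1 : ℤ) - (q2 : ℤ) ≤ ((N ^ n : ℕ) : ℤ) := by omega
    have h4 : (((q1 : ℤ) - (q2 : ℤ) : ℤ) : ℝ) ≤ (N : ℝ) ^ n := by exact_mod_cast h3
    rw [Fin.cons_zero, abs_of_nonneg h2]
    exact h4
  · intro j hj
    obtain ⟨i, rfl⟩ := Fin.exists_succ_eq.mpr (fun h : j = 0 => by rw [h] at hj; simp at hj)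
    rw [Fin.cons_zero, Fin.cons_succ, Fin.val_succ]
    have hi : ⌊(N : ℝ) * Int.fract ((q1 : ℝ) * ξ ^ ((i : ℕ) + 1))⌋₊
        = ⌊(N : ℝ) * Int.fract ((q2 : ℝ) * ξ ^ ((i : ℕ) + 1))⌋₊ := by
      have := congrFun heq i
      rw [hfdef] at this
      exact this
    have h := close N hN _ _ hi
    have e : (((q1 : ℤ) - (q2 : ℤ) : ℤ) : ℝ) * ξ ^ ((i : ℕ) + 1) =
        (q1 : ℝ) * ξ ^ ((i : ℕ) + 1) - (q2 : ℝ) * ξ ^ ((i : ℕ) + 1) := by
      push_cast; ring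
    rw [e]
    refine h.trans (le_of_eq ?_)
    have hn0 : (n : ℝ) ≠ 0 := by
      have : n ≠ 0 := by omega
      exact_mod_cast this
    rw [Real.rpow_neg (by positivity), ← Real.rpow_natCast (N : ℝ) n, ← Real.rpow_mul hN'.le,
      mul_one_div_cancel hn0, Real.rpow_one, one_div]

theorem sdim_lt_one (n : ℕ) (lam : ℝ) (hn : 1 ≤ n) (h : 1 / (n : ℝ) < lam) : sdim n lam < 1 := by
  have hn0 : (0 : ℝ) < n := by exact_mod_cast hn
  have hl : 0 < lam := lt_trans (by positivity) h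
  unfold sdim
  rw [div_lt_one (by linarith)]
  rw [div_lt_iff₀ hn0] at h
  linarith

end DirN

open DirN in
theorem vDirN (h1 : S_UpperN) (h2 : S_ExpoN) : S_DirN := by
  intro n hn
  obtain ⟨Z, hZ⟩ : ∃ Z : Set ℝ, Z =
    {ξ : ℝ | MP_211f72_nt.lambdaExp n ξ = ((1 / (n : ℝ) : ℝ) : EReal)} := ⟨_, rfl⟩
  rw [← hZ]
  obtain ⟨_, e2, _, _⟩ := MP_211f72_nt.expo
  have hn0 : (0 : ℝ) < n := by
    have : 0 < n := by omega
    exact_mod_cast this
  have hn1 : (4 : ℝ) ≤ n := by exact_mod_cast hn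
  have hlt : 1 / (n : ℝ) < 1 / ((n : ℝ) - 1) :=
    one_div_lt_one_div_of_lt (by linarith) (by linarith)
  have hvol : ∀ k : ℕ, volume {ξ : ℝ | MP_211f72_nt.Approx n ξ (1 / (n : ℝ) + 1 / ((k : ℝ) + 1))} = 0 := by
    intro k
    have hk : (0 : ℝ) < 1 / ((k : ℝ) + 1) := by positivity
    obtain ⟨mu, hmu⟩ : ∃ mu : ℝ, mu = min (1 / (n : ℝ) + 1 / ((k : ℝ) + 1))
      ((1 / (n : ℝ) + 1 / ((n : ℝ) - 1)) / 2) := ⟨_, rfl⟩
    have hmu1 : 1 / (n : ℝ) < mu := by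
      rw [hmu]
      exact lt_min (by linarith) (by linarith)
    have hmu2 : mu < 1 / ((n : ℝ) - 1) := by
      rw [hmu]
      exact lt_of_le_of_lt (min_le_right _ _) (by linarith)
    have hmu3 : mu ≤ 1 / (n : ℝ) + 1 / ((k : ℝ) + 1) := by
      rw [hmu]
      exact min_le_left _ _
    have hd : dimH {ξ : ℝ | MP_211f72_nt.Approx n ξ mu} < ((1 : NNReal) : ENNReal) := by
      refine lt_of_le_of_lt (h1 n mu hn hmu1 hmu2) ?_
      rw [ENNReal.coe_one, ENNReal.ofReal_lt_one]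
      exact sdim_lt_one n mu (by omega) hmu1
    have h := hausdorffMeasure_of_dimH_lt hd
    rw [NNReal.coe_one, hausdorffMeasure_real] at h
    refine measure_mono_null ?_ h
    intro ξ hξ
    exact h2.2.2 n ξ _ mu hmu3 hξ
  have hcompl : volume Zᶜ = 0 := by
    refine measure_mono_null ?_ (measure_iUnion_null hvol)
    intro ξ hξ
    by_contra hcon
    simp only [Set.mem_iUnion, Set.mem_ofPred_eq, not_exists] at hcon
    apply hξ
    rw [hZ]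
    exact e2 n ξ (1 / (n : ℝ)) (dirichletN n (by omega) ξ) hcon
  have hZne : μH[((1 : NNReal) : ℝ)] Z ≠ 0 := by
    rw [NNReal.coe_one, hausdorffMeasure_real]
    intro h0
    have h := measure_union_null h0 hcompl
    rw [Set.union_compl_self] at h
    simp at h
  refine le_antisymm ?_ ?_
  · refine (dimH_mono (Set.subset_univ Z)).trans ?_
    rw [Real.dimH_univ]
  · have h := le_dimH_of_hausdorffMeasure_ne_zero hZne
    exact_mod_cast h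

end Pool.Agent.MP211V
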