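import Pool.Agent.Lib.MP_211f72_nt.V.Spec

/-!
# MP_211f72_nt, module `Dual`: counting in a box and in the dual box
-/

open MeasureTheory

namespace Pool.Agent.MP211V.Dual

/-- the character of frequency `z` -/
noncomputable def ch {N : ℕ} (z : Fin N → ℤ) (β : Fin N → ℝ) : ℂ :=
  Complex.exp (2 * Real.pi * Complex.I * ∑ j, (z j : ℂ) * (β j : ℂ))

/-- the unit cube -/
def cube (N : ℕ) : Set (Fin N → ℝ) := Set.pi Set.univ fun _ : Fin N => Set.Ico (0 : ℝ) 1

theorem one_dim (n : ℤ) : ∫ t : ℝ in Set.Ico (0 : ℝ) 1,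
    Complex.exp (2 * Real.pi * Complex.I * ((n : ℂ) * (t : ℂ))) = if n = 0 then 1 else 0 := by
  rw [integral_Ico_eq_integral_Ioc, ← intervalIntegral.integral_of_le zero_le_one]
  split_ifs with h
  · subst h; simp
  · have hc : (2 * Real.pi * Complex.I * (n : ℂ)) ≠ 0 := by
      have : (n : ℂ) ≠ 0 := by exact_mod_cast h
      have h2 := Complex.two_pi_I_ne_zero
      exact mul_ne_zero h2 this
    have e := integral_exp_mul_complex (a := 0) (b := 1) hc
    have e2 : (fun t : ℝ => Complex.exp (2 * Real.pi * Complex.I * ((n : ℂ) * (t : ℂ)))) =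
        fun t : ℝ => Complex.exp (2 * Real.pi * Complex.I * (n : ℂ) * (t : ℂ)) := by
      funext t; rw [← mul_assoc (2 * Real.pi * Complex.I : ℂ)]
    rw [e2, e]
    have e3 : Complex.exp (2 * Real.pi * Complex.I * (n : ℂ) * ((1 : ℝ) : ℂ)) = 1 := by
      have := Complex.exp_int_mul_two_pi_mul_I n
      rw [← this]; congr 1; push_cast; ring
    rw [e3]; simp

theorem int_ch {N : ℕ} (z : Fin N → ℤ) : ∫ β in cube N, ch z β = if z = 0 then 1 else 0 := by
  have e1 : ∀ β : Fin N → ℝ, ch z β =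
      ∏ j, Complex.exp (2 * Real.pi * Complex.I * ((z j : ℂ) * (β j : ℂ))) := by
    intro β
    rw [ch, Finset.mul_sum, Complex.exp_sum]
  simp_rw [e1]
  rw [cube, volume_pi, Measure.restrict_pi_pi,
    integral_fintype_prod_eq_prod (f := fun j (t : ℝ) =>
      Complex.exp (2 * Real.pi * Complex.I * ((z j : ℂ) * (t : ℂ))))]
  simp_rw [one_dim]
  split_ifs with h
  · subst h; simp
  · obtain ⟨j, hj⟩ : ∃ j, z j ≠ 0 := by
      by_contra hh; push Not at hh; exact h (funext hh)
    exact Finset.prod_eq_zero (Finset.mem_univ j) (by simp [hj])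

/-- the exponential sum -/
noncomputable def F {N : ℕ} (S : Finset (Fin N → ℤ)) (β : Fin N → ℝ) : ℂ := ∑ x ∈ S, ch x β

theorem cont_ch {N : ℕ} (z : Fin N → ℤ) : Continuous (ch z) := by
  unfold ch; fun_prop

theorem cont_F {N : ℕ} (S : Finset (Fin N → ℤ)) : Continuous (F S) := by
  unfold F
  exact continuous_finsetSum _ fun x _ => cont_ch x

theorem ch_sub {N : ℕ} (x y : Fin N → ℤ) (β : Fin N → ℝ) :
    ch x β * (starRingEnd ℂ) (ch y β) = ch (x - y) β := by
  unfold ch
  rw [← Complex.exp_conj, ← Complex.exp_add]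
  congr 1
  simp only [map_mul, map_ofNat, Complex.conj_ofReal, Complex.conj_I, map_sum, map_intCast,
    Pi.sub_apply, Int.cast_sub, sub_mul, Finset.sum_sub_distrib]
  ring

theorem intble {N : ℕ} (f : (Fin N → ℝ) → ℂ) (hf : Continuous f) : IntegrableOn f (cube N) := by
  have h1 : cube N ⊆ Set.Icc (0 : Fin N → ℝ) 1 := by
    intro x hx
    simp only [cube, Set.mem_pi, Set.mem_univ, true_implies, Set.mem_Ico] at hx
    exact ⟨fun i => (hx i).1, fun i => (hx i).2.le⟩
  exact (hf.continuousOn.integrableOn_compact isCompact_Icc).mono_set h1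

theorem int_F {N : ℕ} (S : Finset (Fin N → ℤ)) :
    ∫ β in cube N, ‖F S β‖ ^ 2 = (S.card : ℝ) := by
  classical
  have h1 : ((∫ β in cube N, ‖F S β‖ ^ 2 : ℝ) : ℂ) = (S.card : ℂ) := by
    rw [← integral_complex_ofReal]
    have e : ∀ β : Fin N → ℝ, ((‖F S β‖ ^ 2 : ℝ) : ℂ) = ∑ x ∈ S, ∑ y ∈ S, ch (x - y) β := by
      intro β
      have : ((‖F S β‖ ^ 2 : ℝ) : ℂ) = F S β * (starRingEnd ℂ) (F S β) := by
        rw [Complex.mul_conj, Complex.normSq_eq_norm_sq]
      rw [this, F, map_sum, Finset.sum_mul_sum]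
      exact Finset.sum_congr rfl fun x _ => Finset.sum_congr rfl fun y _ => ch_sub x y β
    have e' : (fun β : Fin N → ℝ => ((‖F S β‖ ^ 2 : ℝ) : ℂ)) =
        fun β => ∑ x ∈ S, ∑ y ∈ S, ch (x - y) β := funext e
    rw [e', integral_finsetSum _ fun x _ => integrable_finsetSum _ fun y _ =>
      intble _ (cont_ch (x - y))]
    have e2 : ∀ x ∈ S, ∫ β in cube N, ∑ y ∈ S, ch (x - y) β = 1 := by
      intro x hx
      rw [integral_finsetSum _ fun y _ => intble _ (cont_ch (x - y))]
      simp_rw [int_ch, sub_eq_zero]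
      rw [Finset.sum_ite_eq]; simp [hx]
    rw [Finset.sum_congr rfl e2]; simp
  exact_mod_cast h1

theorem F_periodic {N : ℕ} (S : Finset (Fin N → ℤ)) (p : Fin N → ℤ) (β : Fin N → ℝ) :
    F S ((fun i => (p i : ℝ)) + β) = F S β := by
  unfold F
  refine Finset.sum_congr rfl fun x _ => ?_
  unfold ch
  rw [Complex.exp_eq_exp_iff_exists_int]
  refine ⟨∑ j, x j * p j, ?_⟩
  simp only [Pi.add_apply]
  push_cast
  simp only [mul_add, Finset.sum_add_distrib, Finset.mul_sum, Finset.sum_mul]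
  rw [add_comm]
  congr 1
  exact Finset.sum_congr rfl fun j _ => by ring

theorem F_lower {N : ℕ} (S : Finset (Fin N → ℤ)) (β : Fin N → ℝ)
    (h : ∀ x ∈ S, |∑ j, (x j : ℝ) * β j| ≤ 1 / 8) : (S.card : ℝ) / 2 ≤ ‖F S β‖ := by
  have h1 : (F S β).re = ∑ x ∈ S, Real.cos (2 * Real.pi * ∑ j, (x j : ℝ) * β j) := by
    unfold F
    rw [Complex.re_sum]
    refine Finset.sum_congr rfl fun x _ => ?_
    unfold ch
    have : (2 * Real.pi * Complex.I * ∑ j, (x j : ℂ) * (β j : ℂ) : ℂ) =
        ((2 * Real.pi * ∑ j, (x j : ℝ) * β j : ℝ) : ℂ) * Complex.I := by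
      push_cast; ring
    rw [this, Complex.exp_ofReal_mul_I_re]
  have h2 : (S.card : ℝ) / 2 ≤ (F S β).re := by
    rw [h1]
    have : ∀ x ∈ S, (1 : ℝ) / 2 ≤ Real.cos (2 * Real.pi * ∑ j, (x j : ℝ) * β j) := by
      intro x hx
      have h3 := h x hx
      rw [← Real.cos_pi_div_three, ← Real.cos_abs (2 * Real.pi * _)]
      apply Real.cos_le_cos_of_nonneg_of_le_pi (abs_nonneg _)
      · linarith [Real.pi_pos]
      · rw [abs_mul, abs_of_pos Real.two_pi_pos]
        nlinarith [Real.pi_pos]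
    calc (S.card : ℝ) / 2 = ∑ x ∈ S, (1 : ℝ) / 2 := by simp [div_eq_mul_inv]
      _ ≤ _ := Finset.sum_le_sum this
  exact h2.trans (Complex.re_le_norm _)

open scoped ENNReal in
theorem tsum_bound {ι : Type*} (f : ι → ℝ≥0∞) (c : ℝ≥0∞) (n : ℕ) (hf : ∀ q, f q ≤ c)
    (hn : ∀ s : Finset ι, (∀ q ∈ s, f q ≠ 0) → s.card ≤ n) : ∑' q, f q ≤ n * c := by
  classical
  rw [ENNReal.tsum_eq_iSup_sum]
  refine iSup_le fun s => ?_
  rw [← Finset.sum_filter_ne_zero]
  calc ∑ q ∈ s.filter (fun q => f q ≠ 0), f q ≤ (s.filter (fun q => f q ≠ 0)).card • c :=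
        Finset.sum_le_card_nsmul _ _ _ fun q _ => hf q
    _ = ((s.filter (fun q => f q ≠ 0)).card : ℝ≥0∞) * c := by rw [nsmul_eq_mul]
    _ ≤ n * c := by
        gcongr
        exact_mod_cast hn _ fun q hq => (Finset.mem_filter.1 hq).2

/-- the lattice of integer vectors -/
abbrev Lat (N : ℕ) : Submodule ℤ (Fin N → ℝ) :=
  Submodule.span ℤ (Set.range (Pi.basisFun ℝ (Fin N)))

theorem lat_int {N : ℕ} (q : Lat N) (i : Fin N) : ((⌊(q : Fin N → ℝ) i⌋ : ℤ) : ℝ) =
    (q : Fin N → ℝ) i := by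
  have h := q.2
  rw [Module.Basis.mem_span_iff_repr_mem] at h
  obtain ⟨n, hn⟩ := h i
  rw [Pi.basisFun_repr] at hn
  rw [← hn]; simp

open scoped ENNReal in
theorem unfold_V {N : ℕ} (V : Set (Fin N → ℝ)) (hV : MeasurableSet V) (g : (Fin N → ℝ) → ℝ≥0∞)
    (hg : Measurable g) (hper : ∀ (p : Fin N → ℤ) (β : Fin N → ℝ), g ((fun i => (p i : ℝ)) + β) = g β)
    (M : Finset (Fin N → ℤ))
    (hM : ∀ p : Fin N → ℤ, (∃ β ∈ V, ∃ β' ∈ V, ∀ i, (p i : ℝ) = β i - β' i) → p ∈ M) :
    ∫⁻ β in V, g β ≤ M.card * ∫⁻ β in cube N, g β := by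
  classical
  rw [← lintegral_indicator hV]
  have hfd := ZSpan.isAddFundamentalDomain (Pi.basisFun ℝ (Fin N)) (volume : Measure (Fin N → ℝ))
  have : VAddInvariantMeasure (Lat N).toAddSubgroup (Fin N → ℝ) (volume : Measure (Fin N → ℝ)) := inferInstance
  have : Countable (Lat N) := inferInstance
  have hfd' := ZSpan.isAddFundamentalDomain' (Pi.basisFun ℝ (Fin N)) (volume : Measure (Fin N → ℝ))
  have : Countable (Lat N).toAddSubgroup := inferInstance
  rw [hfd'.lintegral_eq_tsum'', ZSpan.fundamentalDomain_pi_basisFun]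
  rw [← lintegral_tsum]
  · rw [← lintegral_const_mul _ hg]
    refine lintegral_mono fun x => ?_
    refine tsum_bound _ _ _ ?_ ?_
    · intro q
      have e : ((q +ᵥ x : Fin N → ℝ)) =
          (fun i => ((⌊((q : (Lat N).toAddSubgroup) : Fin N → ℝ) i⌋ : ℤ) : ℝ)) + x := by
        funext i
        have := lat_int ⟨q.1, q.2⟩ i
        simp only at this
        simp only [Pi.add_apply, this]
        rfl
      refine (Set.indicator_le_self _ _ _).trans ?_
      rw [e, hper]
    · intro s hs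
      rcases s.eq_empty_or_nonempty with h0 | ⟨q₀, hq₀⟩
      · simp [h0]
      refine Finset.card_le_card_of_injOn (fun q => fun i => ⌊(q : Fin N → ℝ) i⌋ - ⌊(q₀ : Fin N → ℝ) i⌋) ?_ ?_
      · intro q hq
        apply hM
        have h1 : (q +ᵥ x : Fin N → ℝ) ∈ V := by
          by_contra hh; exact hs q hq (Set.indicator_of_notMem hh _)
        have h2 : (q₀ +ᵥ x : Fin N → ℝ) ∈ V := by
          by_contra hh; exact hs q₀ hq₀ (Set.indicator_of_notMem hh _)
        refine ⟨_, h1, _, h2, fun i => ?_⟩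
        have e1 := lat_int ⟨q.1, q.2⟩ i
        have e2 := lat_int ⟨q₀.1, q₀.2⟩ i
        simp only at e1 e2
        push_cast
        rw [e1, e2]
        have e3 : (q +ᵥ x : Fin N → ℝ) i = (q : Fin N → ℝ) i + x i := rfl
        have e4 : (q₀ +ᵥ x : Fin N → ℝ) i = (q₀ : Fin N → ℝ) i + x i := rfl
        rw [e3, e4]; ring
      · intro q _ q' _ h
        apply Subtype.ext
        funext i
        have e1 := lat_int ⟨q.1, q.2⟩ i
        have e2 := lat_int ⟨q'.1, q'.2⟩ i
        simp only at e1 e2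
        have h3 := congrFun h i
        simp only [sub_left_inj] at h3
        rw [← e1, ← e2, h3]
  · intro q
    refine (Measurable.indicator hg hV |>.comp ?_).aemeasurable
    exact measurable_const_vadd q

open scoped ENNReal in
theorem vol_V {N : ℕ} (B' : Matrix (Fin N) (Fin N) ℝ) (hdet : |B'.det| = 1) (r : Fin N → ℝ)
    (hr : ∀ j, 0 < r j) :
    volume {β : Fin N → ℝ | ∀ j, |(B'.mulVec β) j| ≤ r j} = ENNReal.ofReal (∏ j, (2 * r j)) := by
  have e : {β : Fin N → ℝ | ∀ j, |(B'.mulVec β) j| ≤ r j} =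
      (Matrix.toLin' B') ⁻¹' (Set.Icc (fun j => - r j) r) := by
    ext β
    simp only [Set.mem_ofPred_eq, Set.mem_preimage, Matrix.toLin'_apply, Set.mem_Icc, Pi.le_def,
      abs_le, forall_and]
  have hd : LinearMap.det (Matrix.toLin' B') ≠ 0 := by
    rw [LinearMap.det_toLin']
    intro h0; rw [h0] at hdet; simp at hdet
  rw [e, Measure.addHaar_preimage_linearMap _ hd, LinearMap.det_toLin', abs_inv, hdet,
    Real.volume_Icc_pi, ← ENNReal.ofReal_prod_of_nonneg]
  · simp only [inv_one, ENNReal.ofReal_one, one_mul]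
    congr 1
    exact Finset.prod_congr rfl fun j _ => by ring
  · intro j _
    have := hr j
    linarith

theorem meas_V {N : ℕ} (B' : Matrix (Fin N) (Fin N) ℝ) (r : Fin N → ℝ) :
    MeasurableSet {β : Fin N → ℝ | ∀ j, |(B'.mulVec β) j| ≤ r j} := by
  have hc : IsClosed {β : Fin N → ℝ | ∀ j, |(B'.mulVec β) j| ≤ r j} := by
    simp only [Set.ofPred_forall]
    refine isClosed_iInter fun j => ?_
    refine isClosed_le ?_ continuous_const
    have : Continuous fun β : Fin N → ℝ => (B'.mulVec β) j :=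
      (continuous_apply j).comp (Continuous.matrix_mulVec continuous_const continuous_id)
    exact this.abs
  exact hc.measurableSet

theorem main_fin (N : ℕ) (hN : 1 ≤ N) (B B' : Matrix (Fin N) (Fin N) ℝ)
    (A : Fin N → ℝ) (S : Finset (Fin N → ℤ))
    (hBB : ∀ x y : Fin N → ℝ, ∑ j, (B.mulVec x) j * (B'.mulVec y) j = ∑ j, x j * y j)
    (hdet : |B'.det| = 1) (hA : ∀ j, 0 < A j)
    (hS : ∀ x ∈ S, ∀ j, |(B.mulVec fun i => (x i : ℝ)) j| ≤ A j)
    (M : Finset (Fin N → ℤ))
    (hM : ∀ p : Fin N → ℤ, (∀ j, |(B'.mulVec fun i => (p i : ℝ)) j| ≤ 1 / A j) → p ∈ M) :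
    (S.card : ℝ) ≤ 4 * (4 * N) ^ N * (∏ j, A j) * M.card := by
  have hN' : (1 : ℝ) ≤ N := by exact_mod_cast hN
  rcases S.eq_empty_or_nonempty with h0 | hne
  · subst h0
    have : 0 ≤ ∏ j, A j := Finset.prod_nonneg fun j _ => (hA j).le
    simp only [Finset.card_empty, Nat.cast_zero]
    positivity
  have hcard : (0 : ℝ) < S.card := by exact_mod_cast hne.card_pos
  set c : ℝ := 1 / (8 * N) with hc
  have hcpos : 0 < c := by positivity
  have hNc : N * c = 1 / 8 := by rw [hc]; field_simp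
  set V : Set (Fin N → ℝ) := {β | ∀ j, |(B'.mulVec β) j| ≤ c / A j} with hVdef
  have hVm : MeasurableSet V := meas_V B' _
  have hFc : Continuous fun β : Fin N → ℝ => ‖F S β‖ ^ 2 := ((cont_F S).norm).pow 2
  have hgm : Measurable fun β : Fin N → ℝ => ENNReal.ofReal (‖F S β‖ ^ 2) :=
    hFc.measurable.ennreal_ofReal
  have up := unfold_V V hVm (fun β => ENNReal.ofReal (‖F S β‖ ^ 2)) hgm
    (fun p β => by simp only [F_periodic]) M (by
      rintro p ⟨β, hβ, β', hβ', hp⟩
      apply hM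
      intro j
      have e : (B'.mulVec fun i => (p i : ℝ)) j = (B'.mulVec β) j - (B'.mulVec β') j := by
        have : (fun i => (p i : ℝ)) = β - β' := funext hp
        rw [this, Matrix.mulVec_sub]; rfl
      rw [e]
      have h1 := hβ j
      have h2 := hβ' j
      have h3 := abs_sub ((B'.mulVec β) j) ((B'.mulVec β') j)
      have h4 : c ≤ 1 / 8 := by rw [← hNc]; nlinarith
      have h5 : c / A j + c / A j ≤ 1 / A j := by
        rw [← add_div]
        exact div_le_div_of_nonneg_right (by linarith) (hA j).le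
      linarith)
  have hint : ∫⁻ β in cube N, ENNReal.ofReal (‖F S β‖ ^ 2) = ENNReal.ofReal (S.card : ℝ) := by
    rw [← int_F S, ofReal_integral_eq_lintegral_ofReal]
    · have h1 : cube N ⊆ Set.Icc (0 : Fin N → ℝ) 1 := by
        intro x hx
        simp only [cube, Set.mem_pi, Set.mem_univ, true_implies, Set.mem_Ico] at hx
        exact ⟨fun i => (hx i).1, fun i => (hx i).2.le⟩
      exact (hFc.continuousOn.integrableOn_compact isCompact_Icc).mono_set h1
    · exact Filter.Eventually.of_forall fun β => by positivity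
  have low : ENNReal.ofReal (((S.card : ℝ) / 2) ^ 2) * volume V ≤
      ∫⁻ β in V, ENNReal.ofReal (‖F S β‖ ^ 2) := by
    rw [← setLIntegral_const]
    refine setLIntegral_mono' hVm fun β hβ => ?_
    refine ENNReal.ofReal_le_ofReal ?_
    have hl := F_lower S β (by
      intro x hx
      have h1 := hBB (fun i => (x i : ℝ)) β
      rw [← h1]
      calc |∑ j, (B.mulVec fun i => (x i : ℝ)) j * (B'.mulVec β) j|
          ≤ ∑ j, |(B.mulVec fun i => (x i : ℝ)) j * (B'.mulVec β) j| :=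
            Finset.abs_sum_le_sum_abs _ _
        _ ≤ ∑ _j : Fin N, c := by
            refine Finset.sum_le_sum fun j _ => ?_
            rw [abs_mul]
            calc |(B.mulVec fun i => (x i : ℝ)) j| * |(B'.mulVec β) j|
                ≤ A j * (c / A j) := mul_le_mul (hS x hx j) (hβ j) (abs_nonneg _) (hA j).le
              _ = c := by have := (hA j).ne'; field_simp
        _ = 1 / 8 := by rw [Finset.sum_const, Finset.card_univ, Fintype.card_fin, nsmul_eq_mul, hNc])
    exact pow_le_pow_left₀ (by positivity) hl 2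
  rw [hVdef, vol_V B' hdet (fun j => c / A j) (fun j => div_pos hcpos (hA j)), ← hVdef] at low
  have tot := low.trans up
  rw [hint, ← ENNReal.ofReal_mul (by positivity), ← ENNReal.ofReal_natCast,
    ← ENNReal.ofReal_mul (by positivity), ENNReal.ofReal_le_ofReal_iff (by positivity)] at tot
  have hprod : ∏ j : Fin N, (2 * (c / A j)) = (2 * c) ^ N / ∏ j, A j := by
    have : ∀ j : Fin N, 2 * (c / A j) = (2 * c) / A j := fun j => by ring
    simp_rw [this]
    rw [Finset.prod_div_distrib, Finset.prod_const, Finset.card_univ, Fintype.card_fin]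
  rw [hprod] at tot
  have hP : 0 < ∏ j, A j := Finset.prod_pos fun j _ => hA j
  have h2c : 2 * c * (4 * N) = 1 := by rw [hc]; field_simp; norm_num
  have h2cN : (2 * c) ^ N * (4 * N) ^ N = 1 := by rw [← mul_pow, h2c, one_pow]
  have t1 : (S.card : ℝ) ^ 2 / 4 * (2 * c) ^ N ≤ (M.card : ℝ) * S.card * ∏ j, A j := by
    have := mul_le_mul_of_nonneg_right tot hP.le
    have e : ((S.card : ℝ) / 2) ^ 2 * ((2 * c) ^ N / ∏ j, A j) * ∏ j, A j =
        (S.card : ℝ) ^ 2 / 4 * (2 * c) ^ N := by field_simp; ring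
    rw [e] at this
    linarith
  have t2 : (S.card : ℝ) / 4 * (2 * c) ^ N ≤ (M.card : ℝ) * ∏ j, A j := by
    by_contra hh
    push Not at hh
    have := mul_lt_mul_of_pos_right hh hcard
    nlinarith
  have h4N : (0 : ℝ) < (4 * N) ^ N := by positivity
  have := mul_le_mul_of_nonneg_right t2 h4N.le
  have e : (S.card : ℝ) / 4 * (2 * c) ^ N * (4 * N) ^ N = S.card / 4 := by
    rw [mul_assoc, h2cN, mul_one]
  rw [e] at this
  nlinarith

end Pool.Agent.MP211V.Dual

namespace Pool.Agent.MP211V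

/-- **Dual**: the number of integer points in a box and in the dual box. -/
theorem vDual : S_Dual := by
  intro N hN
  have hN' : (1 : ℝ) ≤ N := by exact_mod_cast hN
  refine ⟨4 * (4 * N) ^ N, ?_, ?_⟩
  · have : (1 : ℝ) ≤ (4 * N) ^ N := one_le_pow₀ (by linarith)
    linarith
  intro B B' A S hBB hdet hA hS
  by_cases hT : {p : Fin N → ℤ | ∀ j, |(B'.mulVec fun i => (p i : ℝ)) j| ≤ 1 / A j}.Finite
  · refine ⟨hT.toFinset, fun p hp => ?_, ?_⟩
    · simpa using hp
    · exact Dual.main_fin N hN B B' A S hBB hdet hA hS _ fun p hp => by simpa using hp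
  · obtain ⟨k, hk⟩ := exists_nat_ge ((S.card : ℝ) / (4 * (4 * N) ^ N * ∏ j, A j))
    obtain ⟨M, hM, hMc⟩ := Set.Infinite.exists_subset_card_eq hT k
    refine ⟨M, fun p hp => hM hp, ?_⟩
    have hP : 0 < ∏ j, A j := Finset.prod_pos fun j _ => hA j
    have hpos : (0 : ℝ) < 4 * (4 * N) ^ N * ∏ j, A j := by positivity
    rw [div_le_iff₀ hpos] at hk
    rw [hMc]; linarith

end Pool.Agent.MP211V
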