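import Pool.Agent.Lib.MP_211f72_nt.V.Spec

/-! # MP_211f72_nt, second theorem: elementary facts on the exponent (all n) -/

set_option autoImplicit false

namespace Pool.Agent.MP211V

open Filter

namespace ExpoN

private lemma expoN_anti {n : ℕ} {ξ lam lam' : ℝ} (h : lam' ≤ lam)
    (hA : MP_211f72_nt.Approx n ξ lam) : MP_211f72_nt.Approx n ξ lam' := by
  intro X₀
  obtain ⟨X, hX, x, h0, h1, h2⟩ := hA (max X₀ 1)
  refine ⟨X, (le_max_left _ _).trans hX, x, h0, h1, fun j hj => (h2 j hj).trans ?_⟩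
  exact Real.rpow_le_rpow_of_exponent_le ((le_max_right _ _).trans hX) (by linarith)

private lemma expoN_min {ξ : ℝ} (hξ : Irrational ξ) (M : ℕ) :
    ∃ c : ℝ, 0 < c ∧ ∀ q : ℤ, q ≠ 0 → |q| < (M : ℤ) → ∀ p : ℤ, c ≤ |(q : ℝ) * ξ - p| := by
  classical
  set S : Finset ℤ := (Finset.Ioo (-(M : ℤ)) M).filter fun q => q ≠ 0 with hS
  have hmem : ∀ q : ℤ, q ≠ 0 → |q| < (M : ℤ) → q ∈ S := by
    intro q hq hqM
    rw [hS, Finset.mem_filter, Finset.mem_Ioo]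
    exact ⟨abs_lt.mp hqM, hq⟩
  have hpos : ∀ q ∈ S, 0 < |(q : ℝ) * ξ - round ((q : ℝ) * ξ)| := by
    intro q hq
    have hq0 : q ≠ 0 := (Finset.mem_filter.mp hq).2
    have h1 : Irrational ((q : ℝ) * ξ) := hξ.intCast_mul hq0
    rw [abs_pos, sub_ne_zero]
    exact h1.ne_int _
  rcases S.eq_empty_or_nonempty with h0 | h0
  · refine ⟨1, one_pos, fun q hq hqM p => ?_⟩
    have := hmem q hq hqM
    rw [h0] at this
    exact absurd this (Finset.notMem_empty _)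
  · obtain ⟨q0, hq0, hmin⟩ := Finset.exists_min_image S
      (fun q => |(q : ℝ) * ξ - round ((q : ℝ) * ξ)|) h0
    refine ⟨_, hpos q0 hq0, fun q hq hqM p => ?_⟩
    exact (hmin q (hmem q hq hqM)).trans (round_le _ _)

private lemma expoN_three (n : ℕ) (ξ lam : ℝ) (hn : 1 ≤ n) (hξ : Irrational ξ) (hlam : 0 < lam)
    (hA : MP_211f72_nt.Approx n ξ lam) (M : ℕ) : GdN n lam M ξ := by
  obtain ⟨c, hc, hmin⟩ := expoN_min hξ M
  have h1 := (tendsto_rpow_neg_atTop hlam).eventually_lt_const hc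
  rw [eventually_atTop] at h1
  obtain ⟨X₀, hX₀⟩ := h1
  obtain ⟨X, hX, x, h0, hxX, h2⟩ := hA X₀
  have hx0 : x 0 ≠ 0 := by
    intro h
    rw [h] at h0
    simp at h0
  have hle : X ^ (-lam) ≤ |(x 0 : ℝ)| ^ (-lam) :=
    Real.rpow_le_rpow_of_nonpos h0 hxX (by linarith)
  refine ⟨x, ?_, hx0, fun j hj => (h2 j hj).trans hle⟩
  have e1 := h2 ⟨1, by omega⟩ le_rfl
  dsimp only at e1
  rw [pow_one] at e1
  by_contra hcon
  rw [not_le] at hcon
  have hcon' : |x 0| < (M : ℤ) := by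
    have h3 : ((|x 0| : ℤ) : ℝ) < ((M : ℤ) : ℝ) := by
      rw [Int.cast_abs, Int.cast_natCast]
      exact hcon
    exact_mod_cast h3
  have h3 := hmin (x 0) hx0 hcon' (x ⟨1, by omega⟩)
  exact absurd (h3.trans e1) (not_le.mpr (hX₀ X hX))

private lemma expoN_four (n : ℕ) (ξ lam : ℝ) (h : ∀ M : ℕ, GdN n lam M ξ) :
    MP_211f72_nt.Approx n ξ lam := by
  intro X₀
  obtain ⟨x, hM, ha, h1⟩ := h ⌈X₀⌉₊
  refine ⟨|(x 0 : ℝ)|, (Nat.le_ceil X₀).trans hM, x, ?_, le_rfl, h1⟩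
  rw [abs_pos]
  exact_mod_cast ha

end ExpoN

/-- Elementary facts on the exponent. -/
theorem vExpoN : S_ExpoN :=
  ⟨ExpoN.expoN_three, ExpoN.expoN_four, fun _ _ _ _ h hA => ExpoN.expoN_anti h hA⟩

end Pool.Agent.MP211V
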