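import Pool.Agent.Lib.MP_211f72_nt.V.Spec

/-!
# MP_211f72_nt, second theorem: factorisation in `ℤ[X]`
-/

namespace Pool.Agent.MP211V

open Polynomial

theorem vFact : S_Fact := by
  intro P
  refine WfDvdMonoid.induction_on_irreducible
    (motive := fun P : ℤ[X] => P ≠ 0 → ∃ (k : ℤ) (r : ℕ) (F : Fin r → ℤ[X]), k ≠ 0 ∧
      P = C k * ∏ i, F i ∧ (∀ i, Irreducible (F i)) ∧ (∀ i, 1 ≤ (F i).natDegree) ∧
      ∑ i, (F i).natDegree = P.natDegree) P (fun h => absurd rfl h) ?_ ?_
  · intro u hu _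
    obtain ⟨k, hk, rfl⟩ := Polynomial.isUnit_iff.1 hu
    refine ⟨k, 0, Fin.elim0, hk.ne_zero, ?_, fun i => i.elim0, fun i => i.elim0, ?_⟩
    · simp
    · simp
  · intro a q ha hq ih _
    obtain ⟨k, r, F, hk, hF, hirr, hdeg, hsum⟩ := ih ha
    have hmul : (q * a).natDegree = q.natDegree + a.natDegree := natDegree_mul hq.ne_zero ha
    rcases Nat.eq_zero_or_pos q.natDegree with h0 | h0
    · obtain ⟨z, hz⟩ : ∃ z : ℤ, q = C z := ⟨q.coeff 0, eq_C_of_natDegree_eq_zero h0⟩
      have hz0 : z ≠ 0 := by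
        rintro rfl
        exact hq.ne_zero (by rw [hz, C_0])
      refine ⟨z * k, r, F, mul_ne_zero hz0 hk, ?_, hirr, hdeg, ?_⟩
      · rw [hz, C_mul, mul_assoc, ← hF]
      · rw [hmul, h0, zero_add, hsum]
    · refine ⟨k, r + 1, Fin.cons q F, hk, ?_, ?_, ?_, ?_⟩
      · rw [Fin.prod_univ_succ]
        simp only [Fin.cons_zero, Fin.cons_succ]
        rw [hF]
        ring
      · intro i
        refine Fin.cases ?_ (fun j => ?_) i
        · simpa using hq
        · simpa using hirr j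
      · intro i
        refine Fin.cases ?_ (fun j => ?_) i
        · rw [Fin.cons_zero]
          exact h0
        · simpa using hdeg j
      · rw [Fin.sum_univ_succ, hmul]
        simp only [Fin.cons_zero, Fin.cons_succ]
        rw [hsum]

end Pool.Agent.MP211V
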