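import Pool.Agent.Lib.MP_211f72_nt.V.Spec

/-!
# MP_211f72_nt, V, Gel: Gelfond's inequality (by the Mahler measure)
-/

namespace Pool.Agent.MP211V

open Polynomial

namespace Gel

/-- the Mahler measure of a real polynomial -/
noncomputable def mm (P : ℝ[X]) : ℝ := (P.map Complex.ofRealHom).mahlerMeasure

theorem mm_nonneg (P : ℝ[X]) : 0 ≤ mm P := mahlerMeasure_nonneg _

theorem mm_prod {ι : Type} (s : Finset ι) (F : ι → ℝ[X]) : mm (∏ i ∈ s, F i) = ∏ i ∈ s, mm (F i) := by
  classical
  induction s using Finset.induction_on with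
  | empty => simp [mm]
  | insert a s ha ih =>
    rw [Finset.prod_insert ha, Finset.prod_insert ha, ← ih]
    unfold mm
    rw [Polynomial.map_mul, mahlerMeasure_mul]

theorem coeff_le (P : ℝ[X]) (j : ℕ) : |P.coeff j| ≤ (P.natDegree.choose j : ℝ) * mm P := by
  have h := norm_coeff_le_choose_mul_mahlerMeasure j (P.map Complex.ofRealHom)
  rw [natDegree_map_eq_of_injective Complex.ofReal_injective, coeff_map] at h
  simpa [mm] using h

theorem sum_coeff_le (P : ℝ[X]) :
    ∑ j ∈ Finset.range (P.natDegree + 1), |P.coeff j| ≤ 2 ^ P.natDegree * mm P := by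
  calc ∑ j ∈ Finset.range (P.natDegree + 1), |P.coeff j|
      ≤ ∑ j ∈ Finset.range (P.natDegree + 1), (P.natDegree.choose j : ℝ) * mm P :=
        Finset.sum_le_sum fun j _ => coeff_le P j
    _ = 2 ^ P.natDegree * mm P := by
        rw [← Finset.sum_mul]
        congr 1
        exact_mod_cast Nat.sum_range_choose P.natDegree

theorem mm_le (P : ℝ[X]) (n : ℕ) (hn : P.natDegree ≤ n) :
    mm P ≤ ∑ j ∈ Finset.range (n + 1), |P.coeff j| := by
  have h := mahlerMeasure_le_sum_norm_coeff (P.map Complex.ofRealHom)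
  rw [Polynomial.sum_over_range' _ (fun n => norm_zero) (n + 1)] at h
  · simpa [mm] using h
  · have := natDegree_map_le (p := P) (f := Complex.ofRealHom)
    omega

theorem eval_le (P : ℝ[X]) (y : ℝ) (h0 : 0 ≤ y) (h1 : y ≤ 1) :
    |P.eval y| ≤ ∑ j ∈ Finset.range (P.natDegree + 1), |P.coeff j| := by
  rw [eval_eq_sum_range]
  refine (Finset.abs_sum_le_sum_abs _ _).trans (Finset.sum_le_sum fun j _ => ?_)
  rw [abs_mul, abs_pow, abs_of_nonneg h0]
  exact mul_le_of_le_one_right (abs_nonneg _) (pow_le_one₀ h0 h1)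

end Gel

open Gel in
theorem vGel (h1 : S_Coef) : S_Gel := by
  intro n
  obtain ⟨C₀, hC₀, hC⟩ := h1 n
  refine ⟨2 ^ n * ((n + 1) * C₀) + 1, ?_, ?_⟩
  · have : (0 : ℝ) ≤ 2 ^ n * ((n + 1) * C₀) := by positivity
    linarith
  intro r F c a b hd hs hab hF
  -- the affine substitution
  set L : ℝ[X] := C a + C (b - a) * X with hL
  have hLd : L.natDegree ≤ 1 := by
    rw [hL, add_comm]
    exact natDegree_linear_le
  have hLe : ∀ y : ℝ, L.eval y = a + (b - a) * y := by
    intro y
    simp [hL]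
  have hba : 0 < b - a := sub_pos.2 hab
  have hdeg : ∀ i, ((F i).comp L).natDegree ≤ (F i).natDegree := by
    intro i
    calc ((F i).comp L).natDegree ≤ (F i).natDegree * L.natDegree := natDegree_comp_le
      _ ≤ (F i).natDegree * 1 := Nat.mul_le_mul_left _ hLd
      _ = (F i).natDegree := mul_one _
  -- the maxima
  have hmax : ∀ i, ∃ x : ℝ, a ≤ x ∧ x ≤ b ∧ ∀ y : ℝ, a ≤ y → y ≤ b → |(F i).eval y| ≤ |(F i).eval x| := by
    intro i
    obtain ⟨x, hx, hm⟩ := isCompact_Icc.exists_isMaxOn (Set.nonempty_Icc.2 hab.le)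
      ((F i).continuous.abs.continuousOn (s := Set.Icc a b))
    exact ⟨x, hx.1, hx.2, fun y hy hy' => hm ⟨hy, hy'⟩⟩
  choose x hxa hxb hxm using hmax
  have hpos : ∀ i, 0 < |(F i).eval (x i)| := by
    intro i
    by_contra hcon
    have hz : ∀ y ∈ Set.Icc a b, (F i).eval y = 0 := by
      intro y hy
      have := (hxm i y hy.1 hy.2).trans (not_lt.1 hcon)
      exact abs_nonpos_iff.1 this
    have hF0 : F i = 0 := by
      apply Polynomial.eq_zero_of_infinite_isRoot
      exact (Set.Icc_infinite hab).mono fun y hy => hz y hy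
    have := hd i
    rw [hF0] at this
    simp at this
  have hc : 0 ≤ c := (abs_nonneg _).trans (hF a le_rfl hab.le)
  refine ⟨fun i => |(F i).eval (x i)|, hpos, fun i y hy hy' => hxm i y hy hy',
    fun i => ⟨x i, hxa i, hxb i, rfl⟩, ?_⟩
  have key : ∀ i, |(F i).eval (x i)| ≤ 2 ^ (F i).natDegree * mm ((F i).comp L) := by
    intro i
    set y : ℝ := (x i - a) / (b - a) with hy
    have hy0 : 0 ≤ y := div_nonneg (sub_nonneg.2 (hxa i)) hba.le
    have hy1 : y ≤ 1 := by
      rw [hy, div_le_one hba]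
      linarith [hxb i]
    have he : (F i).eval (x i) = ((F i).comp L).eval y := by
      rw [eval_comp, hLe, hy]
      congr 1
      field_simp
      ring
    rw [he]
    refine (eval_le _ y hy0 hy1).trans ((sum_coeff_le _).trans ?_)
    exact mul_le_mul_of_nonneg_right (pow_le_pow_right₀ one_le_two (hdeg i)) (mm_nonneg _)
  have hprod : ∏ i, (F i).comp L = (∏ i, F i).comp L := by
    rw [← Polynomial.prod_comp]
  have hPd : ((∏ i, F i).comp L).natDegree ≤ n := by
    rw [← hprod]
    exact (natDegree_prod_le _ _).trans ((Finset.sum_le_sum fun i _ => hdeg i).trans hs)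
  have hPs : Sl ((∏ i, F i).comp L) c 0 1 := by
    intro y hy0 hy1
    rw [eval_comp, hLe]
    apply hF
    · have : 0 ≤ (b - a) * y := mul_nonneg hba.le hy0
      linarith
    · have : (b - a) * y ≤ (b - a) * 1 := mul_le_mul_of_nonneg_left hy1 hba.le
      linarith
  calc ∏ i, |(F i).eval (x i)|
      ≤ ∏ i, (2 ^ (F i).natDegree * mm ((F i).comp L)) :=
        Finset.prod_le_prod (fun i _ => abs_nonneg _) fun i _ => key i
    _ = 2 ^ (∑ i, (F i).natDegree) * mm ((∏ i, F i).comp L) := by
        rw [Finset.prod_mul_distrib, Finset.prod_pow_eq_pow_sum, ← mm_prod, hprod]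
    _ ≤ 2 ^ n * ((n + 1) * C₀ * c) := by
        apply mul_le_mul (pow_le_pow_right₀ one_le_two hs) _ (mm_nonneg _) (by positivity)
        refine (mm_le _ n hPd).trans ?_
        calc ∑ j ∈ Finset.range (n + 1), |((∏ i, F i).comp L).coeff j|
            ≤ ∑ _j ∈ Finset.range (n + 1), C₀ * c :=
              Finset.sum_le_sum fun j _ => hC _ c hPd hPs j
          _ = (n + 1) * C₀ * c := by
              rw [Finset.sum_const, Finset.card_range, nsmul_eq_mul]
              push_cast
              ring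
    _ ≤ (2 ^ n * ((n + 1) * C₀) + 1) * c := by nlinarith

end Pool.Agent.MP211V
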