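import Pool.Agent.Lib.MP_211f72_nt.V.Spec

/-!
# MP_211f72_nt, second theorem: an integer polynomial cannot be too small on an interval
-/

namespace Pool.Agent.MP211V

open Polynomial

theorem vInt (hM : S_Mar) (hS : S_Shift) : S_Int := by
  intro d
  obtain ⟨C₀, hC₀, h0⟩ := hM d
  obtain ⟨C₁, hC₁, h1⟩ := hS d
  refine ⟨1 + C₁ * ((d + 1 : ℕ) * (C₀ * 3 ^ d)), ?_, ?_⟩
  · have : 0 ≤ C₁ * ((d + 1 : ℕ) * (C₀ * 3 ^ d)) := by positivity
    linarith
  intro P c a b t hd hP ht ht1 htb ha hSl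
  have hc : 0 ≤ c := (abs_nonneg _).trans (hSl a le_rfl (by linarith))
  have hdeg : (rp P).natDegree ≤ d := by
    unfold rp
    exact natDegree_map_le.trans hd.le
  have key : ∀ i : ℕ, |((P.coeff i : ℤ) : ℝ)| * t ^ d ≤ (1 + C₁ * ((d + 1 : ℕ) * (C₀ * 3 ^ d))) * c := by
    intro i
    have e1 : ((P.coeff i : ℤ) : ℝ) = tc (rp P) 0 i := by
      unfold tc rp
      rw [taylor_zero, coeff_map]
      rfl
    have h2 := h1 (rp P) a 0 i hdeg
    rw [e1]
    have h3 : ∀ j ∈ Finset.Icc i d, |tc (rp P) a j| * |0 - a| ^ (j - i) * t ^ d ≤ C₀ * 3 ^ d * c := by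
      intro j hj
      rw [Finset.mem_Icc] at hj
      have h4 := h0 (rp P) c a b t a hdeg ht htb hSl le_rfl (by linarith) j
      have h5 : t ^ d ≤ t ^ j := pow_le_pow_of_le_one ht.le ht1 hj.2
      have h6 : |tc (rp P) a j| * t ^ d ≤ C₀ * c :=
        (mul_le_mul_of_nonneg_left h5 (abs_nonneg _)).trans h4
      have h7 : |0 - a| ^ (j - i) ≤ 3 ^ d := by
        rw [zero_sub, abs_neg]
        calc |a| ^ (j - i) ≤ 3 ^ (j - i) := pow_le_pow_left₀ (abs_nonneg _) ha _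
          _ ≤ 3 ^ d := pow_le_pow_right₀ (by norm_num) (by omega)
      calc |tc (rp P) a j| * |0 - a| ^ (j - i) * t ^ d
          = (|tc (rp P) a j| * t ^ d) * |0 - a| ^ (j - i) := by ring
        _ ≤ (C₀ * c) * 3 ^ d := mul_le_mul h6 h7 (by positivity) (by positivity)
        _ = C₀ * 3 ^ d * c := by ring
    have h8 : ∑ j ∈ Finset.Icc i d, |tc (rp P) a j| * |0 - a| ^ (j - i) * t ^ d ≤
        (d + 1 : ℕ) * (C₀ * 3 ^ d * c) := by
      refine (Finset.sum_le_card_nsmul _ _ _ h3).trans ?_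
      rw [nsmul_eq_mul]
      apply mul_le_mul_of_nonneg_right _ (by positivity)
      rw [Nat.card_Icc]
      exact_mod_cast (by omega : d + 1 - i ≤ d + 1)
    calc |tc (rp P) 0 i| * t ^ d
        ≤ (C₁ * ∑ j ∈ Finset.Icc i d, |tc (rp P) a j| * |0 - a| ^ (j - i)) * t ^ d :=
          mul_le_mul_of_nonneg_right h2 (by positivity)
      _ = C₁ * ∑ j ∈ Finset.Icc i d, |tc (rp P) a j| * |0 - a| ^ (j - i) * t ^ d := by
          rw [← Finset.sum_mul]
          ring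
      _ ≤ C₁ * ((d + 1 : ℕ) * (C₀ * 3 ^ d * c)) := mul_le_mul_of_nonneg_left h8 hC₁.le
      _ = (C₁ * ((d + 1 : ℕ) * (C₀ * 3 ^ d))) * c := by ring
      _ ≤ (1 + C₁ * ((d + 1 : ℕ) * (C₀ * 3 ^ d))) * c := by
          apply mul_le_mul_of_nonneg_right _ hc
          linarith
  refine ⟨key, ?_⟩
  refine le_trans ?_ (key P.natDegree)
  have h9 : P.coeff P.natDegree ≠ 0 := by
    rw [coeff_natDegree]
    exact leadingCoeff_ne_zero.mpr hP
  have h10 : (1 : ℝ) ≤ |((P.coeff P.natDegree : ℤ) : ℝ)| := by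
    have := Int.one_le_abs h9
    exact_mod_cast this
  nlinarith [pow_pos ht d]

end Pool.Agent.MP211V
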