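import Pool.Agent.Lib.MP_211f72_nt.V.Spec

/-!
# MP_211f72_nt, second theorem, module Irr: the classes of degree `n`
-/

namespace Pool.Agent.MP211V

open Polynomial Finset

namespace Irr

/-- the logarithm of the quantity of `Count` -/
private lemma log_quant {C h ω t β : ℝ} (n : ℕ) (hC : 0 < C) (hh : 0 < h) (hω : 0 < ω) (ht : 0 < t) :
    Real.log (C * h ^ (2 * n) * (ω ^ 3 / t ^ 2) ^ β) =
      Real.log C + 2 * n * Real.log h + β * (3 * Real.log ω - 2 * Real.log t) := by
  rw [Real.log_mul (by positivity) (by positivity), Real.log_mul (by positivity) (by positivity),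
    Real.log_pow, Real.log_rpow (by positivity), Real.log_div (by positivity) (by positivity),
    Real.log_pow, Real.log_pow]
  push_cast
  ring

private lemma quant_lt {C h ω t β : ℝ} (n : ℕ) (hC : 0 < C) (hh : 0 < h) (hω : 0 < ω) (ht : 0 < t)
    (hlt : Real.log C + 2 * n * Real.log h + β * (3 * Real.log ω - 2 * Real.log t) < 0) :
    C * h ^ (2 * n) * (ω ^ 3 / t ^ 2) ^ β < 1 := by
  rw [← log_quant n hC hh hω ht] at hlt
  exact (Real.log_neg_iff (by positivity)).1 hlt

end Irr

open Irr in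
theorem vIrr (h1 : S_Count) : S_Irr := by
  intro n lam A hn hl1 hl2 hA
  have hn1 : (4 : ℝ) ≤ n := by exact_mod_cast hn
  have hlam0 : 0 < lam := lt_trans (by positivity) hl1
  set γ : ℝ := 1 - ((n : ℝ) - 1) * lam with hγ
  have hγ0 : 0 < γ := by
    have : lam * ((n : ℝ) - 1) < 1 := by
      rw [lt_div_iff₀ (by linarith)] at hl2
      exact hl2
    rw [hγ]
    linarith
  obtain ⟨C, hC1, hC⟩ := h1 n (by omega)
  have hC0 : 0 < C := by linarith
  set c0 : ℝ := Real.log C + 2 * n * Real.log A with hc0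
  refine ⟨C, Real.exp (c0 / (2 * γ) + 1 + |c0 / (2 * γ)|), hC1, ?_, ?_⟩
  · apply Real.one_le_exp
    have := neg_abs_le (c0 / (2 * γ))
    linarith
  intro Y M t S hY hM hθ ht2 hS
  have hY0 : 0 < Y := lt_of_lt_of_le (Real.exp_pos _) hY
  have hY1 : 1 ≤ Y := by
    refine le_trans ?_ hY
    apply Real.one_le_exp
    have := neg_abs_le (c0 / (2 * γ))
    linarith
  have hM0 : 0 < M := by linarith
  have hlogY : c0 - 2 * γ * Real.log Y < 0 := by
    have h2 : c0 / (2 * γ) + 1 + |c0 / (2 * γ)| ≤ Real.log Y := (Real.le_log_iff_exp_le hY0).2 hY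
    have h3 : c0 / (2 * γ) < Real.log Y := by
      have := abs_nonneg (c0 / (2 * γ))
      linarith
    rw [div_lt_iff₀ (by positivity)] at h3
    linarith
  have hθ0 : 0 < th lam Y := by
    unfold th
    exact Real.rpow_pos_of_pos hY0 _
  have ht0 : 0 < t := lt_of_lt_of_le hθ0 hθ
  have hlY0 : 0 ≤ Real.log Y := Real.log_nonneg hY1
  -- empty set
  rcases S.eq_empty_or_nonempty with he | ⟨p0, hp0⟩
  · rw [he]
    constructor
    · intro _
      simp only [card_empty, Nat.cast_zero]
      positivity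
    · intro _
      simp only [card_empty, Nat.cast_zero]
      positivity
  set h : ℝ := A * Y ^ lam / M with hh
  set ω : ℝ := Y ^ (-1 - lam) with hω
  have hω0 : 0 < ω := Real.rpow_pos_of_pos hY0 _
  have hh0 : 0 < h := by positivity
  have hhω : A / (Y * M) = h * ω := by
    rw [hh, hω]
    have : Y ^ lam * Y ^ (-1 - lam) = Y⁻¹ := by
      rw [← Real.rpow_add hY0, ← Real.rpow_neg_one]
      congr 1
      ring
    calc A / (Y * M) = A * Y⁻¹ / M := by field_simp
      _ = A * (Y ^ lam * Y ^ (-1 - lam)) / M := by rw [this]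
      _ = A * Y ^ lam / M * Y ^ (-1 - lam) := by ring
  have hh1 : 1 ≤ h := by
    obtain ⟨P, hi, hd, hb, -⟩ := hS p0 hp0
    have h3 : P.leadingCoeff ≠ 0 := leadingCoeff_ne_zero.2 hi.ne_zero
    have h4 := hb P.natDegree
    rw [← leadingCoeff] at h4
    have h5 : (1 : ℤ) ≤ |P.leadingCoeff| := Int.one_le_abs h3
    have h6 : (1 : ℝ) ≤ |((P.leadingCoeff : ℤ) : ℝ)| := by exact_mod_cast h5
    exact h6.trans h4
  rw [hhω] at hS
  obtain ⟨-, hcnt⟩ := hC h ω t S hh1 hω0 ht0 (by linarith) hS
  have hcnt2 := hcnt (by omega)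
  -- logarithms
  set y : ℝ := -Real.log t with hy
  set μ : ℝ := Real.log M with hμ
  set LY : ℝ := Real.log Y with hLY
  have hμ0 : 0 ≤ μ := Real.log_nonneg hM
  have hlogt : Real.log t = -y := by rw [hy]; ring
  have hy0 : 0 < y := by
    rw [hy]
    have := Real.log_neg ht0 (by linarith : t < 1)
    linarith
  have hyL : 2 * y ≤ (1 + lam) * LY := by
    have h2 : Real.log (th lam Y) ≤ Real.log t := Real.log_le_log hθ0 hθ
    unfold th at h2
    rw [Real.log_rpow hY0, hlogt] at h2
    linarith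
  have hlogh : Real.log h = Real.log A + lam * LY - μ := by
    rw [hh, Real.log_div (by positivity) (by positivity), Real.log_mul (by positivity) (by positivity),
      Real.log_rpow hY0]
  have hlogω : Real.log ω = (-1 - lam) * LY := by
    rw [hω, Real.log_rpow hY0]
  have hmain : ∀ β : ℝ, Real.log C + 2 * n * Real.log h + β * (3 * Real.log ω - 2 * Real.log t) =
      c0 - 2 * γ * LY + 2 * ((1 + lam) * LY) - 2 * n * μ - β * (3 * ((1 + lam) * LY) - 2 * y) := by
    intro β
    rw [hlogh, hlogω, hlogt, hc0, hγ]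
    ring
  constructor
  · intro hMt
    have hμy : μ ≤ 3 / 10 * y := by
      have h2 := Real.log_le_log hM0 hMt
      rw [Real.log_rpow ht0, hlogt] at h2
      linarith
    set ρ : ℝ := μ / y with hρ
    have hρ0 : 0 ≤ ρ := by positivity
    have hρ1 : ρ ≤ 3 / 10 := by
      rw [hρ, div_le_iff₀ hy0]
      exact hμy
    have hμρ : μ = ρ * y := by
      rw [hρ]
      field_simp
    have hneg : Real.log C + 2 * n * Real.log h + (1 - ρ) * (3 * Real.log ω - 2 * Real.log t) < 0 := by
      rw [hmain]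
      have e1 : (1 + lam) * LY * (1 - 3 * ρ) ≥ 2 * y * (1 - 3 * ρ) :=
        mul_le_mul_of_nonneg_right hyL (by linarith)
      have e2 : 0 ≤ (n - 4) * (ρ * y) := mul_nonneg (by linarith) (by positivity)
      have e3 : 0 ≤ ρ * y := by positivity
      have e4 : c0 - 2 * γ * LY + 2 * ((1 + lam) * LY) - 2 * n * μ - (1 - ρ) * (3 * ((1 + lam) * LY) - 2 * y) =
          (c0 - 2 * γ * LY) - ((1 + lam) * LY * (1 - 3 * ρ) - 2 * y * (1 - 3 * ρ)) -
            2 * ((n - 4) * (ρ * y)) - 4 * (ρ * y) := by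
        rw [hμρ]
        ring
      rw [e4]
      linarith
    have h3 := quant_lt n hC0 hh0 hω0 ht0 hneg
    have h4 := hcnt2 (1 - ρ) (by linarith) (by linarith) (Or.inl h3)
    refine h4.trans (le_of_eq ?_)
    have h5 : t ^ (-(1 - ρ)) = 1 / (t * M) := by
      have h6 : Real.log (t ^ (-(1 - ρ))) = Real.log (1 / (t * M)) := by
        rw [Real.log_rpow ht0, Real.log_div (by norm_num) (by positivity), Real.log_one,
          Real.log_mul (by positivity) (by positivity), hlogt, ← hμ, hμρ]
        ring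
      exact Real.log_injOn_pos (Set.mem_Ioi.2 (Real.rpow_pos_of_pos ht0 _))
        (Set.mem_Ioi.2 (by positivity)) h6
    rw [h5]
    ring
  · intro hMt
    have hμy : 3 / 10 * y ≤ μ := by
      have h2 := Real.log_le_log (Real.rpow_pos_of_pos ht0 _) hMt
      rw [Real.log_rpow ht0, hlogt] at h2
      linarith
    have hneg : Real.log C + 2 * n * Real.log h + (7 / 10) * (3 * Real.log ω - 2 * Real.log t) < 0 := by
      rw [hmain]
      have e1 : 0 ≤ (1 + lam) * LY := by positivity
      have e2 : 2 * (n : ℝ) * (3 / 10 * y) ≤ 2 * n * μ := mul_le_mul_of_nonneg_left hμy (by positivity)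
      have e3 : 4 * y ≤ n * y := mul_le_mul_of_nonneg_right hn1 hy0.le
      nlinarith
    have h3 := quant_lt n hC0 hh0 hω0 ht0 hneg
    exact hcnt2 (7 / 10) (by norm_num) (by norm_num) (Or.inl h3)

end Pool.Agent.MP211V
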