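import Pool.Agent.Lib.MP_211f72_nt.V.Spec
import Pool.Agent.Lib.MP_211f72_nt.KidsMink

/-!
# MP_211f72_nt, second theorem: children from the Minkowski argument (`KidsN`)
-/

namespace Pool.Agent.MP211V

open MeasureTheory

/-- the sum of the binomial coefficients -/
theorem kidsN_choose (n : ℕ) (j : Fin (n + 1)) :
    ∑ i : Fin (n + 1), ((j : ℕ).choose (i : ℕ) : ℝ) ≤ 2 ^ n := by
  calc ∑ i : Fin (n + 1), ((j : ℕ).choose (i : ℕ) : ℝ)
      ≤ ∑ i : Fin (n + 1), (n.choose (i : ℕ) : ℝ) := by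
        refine Finset.sum_le_sum fun i _ => ?_
        have : (j : ℕ).choose (i : ℕ) ≤ n.choose (i : ℕ) :=
          Nat.choose_le_choose _ (Nat.lt_succ_iff.mp j.2)
        exact_mod_cast this
    _ = ∑ i ∈ Finset.range (n + 1), (n.choose i : ℝ) :=
        Fin.sum_univ_eq_sum_range (fun i => (n.choose i : ℝ)) (n + 1)
    _ = 2 ^ n := by
        have := Nat.sum_range_choose n
        exact_mod_cast this

/-- the algebra of the error terms -/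
theorem kidsN_err (hY : S_Yc) (n : ℕ) (x : Fin (n + 1) → ℤ) (i1 : Fin (n + 1))
    (hi1 : (i1 : ℕ) = 1) (ξ τ' q Q δ η w ρ : ℝ) (hq : 0 < q) (hqA : q < |(x 0 : ℝ)|)
    (hAQ : |(x 0 : ℝ)| ≤ Q) (h1 : |yc n x ξ i1| ≤ η)
    (h2 : ∀ j : Fin (n + 1), 2 ≤ (j : ℕ) → |yc n x ξ j| ≤ δ)
    (hδ : 0 < δ) (hη : 0 < η) (hηw : η = w * q) (hη2 : w * η ≤ δ)
    (hw1 : 2 * w ≤ 1) (hρ0 : 0 ≤ ρ) (hρw : ρ ≤ w) (hρQ : ρ * Q ≤ δ / 2)
    (hτ : |τ'| ≤ ρ) (j : Fin (n + 1)) (hj : (j : ℕ) ≠ 0) :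
    |yc n x (ξ + (yc n x ξ i1 / x 0 + τ')) j| ≤ (2 ^ n + 2 * n + 1) * δ := by
  obtain ⟨hY1, _, hY3, _⟩ := hY n x
  rw [hY3]
  set A : ℝ := (x 0 : ℝ) with hA
  set y : ℝ := yc n x ξ i1 with hy
  set τ : ℝ := y / A + τ' with hτd
  have hw0 : 0 ≤ w := hρ0.trans hρw
  have hApos : 0 < |A| := hq.trans hqA
  have hA0 : A ≠ 0 := abs_pos.mp hApos
  have hτA : |τ' * A| ≤ δ / 2 := by
    rw [abs_mul]
    calc |τ'| * |A| ≤ ρ * Q := mul_le_mul hτ hAQ (abs_nonneg _) hρ0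
      _ ≤ δ / 2 := hρQ
  have hyA : |y / A| ≤ w := by
    rw [abs_div, div_le_iff₀ hApos]
    calc |y| ≤ η := h1
      _ = w * q := hηw
      _ ≤ w * |A| := by gcongr
  have hT : |τ| ≤ 2 * w := (abs_add_le _ _).trans (by linarith [hτ.trans hρw])
  have hT1 : |τ| ≤ 1 := hT.trans hw1
  -- the terms
  set f : Fin (n + 1) → ℝ := fun i =>
    ((j : ℕ).choose (i : ℕ) : ℝ) * (-τ) ^ ((j : ℕ) - (i : ℕ)) * yc n x ξ i with hf
  change |∑ i, f i| ≤ _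
  have h01 : (0 : Fin (n + 1)) ≠ i1 := by
    intro h
    rw [← h] at hi1
    simp at hi1
  have hsplit : ∑ i, f i = (f 0 + f i1) + ∑ i ∈ (Finset.univ.erase 0).erase i1, f i := by
    rw [add_assoc, Finset.add_sum_erase _ f (Finset.mem_erase.mpr ⟨h01.symm, Finset.mem_univ _⟩),
      Finset.add_sum_erase _ f (Finset.mem_univ _)]
  obtain ⟨k, hk⟩ : ∃ k, (j : ℕ) = k + 1 := ⟨(j : ℕ) - 1, by omega⟩
  have hkn : (k : ℝ) ≤ n := by
    have : k ≤ n := by have := j.2; omega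
    exact_mod_cast this
  have hf01 : f 0 + f i1 = (-τ) ^ k * (-(τ' * A) + k * y) := by
    simp only [hf]
    rw [hY1, hi1, hk, ← hy]
    have e0 : ((0 : Fin (n + 1)) : ℕ) = 0 := rfl
    rw [e0, Nat.choose_zero_right, Nat.choose_one_right, Nat.sub_zero, Nat.add_sub_cancel, pow_succ]
    have e1 : τ * A = y + τ' * A := by
      rw [hτd]
      field_simp
    have e2 : (-τ) ^ k * -τ * A = -((-τ) ^ k * (τ * A)) := by ring
    push_cast
    rw [one_mul, e2, e1]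
    ring
  have hb1 : |f 0 + f i1| ≤ (2 * n + 1) * δ := by
    rw [hf01, abs_mul, abs_pow, abs_neg]
    have e3 : |-(τ' * A) + k * y| ≤ δ / 2 + k * η := by
      calc |-(τ' * A) + k * y| ≤ |-(τ' * A)| + |k * y| := abs_add_le _ _
        _ ≤ δ / 2 + k * η := by
          have hky : |(k : ℝ) * y| ≤ k * η := by
            rw [abs_mul, Nat.abs_cast]
            gcongr
          rw [abs_neg]
          exact add_le_add hτA hky
    rcases Nat.eq_zero_or_pos k with hk0 | hk0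
    · rw [hk0] at e3 ⊢
      simp only [pow_zero, one_mul]
      calc _ ≤ δ / 2 + ((0 : ℕ) : ℝ) * η := e3
        _ ≤ (2 * n + 1) * δ := by
          have : (0 : ℝ) ≤ n * δ := by positivity
          push_cast
          linarith
    · have e4 : |τ| ^ k ≤ 2 * w := by
        calc |τ| ^ k ≤ |τ| ^ 1 := pow_le_pow_of_le_one (abs_nonneg _) hT1 hk0
          _ ≤ 2 * w := by rw [pow_one]; exact hT
      calc |τ| ^ k * |-(τ' * A) + k * y| ≤ 2 * w * (δ / 2 + k * η) := by gcongr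
        _ = 2 * w * (δ / 2) + 2 * k * (w * η) := by ring
        _ ≤ 1 * (δ / 2) + 2 * n * δ := by gcongr
        _ ≤ (2 * n + 1) * δ := by linarith
  have hb2 : |∑ i ∈ (Finset.univ.erase 0).erase i1, f i| ≤ 2 ^ n * δ := by
    calc |∑ i ∈ (Finset.univ.erase 0).erase i1, f i|
        ≤ ∑ i ∈ (Finset.univ.erase 0).erase i1, |f i| := Finset.abs_sum_le_sum_abs _ _
      _ ≤ ∑ i ∈ (Finset.univ.erase 0).erase i1, ((j : ℕ).choose (i : ℕ) : ℝ) * δ := by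
        refine Finset.sum_le_sum fun i hi => ?_
        obtain ⟨hi2, hi3⟩ := Finset.mem_erase.mp hi
        obtain ⟨hi4, _⟩ := Finset.mem_erase.mp hi3
        have hi5 : (i : ℕ) ≠ 1 := fun h => hi2 (Fin.ext (by rw [h, hi1]))
        have hi6 : (i : ℕ) ≠ 0 := fun h => hi4 (Fin.ext h)
        simp only [hf]
        rw [abs_mul, abs_mul, Nat.abs_cast, abs_pow, abs_neg]
        have e5 : |τ| ^ ((j : ℕ) - (i : ℕ)) ≤ 1 := pow_le_one₀ (abs_nonneg _) hT1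
        have e6 : |yc n x ξ i| ≤ δ := h2 i (by omega)
        calc ((j : ℕ).choose (i : ℕ) : ℝ) * |τ| ^ ((j : ℕ) - (i : ℕ)) * |yc n x ξ i|
            ≤ ((j : ℕ).choose (i : ℕ) : ℝ) * 1 * δ := by gcongr
          _ = ((j : ℕ).choose (i : ℕ) : ℝ) * δ := by ring
      _ ≤ ∑ i : Fin (n + 1), ((j : ℕ).choose (i : ℕ) : ℝ) * δ :=
        Finset.sum_le_sum_of_subset_of_nonneg (Finset.subset_univ _)
          (fun i _ _ => by positivity)
      _ = (∑ i : Fin (n + 1), ((j : ℕ).choose (i : ℕ) : ℝ)) * δ := by rw [Finset.sum_mul]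
      _ ≤ 2 ^ n * δ := by
        have := kidsN_choose n j
        gcongr
  rw [hsplit]
  calc |f 0 + f i1 + ∑ i ∈ (Finset.univ.erase 0).erase i1, f i|
      ≤ |f 0 + f i1| + |∑ i ∈ (Finset.univ.erase 0).erase i1, f i| := abs_add_le _ _
    _ ≤ (2 * n + 1) * δ + 2 ^ n * δ := add_le_add hb1 hb2
    _ = (2 ^ n + 2 * n + 1) * δ := by ring

/-- the point near a good `ξ` -/
theorem kidsN_point (hM : S_MinkN) (hY : S_Yc) (n : ℕ) (lam lam1 ε Q : ℝ) (M : ℕ) (ξ κ : ℝ)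
    (hn : 4 ≤ n) (hl : 1 / (n : ℝ) < lam)
    (hl1 : lam < lam1) (hl2 : lam1 < 1 / ((n : ℝ) - 1)) (hε0 : 0 < ε) (hε1 : ε ≤ 1 / 2)
    (hQ : 1 ≤ Q) (hQC : 2 ^ n * ((2 ^ n + 2 * n + 1) * Q ^ (-lam1)) ≤ Q ^ (-lam))
    (hQw : 2 * Q ^ (((n : ℝ) - 1) * lam1 - 2 + ε) ≤ 1) (hQM : (M : ℝ) ≤ Q ^ (1 - ε))
    (h0 : κ ≤ ξ) (h1 : ξ ≤ 1 - κ)
    (hE : ξ ∉ {ξ : ℝ | κ ≤ ξ ∧ ξ ≤ 1 - κ ∧ ∃ x : Fin (n + 1) → ℤ, x ≠ 0 ∧
      |(x 0 : ℝ)| ≤ Q ^ (1 - ε) ∧ BoxN n x ξ Q lam1}) :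
    ∃ ζ, |ξ - ζ| ≤ Q ^ (((n : ℝ) - 1) * lam1 - 2 + ε) ∧
      ∀ ξ', |ξ' - ζ| ≤ Q ^ (-1 - lam1) / 2 → 0 ≤ ξ' → ξ' ≤ 1 → GdN n lam M ξ' := by
  have hQ0 : 0 < Q := lt_of_lt_of_le one_pos hQ
  have hnr : (4 : ℝ) ≤ n := by exact_mod_cast hn
  have hn0 : (0 : ℝ) < n := by linarith
  have hlam0 : 0 < lam := lt_trans (by positivity) hl
  have hlam10 : 0 < lam1 := hlam0.trans hl1
  have hn1 : (0 : ℝ) < (n : ℝ) - 1 := by linarith
  have hl3 : lam1 * ((n : ℝ) - 1) < 1 := by rwa [lt_div_iff₀ hn1] at hl2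
  have hl4 : 1 < lam * n := by rwa [div_lt_iff₀ hn0] at hl
  have hl5 : lam1 ≤ 1 / 3 := by
    have h3 : lam1 * 3 ≤ lam1 * ((n : ℝ) - 1) := by
      refine mul_le_mul_of_nonneg_left ?_ hlam10.le
      linarith
    linarith
  obtain ⟨x, hx0, hxQ, hbox⟩ := hM n ξ Q lam1 (by omega) hQ
  have hqA : Q ^ (1 - ε) < |(x 0 : ℝ)| := by
    by_contra hcon
    rw [not_lt] at hcon
    exact hE ⟨h0, h1, x, hx0, hcon, hbox⟩
  set i1 : Fin (n + 1) := ⟨1, by omega⟩ with hi1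
  have hi1v : (i1 : ℕ) = 1 := rfl
  have b1 : |yc n x ξ i1| ≤ Q ^ (((n : ℝ) - 1) * lam1 - 1) := by
    have := hbox i1 (by rw [hi1v]; norm_num)
    rwa [if_pos hi1v] at this
  have b2 : ∀ j : Fin (n + 1), 2 ≤ (j : ℕ) → |yc n x ξ j| ≤ Q ^ (-lam1) := by
    intro j hj
    have := hbox j (by omega)
    rwa [if_neg (by omega)] at this
  have hq : 0 < Q ^ (1 - ε) := Real.rpow_pos_of_pos hQ0 _
  have hδ : 0 < Q ^ (-lam1) := Real.rpow_pos_of_pos hQ0 _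
  have hη : 0 < Q ^ (((n : ℝ) - 1) * lam1 - 1) := Real.rpow_pos_of_pos hQ0 _
  have hw : 0 < Q ^ (((n : ℝ) - 1) * lam1 - 2 + ε) := Real.rpow_pos_of_pos hQ0 _
  have hρ : 0 < Q ^ (-1 - lam1) := Real.rpow_pos_of_pos hQ0 _
  have hηw : Q ^ (((n : ℝ) - 1) * lam1 - 1) =
      Q ^ (((n : ℝ) - 1) * lam1 - 2 + ε) * Q ^ (1 - ε) := by
    rw [← Real.rpow_add hQ0]
    congr 1
    ring
  have hη2 : Q ^ (((n : ℝ) - 1) * lam1 - 2 + ε) * Q ^ (((n : ℝ) - 1) * lam1 - 1) ≤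
      Q ^ (-lam1) := by
    rw [← Real.rpow_add hQ0]
    refine Real.rpow_le_rpow_of_exponent_le hQ ?_
    linarith
  have hρw : Q ^ (-1 - lam1) / 2 ≤ Q ^ (((n : ℝ) - 1) * lam1 - 2 + ε) := by
    have h3 : lam * n ≤ lam1 * n := mul_le_mul_of_nonneg_right hl1.le hn0.le
    have : Q ^ (-1 - lam1) ≤ Q ^ (((n : ℝ) - 1) * lam1 - 2 + ε) :=
      Real.rpow_le_rpow_of_exponent_le hQ (by linarith)
    linarith
  have hρQ : Q ^ (-1 - lam1) / 2 * Q ≤ Q ^ (-lam1) / 2 := by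
    have : Q ^ (-1 - lam1) * Q = Q ^ (-lam1) := by
      conv_lhs => rw [← Real.rpow_one Q, ← Real.rpow_mul hQ0.le, ← Real.rpow_add hQ0]
      congr 1
      ring
    linarith
  have hApos : 0 < |(x 0 : ℝ)| := hq.trans hqA
  have hA0 : (x 0 : ℝ) ≠ 0 := abs_pos.mp hApos
  refine ⟨ξ + yc n x ξ i1 / x 0, ?_, ?_⟩
  · have e : ξ - (ξ + yc n x ξ i1 / x 0) = - (yc n x ξ i1 / x 0) := by ring
    rw [e, abs_neg, abs_div, div_le_iff₀ hApos]
    calc |yc n x ξ i1| ≤ Q ^ (((n : ℝ) - 1) * lam1 - 1) := b1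
      _ = Q ^ (((n : ℝ) - 1) * lam1 - 2 + ε) * Q ^ (1 - ε) := hηw
      _ ≤ Q ^ (((n : ℝ) - 1) * lam1 - 2 + ε) * |(x 0 : ℝ)| := by gcongr
  · intro ξ' hξ' h0' h1'
    have herr : ∀ j : Fin (n + 1), (j : ℕ) ≠ 0 →
        |yc n x ξ' j| ≤ (2 ^ n + 2 * n + 1) * Q ^ (-lam1) := by
      intro j hj
      have := kidsN_err hY n x i1 hi1v ξ (ξ' - (ξ + yc n x ξ i1 / x 0)) (Q ^ (1 - ε)) Q
        (Q ^ (-lam1)) (Q ^ (((n : ℝ) - 1) * lam1 - 1)) (Q ^ (((n : ℝ) - 1) * lam1 - 2 + ε))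
        (Q ^ (-1 - lam1) / 2) hq hqA hxQ b1 b2 hδ hη hηw hη2 hQw (by positivity) hρw hρQ hξ' j hj
      have e : ξ + (yc n x ξ i1 / x 0 + (ξ' - (ξ + yc n x ξ i1 / x 0))) = ξ' := by ring
      rwa [e] at this
    obtain ⟨_, _, _, _, _, hY6⟩ := hY n x
    have hle : (2 : ℝ) ^ n * ((2 ^ n + 2 * n + 1) * Q ^ (-lam1)) ≤ |(x 0 : ℝ)| ^ (-lam) :=
      hQC.trans (Real.rpow_le_rpow_of_nonpos hApos hxQ (by linarith))
    refine ⟨x, hQM.trans hqA.le, ?_, ?_⟩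
    · intro h
      exact hA0 (by rw [h]; simp)
    · intro j _
      refine (hY6 ξ' ((2 ^ n + 2 * n + 1) * Q ^ (-lam1)) (by positivity) herr j).trans ?_
      refine le_trans ?_ hle
      have h3 : (1 + |ξ'|) ^ n ≤ (2 : ℝ) ^ n := by
        have : 1 + |ξ'| ≤ 2 := by rw [abs_of_nonneg h0']; linarith
        gcongr
      gcongr

/-- a subinterval of half the length -/
theorem kidsN_half (P : ℝ → Prop) (u v t L : ℝ) (huv : u < v)
    (h : MP_211f72_nt.HasKids 8 P (u + (v - u) / 4) (v - (v - u) / 4) t L) :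
    MP_211f72_nt.HasKids 16 P u v t L := by
  obtain ⟨l, C, hl, h1, h2, h3, h4, h5⟩ := h
  refine ⟨l, C, hl, ?_, h2, h3, h4, ?_⟩
  · intro c hc
    obtain ⟨h6, h7⟩ := h1 c hc
    constructor <;> linarith
  · intro p r hr
    refine (h5 p r hr).trans (le_of_eq ?_)
    have hvu : v - u ≠ 0 := by
      have : 0 < v - u := by linarith
      exact this.ne'
    have e : v - (v - u) / 4 - (u + (v - u) / 4) = (v - u) / 2 := by ring
    rw [e]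
    congr 2
    field_simp
    ring

/-- **KidsN.** -/
theorem vKidsN (hM : S_MinkN) (hB : S_BadM) (hY : S_Yc) : S_KidsN := by
  intro n lam hn hl hl3
  refine ⟨16, by norm_num, ?_⟩
  intro u v t L M hu huv hv ht hts
  have hnr : (4 : ℝ) ≤ n := by exact_mod_cast hn
  have hn0 : (0 : ℝ) < n := by linarith
  have hlam0 : 0 < lam := lt_trans (by positivity) hl
  have hn1 : (0 : ℝ) < (n : ℝ) - 1 := by linarith
  have hl4 : 1 < lam * n := by rwa [div_lt_iff₀ hn0] at hl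
  have h1l : (0 : ℝ) < 1 + lam := by linarith
  rw [sdim, lt_div_iff₀ h1l] at hts
  -- the parameters
  set f : ℝ := 2 - ((n : ℝ) - 1) * lam - t * (1 + lam) with hf
  have hf0 : 0 < f := by linarith
  set κ' : ℝ := min ((1 / ((n : ℝ) - 1) - lam) / 2) (f / (2 * ((n : ℝ) - 1 + t))) with hκ
  have hκ0 : 0 < κ' := lt_min (by linarith) (by positivity)
  have hκ1 : κ' ≤ (1 / ((n : ℝ) - 1) - lam) / 2 := min_le_left _ _
  have hκ2 : κ' * (2 * ((n : ℝ) - 1 + t)) ≤ f := by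
    have : κ' ≤ f / (2 * ((n : ℝ) - 1 + t)) := min_le_right _ _
    rwa [le_div_iff₀ (by positivity)] at this
  set lam1 : ℝ := lam + κ' with hlam1
  have hl1 : lam < lam1 := by linarith
  have hl2 : lam1 < 1 / ((n : ℝ) - 1) := by linarith
  have hlam10 : 0 < lam1 := hlam0.trans hl1
  have hl5 : lam1 * ((n : ℝ) - 1) < 1 := by
    have := hl2
    rwa [lt_div_iff₀ hn1] at this
  have hl6 : 1 < lam1 * n := by
    have : lam * n ≤ lam1 * n := mul_le_mul_of_nonneg_right hl1.le hn0.le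
    linarith
  have hf1 : f / 2 ≤ 2 - ((n : ℝ) - 1) * lam1 - t * (1 + lam1) := by
    have : 2 - ((n : ℝ) - 1) * lam1 - t * (1 + lam1) = f - κ' * ((n : ℝ) - 1 + t) := by
      rw [hlam1, hf]; ring
    rw [this]
    linarith
  set ε : ℝ := min (1 / 2) (f / 4) with hε
  have hε0 : 0 < ε := lt_min (by norm_num) (by positivity)
  have hεh : ε ≤ 1 / 2 := min_le_left _ _
  have hε2 : ε ≤ f / 4 := min_le_right _ _
  have hvu : 0 < v - u := by linarith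
  have h1n : 1 / (n : ℝ) < lam1 := hl.trans hl1
  -- the bad set
  obtain ⟨QB, hQB⟩ := hB n lam1 ε ((v - u) / 4) ((v - u) / 128) hn h1n hl2 hε0 (by linarith)
    (by positivity) (by positivity)
  -- large `Q`
  have E1 : ∀ᶠ Q : ℝ in Filter.atTop, 128 * Q ^ (((n : ℝ) - 1) * lam1 - 2 + ε) < v - u := by
    have h := tendsto_rpow_neg_atTop (y := -(((n : ℝ) - 1) * lam1 - 2 + ε)) (by linarith)
    rw [neg_neg] at h
    have h2 := (h.const_mul 128)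
    rw [mul_zero] at h2
    exact h2.eventually_lt_const hvu
  have E2 : ∀ᶠ Q : ℝ in Filter.atTop, 2 < Q ^ ((n : ℝ) * lam1 - 1 + ε) :=
    (tendsto_rpow_atTop (by linarith)).eventually_gt_atTop 2
  have E3 : ∀ᶠ Q : ℝ in Filter.atTop, (2 : ℝ) ^ n * (2 ^ n + 2 * n + 1) < Q ^ (lam1 - lam) :=
    (tendsto_rpow_atTop (by linarith)).eventually_gt_atTop _
  have E4 : ∀ᶠ Q : ℝ in Filter.atTop, (M : ℝ) < Q ^ (1 - ε) :=
    (tendsto_rpow_atTop (by linarith)).eventually_gt_atTop _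
  have E5 : ∀ᶠ Q : ℝ in Filter.atTop, max L 1 * (16 / (v - u)) <
      Q ^ (2 - ((n : ℝ) - 1) * lam1 - ε - (1 + lam1) * t) :=
    (tendsto_rpow_atTop (by linarith)).eventually_gt_atTop _
  obtain ⟨Q, e1, e2, e3, e4, e5, eB, eQ⟩ := (E1.and (E2.and (E3.and (E4.and (E5.and
    ((Filter.eventually_ge_atTop QB).and (Filter.eventually_ge_atTop 1))))))).exists
  have hQ0 : 0 < Q := lt_of_lt_of_le one_pos eQ
  have hw : 0 < Q ^ (((n : ℝ) - 1) * lam1 - 2 + ε) := Real.rpow_pos_of_pos hQ0 _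
  have hρ : 0 < Q ^ (-1 - lam1) := Real.rpow_pos_of_pos hQ0 _
  have hρw : 2 * Q ^ (-1 - lam1) < Q ^ (((n : ℝ) - 1) * lam1 - 2 + ε) := by
    have h2 : Q ^ (((n : ℝ) - 1) * lam1 - 2 + ε) =
        Q ^ ((n : ℝ) * lam1 - 1 + ε) * Q ^ (-1 - lam1) := by
      rw [← Real.rpow_add hQ0]
      congr 1
      ring
    rw [h2]
    gcongr
  have hQC : 2 ^ n * ((2 ^ n + 2 * n + 1) * Q ^ (-lam1)) ≤ Q ^ (-lam) := by
    have h2 : Q ^ (-lam) = Q ^ (lam1 - lam) * Q ^ (-lam1) := by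
      rw [← Real.rpow_add hQ0]
      congr 1
      ring
    rw [h2, ← mul_assoc]
    gcongr
  have hwq : 2 * Q ^ (((n : ℝ) - 1) * lam1 - 2 + ε) ≤ 1 := by linarith
  have huv' : v - (v - u) / 4 - (u + (v - u) / 4) = (v - u) / 2 := by ring
  set E : Set ℝ := {ξ : ℝ | (v - u) / 4 ≤ ξ ∧ ξ ≤ 1 - (v - u) / 4 ∧
    ∃ x : Fin (n + 1) → ℤ, x ≠ 0 ∧ |(x 0 : ℝ)| ≤ Q ^ (1 - ε) ∧ BoxN n x ξ Q lam1} with hE
  have hEv : volume E ≤ ENNReal.ofReal ((v - (v - u) / 4 - (u + (v - u) / 4)) / 64) := by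
    rw [huv']
    refine (hQB Q eB).trans (ENNReal.ofReal_le_ofReal ?_)
    linarith
  obtain ⟨Z, hZ1, hZ2, hZ3⟩ := MP_211f72_nt.kidsMink_grid (u + (v - u) / 4) (v - (v - u) / 4)
    (Q ^ (((n : ℝ) - 1) * lam1 - 2 + ε)) hw (by rw [huv']; linarith) E hEv
    (fun ζ => ∀ ξ', |ξ' - ζ| ≤ Q ^ (-1 - lam1) / 2 → 0 ≤ ξ' → ξ' ≤ 1 → GdN n lam M ξ') (by
      intro ξ hξ1 hξ2 hξE
      exact kidsN_point hM hY n lam lam1 ε Q M ξ ((v - u) / 4) hn hl hl1 hl2 hε0 hεh eQ hQC hwq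
        e4.le (by linarith) (by linarith) hξE)
  have hkey : max L 1 ≤ (v - (v - u) / 4 - (u + (v - u) / 4)) /
      (8 * Q ^ (((n : ℝ) - 1) * lam1 - 2 + ε)) * (2 * (Q ^ (-1 - lam1) / 2)) ^ t := by
    rw [huv']
    have h2 : (2 * (Q ^ (-1 - lam1) / 2)) ^ t = Q ^ ((-1 - lam1) * t) := by
      rw [Real.rpow_mul hQ0.le]
      congr 1
      ring
    have h3 : (v - u) / 2 / (8 * Q ^ (((n : ℝ) - 1) * lam1 - 2 + ε)) * Q ^ ((-1 - lam1) * t) =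
        (v - u) / 16 * Q ^ (2 - ((n : ℝ) - 1) * lam1 - ε - (1 + lam1) * t) := by
      have h4 : Q ^ (2 - ((n : ℝ) - 1) * lam1 - ε - (1 + lam1) * t) =
          (Q ^ (((n : ℝ) - 1) * lam1 - 2 + ε))⁻¹ * Q ^ ((-1 - lam1) * t) := by
        rw [← Real.rpow_neg hQ0.le, ← Real.rpow_add hQ0]
        congr 1
        ring
      rw [h4]
      field_simp
      norm_num
    rw [h2, h3]
    have h5 : max L 1 = (v - u) / 16 * (max L 1 * (16 / (v - u))) := by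
      field_simp
    rw [h5]
    exact mul_le_mul_of_nonneg_left e5.le (by positivity)
  refine kidsN_half (GdN n lam M) u v t L huv ?_
  refine MP_211f72_nt.kidsMink_build (GdN n lam M) (u + (v - u) / 4) (v - (v - u) / 4) t L
    (Q ^ (((n : ℝ) - 1) * lam1 - 2 + ε)) (Q ^ (-1 - lam1) / 2) (by linarith) ht
    hw (by positivity) (by linarith) Z ?_ hZ2 hZ3 ((le_max_left _ _).trans hkey)
    ((le_max_right _ _).trans hkey)
  intro ζ hζ
  obtain ⟨h2, h3, h4⟩ := hZ1 ζ hζ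
  refine ⟨h2, h3, fun ξ hξ => h4 ξ hξ ?_ ?_⟩
  · rw [abs_le] at hξ
    linarith
  · rw [abs_le] at hξ
    linarith

end Pool.Agent.MP211V
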