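import Pool.Agent.Lib.MP_211f72_nt.V.Spec

/-!
# MP_211f72_nt, second theorem: `LP` (the system of inequalities has no solution)
-/

namespace Pool.Agent.MP211V

namespace LP

/-- basic facts on `λ` and `s = sdim n λ` -/
theorem facts (n : ℕ) (lam : ℝ) (hn : 4 ≤ n) (h1 : 1 / (n : ℝ) < lam)
    (h2 : lam < 1 / ((n : ℝ) - 1)) :
    0 < lam ∧ 1 < (n : ℝ) * lam ∧ ((n : ℝ) - 1) * lam < 1 ∧
      sdim n lam * (1 + lam) = 2 - ((n : ℝ) - 1) * lam ∧ 3 / 4 < sdim n lam ∧ sdim n lam < 1 := by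
  have hN : (4 : ℝ) ≤ n := by exact_mod_cast hn
  have hN0 : (0 : ℝ) < n := by linarith
  have hN1 : (0 : ℝ) < (n : ℝ) - 1 := by linarith
  have hl0 : 0 < lam := lt_trans (by positivity) h1
  have e1 : 1 < (n : ℝ) * lam := by
    rw [div_lt_iff₀ hN0] at h1; linarith
  have e2 : ((n : ℝ) - 1) * lam < 1 := by
    rw [lt_div_iff₀ hN1] at h2; linarith
  have h1l : 0 < 1 + lam := by linarith
  have e3 : sdim n lam * (1 + lam) = 2 - ((n : ℝ) - 1) * lam := by
    unfold sdim
    rw [div_mul_cancel₀ _ (ne_of_gt h1l)]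
  refine ⟨hl0, e1, e2, e3, ?_, ?_⟩
  · by_contra hc
    push Not at hc
    have h3 : sdim n lam * (1 + lam) ≤ 3 / 4 * (1 + lam) := mul_le_mul_of_nonneg_right hc h1l.le
    rw [e3] at h3
    -- 2 - (n-1) λ ≤ 3/4 (1 + λ)
    nlinarith [mul_pos hN1 hl0]
  · by_contra hc
    push Not at hc
    have h3 : 1 * (1 + lam) ≤ sdim n lam * (1 + lam) := mul_le_mul_of_nonneg_right hc h1l.le
    rw [e3] at h3
    nlinarith

/-- the bounds for one index -/
theorem idx (n d : ℕ) (s e T U w p : ℝ) (hn : 4 ≤ n) (hs0 : 3 / 4 < s) (hs1 : s < 1) (he : 0 ≤ e)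
    (hU : 0 ≤ U) (hd1 : 1 ≤ d) (hp : p ≤ T + e)
    (H : w ≤ e ∨ (s * p ≤ ((d : ℝ) + 1) * U + e ∧ w ≤ d * p + e ∧
      (2 ≤ d → s * p + 3 * (w - p) ≤ 2 * d * U + e ∨ s * w ≤ d * U + e) ∧
      (d = 2 → s * w ≤ 2 * U + e ∨ s * p ≤ 2 * U + e ∨ s * p ≤ 3 * U - 2 * (w - p) + e)))
    (hdn : d ≤ n - 1) :
    s * w ≤ ((4 * (d : ℝ) + 2) / 3) * U + 2 * e ∧
      (s * w ≤ ((n : ℝ) - 1) * U + 2 * e ∨
        (3 ≤ d ∧ 3 * n ≤ 4 * d + 4 ∧ 3 * w ≤ (3 - s) * T + 2 * d * U + 4 * e)) := by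
  have hN : (4 : ℝ) ≤ n := by exact_mod_cast hn
  have hdR : (1 : ℝ) ≤ d := by exact_mod_cast hd1
  have hdn' : (d : ℝ) ≤ (n : ℝ) - 1 := by
    have : d + 1 ≤ n := by omega
    have h' : ((d + 1 : ℕ) : ℝ) ≤ n := by exact_mod_cast this
    push_cast at h'
    linarith
  have hs : 0 < s := by linarith
  have hdU : 0 ≤ (d : ℝ) * U := by positivity
  have hNU : 0 ≤ ((n : ℝ) - 1 - d) * U := mul_nonneg (by linarith) hU
  have hN4 : 0 ≤ ((n : ℝ) - 4) * U := mul_nonneg (by linarith) hU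
  rcases H with h | ⟨h1, h2, h3, h4⟩
  · have a1 : s * w ≤ s * e := mul_le_mul_of_nonneg_left h hs.le
    have a2 : s * e ≤ 1 * e := mul_le_mul_of_nonneg_right hs1.le he
    refine ⟨by nlinarith, Or.inl ?_⟩
    nlinarith
  · rcases Nat.lt_or_ge d 2 with hd2 | hd2
    · have hd : d = 1 := by omega
      subst hd
      have h1' : s * p ≤ 2 * U + e := by
        have := h1
        push_cast at this
        linarith
      have h2' : w ≤ p + e := by
        have := h2
        push_cast at this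
        linarith
      have a1 : s * w ≤ s * (p + e) := mul_le_mul_of_nonneg_left h2' hs.le
      have a2 : s * e ≤ 1 * e := mul_le_mul_of_nonneg_right hs1.le he
      refine ⟨by push_cast; nlinarith, Or.inl (by nlinarith)⟩
    · rcases h3 hd2 with hI | hII
      swap
      · refine ⟨by nlinarith, Or.inl (by nlinarith)⟩
      · -- (I)
        have hse : s * e ≤ e := by nlinarith
        have hsU : s * (((d : ℝ) - 1) * U) ≤ ((d : ℝ) - 1) * U := by
          have : 0 ≤ ((d : ℝ) - 1) * U := mul_nonneg (by linarith) hU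
          nlinarith
        -- 3 s w ≤ ...
        have hI' : 3 * w ≤ 2 * d * U + (3 - s) * p + e := by linarith
        have b1 : s * (3 * w) ≤ s * (2 * d * U + (3 - s) * p + e) :=
          mul_le_mul_of_nonneg_left hI' hs.le
        have b2 : (3 - s) * (s * p) ≤ (3 - s) * (((d : ℝ) + 1) * U + e) :=
          mul_le_mul_of_nonneg_left h1 (by linarith)
        have hgen : s * w ≤ ((4 * (d : ℝ) + 2) / 3) * U + 2 * e := by
          nlinarith
        refine ⟨hgen, ?_⟩
        rcases Nat.lt_or_ge (4 * d + 2) (3 * n - 2) with hq | hq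
        · left
          have hq' : (4 * (d : ℝ) + 2) ≤ 3 * ((n : ℝ) - 1) := by
            have : 4 * d + 2 + 3 ≤ 3 * n := by omega
            have h' : ((4 * d + 2 + 3 : ℕ) : ℝ) ≤ ((3 * n : ℕ) : ℝ) := by exact_mod_cast this
            push_cast at h'
            linarith
          have : (4 * (d : ℝ) + 2) * U ≤ 3 * ((n : ℝ) - 1) * U := mul_le_mul_of_nonneg_right hq' hU
          linarith
        · rcases Nat.lt_or_ge d 3 with hd3 | hd3
          · left
            have hd : d = 2 := by omega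
            subst hd
            have h4' := h4 rfl
            push_cast at h1 hI hI' b1 b2 hgen
            rcases h4' with g | g | g
            · nlinarith
            · have b3 : (3 - s) * (s * p) ≤ (3 - s) * (2 * U + e) :=
                mul_le_mul_of_nonneg_left g (by linarith)
              nlinarith
            · have b4 : 2 * w ≤ 3 * U + (2 - s) * p + e := by linarith
              have b5 : s * (2 * w) ≤ s * (3 * U + (2 - s) * p + e) :=
                mul_le_mul_of_nonneg_left b4 hs.le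
              have b6 : (2 - s) * (s * p) ≤ (2 - s) * ((2 + 1) * U + e) :=
                mul_le_mul_of_nonneg_left h1 (by linarith)
              nlinarith
          · right
            refine ⟨hd3, by omega, ?_⟩
            have b7 : (3 - s) * p ≤ (3 - s) * (T + e) := mul_le_mul_of_nonneg_left hp (by linarith)
            have : (3 - s) * e ≤ 3 * e := mul_le_mul_of_nonneg_right (by linarith) he
            linarith

/-- the three strict inequalities of case B -/
theorem caseB_num (n D : ℕ) (lam s : ℝ) (hn : 4 ≤ n) (hl0 : 0 < lam)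
    (hl1 : 1 < (n : ℝ) * lam) (hl2 : ((n : ℝ) - 1) * lam < 1)
    (hs : s * (1 + lam) = 2 - ((n : ℝ) - 1) * lam) (hs0 : 3 / 4 < s) (hs1 : s < 1)
    (hD3 : 3 ≤ D) (hD : 3 * n ≤ 4 * D + 4) (hDn : D ≤ n - 1) :
    ∃ τ : ℝ, 0 ≤ τ ∧
      ((8 * (D : ℝ) - 4 * n) / 3) * τ + ((4 * ((n : ℝ) - D) + 2) / 3 - s) * lam < s ∧
      s * (1 + ((n : ℝ) + 2) * lam) / 6 + (2 * D * s / 3 - (4 * ((n : ℝ) - D) + 2) / 3) * lam +
        ((4 * ((n : ℝ) - D) + 2) / 3 - s) * lam < s ∧
      s * (1 + ((n : ℝ) + 2) * lam) / 6 + (2 * D * s / 3 - (4 * ((n : ℝ) - D) + 2) / 3) * τ +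
        ((4 * ((n : ℝ) - D) + 2) / 3 - s) * lam < s := by
  have hN : (4 : ℝ) ≤ n := by exact_mod_cast hn
  have hDR : (3 : ℝ) ≤ D := by exact_mod_cast hD3
  have hDn' : (D : ℝ) ≤ (n : ℝ) - 1 := by
    have : D + 1 ≤ n := by omega
    have h' : ((D + 1 : ℕ) : ℝ) ≤ n := by exact_mod_cast this
    push_cast at h'
    linarith
  have hspos : 0 < s := by linarith
  have key2 : s * (1 + ((n : ℝ) + 2) * lam) / 6 + (2 * D * s / 3 - (4 * ((n : ℝ) - D) + 2) / 3) * lam +
        ((4 * ((n : ℝ) - D) + 2) / 3 - s) * lam < s := by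
    have h5 : ((n : ℝ) + 4 * D - 4) * lam < 5 := by
      have : ((n : ℝ) + 4 * D - 4) * lam ≤ (5 * ((n : ℝ) - 1)) * lam :=
        mul_le_mul_of_nonneg_right (by linarith) hl0.le
      linarith
    nlinarith [mul_pos hspos (sub_pos.mpr h5)]
  rcases Nat.lt_or_ge n 5 with h5 | h5
  · have hn4 : n = 4 := by omega
    have hD' : D = 3 := by omega
    subst hn4 hD'
    push_cast at *
    refine ⟨3 * lam / 10, by positivity, by nlinarith, key2, ?_⟩
    -- s (5/6 - 3/5 λ) > 7/5 λ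
    have hl3 : lam < 1 / 3 := by linarith
    have hq : 7 / 5 * lam < s * (5 / 6 - 3 / 5 * lam) := by
      by_contra hc
      push Not at hc
      have h' : s * (5 / 6 - 3 / 5 * lam) * (1 + lam) ≤ 7 / 5 * lam * (1 + lam) :=
        mul_le_mul_of_nonneg_right hc (by linarith)
      have h'' : s * (5 / 6 - 3 / 5 * lam) * (1 + lam) = (2 - 3 * lam) * (5 / 6 - 3 / 5 * lam) := by
        have : s * (5 / 6 - 3 / 5 * lam) * (1 + lam) = (s * (1 + lam)) * (5 / 6 - 3 / 5 * lam) := by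
          ring
        rw [this, hs]; ring
      rw [h''] at h'
      nlinarith
    nlinarith
  · have hN5 : (5 : ℝ) ≤ n := by exact_mod_cast h5
    refine ⟨lam / 2, by positivity, ?_, key2, ?_⟩
    · have hl4 : lam < 1 / 4 := by nlinarith
      nlinarith
    · -- E := s (5 - (n+2D-4) λ) - 2 (2 (n-D) + 1) λ > 0
      have hDD : 7 * n - 1 ≤ 2 * D * (n + 1) := by
        rcases Nat.lt_or_ge n 6 with h6 | h6
        · have : n = 5 := by omega
          subst this
          omega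
        · have q1 : 3 * n * (n + 1) ≤ (4 * D + 4) * (n + 1) := Nat.mul_le_mul_right _ hD
          have q2 : 6 * n ≤ n * n := Nat.mul_le_mul_right _ h6
          have q3 : 2 * (2 * D * (n + 1)) + 4 * (n + 1) = (4 * D + 4) * (n + 1) := by ring
          have q4 : 3 * n * (n + 1) = 3 * (n * n) + 3 * n := by ring
          omega
      have hDDR : 7 * (n : ℝ) - 1 ≤ 2 * D * ((n : ℝ) + 1) := by
        have h' : ((7 * n - 1 + 1 : ℕ) : ℝ) ≤ ((2 * D * (n + 1) + 1 : ℕ) : ℝ) := by
          exact_mod_cast Nat.add_le_add_right hDD 1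
        have h'' : 7 * n - 1 + 1 = 7 * n := by omega
        rw [h''] at h'
        push_cast at h'
        linarith
      have hE : 2 * (2 * ((n : ℝ) - D) + 1) * lam < s * (5 - ((n : ℝ) + 2 * D - 4) * lam) := by
        by_contra hc
        push Not at hc
        have h1l : 0 < 1 + lam := by linarith
        have hN1 : 0 < (n : ℝ) - 1 := by linarith
        -- multiply by (1+λ)(n-1)^2
        have h' : s * (5 - ((n : ℝ) + 2 * D - 4) * lam) * (1 + lam) ≤
            2 * (2 * ((n : ℝ) - D) + 1) * lam * (1 + lam) :=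
          mul_le_mul_of_nonneg_right hc h1l.le
        have h'' : s * (5 - ((n : ℝ) + 2 * D - 4) * lam) * (1 + lam) =
            (2 - ((n : ℝ) - 1) * lam) * (5 - ((n : ℝ) + 2 * D - 4) * lam) := by
          rw [← hs]; ring
        rw [h''] at h'
        set x : ℝ := ((n : ℝ) - 1) * lam with hx
        have hx0 : 0 < x := mul_pos hN1 hl0
        have h3 := mul_le_mul_of_nonneg_right h' (mul_pos hN1 hN1).le
        have e1 : (2 - x) * (5 - ((n : ℝ) + 2 * D - 4) * lam) * (((n : ℝ) - 1) * ((n : ℝ) - 1)) =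
            (2 - x) * (5 * ((n : ℝ) - 1) - ((n : ℝ) + 2 * D - 4) * x) * ((n : ℝ) - 1) := by
          rw [hx]; ring
        have e2 : 2 * (2 * ((n : ℝ) - D) + 1) * lam * (1 + lam) * (((n : ℝ) - 1) * ((n : ℝ) - 1)) =
            2 * (2 * ((n : ℝ) - D) + 1) * (x * ((n : ℝ) - 1 + x)) := by
          rw [hx]; ring
        rw [e1, e2] at h3
        have f1 : x * ((n : ℝ) - 1 + x) ≤ n := by nlinarith
        have f2 : 2 * (2 * ((n : ℝ) - D) + 1) * (x * ((n : ℝ) - 1 + x)) ≤
            2 * (2 * ((n : ℝ) - D) + 1) * n := mul_le_mul_of_nonneg_left f1 (by linarith)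
        have f3 : 5 * ((n : ℝ) - 1) - ((n : ℝ) + 2 * D - 4) ≤
            5 * ((n : ℝ) - 1) - ((n : ℝ) + 2 * D - 4) * x := by nlinarith
        have f4 : 0 < 5 * ((n : ℝ) - 1) - ((n : ℝ) + 2 * D - 4) := by linarith
        have f5 : 5 * ((n : ℝ) - 1) - ((n : ℝ) + 2 * D - 4) <
            (2 - x) * (5 * ((n : ℝ) - 1) - ((n : ℝ) + 2 * D - 4) * x) := by
          have : 0 < 5 * ((n : ℝ) - 1) - ((n : ℝ) + 2 * D - 4) * x := lt_of_lt_of_le f4 f3
          nlinarith [mul_pos (sub_pos.mpr hl2) this]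
        have f6 := mul_lt_mul_of_pos_right f5 hN1
        nlinarith
      nlinarith

/-- case B for one `D` -/
theorem caseB (n D : ℕ) (lam s : ℝ) (hn : 4 ≤ n) (hl0 : 0 < lam)
    (hl1 : 1 < (n : ℝ) * lam) (hl2 : ((n : ℝ) - 1) * lam < 1)
    (hs : s * (1 + lam) = 2 - ((n : ℝ) - 1) * lam) (hs0 : 3 / 4 < s) (hs1 : s < 1)
    (hD3 : 3 ≤ D) (hD : 3 * n ≤ 4 * D + 4) (hDn : D ≤ n - 1) :
    ∃ δ C : ℝ, 0 < δ ∧ 0 ≤ C ∧ ∀ L e u w : ℝ, 0 ≤ L → 0 ≤ e → 0 ≤ u → u ≤ lam * L + e →
      s * w ≤ ((4 * (D : ℝ) + 2) / 3) * u + 2 * e →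
      3 * w ≤ (3 - s) * ((1 + lam) / 2 * L) + 2 * D * u + 4 * e →
      s * (w - u) + ((4 * ((n : ℝ) - D) + 2) / 3 - s) * (lam * L + e - u) ≤
        (s - δ) * L + C * e := by
  obtain ⟨τ, hτ, k1, k2, k3⟩ := caseB_num n D lam s hn hl0 hl1 hl2 hs hs0 hs1 hD3 hD hDn
  have hN : (4 : ℝ) ≤ n := by exact_mod_cast hn
  have hDn' : (D : ℝ) ≤ (n : ℝ) - 1 := by
    have : D + 1 ≤ n := by omega
    have h' : ((D + 1 : ℕ) : ℝ) ≤ n := by exact_mod_cast this
    push_cast at h'
    linarith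
  have hDR : (3 : ℝ) ≤ D := by exact_mod_cast hD3
  have hDN : 3 * (n : ℝ) ≤ 4 * D + 4 := by exact_mod_cast hD
  have hspos : 0 < s := by linarith
  set κ : ℝ := (4 * ((n : ℝ) - D) + 2) / 3 with hκ
  have hκ2 : 2 ≤ κ := by rw [hκ]; linarith
  set a1 : ℝ := ((8 * (D : ℝ) - 4 * n) / 3) * τ + (κ - s) * lam with ha1
  set a2 : ℝ := s * (1 + ((n : ℝ) + 2) * lam) / 6 + (2 * D * s / 3 - κ) * lam + (κ - s) * lam
    with ha2
  set a3 : ℝ := s * (1 + ((n : ℝ) + 2) * lam) / 6 + (2 * D * s / 3 - κ) * τ + (κ - s) * lam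
    with ha3
  set c2 : ℝ := 2 * D * s / 3 - κ with hc2
  refine ⟨min (s - a1) (min (s - a2) (s - a3)), |c2| + κ + 4, ?_, by positivity, ?_⟩
  · exact lt_min (by linarith) (lt_min (by linarith) (by linarith))
  intro L e u w hL he hu0 hu1 hw1 hw2
  have m1 : min (s - a1) (min (s - a2) (s - a3)) ≤ s - a1 := min_le_left _ _
  have m2 : min (s - a1) (min (s - a2) (s - a3)) ≤ s - a2 :=
    le_trans (min_le_right _ _) (min_le_left _ _)
  have m3 : min (s - a1) (min (s - a2) (s - a3)) ≤ s - a3 :=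
    le_trans (min_le_right _ _) (min_le_right _ _)
  set δ : ℝ := min (s - a1) (min (s - a2) (s - a3)) with hδ
  have hΘ : (3 - s) * ((1 + lam) / 2 * L) = (1 + ((n : ℝ) + 2) * lam) / 2 * L := by
    have : (3 - s) * ((1 + lam) / 2 * L) = (3 * (1 + lam) - s * (1 + lam)) / 2 * L := by ring
    rw [this, hs]; ring
  rw [hΘ] at hw2
  have habs : c2 ≤ |c2| := le_abs_self _
  have habs0 : 0 ≤ |c2| := abs_nonneg _
  rcases le_total u (τ * L) with hc | hc
  · -- first bound
    have g1 : s * (w - u) + (κ - s) * (lam * L + e - u) ≤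
        ((8 * (D : ℝ) - 4 * n) / 3) * u + (κ - s) * (lam * L + e) + 2 * e := by
      have : ((8 * (D : ℝ) - 4 * n) / 3) * u = ((4 * (D : ℝ) + 2) / 3) * u - κ * u := by
        rw [hκ]; ring
      rw [this]
      nlinarith
    have g2 : ((8 * (D : ℝ) - 4 * n) / 3) * u ≤ ((8 * (D : ℝ) - 4 * n) / 3) * (τ * L) :=
      mul_le_mul_of_nonneg_left hc (by linarith)
    have g3 : a1 * L ≤ (s - δ) * L := mul_le_mul_of_nonneg_right (by linarith) hL
    have g4 : ((8 * (D : ℝ) - 4 * n) / 3) * (τ * L) + (κ - s) * (lam * L + e) + 2 * e =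
        a1 * L + (κ - s + 2) * e := by rw [ha1]; ring
    have g5 : (κ - s + 2) * e ≤ (|c2| + κ + 4) * e :=
      mul_le_mul_of_nonneg_right (by linarith) he
    linarith
  · have g1 : s * (w - u) + (κ - s) * (lam * L + e - u) ≤
        s * (1 + ((n : ℝ) + 2) * lam) / 6 * L + c2 * u + (κ - s) * (lam * L + e) + 4 * e := by
      have h1 : s * (3 * w) ≤ s * ((1 + ((n : ℝ) + 2) * lam) / 2 * L + 2 * D * u + 4 * e) :=
        mul_le_mul_of_nonneg_left hw2 hspos.le
      have h2 : s * e ≤ e := by nlinarith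
      have h3 : s * (w - u) + (κ - s) * (lam * L + e - u) =
        s * (3 * w) / 3 - κ * u + (κ - s) * (lam * L + e) := by ring
      have h4 : s * (1 + ((n : ℝ) + 2) * lam) / 6 * L + c2 * u + (κ - s) * (lam * L + e) + 4 * e =
        s * ((1 + ((n : ℝ) + 2) * lam) / 2 * L + 2 * D * u + 4 * e) / 3 - κ * u
          + (κ - s) * (lam * L + e) + (4 * e - 4 / 3 * (s * e)) := by rw [hc2]; ring
      rw [h3, h4]
      linarith
    rcases le_total 0 c2 with hc0 | hc0
    · have g2 : c2 * u ≤ c2 * (lam * L + e) := mul_le_mul_of_nonneg_left hu1 hc0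
      have g3 : a2 * L ≤ (s - δ) * L := mul_le_mul_of_nonneg_right (by linarith) hL
      have g4 : s * (1 + ((n : ℝ) + 2) * lam) / 6 * L + c2 * (lam * L + e) +
          (κ - s) * (lam * L + e) + 4 * e = a2 * L + (c2 + κ - s + 4) * e := by rw [ha2]; ring
      have g5 : (c2 + κ - s + 4) * e ≤ (|c2| + κ + 4) * e :=
        mul_le_mul_of_nonneg_right (by linarith) he
      linarith
    · have g2 : c2 * u ≤ c2 * (τ * L) := mul_le_mul_of_nonpos_left hc hc0
      have g3 : a3 * L ≤ (s - δ) * L := mul_le_mul_of_nonneg_right (by linarith) hL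
      have g4 : s * (1 + ((n : ℝ) + 2) * lam) / 6 * L + c2 * (τ * L) +
          (κ - s) * (lam * L + e) + 4 * e = a3 * L + (κ - s + 4) * e := by rw [ha3]; ring
      have g5 : (κ - s + 4) * e ≤ (|c2| + κ + 4) * e :=
        mul_le_mul_of_nonneg_right (by linarith) he
      linarith

/-- uniform constants for finitely many `D` -/
theorem unif (P : ℕ → ℝ → ℝ → Prop)
    (hmono : ∀ D δ C δ' C', P D δ C → δ' ≤ δ → C ≤ C' → P D δ' C') (S : Finset ℕ)
    (h : ∀ D ∈ S, ∃ δ C : ℝ, 0 < δ ∧ 0 ≤ C ∧ P D δ C) :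
    ∃ δ C : ℝ, 0 < δ ∧ 0 ≤ C ∧ ∀ D ∈ S, P D δ C := by
  induction S using Finset.induction_on with
  | empty => exact ⟨1, 0, one_pos, le_refl _, by simp⟩
  | insert a S ha ih =>
    obtain ⟨δ, C, h1, h2, h3⟩ := ih (fun D hD => h D (Finset.mem_insert_of_mem hD))
    obtain ⟨δ', C', h1', h2', h3'⟩ := h a (Finset.mem_insert_self _ _)
    refine ⟨min δ δ', max C C', lt_min h1 h1', le_max_of_le_left h2, ?_⟩
    intro D hD
    rcases Finset.mem_insert.mp hD with rfl | hD
    · exact hmono _ _ _ _ _ h3' (min_le_right _ _) (le_max_right _ _)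
    · exact hmono _ _ _ _ _ (h3 D hD) (min_le_left _ _) (le_max_left _ _)

/-- the core: the leading order with errors -/
theorem core (n : ℕ) (lam : ℝ) (hn : 4 ≤ n) (h1 : 1 / (n : ℝ) < lam)
    (h2 : lam < 1 / ((n : ℝ) - 1)) :
    ∃ δ C : ℝ, 0 < δ ∧ 0 ≤ C ∧ ∀ (L e : ℝ) (r : ℕ) (d : Fin r → ℕ) (U w p : Fin r → ℝ),
      0 ≤ L → 0 ≤ e → (∀ i, 1 ≤ d i) → ∑ i, d i ≤ n →
      (∀ i, d i ≤ n - 1) → (∀ i, 0 ≤ U i) → ∑ i, U i ≤ lam * L + e →
      L - e ≤ ∑ i, (w i - U i) → (∀ i, p i ≤ (1 + lam) / 2 * L + e) →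
      (∀ i, w i ≤ e ∨
        (sdim n lam * p i ≤ ((d i : ℝ) + 1) * U i + e ∧ w i ≤ d i * p i + e ∧
        (2 ≤ d i → sdim n lam * p i + 3 * (w i - p i) ≤ 2 * d i * U i + e ∨
          sdim n lam * w i ≤ d i * U i + e) ∧
        (d i = 2 → sdim n lam * w i ≤ 2 * U i + e ∨ sdim n lam * p i ≤ 2 * U i + e ∨
          sdim n lam * p i ≤ 3 * U i - 2 * (w i - p i) + e))) → δ * L ≤ C * e := by
  obtain ⟨hl0, hl1, hl2, hs, hs0, hs1⟩ := facts n lam hn h1 h2
  set s : ℝ := sdim n lam with hsdef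
  have hN : (4 : ℝ) ≤ n := by exact_mod_cast hn
  have hspos : 0 < s := by linarith
  obtain ⟨δB, CB, hδB, hCB, hB⟩ := unif (fun D δ C => ∀ L e u w : ℝ, 0 ≤ L → 0 ≤ e → 0 ≤ u →
      u ≤ lam * L + e →
      s * w ≤ ((4 * (D : ℝ) + 2) / 3) * u + 2 * e →
      3 * w ≤ (3 - s) * ((1 + lam) / 2 * L) + 2 * D * u + 4 * e →
      s * (w - u) + ((4 * ((n : ℝ) - D) + 2) / 3 - s) * (lam * L + e - u) ≤
        (s - δ) * L + C * e)
    (by
      intro D δ C δ' C' h hδ hC L e u w hL he hu hu' hw1 hw2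
      have a := h L e u w hL he hu hu' hw1 hw2
      have b1 : (s - δ) * L ≤ (s - δ') * L := mul_le_mul_of_nonneg_right (by linarith) hL
      have b2 : C * e ≤ C' * e := mul_le_mul_of_nonneg_right hC he
      linarith)
    ((Finset.range n).filter (fun D => 3 ≤ D ∧ 3 * n ≤ 4 * D + 4 ∧ D ≤ n - 1))
    (by
      intro D hD
      rw [Finset.mem_filter] at hD
      exact caseB n D lam s hn hl0 hl1 hl2 hs hs0 hs1 hD.2.1 hD.2.2.1 hD.2.2.2)
  refine ⟨min (2 - 2 * (((n : ℝ) - 1) * lam)) δB, CB + 3 * n, lt_min (by linarith) hδB,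
    by positivity, ?_⟩
  intro L e r d U w p hL he hd1 hdsum hdn hU hUs hws hp H
  have hrn : r ≤ n := by
    calc r = ∑ _i : Fin r, 1 := by simp
      _ ≤ ∑ i, d i := Finset.sum_le_sum (fun i _ => hd1 i)
      _ ≤ n := hdsum
  have hrnR : (r : ℝ) ≤ n := by exact_mod_cast hrn
  have hidx := fun i => idx n (d i) s e ((1 + lam) / 2 * L) (U i) (w i) (p i) hn hs0 hs1 he (hU i)
    (hd1 i) (hp i) (H i) (hdn i)
  have hmin1 : min (2 - 2 * (((n : ℝ) - 1) * lam)) δB ≤ 2 - 2 * (((n : ℝ) - 1) * lam) :=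
    min_le_left _ _
  have hmin2 : min (2 - 2 * (((n : ℝ) - 1) * lam)) δB ≤ δB := min_le_right _ _
  have hsum_s : s * ∑ i, (w i - U i) = ∑ i, s * (w i - U i) := by rw [Finset.mul_sum]
  have hws' : s * (L - e) ≤ ∑ i, s * (w i - U i) := by
    rw [← hsum_s]; exact mul_le_mul_of_nonneg_left hws hspos.le
  have hse : s * e ≤ e := by nlinarith
  by_cases hall : ∀ i, s * w i ≤ ((n : ℝ) - 1) * U i + 2 * e
  · -- case A
    have a1 : ∑ i, s * (w i - U i) ≤ ∑ i, (((n : ℝ) - 1 - s) * U i + 2 * e) := by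
      apply Finset.sum_le_sum
      intro i _
      have := hall i
      nlinarith
    have a2 : ∑ i, (((n : ℝ) - 1 - s) * U i + 2 * e) = ((n : ℝ) - 1 - s) * ∑ i, U i +
        r * (2 * e) := by
      rw [Finset.sum_add_distrib, ← Finset.mul_sum]
      simp
    have a3 : ((n : ℝ) - 1 - s) * ∑ i, U i ≤ ((n : ℝ) - 1 - s) * (lam * L + e) :=
      mul_le_mul_of_nonneg_left hUs (by linarith)
    have a4 : (r : ℝ) * (2 * e) ≤ n * (2 * e) := mul_le_mul_of_nonneg_right hrnR (by linarith)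
    have a5 : s * (L - e) ≤ ((n : ℝ) - 1 - s) * (lam * L + e) + n * (2 * e) := by linarith
    have a6 : (2 - 2 * (((n : ℝ) - 1) * lam)) * L ≤ (3 * n - 1) * e := by
      have e1 : (2 - 2 * (((n : ℝ) - 1) * lam)) * L =
          (s * (1 + lam) - ((n : ℝ) - 1) * lam) * L := by rw [hs]; ring
      rw [e1]
      nlinarith
    have a7 : min (2 - 2 * (((n : ℝ) - 1) * lam)) δB * L ≤ (2 - 2 * (((n : ℝ) - 1) * lam)) * L :=
      mul_le_mul_of_nonneg_right hmin1 hL
    have a8 : (3 * (n : ℝ) - 1) * e ≤ (CB + 3 * n) * e :=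
      mul_le_mul_of_nonneg_right (by linarith) he
    linarith
  · -- case B
    push Not at hall
    obtain ⟨b, hb⟩ := hall
    obtain ⟨hb1, hb2⟩ := hidx b
    rcases hb2 with hb2 | ⟨hD3, hDn, hw3⟩
    · exact absurd hb2 (not_le.mpr hb)
    set D : ℕ := d b with hD
    have hDlt : D ≤ n - 1 := hdn b
    have hDn' : (D : ℝ) ≤ (n : ℝ) - 1 := by
      have : D + 1 ≤ n := by omega
      have h' : ((D + 1 : ℕ) : ℝ) ≤ n := by exact_mod_cast this
      push_cast at h'
      linarith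
    set κ : ℝ := (4 * ((n : ℝ) - D) + 2) / 3 with hκ
    have hκ2 : 2 ≤ κ := by rw [hκ]; linarith
    have hsplitU : U b + ∑ i ∈ Finset.univ.erase b, U i = ∑ i, U i :=
      Finset.add_sum_erase _ _ (Finset.mem_univ b)
    have hsplitd : d b + ∑ i ∈ Finset.univ.erase b, d i = ∑ i, d i :=
      Finset.add_sum_erase _ _ (Finset.mem_univ b)
    have hsplitw : s * (w b - U b) + ∑ i ∈ Finset.univ.erase b, s * (w i - U i) =
        ∑ i, s * (w i - U i) :=
      Finset.add_sum_erase _ (fun i => s * (w i - U i)) (Finset.mem_univ b)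
    have hdi : ∀ i ∈ Finset.univ.erase b, (d i : ℝ) ≤ (n : ℝ) - D := by
      intro i hi
      have h3 : d i ≤ ∑ j ∈ Finset.univ.erase b, d j :=
        Finset.single_le_sum (f := d) (fun j _ => Nat.zero_le _) hi
      have h4 : d i + D ≤ n := by
        have : d b = D := rfl
        omega
      have h' : ((d i + D : ℕ) : ℝ) ≤ n := by exact_mod_cast h4
      push_cast at h'
      linarith
    have b1 : ∑ i ∈ Finset.univ.erase b, s * (w i - U i) ≤
        ∑ i ∈ Finset.univ.erase b, ((κ - s) * U i + 2 * e) := by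
      apply Finset.sum_le_sum
      intro i hi
      have c1 := (hidx i).1
      have c2 := hdi i hi
      have c3 : ((4 * (d i : ℝ) + 2) / 3) * U i ≤ κ * U i :=
        mul_le_mul_of_nonneg_right (by rw [hκ]; linarith) (hU i)
      nlinarith
    have b2 : ∑ i ∈ Finset.univ.erase b, ((κ - s) * U i + 2 * e) =
        (κ - s) * ∑ i ∈ Finset.univ.erase b, U i +
          ((Finset.univ.erase b).card : ℝ) * (2 * e) := by
      rw [Finset.sum_add_distrib, ← Finset.mul_sum]
      simp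
    have hcard : ((Finset.univ.erase b).card : ℝ) ≤ n := by
      have : (Finset.univ.erase b).card ≤ (Finset.univ : Finset (Fin r)).card :=
        Finset.card_le_card (Finset.erase_subset _ _)
      rw [Finset.card_univ, Fintype.card_fin] at this
      have h' : ((Finset.univ.erase b).card : ℝ) ≤ (r : ℝ) := by exact_mod_cast this
      linarith
    have b3 : ((Finset.univ.erase b).card : ℝ) * (2 * e) ≤ n * (2 * e) :=
      mul_le_mul_of_nonneg_right hcard (by linarith)
    have b4 : (κ - s) * ∑ i ∈ Finset.univ.erase b, U i ≤ (κ - s) * (lam * L + e - U b) :=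
      mul_le_mul_of_nonneg_left (by linarith) (by linarith)
    have hub : U b ≤ lam * L + e := by
      have : 0 ≤ ∑ i ∈ Finset.univ.erase b, U i := Finset.sum_nonneg (fun i _ => hU i)
      linarith
    have b5 := hB D (by
      rw [Finset.mem_filter, Finset.mem_range]
      exact ⟨by omega, hD3, hDn, hDlt⟩) L e (U b) (w b) hL he (hU b) hub hb1 hw3
    rw [← hκ] at b5
    have b6 : s * (L - e) ≤ (s - δB) * L + CB * e + n * (2 * e) := by linarith
    have b7 : δB * L ≤ (CB + 2 * n + 1) * e := by nlinarith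
    have b8 : min (2 - 2 * (((n : ℝ) - 1) * lam)) δB * L ≤ δB * L :=
      mul_le_mul_of_nonneg_right hmin2 hL
    have b9 : (CB + 2 * (n : ℝ) + 1) * e ≤ (CB + 3 * n) * e :=
      mul_le_mul_of_nonneg_right (by linarith) he
    linarith

end LP

theorem vLP : S_LP := by
  intro n lam hn h1 h2
  obtain ⟨δ, C, hδ, hC, hcore⟩ := LP.core n lam hn h1 h2
  have hC1 : 0 < C + 1 := by linarith
  refine ⟨δ / (2 * (C + 1)), by positivity, ?_⟩
  intro K hK
  refine ⟨2 * (C + 1) * K / δ + 1, ?_⟩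
  intro L hL r d U w p hd1 hdsum hdn hU hUs hws hp H
  have hL0 : 0 ≤ L := by
    have : 0 ≤ 2 * (C + 1) * K / δ := by positivity
    linarith
  set ε : ℝ := δ / (2 * (C + 1)) with hε
  have hεL : 0 ≤ ε * L := by positivity
  have he : 0 ≤ ε * L + K := by linarith
  have hmain := hcore L (ε * L + K) r d U w p hL0 he hd1 hdsum hdn hU (by linarith) (by linarith)
    (fun i => by linarith [hp i]) (by
      intro i
      rcases H i with h | ⟨h3, h4, h5, h6⟩
      · exact Or.inl h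
      · refine Or.inr ⟨by linarith, by linarith, ?_, ?_⟩
        · intro h7
          rcases h5 h7 with h8 | h8
          · exact Or.inl (by linarith)
          · exact Or.inr (by linarith)
        · intro h7
          rcases h6 h7 with h8 | h8 | h8
          · exact Or.inl (by linarith)
          · exact Or.inr (Or.inl (by linarith))
          · exact Or.inr (Or.inr (by linarith)))
  -- δ L ≤ C (ε L + K) ≤ (C+1)(ε L + K) = δ L / 2 + (C+1) K
  have h7 : δ * L ≤ (C + 1) * (ε * L + K) := by nlinarith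
  have h8 : (C + 1) * (ε * L) = δ * L / 2 := by
    rw [hε]; field_simp
  have h9 : δ * L / 2 ≤ (C + 1) * K := by nlinarith
  have h10 : 2 * (C + 1) * K / δ + 1 ≤ L := hL
  have h11 : 2 * (C + 1) * K / δ < L := by linarith
  rw [div_lt_iff₀ hδ] at h11
  nlinarith

end Pool.Agent.MP211V
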