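import Pool.Agent.Lib.MP_211f72_nt.V.Spec
import Pool.Agent.Lib.MP_211f72_nt.Limsup

/-!
# MP_211f72_nt, V: the upper bound for the dimension of the limsup set (`Level`)
-/

namespace Pool.Agent.MP211V.Level

open Filter Topology

private lemma sdim_bounds {n : ℕ} {lam : ℝ} (hn : 4 ≤ n) (h1 : 1 / (n : ℝ) < lam)
    (h2 : lam < 1 / ((n : ℝ) - 1)) :
    0 < lam ∧ 0 < sdim n lam ∧ sdim n lam < 1 ∧
      2 - ((n : ℝ) - 1) * lam = (1 + lam) * sdim n lam ∧ lam < 1 := by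
  have hn' : (4 : ℝ) ≤ n := by exact_mod_cast hn
  have hlam : 0 < lam := lt_trans (by positivity) h1
  have h3 : lam * ((n : ℝ) - 1) < 1 := by
    rwa [lt_div_iff₀ (by linarith)] at h2
  have h4 : 1 < lam * n := by
    rwa [div_lt_iff₀ (by linarith)] at h1
  refine ⟨hlam, ?_, ?_, ?_, ?_⟩
  · unfold sdim
    apply div_pos <;> nlinarith
  · unfold sdim
    rw [div_lt_one (by linarith)]
    nlinarith
  · unfold sdim
    rw [mul_div_cancel₀ _ (by linarith)]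
  · nlinarith

private lemma near_one {n : ℕ} (hn : 4 ≤ n) {Y lam ξ : ℝ} (hY : 2 ≤ Y)
    {x : Fin (n + 1) → ℤ} (h : Nr n Y lam ξ x) :
    |ξ - (x ⟨1, by omega⟩ : ℝ) / (x 0 : ℝ)| ≤ (Y / 2) ^ (-1 - lam) := by
  obtain ⟨h1, h2, h3⟩ := h
  have h4 := h3 ⟨1, by omega⟩
  simp only [pow_one] at h4
  have hY2 : (0 : ℝ) < Y / 2 := by linarith
  have hx0 : (0 : ℝ) < |(x 0 : ℝ)| := lt_of_lt_of_le hY2 h1
  have hx : (x 0 : ℝ) ≠ 0 := abs_pos.1 hx0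
  have e1 : ξ - (x ⟨1, by omega⟩ : ℝ) / (x 0 : ℝ) =
      ((x 0 : ℝ) * ξ - (x ⟨1, by omega⟩ : ℝ)) / (x 0 : ℝ) := by
    field_simp
  rw [e1, abs_div, div_le_iff₀ hx0]
  refine h4.trans ?_
  have e2 : (Y / 2) ^ (-lam) = (Y / 2) ^ (-1 - lam) * (Y / 2) := by
    rw [show -lam = (-1 - lam) + 1 by ring, Real.rpow_add hY2, Real.rpow_one]
  rw [e2]
  exact mul_le_mul_of_nonneg_left h1 (Real.rpow_nonneg hY2.le _)

private lemma fin_set {n : ℕ} {Y lam : ℝ} (hY : 2 ≤ Y) (hlam : 0 < lam) :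
    {x : Fin (n + 1) → ℤ | ∃ ξ : ℝ, 0 ≤ ξ ∧ ξ ≤ 1 ∧ Nr n Y lam ξ x}.Finite := by
  refine (Set.finite_Icc (fun _ : Fin (n + 1) => -(⌈Y + 1⌉)) (fun _ => ⌈Y + 1⌉)).subset ?_
  rintro x ⟨ξ, h0, h1, h2, h3, h4⟩
  have hp : (Y / 2) ^ (-lam) ≤ 1 := by
    apply Real.rpow_le_one_of_one_le_of_nonpos <;> linarith
  have key : ∀ j : Fin (n + 1), |(x j : ℝ)| ≤ Y + 1 := by
    intro j
    have h5 := (h4 j).trans hp
    have h6 : |(x 0 : ℝ) * ξ ^ (j : ℕ)| ≤ Y := by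
      rw [abs_mul, abs_of_nonneg (pow_nonneg h0 _)]
      calc |(x 0 : ℝ)| * ξ ^ (j : ℕ) ≤ Y * 1 :=
            mul_le_mul h3 (pow_le_one₀ h0 h1) (pow_nonneg h0 _) (by linarith)
        _ = Y := mul_one Y
    rw [abs_le] at h5 h6 ⊢
    constructor <;> linarith [h5.1, h5.2, h6.1, h6.2]
  have hc := Int.le_ceil (Y + 1)
  rw [Set.mem_Icc]
  constructor
  · intro j
    have h7 := (abs_le.1 (key j)).1
    have h8 : (-(⌈Y + 1⌉ : ℤ) : ℝ) ≤ (x j : ℝ) := by linarith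
    exact_mod_cast h8
  · intro j
    have h7 := (abs_le.1 (key j)).2
    have h8 : (x j : ℝ) ≤ ((⌈Y + 1⌉ : ℤ) : ℝ) := by linarith
    exact_mod_cast h8

private lemma scale {n : ℕ} (hn : 4 ≤ n) {lam s' κ ε Y : ℝ} (hlam : 0 < lam) (hl1 : lam < 1)
    (hs1 : s' ≤ 1) (hY : 2 ≤ Y)
    (hκ : 2 - ((n : ℝ) - 1) * lam + κ - (1 + lam) * s' = -κ)
    (T : Finset (ℝ × ℝ)) (hT1 : ∀ p ∈ T, th lam Y / 2 ≤ p.2)
    (hT2 : ∑ p ∈ T, p.2 ^ s' ≤ Y ^ (-ε))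
    (hT3 : ∀ S : Finset (Fin (n + 1) → ℤ),
      (∀ x ∈ S, ∃ ξ : ℝ, 0 ≤ ξ ∧ ξ ≤ 1 ∧ Nr n Y lam ξ x ∧ ∀ p ∈ T, p.2 < |ξ - p.1|) →
      (S.card : ℝ) ≤ Y ^ (2 - ((n : ℝ) - 1) * lam + κ)) :
    ∃ T' : Finset (ℝ × ℝ), (∀ p ∈ T', 0 ≤ p.2) ∧
      ∑ p ∈ T', p.2 ^ s' ≤ Y ^ (-ε) + 4 * Y ^ (-κ) ∧
      ∀ ξ : ℝ, 0 ≤ ξ → ξ ≤ 1 → ∀ x : Fin (n + 1) → ℤ, Nr n Y lam ξ x →
        ∃ p ∈ T', |ξ - p.1| ≤ p.2 := by
  classical
  have hY0 : (0 : ℝ) < Y := by linarith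
  have hY2 : (0 : ℝ) < Y / 2 := by linarith
  have hF : {x : Fin (n + 1) → ℤ | ∃ ξ : ℝ, 0 ≤ ξ ∧ ξ ≤ 1 ∧ Nr n Y lam ξ x ∧
      ∀ p ∈ T, p.2 < |ξ - p.1|}.Finite :=
    (fin_set (n := n) hY hlam).subset fun x ⟨ξ, h0, h1, h2, _⟩ => ⟨ξ, h0, h1, h2⟩
  set S := hF.toFinset with hS
  set r : ℝ := (Y / 2) ^ (-1 - lam) with hr
  have hr0 : 0 < r := Real.rpow_pos_of_pos hY2 _
  have hcard := hT3 S fun x hx => by
    rw [hS, Set.Finite.mem_toFinset] at hx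
    exact hx
  set T2 : Finset (ℝ × ℝ) :=
    S.image (fun x : Fin (n + 1) → ℤ => ((x ⟨1, by omega⟩ : ℝ) / (x 0 : ℝ), r)) with hT2'
  have hT2r : ∀ p ∈ T2, p.2 = r := by
    intro p hp
    rw [hT2', Finset.mem_image] at hp
    obtain ⟨x, _, rfl⟩ := hp
    rfl
  have hT0 : ∀ p ∈ T, 0 ≤ p.2 := fun p hp =>
    le_trans (by unfold th; positivity) (hT1 p hp)
  refine ⟨T ∪ T2, ?_, ?_, ?_⟩
  · intro p hp
    rcases Finset.mem_union.1 hp with hp | hp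
    · exact hT0 p hp
    · rw [hT2r p hp]; exact hr0.le
  · have e1 : ∑ p ∈ T ∪ T2, p.2 ^ s' ≤ ∑ p ∈ T, p.2 ^ s' + ∑ p ∈ T2, p.2 ^ s' := by
      rw [← Finset.sum_union_inter]
      exact le_add_of_nonneg_right (Finset.sum_nonneg fun p hp =>
        Real.rpow_nonneg (hT0 p (Finset.mem_inter.1 hp).1) _)
    have e2 : ∑ p ∈ T2, p.2 ^ s' = (T2.card : ℝ) * r ^ s' := by
      rw [Finset.sum_congr rfl (fun p hp => by rw [hT2r p hp]), Finset.sum_const, nsmul_eq_mul]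
    have e3 : (T2.card : ℝ) ≤ Y ^ (2 - ((n : ℝ) - 1) * lam + κ) :=
      le_trans (by exact_mod_cast Finset.card_image_le) hcard
    have e4 : r ^ s' = Y ^ (-((1 + lam) * s')) * 2 ^ ((1 + lam) * s') := by
      rw [hr, ← Real.rpow_mul hY2.le, show (-1 - lam) * s' = -((1 + lam) * s') by ring,
        Real.div_rpow hY0.le (by norm_num), Real.rpow_neg (by norm_num : (0 : ℝ) ≤ 2),
        div_inv_eq_mul]
    have e5 : (2 : ℝ) ^ ((1 + lam) * s') ≤ 4 := by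
      calc (2 : ℝ) ^ ((1 + lam) * s') ≤ 2 ^ (2 : ℝ) :=
            Real.rpow_le_rpow_of_exponent_le (by norm_num) (by nlinarith)
        _ = 4 := by norm_num
    have e6 : Y ^ (2 - ((n : ℝ) - 1) * lam + κ) * (Y ^ (-((1 + lam) * s')) *
        2 ^ ((1 + lam) * s')) ≤ 4 * Y ^ (-κ) := by
      rw [← mul_assoc, ← Real.rpow_add hY0, show 2 - ((n : ℝ) - 1) * lam + κ +
        -((1 + lam) * s') = -κ by linarith, mul_comm]
      exact mul_le_mul_of_nonneg_right e5 (Real.rpow_nonneg hY0.le _)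
    have e7 : (T2.card : ℝ) * r ^ s' ≤ 4 * Y ^ (-κ) := by
      refine le_trans ?_ e6
      rw [e4]
      exact mul_le_mul_of_nonneg_right e3 (by positivity)
    linarith
  · intro ξ h0 h1 x hx
    by_cases hc : ∃ p ∈ T, |ξ - p.1| ≤ p.2
    · obtain ⟨p, hp, h⟩ := hc
      exact ⟨p, Finset.mem_union_left _ hp, h⟩
    · push Not at hc
      refine ⟨((x ⟨1, by omega⟩ : ℝ) / (x 0 : ℝ), r), Finset.mem_union_right _ ?_, near_one hn hY hx⟩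
      rw [hT2', Finset.mem_image]
      refine ⟨x, ?_, rfl⟩
      rw [hS, Set.Finite.mem_toFinset]
      exact ⟨ξ, h0, h1, hx, hc⟩

private lemma summable_two {a : ℝ} (ha : 0 < a) :
    Summable (fun k : ℕ => ((2 : ℝ) ^ (k + 1)) ^ (-a)) := by
  have h : (fun k : ℕ => ((2 : ℝ) ^ (k + 1)) ^ (-a)) =
      fun k : ℕ => (2 : ℝ) ^ (-a) * ((2 : ℝ) ^ (-a)) ^ k := by
    funext k
    rw [← Real.rpow_natCast, ← Real.rpow_mul (by norm_num), ← Real.rpow_natCast (_ ^ _),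
      ← Real.rpow_mul (by norm_num), ← Real.rpow_add (by norm_num)]
    congr 1
    push_cast
    ring
  rw [h]
  apply Summable.mul_left
  apply summable_geometric_of_lt_one (by positivity)
  exact Real.rpow_lt_one_of_one_lt_of_neg (by norm_num) (by linarith)

theorem vLevel (h1 : S_Cnt) : S_Level := by
  intro n lam hn hl1 hl2
  obtain ⟨hlam, hs0, hs1, hs2, hlam1⟩ := sdim_bounds hn hl1 hl2
  set s := sdim n lam with hs
  have htend : Tendsto (fun s' : ℝ => ENNReal.ofReal s') (𝓝[>] s) (𝓝 (ENNReal.ofReal s)) :=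
    (ENNReal.continuous_ofReal.tendsto s).mono_left nhdsWithin_le_nhds
  refine ge_of_tendsto htend ?_
  filter_upwards [Ioo_mem_nhdsGT hs1] with s' hs'
  obtain ⟨hss, hs'1⟩ := hs'
  set κ : ℝ := (1 + lam) * (s' - s) / 2 with hκ
  have hκ0 : 0 < κ := by
    rw [hκ]
    have : 0 < s' - s := by linarith
    positivity
  have hκ1 : 2 - ((n : ℝ) - 1) * lam + κ - (1 + lam) * s' = -κ := by
    rw [hs2, hκ]; ring
  obtain ⟨ε, Y₀, hε, hY₀, H⟩ := h1 n lam s' κ hn hl1 hl2 hss hs'1.le hκ0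
  have hex : ∀ k : ℕ, ∃ T' : Finset (ℝ × ℝ), (∀ p ∈ T', 0 ≤ p.2) ∧
      ∑ p ∈ T', p.2 ^ s' ≤ ((2 : ℝ) ^ (k + 1)) ^ (-ε) + 4 * ((2 : ℝ) ^ (k + 1)) ^ (-κ) ∧
      (Y₀ ≤ (2 : ℝ) ^ (k + 1) → ∀ ξ : ℝ, 0 ≤ ξ → ξ ≤ 1 → ∀ x : Fin (n + 1) → ℤ,
        Nr n ((2 : ℝ) ^ (k + 1)) lam ξ x → ∃ p ∈ T', |ξ - p.1| ≤ p.2) := by
    intro k
    by_cases hk : Y₀ ≤ (2 : ℝ) ^ (k + 1)
    · obtain ⟨T, hT1, hT2, hT3⟩ := H _ hk
      have h2 : (2 : ℝ) ≤ 2 ^ (k + 1) := by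
        calc (2 : ℝ) = 2 ^ 1 := (pow_one 2).symm
          _ ≤ 2 ^ (k + 1) := pow_le_pow_right₀ (by norm_num) (by omega)
      obtain ⟨T', ha, hb, hc⟩ := scale hn hlam hlam1 hs'1.le h2 hκ1 T hT1 hT2 hT3
      exact ⟨T', ha, hb, fun _ => hc⟩
    · exact ⟨∅, by simp, by simp; positivity, fun h => absurd h hk⟩
  choose T hT1 hT2 hT3 using hex
  obtain ⟨k₀, hk₀⟩ := pow_unbounded_of_one_lt Y₀ (by norm_num : (1 : ℝ) < 2)
  refine MP_211f72_nt.limsup s' _ T (hs0.trans hss) hT1 ?_ ?_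
  · refine Summable.of_nonneg_of_le (fun k => Finset.sum_nonneg fun p hp =>
      Real.rpow_nonneg (hT1 k p hp) _) hT2 ?_
    exact (summable_two hε).add ((summable_two hκ0).mul_left 4)
  · rintro ξ ⟨h0, h1', h2⟩ K
    obtain ⟨k, hk, x, hx⟩ := h2 (max K k₀)
    refine ⟨k, le_trans (le_max_left _ _) hk, ?_⟩
    refine hT3 k ?_ ξ h0 h1' x hx
    have h3 : (2 : ℝ) ^ k₀ ≤ 2 ^ (k + 1) :=
      pow_le_pow_right₀ (by norm_num) (by have := le_trans (le_max_right K k₀) hk; omega)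
    linarith

end Pool.Agent.MP211V.Level

namespace Pool.Agent.MP211V

theorem vLevel (h1 : S_Cnt) : S_Level := Level.vLevel h1

end Pool.Agent.MP211V
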