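import Pool.Agent.Lib.MP_211f72_nt.V.Spec
import Pool.Agent.Lib.MP_211f72_nt.Expo
import Pool.Agent.Lib.MP_211f72_nt.Avoid
import Pool.Agent.Lib.MP_211f72_nt.ContentZero

/-!
# MP_211f72_nt, V: from children to the lower bound for the exact level set, all `n ≥ 4`
-/

namespace Pool.Agent.MP211V

open MeasureTheory MP_211f72_nt

private theorem LowerN_pos {n : ℕ} {lam : ℝ} (hn : 4 ≤ n) (h : 1 / (n : ℝ) < lam)
    (h' : lam < 1 / ((n : ℝ) - 1)) : 0 < sdim n lam := by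
  have hn' : (4 : ℝ) ≤ n := by exact_mod_cast hn
  have h0 : 0 < 1 / (n : ℝ) := by positivity
  have h1 : ((n : ℝ) - 1) * lam < 1 := by
    rw [lt_div_iff₀ (by linarith)] at h'
    linarith
  unfold sdim
  apply div_pos <;> linarith

private theorem LowerN_le {n : ℕ} {lam : ℝ} (hn : 4 ≤ n) (h : 1 / (n : ℝ) < lam) :
    sdim n lam ≤ 1 := by
  have hn' : (4 : ℝ) ≤ n := by exact_mod_cast hn
  have h0 : 0 < 1 / (n : ℝ) := by positivity
  have h1 : 1 < (n : ℝ) * lam := by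
    rw [div_lt_iff₀ (by linarith)] at h
    linarith
  unfold sdim
  rw [div_le_one (by linarith)]
  linarith

private theorem LowerN_anti {n : ℕ} {lam lam' : ℝ} (hn : 4 ≤ n) (h : 1 / (n : ℝ) < lam)
    (h' : lam < lam') : sdim n lam' < sdim n lam := by
  have hn' : (4 : ℝ) ≤ n := by exact_mod_cast hn
  have h0 : 0 < 1 / (n : ℝ) := by positivity
  unfold sdim
  rw [div_lt_div_iff₀ (by linarith) (by linarith)]
  nlinarith

theorem vLowerN (h1 : S_ExpoN) (h2 : S_UpperN) : S_LowerN := by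
  intro n lam hn hlam hlam' hk
  obtain ⟨_, e2, _, _⟩ := MP_211f72_nt.expo
  obtain ⟨_, g2, g3⟩ := h1
  obtain ⟨K, hK, hkids⟩ := hk
  have hs0 := LowerN_pos hn hlam hlam'
  have hs1 := LowerN_le hn hlam
  by_contra hcon
  rw [not_le] at hcon
  set Z : Set ℝ := {ξ : ℝ | lambdaExp n ξ = (lam : EReal)} with hZ
  let N : ℕ → Set ℝ := fun k =>
    match k with
    | 0 => Z
    | (j + 1) => {ξ : ℝ | Approx n ξ (lam + 1 / ((j : ℝ) + 1))}
  have hN : ∀ k, ∃ t : ℝ, 0 < t ∧ t < sdim n lam ∧ CZ t (N k) := by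
    intro k
    cases k with
    | zero => exact MP_211f72_nt.contentZero Z (sdim n lam) hs0 hs1 hcon
    | succ j =>
      refine MP_211f72_nt.contentZero _ (sdim n lam) hs0 hs1 ?_
      have hj : (0 : ℝ) < 1 / ((j : ℝ) + 1) := by positivity
      set l := min (lam + 1 / ((j : ℝ) + 1)) ((lam + 1 / ((n : ℝ) - 1)) / 2) with hl
      have hl1 : lam < l := by
        rw [hl, lt_min_iff]
        constructor <;> linarith
      have hl2 : l < 1 / ((n : ℝ) - 1) := by
        have : l ≤ (lam + 1 / ((n : ℝ) - 1)) / 2 := min_le_right _ _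
        linarith
      have hl3 : l ≤ lam + 1 / ((j : ℝ) + 1) := min_le_left _ _
      have hsub : {ξ : ℝ | Approx n ξ (lam + 1 / ((j : ℝ) + 1))} ⊆ {ξ : ℝ | Approx n ξ l} :=
        fun ξ hξ => g3 n ξ _ l hl3 hξ
      refine lt_of_le_of_lt (dimH_mono hsub) ?_
      refine lt_of_le_of_lt (h2 n l hn (hlam.trans hl1) hl2) ?_
      exact (ENNReal.ofReal_lt_ofReal_iff hs0).mpr (LowerN_anti hn hlam hl1)
  choose τ hτ0 hτs hcz using hN
  obtain ⟨ξ, _, _, hgd, hav⟩ := MP_211f72_nt.avoid K (sdim n lam) hK hs0 hs1 (GdN n lam) hkids N τ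
    (fun k => ⟨hτ0 k, hτs k⟩) hcz
  have hA : Approx n ξ lam := g2 n ξ lam hgd
  have hB : ∀ k : ℕ, ¬ Approx n ξ (lam + 1 / (k + 1)) := fun k => hav (k + 1)
  exact hav 0 (e2 n ξ lam hA hB)

end Pool.Agent.MP211V
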