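import Pool.Agent.Lib.MP_211f72_nt.V.Spec

/-!
# MP_211f72_nt, second theorem: Taylor coefficients of a polynomial which is small on an interval
-/

namespace Pool.Agent.MP211V

open Polynomial

private lemma Mar_main {n : ℕ} {C₀ : ℝ} (h : ∀ (P : ℝ[X]) (a : ℝ), P.natDegree ≤ n → Sl P a 0 1 →
    ∀ j : ℕ, |P.coeff j| ≤ C₀ * a) {P : ℝ[X]} {c a b t x σ : ℝ} (hP : P.natDegree ≤ n)
    (hS : Sl P c a b) (hσ : |σ| = t / 2) (h0 : ∀ y : ℝ, 0 ≤ y → y ≤ 1 → a ≤ σ * y + x ∧ σ * y + x ≤ b)
    (j : ℕ) : |tc P x j| * (t / 2) ^ j ≤ C₀ * c := by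
  have hdeg : ((taylor x P).comp (C σ * X)).natDegree ≤ n := by
    refine natDegree_comp_le.trans ?_
    rw [natDegree_taylor]
    calc P.natDegree * (C σ * X : ℝ[X]).natDegree ≤ n * 1 :=
          Nat.mul_le_mul hP ((natDegree_C_mul_le σ X).trans natDegree_X_le)
      _ = n := Nat.mul_one n
  have hSl : Sl ((taylor x P).comp (C σ * X)) c 0 1 := by
    intro y hy0 hy1
    rw [eval_comp, eval_mul, eval_C, eval_X, taylor_eval]
    exact hS _ (h0 y hy0 hy1).1 (h0 y hy0 hy1).2
  have h1 := h _ c hdeg hSl j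
  rw [comp_C_mul_X_coeff, abs_mul, abs_pow, hσ] at h1
  exact h1

theorem vMar (h1 : S_Coef) : S_Mar := by
  intro n
  obtain ⟨C₀, hC₀, h⟩ := h1 n
  refine ⟨2 ^ n * C₀, by positivity, ?_⟩
  intro P c a b t x hP ht htb hS hax hxb j
  have hc : 0 ≤ c := (abs_nonneg _).trans (hS x hax hxb)
  have key : |tc P x j| * (t / 2) ^ j ≤ C₀ * c := by
    by_cases hx : x + t / 2 ≤ b
    · refine Mar_main (σ := t / 2) h hP hS (abs_of_pos (by positivity)) ?_ j
      intro y hy0 hy1
      constructor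
      · nlinarith
      · nlinarith
    · refine Mar_main (σ := -(t / 2)) h hP hS (by rw [abs_neg, abs_of_pos (by positivity)]) ?_ j
      intro y hy0 hy1
      push Not at hx
      constructor
      · nlinarith
      · nlinarith
  by_cases hj : j ≤ n
  · have e : |tc P x j| * t ^ j = 2 ^ j * (|tc P x j| * (t / 2) ^ j) := by
      rw [div_pow]
      field_simp
    rw [e]
    calc (2 : ℝ) ^ j * (|tc P x j| * (t / 2) ^ j) ≤ 2 ^ j * (C₀ * c) :=
          mul_le_mul_of_nonneg_left key (by positivity)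
      _ ≤ 2 ^ n * (C₀ * c) := by
          apply mul_le_mul_of_nonneg_right _ (by positivity)
          exact pow_le_pow_right₀ (by norm_num) hj
      _ = 2 ^ n * C₀ * c := by ring
  · have h0 : tc P x j = 0 := by
      unfold tc
      apply coeff_eq_zero_of_natDegree_lt
      rw [natDegree_taylor]
      omega
    rw [h0, abs_zero, zero_mul]
    positivity

end Pool.Agent.MP211V
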