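import Pool.Agent.Lib.MP_211f72_nt.V.Spec

/-!
# MP_211f72_nt, second theorem: Minkowski's theorem for the box (`MinkN`)
-/

namespace Pool.Agent.MP211V

open MeasureTheory

/-- the matrix of the linear forms (rows = images of the standard basis) -/
noncomputable def minkNM (n : ℕ) (ξ : ℝ) : Matrix (Fin (n + 1)) (Fin (n + 1)) ℝ :=
  Matrix.of fun i j => ((j : ℕ).choose (i : ℕ) : ℝ) * (-ξ) ^ ((j : ℕ) - (i : ℕ))

theorem minkNM_det (n : ℕ) (ξ : ℝ) : (minkNM n ξ).det = 1 := by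
  rw [Matrix.det_of_isUpperTriangular]
  · simp [minkNM]
  · intro i j hij
    have h : (j : ℕ) < (i : ℕ) := hij
    simp only [minkNM, Matrix.of_apply]
    rw [Nat.choose_eq_zero_of_lt h]
    simp

/-- the corresponding basis -/
noncomputable def minkNB (n : ℕ) (ξ : ℝ) : Module.Basis (Fin (n + 1)) ℝ (Fin (n + 1) → ℝ) :=
  basisOfLinearIndependentOfCardEqFinrank (b := (minkNM n ξ).row)
    (Matrix.linearIndependent_rows_of_det_ne_zero (A := minkNM n ξ)
      (by rw [minkNM_det]; norm_num)) (by simp)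

theorem minkNB_coe (n : ℕ) (ξ : ℝ) : ⇑(minkNB n ξ) = (minkNM n ξ).row := by
  rw [minkNB, coe_basisOfLinearIndependentOfCardEqFinrank]

/-- the sides of the box -/
noncomputable def minkNr (n : ℕ) (Q lam : ℝ) (j : Fin (n + 1)) : ℝ :=
  if (j : ℕ) = 0 then Q else if (j : ℕ) = 1 then Q ^ (((n : ℝ) - 1) * lam - 1) else Q ^ (-lam)

theorem minkNr_pos (n : ℕ) (Q lam : ℝ) (hQ : 0 < Q) (j : Fin (n + 1)) : 0 < minkNr n Q lam j := by
  unfold minkNr
  split_ifs
  · exact hQ
  · exact Real.rpow_pos_of_pos hQ _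
  · exact Real.rpow_pos_of_pos hQ _

theorem minkNr_prod (n : ℕ) (Q lam : ℝ) (hn : 2 ≤ n) (hQ : 0 < Q) :
    ∏ j, minkNr n Q lam j = 1 := by
  obtain ⟨m, rfl⟩ : ∃ m, n = m + 1 := ⟨n - 1, by omega⟩
  rw [Fin.prod_univ_succ, Fin.prod_univ_succ]
  have h0 : minkNr (m + 1) Q lam 0 = Q := by simp [minkNr]
  have h1 : minkNr (m + 1) Q lam (Fin.succ 0) = Q ^ ((((m + 1 : ℕ) : ℝ) - 1) * lam - 1) := by
    simp [minkNr]
  have h2 : ∀ i : Fin m, minkNr (m + 1) Q lam (Fin.succ (Fin.succ i)) = Q ^ (-lam) := by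
    intro i
    simp [minkNr]
  rw [h0, h1, Finset.prod_congr rfl (fun i _ => h2 i), Finset.prod_const, Finset.card_univ,
    Fintype.card_fin, ← Real.rpow_natCast, ← Real.rpow_mul hQ.le, ← Real.rpow_add hQ]
  calc Q * Q ^ ((((m + 1 : ℕ) : ℝ) - 1) * lam - 1 + -lam * (m : ℝ))
      = Q ^ (1 : ℝ) * Q ^ ((((m + 1 : ℕ) : ℝ) - 1) * lam - 1 + -lam * (m : ℝ)) := by
        rw [Real.rpow_one]
    _ = 1 := by
        rw [← Real.rpow_add hQ]
        rw [show (1 : ℝ) + ((((m + 1 : ℕ) : ℝ) - 1) * lam - 1 + -lam * (m : ℝ)) = 0 by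
          push_cast; ring, Real.rpow_zero]

/-- **MinkN.** -/
theorem vMinkN : S_MinkN := by
  intro n ξ Q lam hn hQ
  have hQ0 : 0 < Q := by linarith
  set r : Fin (n + 1) → ℝ := minkNr n Q lam with hr
  have hvol : volume (Set.Icc (-r) r) = 2 ^ (n + 1) := by
    rw [Real.volume_Icc_pi]
    have h2 : ∀ i, r i - (-r) i = 2 * r i := fun i => by rw [Pi.neg_apply]; ring
    have h0 : ∀ i, 0 ≤ 2 * r i := fun i => by
      have := minkNr_pos n Q lam hQ0 i
      positivity
    rw [Finset.prod_congr rfl (fun i _ => by rw [h2 i]),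
      ← ENNReal.ofReal_prod_of_nonneg (fun i _ => h0 i), Finset.prod_mul_distrib,
      hr, minkNr_prod n Q lam hn hQ0, Finset.prod_const, Finset.card_univ, Fintype.card_fin,
      mul_one, ENNReal.ofReal_pow (by norm_num)]
    simp
  have hfund := ZSpan.isAddFundamentalDomain' (minkNB n ξ) (volume : Measure (Fin (n + 1) → ℝ))
  have hdet : volume (ZSpan.fundamentalDomain (minkNB n ξ)) = 1 := by
    rw [ZSpan.volume_fundamentalDomain, minkNB_coe]
    have : (Matrix.of (minkNM n ξ).row) = minkNM n ξ := rfl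
    rw [this, minkNM_det]
    simp
  have : Countable (Submodule.span ℤ (Set.range (minkNB n ξ))).toAddSubgroup := by
    change Countable (Submodule.span ℤ (Set.range (minkNB n ξ)))
    infer_instance
  obtain ⟨x, hx0, hxs⟩ := exists_ne_zero_mem_lattice_of_measure_mul_two_pow_le_measure
    (s := Set.Icc (-r) r) hfund
    (fun x hx => ⟨neg_le_neg hx.2, by
      have := neg_le_neg hx.1
      rwa [neg_neg] at this⟩) (convex_Icc _ _) isCompact_Icc (by
        rw [hdet, hvol]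
        simp)
  have hxm : (x : Fin (n + 1) → ℝ) ∈ Submodule.span ℤ (Set.range (minkNB n ξ)) := x.2
  rw [Submodule.mem_span_range_iff_exists_fun] at hxm
  obtain ⟨c, hc⟩ := hxm
  have hval : ∀ j, (x : Fin (n + 1) → ℝ) j = yc n c ξ j := by
    intro j
    rw [← hc, Finset.sum_apply]
    unfold yc
    refine Finset.sum_congr rfl fun i _ => ?_
    rw [Pi.smul_apply, minkNB_coe]
    simp only [minkNM, Matrix.row, Matrix.of_apply, zsmul_eq_mul]
    ring
  have hb : ∀ i, |(x : Fin (n + 1) → ℝ) i| ≤ r i := fun i => abs_le.mpr ⟨hxs.1 i, hxs.2 i⟩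
  refine ⟨c, ?_, ?_, ?_⟩
  · intro h
    apply hx0
    apply Subtype.ext
    rw [← hc, h]
    simp
  · have h1 := hb 0
    have h2 : yc n c ξ 0 = c 0 := by
      unfold yc
      rw [Finset.sum_eq_single 0]
      · simp
      · intro i _ hi
        have h3 : (i : ℕ) ≠ 0 := fun h => hi (Fin.ext h)
        have h4 : ((0 : Fin (n + 1)) : ℕ) = 0 := rfl
        rw [h4, Nat.choose_eq_zero_of_lt (by omega)]
        simp
      · simp
    rw [hval, h2] at h1
    have h3 : r 0 = Q := by simp [hr, minkNr]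
    rwa [h3] at h1
  · intro j hj
    have h1 := hb j
    rw [hval] at h1
    have h3 : r j = if (j : ℕ) = 1 then Q ^ (((n : ℝ) - 1) * lam - 1) else Q ^ (-lam) := by
      simp only [hr, minkNr, if_neg hj]
    rwa [h3] at h1

end Pool.Agent.MP211V
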