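import Pool.Agent.Lib.MP_211f72_nt.V.Spec

/-!
# MP_211f72_nt, V: the number of maximal intervals of one polynomial
-/

namespace Pool.Agent.MP211V

open Polynomial

private theorem MxCard_end {P : ℝ[X]} {c a b : ℝ} (h : Mx P c a b) : P.eval b = c ∨ P.eval b = -c := by
  obtain ⟨hab, hsl, hmax⟩ := h
  have h1 : |P.eval b| ≤ c := hsl b hab.le (le_refl b)
  rcases h1.lt_or_eq with h2 | h2
  · exfalso
    have hc : ContinuousAt (fun x => |P.eval x|) b := (P.continuous.abs).continuousAt
    have h3 : ∀ᶠ x in nhds b, |P.eval x| < c := hc.eventually_lt continuousAt_const h2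
    obtain ⟨δ, hδ, h4⟩ := Metric.eventually_nhds_iff.1 h3
    have h5 : Sl P c a (b + δ / 2) := by
      intro x hx hx'
      rcases le_total x b with h | h
      · exact hsl x hx h
      · refine (h4 ?_).le
        rw [Real.dist_eq, abs_of_nonneg (by linarith)]
        linarith
    have h6 := hmax a (b + δ / 2) (le_refl a) (by linarith) h5
    linarith [h6.2]
  · exact eq_or_eq_neg_of_abs_eq h2

private theorem MxCard_inj {P : ℝ[X]} {c a a' b : ℝ} (h : Mx P c a b) (h' : Mx P c a' b) : a = a' := by
  rcases le_total a a' with hle | hle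
  · exact (h'.2.2 a b hle (le_refl b) h.2.1).1
  · exact (h.2.2 a' b hle (le_refl b) h'.2.1).1.symm

theorem vMxCard : S_MxCard := by
  classical
  intro P c S hP hS
  have hne : P - C c ≠ 0 := by
    intro h
    have := natDegree_sub_C (p := P) (a := c)
    rw [h, natDegree_zero] at this
    omega
  have hne' : P + C c ≠ 0 := by
    intro h
    have := natDegree_add_C (p := P) (a := c)
    rw [h, natDegree_zero] at this
    omega
  have h1 : (S.image Prod.snd).card = S.card := by
    apply Finset.card_image_of_injOn
    rintro ⟨a, b⟩ hp ⟨a', b'⟩ hq hpq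
    have hpq' : b = b' := hpq
    subst hpq'
    have e : a = a' := MxCard_inj (hS (a, b) hp) (hS (a', b) hq)
    rw [e]
  have h2 : S.image Prod.snd ⊆ (P - C c).roots.toFinset ∪ (P + C c).roots.toFinset := by
    intro b hb
    obtain ⟨p, hp, rfl⟩ := Finset.mem_image.1 hb
    rw [Finset.mem_union, Multiset.mem_toFinset, Multiset.mem_toFinset, mem_roots hne,
      mem_roots hne', IsRoot.def, IsRoot.def, eval_sub, eval_add, eval_C]
    rcases MxCard_end (hS p hp) with h | h
    · left
      rw [h, sub_self]
    · right
      rw [h, neg_add_cancel]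
  have h3 : (P - C c).roots.toFinset.card ≤ P.natDegree := by
    refine (Multiset.toFinset_card_le _).trans ((card_roots' _).trans ?_)
    rw [natDegree_sub_C]
  have h4 : (P + C c).roots.toFinset.card ≤ P.natDegree := by
    refine (Multiset.toFinset_card_le _).trans ((card_roots' _).trans ?_)
    rw [natDegree_add_C]
  calc S.card = (S.image Prod.snd).card := h1.symm
    _ ≤ ((P - C c).roots.toFinset ∪ (P + C c).roots.toFinset).card := Finset.card_le_card h2
    _ ≤ (P - C c).roots.toFinset.card + (P + C c).roots.toFinset.card := Finset.card_union_le _ _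
    _ ≤ 2 * P.natDegree := by omega

end Pool.Agent.MP211V
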