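import Pool.Agent.Lib.MP_211f72_nt.V.Spec

/-!
# MP_211f72_nt, second theorem: maximal intervals exist
-/

namespace Pool.Agent.MP211V

open Polynomial Filter

private lemma mxe_right {P : ℝ[X]} {c a b : ℝ} (hP : 0 < P.natDegree) (hab : a < b)
    (h : Sl P c a b) : ∃ b' : ℝ, b ≤ b' ∧ Sl P c a b' ∧ ∀ β : ℝ, b ≤ β → Sl P c a β → β ≤ b' := by
  have ht : Tendsto (fun x => |P.eval x|) atTop atTop := by
    apply P.abs_tendsto_atTop
    exact natDegree_pos_iff_degree_pos.mp hP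
  obtain ⟨M, hM⟩ := (ht.eventually (eventually_gt_atTop c)).exists_forall_of_atTop
  have hne : ({β : ℝ | b ≤ β ∧ Sl P c a β} : Set ℝ).Nonempty := ⟨b, le_rfl, h⟩
  have hbd : BddAbove ({β : ℝ | b ≤ β ∧ Sl P c a β} : Set ℝ) := by
    refine ⟨M, ?_⟩
    rintro β ⟨h1, h2⟩
    by_contra h3
    push Not at h3
    have h4 := hM β h3.le
    have h5 := h2 β (by linarith) le_rfl
    exact absurd h5 (not_le.mpr h4)
  set b' := sSup {β : ℝ | b ≤ β ∧ Sl P c a β} with hb'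
  have hbb : b ≤ b' := le_csSup hbd ⟨le_rfl, h⟩
  refine ⟨b', hbb, ?_, fun β h1 h2 => le_csSup hbd ⟨h1, h2⟩⟩
  have hlt : ∀ x : ℝ, a ≤ x → x < b' → |P.eval x| ≤ c := by
    intro x hx1 hx2
    obtain ⟨β, hβ, hxβ⟩ := exists_lt_of_lt_csSup hne hx2
    exact hβ.2 x hx1 hxβ.le
  have hcl : IsClosed {x : ℝ | |P.eval x| ≤ c} :=
    isClosed_le (P.continuous.abs) continuous_const
  have hsub : Set.Ico a b' ⊆ {x : ℝ | |P.eval x| ≤ c} := fun x hx => hlt x hx.1 hx.2
  have h6 : closure (Set.Ico a b') ⊆ {x : ℝ | |P.eval x| ≤ c} := hcl.closure_subset_iff.mpr hsub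
  rw [closure_Ico (ne_of_lt (by linarith : a < b'))] at h6
  intro x hx1 hx2
  exact h6 ⟨hx1, hx2⟩

private lemma mxe_neg (P : ℝ[X]) (c a b : ℝ) : Sl (P.comp (-X)) c a b ↔ Sl P c (-b) (-a) := by
  constructor
  · intro h x h1 h2
    have h3 := h (-x) (by linarith) (by linarith)
    rw [eval_comp, eval_neg, eval_X, neg_neg] at h3
    exact h3
  · intro h x h1 h2
    rw [eval_comp, eval_neg, eval_X]
    exact h (-x) (by linarith) (by linarith)

private lemma mxe_left {P : ℝ[X]} {c a b : ℝ} (hP : 0 < P.natDegree) (hab : a < b)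
    (h : Sl P c a b) : ∃ a' : ℝ, a' ≤ a ∧ Sl P c a' b ∧ ∀ α : ℝ, α ≤ a → Sl P c α b → a' ≤ α := by
  have hP' : 0 < (P.comp (-X)).natDegree := by
    rw [natDegree_comp, natDegree_neg, natDegree_X, mul_one]
    exact hP
  have h' : Sl (P.comp (-X)) c (-b) (-a) := by
    rw [mxe_neg, neg_neg, neg_neg]
    exact h
  obtain ⟨β, h1, h2, h3⟩ := mxe_right hP' (by linarith : -b < -a) h'
  refine ⟨-β, by linarith, ?_, ?_⟩
  · rw [mxe_neg, neg_neg] at h2
    exact h2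
  · intro α hα hS
    have := h3 (-α) (by linarith) (by rw [mxe_neg, neg_neg, neg_neg]; exact hS)
    linarith

theorem vMxEx : S_MxEx := by
  intro P c a b hP hab h
  obtain ⟨b', hb1, hb2, hb3⟩ := mxe_right hP hab h
  obtain ⟨a', ha1, ha2, ha3⟩ := mxe_left hP hab h
  refine ⟨a', b', ha1, hb1, by linarith, ?_, ?_⟩
  · intro x h1 h2
    by_cases hx : x ≤ b
    · exact ha2 x h1 hx
    · push Not at hx
      exact hb2 x (by linarith) h2
  · intro a'' b'' h1 h2 h3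
    have e1 : b'' ≤ b' := hb3 b'' (by linarith) (fun x hx1 hx2 => h3 x (by linarith) hx2)
    have e2 : a' ≤ a'' := ha3 a'' (by linarith) (fun x hx1 hx2 => h3 x hx1 (by linarith))
    exact ⟨le_antisymm h1 e2, le_antisymm e1 h2⟩

end Pool.Agent.MP211V
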