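import Pool.Agent.Lib.MP_211f72_nt.V.Spec

/-! # MP_211f72_nt, V: points near the curve in a cap (`Pts`) -/

namespace Pool.Agent.MP211V.Pts

open Polynomial Filter Topology

/-- the matrix of the coordinates `y_j(ξ)` -/
noncomputable def BB (n : ℕ) (ξ : ℝ) : Matrix (Fin (n + 1)) (Fin (n + 1)) ℝ :=
  fun j i => ((j : ℕ).choose (i : ℕ) : ℝ) * (-ξ) ^ ((j : ℕ) - (i : ℕ))

/-- the matrix of the Taylor coefficients -/
noncomputable def BT (n : ℕ) (ξ : ℝ) : Matrix (Fin (n + 1)) (Fin (n + 1)) ℝ :=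
  fun j i => ((i : ℕ).choose (j : ℕ) : ℝ) * ξ ^ ((i : ℕ) - (j : ℕ))

/-- the binomial identity -/
lemma binom_id (k i : ℕ) (a b : ℝ) (hik : i ≤ k) :
    ∑ j ∈ Finset.range (k + 1), ((j.choose i : ℝ) * a ^ (j - i)) * ((k.choose j : ℝ) * b ^ (k - j))
      = (k.choose i : ℝ) * (a + b) ^ (k - i) := by
  have h1 : ∑ j ∈ Finset.range (k + 1),
      ((j.choose i : ℝ) * a ^ (j - i)) * ((k.choose j : ℝ) * b ^ (k - j))
      = ∑ j ∈ Finset.Ico i (k + 1),
        ((j.choose i : ℝ) * a ^ (j - i)) * ((k.choose j : ℝ) * b ^ (k - j)) := by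
    symm
    apply Finset.sum_subset
    · intro j hj
      rw [Finset.mem_Ico] at hj
      exact Finset.mem_range.2 hj.2
    · intro j hj hj2
      rw [Finset.mem_range] at hj
      rw [Finset.mem_Ico] at hj2
      rw [Nat.choose_eq_zero_of_lt (by omega)]
      simp
  rw [h1, Finset.sum_Ico_eq_sum_range, add_pow, Finset.mul_sum]
  have h2 : k + 1 - i = (k - i) + 1 := by omega
  rw [h2]
  apply Finset.sum_congr rfl
  intro m hm
  rw [Finset.mem_range] at hm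
  have h3 := Nat.choose_mul (n := k) (k := i + m) (s := i) (by omega)
  have h4 : i + m - i = m := by omega
  rw [h4] at h3
  have h5 : ((k.choose (i + m) : ℝ)) * ((i + m).choose i : ℝ) =
      (k.choose i : ℝ) * ((k - i).choose m : ℝ) := by exact_mod_cast h3
  have h6 : k - (i + m) = k - i - m := by omega
  rw [h4, h6]
  calc ((i + m).choose i : ℝ) * a ^ m * ((k.choose (i + m) : ℝ) * b ^ (k - i - m))
      = ((k.choose (i + m) : ℝ) * ((i + m).choose i : ℝ)) * (a ^ m * b ^ (k - i - m)) := by ring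
    _ = _ := by rw [h5]; ring

lemma BT_mul (n : ℕ) (ξ : ℝ) : (BB n ξ).transpose * BT n ξ = 1 := by
  ext i k
  rw [Matrix.mul_apply, Matrix.one_apply]
  have h1 : ∑ j : Fin (n + 1), (BB n ξ).transpose i j * BT n ξ j k =
      ∑ j ∈ Finset.range (n + 1), ((j.choose (i : ℕ) : ℝ) * (-ξ) ^ (j - (i : ℕ))) *
        (((k : ℕ).choose j : ℝ) * ξ ^ ((k : ℕ) - j)) := by
    rw [← Fin.sum_univ_eq_sum_range (fun j => ((j.choose (i : ℕ) : ℝ) * (-ξ) ^ (j - (i : ℕ))) *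
        (((k : ℕ).choose j : ℝ) * ξ ^ ((k : ℕ) - j)))]
    rfl
  have h2 : ∑ j ∈ Finset.range (n + 1), ((j.choose (i : ℕ) : ℝ) * (-ξ) ^ (j - (i : ℕ))) *
        (((k : ℕ).choose j : ℝ) * ξ ^ ((k : ℕ) - j)) =
      ∑ j ∈ Finset.range ((k : ℕ) + 1), ((j.choose (i : ℕ) : ℝ) * (-ξ) ^ (j - (i : ℕ))) *
        (((k : ℕ).choose j : ℝ) * ξ ^ ((k : ℕ) - j)) := by
    symm
    apply Finset.sum_subset
    · intro j hj
      rw [Finset.mem_range] at hj ⊢
      have := k.isLt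
      omega
    · intro j _ hj2
      rw [Finset.mem_range] at hj2
      rw [Nat.choose_eq_zero_of_lt (n := (k : ℕ)) (by omega)]
      simp
  rw [h1, h2]
  rcases le_or_gt (i : ℕ) (k : ℕ) with hik | hik
  · rw [binom_id _ _ _ _ hik]
    rcases eq_or_lt_of_le hik with h | h
    · have : i = k := Fin.ext h
      subst this
      simp
    · have h0 : (k : ℕ) - (i : ℕ) ≠ 0 := by omega
      have hne : i ≠ k := fun hh => by rw [hh] at h; omega
      rw [neg_add_cancel, zero_pow h0, if_neg hne, mul_zero]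
  · have hne : i ≠ k := fun hh => by rw [hh] at hik; omega
    rw [if_neg hne]
    apply Finset.sum_eq_zero
    intro j hj
    rw [Finset.mem_range] at hj
    rw [Nat.choose_eq_zero_of_lt (n := j) (by omega)]
    simp

lemma pairing (n : ℕ) (ξ : ℝ) (x y : Fin (n + 1) → ℝ) :
    ∑ j, ((BB n ξ).mulVec x) j * ((BT n ξ).mulVec y) j = ∑ j, x j * y j := by
  have h1 : ∑ j, ((BB n ξ).mulVec x) j * ((BT n ξ).mulVec y) j =
      (BB n ξ).mulVec x ⬝ᵥ (BT n ξ).mulVec y := rfl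
  have h2 : ∑ j, x j * y j = x ⬝ᵥ y := rfl
  rw [h1, h2, Matrix.dotProduct_mulVec, ← Matrix.vecMul_transpose, Matrix.vecMul_vecMul, BT_mul,
    Matrix.vecMul_one]

lemma BT_det (n : ℕ) (ξ : ℝ) : |(BT n ξ).det| = 1 := by
  rw [Matrix.det_of_isUpperTriangular]
  · simp [BT]
  · intro i j hij
    simp only [BT]
    have : (j : ℕ) < (i : ℕ) := hij
    rw [Nat.choose_eq_zero_of_lt this]
    simp

lemma recover (n : ℕ) (ξ : ℝ) (y : Fin (n + 1) → ℝ) (i : Fin (n + 1)) :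
    y i = ∑ j : Fin (n + 1), BB n ξ j i * ((BT n ξ).mulVec y) j := by
  have h1 : ((BB n ξ).transpose * BT n ξ).mulVec y = y := by rw [BT_mul, Matrix.one_mulVec]
  rw [← Matrix.mulVec_mulVec] at h1
  have h2 := congrFun h1 i
  rw [← h2]
  rfl

/-- the polynomial of a vector -/
noncomputable def pol (n : ℕ) (p : Fin (n + 1) → ℤ) : ℤ[X] := ∑ i : Fin (n + 1), monomial (i : ℕ) (p i)

lemma pol_coeff (n : ℕ) (p : Fin (n + 1) → ℤ) (i : Fin (n + 1)) : (pol n p).coeff (i : ℕ) = p i := by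
  simp only [pol, finsetSum_coeff, coeff_monomial]
  rw [Finset.sum_eq_single i]
  · simp
  · intro j _ hj
    rw [if_neg (fun h => hj (Fin.ext h))]
  · intro h
    exact absurd (Finset.mem_univ i) h

lemma pol_natDegree (n : ℕ) (p : Fin (n + 1) → ℤ) : (pol n p).natDegree ≤ n := by
  apply natDegree_sum_le_of_forall_le
  intro i _
  exact (natDegree_monomial_le _).trans (by have := i.isLt; omega)

lemma pol_injective (n : ℕ) : Function.Injective (pol n) := by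
  intro p q h
  ext i
  rw [← pol_coeff n p i, ← pol_coeff n q i, h]

lemma tc_pol (n : ℕ) (p : Fin (n + 1) → ℤ) (ξ : ℝ) (j : Fin (n + 1)) :
    tc (rp (pol n p)) ξ (j : ℕ) = ((BT n ξ).mulVec fun i => (p i : ℝ)) j := by
  have h1 : rp (pol n p) = ∑ i : Fin (n + 1), monomial (i : ℕ) ((p i : ℤ) : ℝ) := by
    simp [rp, pol, Polynomial.map_sum]
  rw [tc, taylor_coeff, h1, map_sum, eval_finsetSum]
  simp only [Matrix.mulVec, dotProduct, BT, hasseDeriv_monomial, eval_monomial]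
  apply Finset.sum_congr rfl
  intro i _
  ring

lemma choose_sum_le (n : ℕ) (j : Fin (n + 1)) :
    ∑ i : Fin (n + 1), ((j : ℕ).choose (i : ℕ) : ℝ) ≤ 2 ^ n := by
  have h1 : ∑ i : Fin (n + 1), ((j : ℕ).choose (i : ℕ) : ℝ) =
      ∑ i ∈ Finset.range (n + 1), ((j : ℕ).choose i : ℝ) :=
    Fin.sum_univ_eq_sum_range (fun i => ((j : ℕ).choose i : ℝ)) (n + 1)
  have h2 : ∑ i ∈ Finset.range (n + 1), ((j : ℕ).choose i : ℝ) =
      ∑ i ∈ Finset.range ((j : ℕ) + 1), ((j : ℕ).choose i : ℝ) := by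
    symm
    apply Finset.sum_subset
    · intro i hi
      rw [Finset.mem_range] at hi ⊢
      have := j.isLt
      omega
    · intro i _ hi
      rw [Finset.mem_range] at hi
      rw [Nat.choose_eq_zero_of_lt (by omega)]
      simp
  rw [h1, h2]
  have h3 := Nat.sum_range_choose (j : ℕ)
  have h4 : ∑ i ∈ Finset.range ((j : ℕ) + 1), ((j : ℕ).choose i : ℝ) = 2 ^ (j : ℕ) := by
    exact_mod_cast h3
  rw [h4]
  exact pow_le_pow_right₀ (by norm_num) (by have := j.isLt; omega)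

/-- the bound for the coordinates at the left endpoint -/
lemma yc_bound (h2 : S_Yc) (n : ℕ) (Y lam ξ₀ ξ θ : ℝ) (x : Fin (n + 1) → ℤ) (hY : 2 ≤ Y)
    (hl0 : 0 < lam) (hl1 : lam < 1) (hξ₀ : |ξ₀| ≤ 1) (hθ0 : 0 < θ) (hθ1 : θ ≤ 1) (hξ1 : ξ₀ ≤ ξ)
    (hξ2 : ξ ≤ ξ₀ + θ) (hNr : Nr n Y lam ξ x) (j : Fin (n + 1)) :
    |yc n x ξ₀ j| ≤ Y * θ ^ (j : ℕ) + 2 * 6 ^ n * Y ^ (-lam) := by
  obtain ⟨y1, _, y3, _, y5, _⟩ := h2 n x
  obtain ⟨hx1, hx2, hx3⟩ := hNr
  have hY0 : 0 < Y := by linarith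
  have hYl : 0 < Y ^ (-lam) := Real.rpow_pos_of_pos hY0 _
  set δ : ℝ := (Y / 2) ^ (-lam) with hδ
  have hδ0 : 0 < δ := Real.rpow_pos_of_pos (by positivity) _
  have hδ2 : δ ≤ 2 * Y ^ (-lam) := by
    rw [hδ, Real.div_rpow hY0.le (by norm_num), div_eq_mul_inv, ← Real.rpow_neg (by norm_num), neg_neg]
    have : (2 : ℝ) ^ lam ≤ 2 ^ (1 : ℝ) :=
      Real.rpow_le_rpow_of_exponent_le (by norm_num) hl1.le
    rw [Real.rpow_one] at this
    nlinarith
  have hξ : |ξ| ≤ 2 := by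
    rw [abs_le] at hξ₀ ⊢
    constructor <;> linarith
  have h5 : ∀ i : Fin (n + 1), (i : ℕ) ≠ 0 → |yc n x ξ i| ≤ 3 ^ n * δ := by
    intro i hi
    refine (y5 ξ δ hδ0.le hx3 i hi).trans ?_
    apply mul_le_mul_of_nonneg_right _ hδ0.le
    exact pow_le_pow_left₀ (by positivity) (by linarith) n
  have e : yc n x ξ₀ j = yc n x (ξ + (ξ₀ - ξ)) j := by ring_nf
  rw [e, y3 ξ (ξ₀ - ξ) j]
  have hτ : |(-(ξ₀ - ξ))| ≤ θ := by rw [abs_le]; constructor <;> linarith
  refine (Finset.abs_sum_le_sum_abs _ _).trans ?_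
  have hterm : ∀ i : Fin (n + 1), |((j : ℕ).choose (i : ℕ) : ℝ) * (-(ξ₀ - ξ)) ^ ((j : ℕ) - (i : ℕ)) *
      yc n x ξ i| ≤ (if i = 0 then Y * θ ^ (j : ℕ) else 0) +
        ((j : ℕ).choose (i : ℕ) : ℝ) * (3 ^ n * δ) := by
    intro i
    rw [abs_mul, abs_mul, abs_pow, Nat.abs_cast]
    have hc0 : (0 : ℝ) ≤ ((j : ℕ).choose (i : ℕ) : ℝ) := Nat.cast_nonneg _
    by_cases hi : i = 0
    · subst hi
      rw [if_pos rfl]
      have e0 : yc n x ξ 0 = (x 0 : ℝ) := y1 ξ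
      have e1 : ((0 : Fin (n + 1)) : ℕ) = 0 := rfl
      rw [e0, e1, Nat.choose_zero_right, Nat.sub_zero, Nat.cast_one, one_mul]
      have h6 : |(-(ξ₀ - ξ))| ^ (j : ℕ) ≤ θ ^ (j : ℕ) := pow_le_pow_left₀ (abs_nonneg _) hτ _
      have h7 : |(-(ξ₀ - ξ))| ^ (j : ℕ) * |(x 0 : ℝ)| ≤ θ ^ (j : ℕ) * Y :=
        mul_le_mul h6 hx2 (abs_nonneg _) (by positivity)
      have h8 : 0 ≤ 1 * (3 ^ n * δ) := by positivity
      linarith
    · rw [if_neg hi, zero_add]
      have hi' : (i : ℕ) ≠ 0 := fun h => hi (Fin.ext h)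
      have h6 : |(-(ξ₀ - ξ))| ^ ((j : ℕ) - (i : ℕ)) ≤ 1 :=
        pow_le_one₀ (abs_nonneg _) (hτ.trans hθ1)
      have h7 := h5 i hi'
      calc ((j : ℕ).choose (i : ℕ) : ℝ) * |(-(ξ₀ - ξ))| ^ ((j : ℕ) - (i : ℕ)) * |yc n x ξ i|
          ≤ ((j : ℕ).choose (i : ℕ) : ℝ) * 1 * (3 ^ n * δ) := by
            apply mul_le_mul _ h7 (abs_nonneg _) (by positivity)
            exact mul_le_mul_of_nonneg_left h6 hc0
        _ = ((j : ℕ).choose (i : ℕ) : ℝ) * (3 ^ n * δ) := by ring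
  refine (Finset.sum_le_sum fun i _ => hterm i).trans ?_
  rw [Finset.sum_add_distrib, ← Finset.sum_mul, Finset.sum_ite_eq' Finset.univ (0 : Fin (n + 1)),
    if_pos (Finset.mem_univ _)]
  have h9 := choose_sum_le n j
  have h10 : (∑ i : Fin (n + 1), ((j : ℕ).choose (i : ℕ) : ℝ)) * (3 ^ n * δ) ≤
      2 ^ n * (3 ^ n * (2 * Y ^ (-lam))) := by
    apply mul_le_mul h9 _ (by positivity) (by positivity)
    exact mul_le_mul_of_nonneg_left hδ2 (by positivity)
  have h11 : (2 : ℝ) ^ n * (3 ^ n * (2 * Y ^ (-lam))) = 2 * 6 ^ n * Y ^ (-lam) := by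
    rw [show (6 : ℝ) = 2 * 3 by norm_num, mul_pow]
    ring
  linarith

end Pool.Agent.MP211V.Pts

namespace Pool.Agent.MP211V

open Polynomial Filter Topology Pts

/-- the half sides of the box -/
noncomputable def Pts.Aj (n : ℕ) (Y θ lam A₀ : ℝ) (j : Fin (n + 1)) : ℝ :=
  if (j : ℕ) = 0 then Y else if (j : ℕ) = 1 then 2 * (Y * θ) else A₀ * Y ^ (-lam)

lemma Pts.prod_Aj (n : ℕ) (Y θ lam A₀ : ℝ) (hn : 2 ≤ n) :
    ∏ j, Pts.Aj n Y θ lam A₀ j = Y * (2 * (Y * θ) * (A₀ * Y ^ (-lam)) ^ (n - 1)) := by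
  obtain ⟨m, rfl⟩ : ∃ m, n = m + 1 := ⟨n - 1, by omega⟩
  rw [Fin.prod_univ_succ, Fin.prod_univ_succ]
  have h1 : ∀ i : Fin m, Pts.Aj (m + 1) Y θ lam A₀ i.succ.succ = A₀ * Y ^ (-lam) := by
    intro i
    simp [Pts.Aj]
  have h2 : Pts.Aj (m + 1) Y θ lam A₀ 0 = Y := by simp [Pts.Aj]
  have h3 : Pts.Aj (m + 1) Y θ lam A₀ (Fin.succ 0) = 2 * (Y * θ) := by simp [Pts.Aj]
  simp only [h1, h2, h3, Finset.prod_const, Finset.card_univ, Fintype.card_fin, Nat.add_sub_cancel]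

theorem vPts (h1 : S_Dual) (h2 : S_Yc) : S_Pts := by
  classical
  intro n lam hn hl0 hl1
  obtain ⟨C, hC, hDual⟩ := h1 (n + 1) (by omega)
  set A₀ : ℝ := 1 + 2 * 6 ^ n with hA₀
  have h6 : (0 : ℝ) < 6 ^ n := by positivity
  have hA₀1 : 1 ≤ A₀ := by linarith
  set A : ℝ := C * (2 * A₀ ^ (n - 1)) + (n + 1) * 2 ^ n with hA
  have hn0 : (0 : ℝ) ≤ n := Nat.cast_nonneg n
  have hpow : (1 : ℝ) ≤ 2 ^ n := one_le_pow₀ (by norm_num)
  have hCA : 0 ≤ C * (2 * A₀ ^ (n - 1)) := by positivity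
  have hA2 : ((n : ℝ) + 1) * 2 ^ n ≤ A := by linarith
  have hA3 : (n : ℝ) + 1 ≤ A := by nlinarith
  have hA1 : 1 ≤ A := by linarith
  have hev : ∀ᶠ Y : ℝ in atTop, 2 ≤ Y ∧ 2 * 6 ^ n ≤ Y * th lam Y := by
    have e1 : Tendsto (fun Y : ℝ => Y ^ ((1 - lam) / 2)) atTop atTop :=
      tendsto_rpow_atTop (by linarith)
    filter_upwards [eventually_ge_atTop 2, e1.eventually_ge_atTop (2 * 6 ^ n)] with Y g1 g2
    refine ⟨g1, g2.trans (le_of_eq ?_)⟩
    have hY0 : 0 < Y := by linarith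
    unfold th
    nth_rewrite 2 [← Real.rpow_one Y]
    rw [← Real.rpow_add hY0]
    congr 1
    ring
  obtain ⟨Y₀, hY₀⟩ := eventually_atTop.1 hev
  refine ⟨A, max Y₀ 1, hA1, le_max_right _ _, ?_⟩
  intro Y ξ₀ S hYY hξ₀ hS
  obtain ⟨hY2, hYθ⟩ := hY₀ Y ((le_max_left _ _).trans hYY)
  have hY0 : 0 < Y := by linarith
  have hY1 : 1 ≤ Y := by linarith
  set θ : ℝ := th lam Y with hθ
  have hθ0 : 0 < θ := Real.rpow_pos_of_pos hY0 _
  have hθ1 : θ ≤ 1 := Real.rpow_le_one_of_one_le_of_nonpos hY1 (by linarith)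
  have hYl : 0 < Y ^ (-lam) := Real.rpow_pos_of_pos hY0 _
  have hYl1 : Y ^ (-lam) ≤ 1 := Real.rpow_le_one_of_one_le_of_nonpos hY1 (by linarith)
  have hYp1 : 1 ≤ Y ^ lam := Real.one_le_rpow hY1 hl0.le
  have hYp : Y ^ lam * Y ^ (-lam) = 1 := by
    rw [← Real.rpow_add hY0]
    simp
  have hYθ2 : Y * θ ^ 2 = Y ^ (-lam) := by
    rw [hθ, th, ← Real.rpow_natCast, ← Real.rpow_mul hY0.le]
    nth_rewrite 1 [← Real.rpow_one Y]
    rw [← Real.rpow_add hY0]
    congr 1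
    push_cast
    ring
  have hθj : ∀ j : ℕ, 2 ≤ j → θ ^ j ≤ θ ^ 2 := fun j hj =>
    pow_le_pow_of_le_one hθ0.le hθ1 hj
  have hAj0 : ∀ j, 0 < Pts.Aj n Y θ lam A₀ j := by
    intro j
    unfold Pts.Aj
    split_ifs <;> positivity
  obtain ⟨M, hM1, hM2⟩ := hDual (BB n ξ₀) (BT n ξ₀) (Pts.Aj n Y θ lam A₀) S (pairing n ξ₀)
    (BT_det n ξ₀) hAj0 (by
      intro x hx j
      obtain ⟨ξ, hξ1, hξ2, hNr⟩ := hS x hx
      have e : ((BB n ξ₀).mulVec fun i => (x i : ℝ)) j = yc n x ξ₀ j := rfl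
      rw [e]
      have hb := yc_bound h2 n Y lam ξ₀ ξ θ x hY2 hl0 hl1 hξ₀ hθ0 hθ1 hξ1 hξ2 hNr j
      unfold Pts.Aj
      split_ifs with hj0 hj1
      · have : j = 0 := Fin.ext hj0
        subst this
        rw [(h2 n x).1 ξ₀]
        exact hNr.2.1
      · rw [hj1, pow_one] at hb
        have : 2 * 6 ^ n * Y ^ (-lam) ≤ 2 * 6 ^ n * 1 :=
          mul_le_mul_of_nonneg_left hYl1 (by positivity)
        linarith
      · have hj2 : 2 ≤ (j : ℕ) := by omega
        have h3 : Y * θ ^ (j : ℕ) ≤ Y ^ (-lam) := by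
          rw [← hYθ2]
          exact mul_le_mul_of_nonneg_left (hθj _ hj2) hY0.le
        have h4 : A₀ * Y ^ (-lam) = Y ^ (-lam) + 2 * 6 ^ n * Y ^ (-lam) := by rw [hA₀]; ring
        linarith)
  refine ⟨M.image (pol n), ?_, ?_⟩
  · intro P hP
    obtain ⟨p, hp, rfl⟩ := Finset.mem_image.1 hP
    have htc : ∀ j : Fin (n + 1), |tc (rp (pol n p)) ξ₀ (j : ℕ)| ≤ 1 / Pts.Aj n Y θ lam A₀ j := by
      intro j
      rw [tc_pol]
      exact hM1 p hp j
    have hinvl : 1 / (A₀ * Y ^ (-lam)) ≤ Y ^ lam := by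
      rw [div_le_iff₀ (by positivity)]
      calc (1 : ℝ) = Y ^ lam * (1 * Y ^ (-lam)) := by rw [one_mul, hYp]
        _ ≤ Y ^ lam * (A₀ * Y ^ (-lam)) := by gcongr
    refine ⟨pol_natDegree n p, ?_, ?_⟩
    · have hall : ∀ j : Fin (n + 1), |((BT n ξ₀).mulVec fun i => (p i : ℝ)) j| ≤ Y ^ lam := by
        intro j
        refine (hM1 p hp j).trans ?_
        unfold Pts.Aj
        split_ifs with hj0 hj1
        · refine le_trans ?_ hYp1
          rw [div_le_one hY0]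
          exact hY1
        · refine le_trans ?_ hYp1
          rw [div_le_one (by positivity)]
          have : (1 : ℝ) ≤ 6 ^ n := one_le_pow₀ (by norm_num)
          linarith
        · exact hinvl
      intro i
      rcases Nat.lt_or_ge i (n + 1) with hi | hi
      · have e0 : (pol n p).coeff i = p ⟨i, hi⟩ := pol_coeff n p ⟨i, hi⟩
        rw [e0, recover n ξ₀ (fun i => (p i : ℝ)) ⟨i, hi⟩]
        refine (Finset.abs_sum_le_sum_abs _ _).trans ?_
        have hterm : ∀ j : Fin (n + 1), |BB n ξ₀ j ⟨i, hi⟩ *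
            ((BT n ξ₀).mulVec fun i => (p i : ℝ)) j| ≤ 2 ^ n * Y ^ lam := by
          intro j
          rw [abs_mul]
          apply mul_le_mul _ (hall j) (abs_nonneg _) (by positivity)
          unfold BB
          rw [abs_mul, Nat.abs_cast, abs_pow, abs_neg]
          have g1 : |ξ₀| ^ ((j : ℕ) - i) ≤ 1 := pow_le_one₀ (abs_nonneg _) hξ₀
          have g2 : ((j : ℕ).choose i : ℝ) ≤ 2 ^ n := by
            refine le_trans ?_ (choose_sum_le n j)
            exact Finset.single_le_sum (f := fun i : Fin (n + 1) => ((j : ℕ).choose (i : ℕ) : ℝ))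
              (fun _ _ => Nat.cast_nonneg _) (Finset.mem_univ ⟨i, hi⟩)
          calc ((j : ℕ).choose i : ℝ) * |ξ₀| ^ ((j : ℕ) - i) ≤ ((j : ℕ).choose i : ℝ) * 1 :=
                mul_le_mul_of_nonneg_left g1 (Nat.cast_nonneg _)
            _ ≤ 2 ^ n := by rw [mul_one]; exact g2
        refine (Finset.sum_le_sum fun j _ => hterm j).trans ?_
        rw [Finset.sum_const, Finset.card_univ, Fintype.card_fin, nsmul_eq_mul, ← mul_assoc]
        push_cast
        exact mul_le_mul_of_nonneg_right hA2 (by positivity)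
      · rw [coeff_eq_zero_of_natDegree_lt (lt_of_le_of_lt (pol_natDegree n p) (by omega))]
        simp only [Int.cast_zero, abs_zero]
        positivity
    · intro ξ hξ1 hξ2
      have e1 : (rp (pol n p)).eval ξ = (taylor ξ₀ (rp (pol n p))).eval (ξ - ξ₀) := by
        rw [taylor_eval]
        ring_nf
      have hdeg : (taylor ξ₀ (rp (pol n p))).natDegree < n + 1 := by
        rw [natDegree_taylor]
        exact lt_of_le_of_lt natDegree_map_le (lt_of_le_of_lt (pol_natDegree n p) (by omega))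
      rw [e1, eval_eq_sum_range' hdeg]
      refine (Finset.abs_sum_le_sum_abs _ _).trans ?_
      have hterm : ∀ j ∈ Finset.range (n + 1),
          |(taylor ξ₀ (rp (pol n p))).coeff j * (ξ - ξ₀) ^ j| ≤ 1 / Y := by
        intro j hj
        rw [Finset.mem_range] at hj
        have g1 : |(taylor ξ₀ (rp (pol n p))).coeff j| ≤ 1 / Pts.Aj n Y θ lam A₀ ⟨j, hj⟩ :=
          htc ⟨j, hj⟩
        have g2 : |ξ - ξ₀| ^ j ≤ θ ^ j := by
          apply pow_le_pow_left₀ (abs_nonneg _)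
          rw [abs_le]; constructor <;> linarith
        rw [abs_mul, abs_pow]
        refine (mul_le_mul g1 g2 (by positivity) (by have := hAj0 ⟨j, hj⟩; positivity)).trans ?_
        unfold Pts.Aj
        simp only
        split_ifs with hj0 hj1
        · rw [hj0, pow_zero, mul_one]
        · rw [hj1, pow_one, div_mul_eq_mul_div, one_mul, div_le_div_iff₀ (by positivity) hY0]
          nlinarith
        · have hj2 : 2 ≤ j := by omega
          calc 1 / (A₀ * Y ^ (-lam)) * θ ^ j ≤ Y ^ lam * θ ^ 2 :=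
                mul_le_mul hinvl (hθj j hj2) (by positivity) (by positivity)
            _ = 1 / Y := by
                rw [eq_div_iff hY0.ne']
                calc Y ^ lam * θ ^ 2 * Y = Y ^ lam * (Y * θ ^ 2) := by ring
                  _ = 1 := by rw [hYθ2, hYp]
      refine (Finset.sum_le_sum hterm).trans ?_
      rw [Finset.sum_const, Finset.card_range, nsmul_eq_mul, mul_one_div]
      push_cast
      gcongr
  · rw [Finset.card_image_of_injective _ (pol_injective n)]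
    refine hM2.trans ?_
    rw [Pts.prod_Aj n Y θ lam A₀ hn]
    apply mul_le_mul_of_nonneg_right _ (Nat.cast_nonneg _)
    have e1 : Y ^ 2 * (Y ^ (-lam)) ^ (n - 1) = Y ^ (2 - ((n : ℝ) - 1) * lam) := by
      rw [← Real.rpow_natCast Y 2, ← Real.rpow_natCast (Y ^ (-lam)) (n - 1), ← Real.rpow_mul hY0.le,
        ← Real.rpow_add hY0]
      congr 1
      rw [Nat.cast_sub (by omega)]
      push_cast
      ring
    calc C * (Y * (2 * (Y * θ) * (A₀ * Y ^ (-lam)) ^ (n - 1)))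
        = C * (2 * A₀ ^ (n - 1)) * ((Y ^ 2 * (Y ^ (-lam)) ^ (n - 1)) * θ) := by
          rw [mul_pow]; ring
      _ = C * (2 * A₀ ^ (n - 1)) * (Y ^ (2 - ((n : ℝ) - 1) * lam) * θ) := by rw [e1]
      _ ≤ A * (Y ^ (2 - ((n : ℝ) - 1) * lam) * θ) := by
          apply mul_le_mul_of_nonneg_right _ (by positivity)
          have : (0 : ℝ) ≤ (n + 1) * 2 ^ n := by positivity
          linarith

end Pool.Agent.MP211V
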