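import Pool.Agent.Lib.MP_211f72_nt.V.Spec

/-!
# MP_211f72_nt, second theorem, module Quad: counting for quadratic polynomials
-/

namespace Pool.Agent.MP211V

open Polynomial Finset

namespace Quad

/-- the Taylor coefficients of a quadratic integer polynomial -/
private lemma taylor_two (P : ℤ[X]) (hd : P.natDegree = 2) (a : ℝ) :
    tc (rp P) a 0 = (P.coeff 2 : ℝ) * a ^ 2 + (P.coeff 1 : ℝ) * a + (P.coeff 0 : ℝ) ∧
      tc (rp P) a 1 = 2 * (P.coeff 2 : ℝ) * a + (P.coeff 1 : ℝ) := by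
  have hP : rp P = C (P.coeff 2 : ℝ) * X ^ 2 + C (P.coeff 1 : ℝ) * X + C (P.coeff 0 : ℝ) := by
    have h1 : P = C (P.coeff 2) * X ^ 2 + C (P.coeff 1) * X + C (P.coeff 0) := by
      have h2 := P.as_sum_range_C_mul_X_pow
      rw [hd] at h2
      rw [Finset.sum_range_succ, Finset.sum_range_succ, Finset.sum_range_succ, Finset.sum_range_zero] at h2
      rw [pow_zero, mul_one, pow_one, zero_add] at h2
      linear_combination h2
    unfold rp
    conv_lhs => rw [h1]
    simp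
  unfold tc
  constructor
  · rw [taylor_coeff_zero, hP]
    simp
  · rw [taylor_coeff_one, hP]
    simp
    ring

/-- the number of integers in a real interval -/
private lemma count_int (x r : ℝ) (hr : 0 ≤ r) : ((Icc ⌈x - r⌉ ⌊x + r⌋).card : ℝ) ≤ 2 * r + 1 := by
  rw [Int.card_Icc]
  by_cases h : 0 ≤ ⌊x + r⌋ + 1 - ⌈x - r⌉
  · have h1 : (((⌊x + r⌋ + 1 - ⌈x - r⌉).toNat : ℕ) : ℝ) = ((⌊x + r⌋ + 1 - ⌈x - r⌉ : ℤ) : ℝ) := by
      have := Int.toNat_of_nonneg h
      exact_mod_cast this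
    rw [h1]
    push_cast
    have h2 := Int.floor_le (x + r)
    have h3 := Int.le_ceil (x - r)
    linarith
  · have h1 : (⌊x + r⌋ + 1 - ⌈x - r⌉).toNat = 0 := Int.toNat_of_nonpos (by omega)
    rw [h1]
    push_cast
    linarith

/-- the index set of the triples -/
private noncomputable def tri (n : ℕ) (D : ℝ) : Finset (Σ _ : ℤ × ℕ × Bool, ℤ) :=
  ((Icc (-(n : ℤ)) n) ×ˢ ((Icc 1 n) ×ˢ (univ : Finset Bool))).sigma
    (fun q => Icc ⌈((q.1 : ℝ) ^ 2 / (4 * (if q.2.2 then (1 : ℝ) else -1) * q.2.1)) - D / (4 * q.2.1)⌉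
      ⌊((q.1 : ℝ) ^ 2 / (4 * (if q.2.2 then (1 : ℝ) else -1) * q.2.1)) + D / (4 * q.2.1)⌋)

private lemma harm (n : ℕ) {h : ℝ} (hh : 1 ≤ h) (hn : (n : ℝ) ≤ h) :
    ∑ k ∈ Icc 1 n, (1 : ℝ) / k ≤ 1 + Real.log h := by
  rcases Nat.eq_zero_or_pos n with h0 | h0
  · subst h0
    have : 0 ≤ Real.log h := Real.log_nonneg hh
    simp
    linarith
  have h1 := harmonic_le_one_add_log n
  rw [harmonic_eq_sum_Icc] at h1
  push_cast at h1
  have h2 : Real.log n ≤ Real.log h := Real.log_le_log (by exact_mod_cast h0) hn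
  have h3 : ∑ k ∈ Icc 1 n, (1 : ℝ) / k = ∑ k ∈ Icc 1 n, ((k : ℝ))⁻¹ := by
    refine sum_congr rfl fun k _ => ?_
    rw [one_div]
  rw [h3]
  linarith

private lemma tri_card (n : ℕ) {h D : ℝ} (hh : 1 ≤ h) (hn : (n : ℝ) ≤ h) (hD : 0 ≤ D) :
    ((tri n D).card : ℝ) ≤ 3 * h * (D * (1 + Real.log h) + 2 * h) := by
  unfold tri
  rw [card_sigma]
  push_cast
  have h1 : ∀ q ∈ (Icc (-(n : ℤ)) n) ×ˢ ((Icc 1 n) ×ˢ (univ : Finset Bool)),
      ((Icc ⌈((q.1 : ℝ) ^ 2 / (4 * (if q.2.2 then (1 : ℝ) else -1) * q.2.1)) - D / (4 * q.2.1)⌉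
      ⌊((q.1 : ℝ) ^ 2 / (4 * (if q.2.2 then (1 : ℝ) else -1) * q.2.1)) + D / (4 * q.2.1)⌋).card : ℝ) ≤
      D / 2 * (1 / (q.2.1 : ℝ)) + 1 := by
    intro q hq
    refine (count_int _ _ (by positivity)).trans (le_of_eq ?_)
    have : D / 2 * (1 / (q.2.1 : ℝ)) = 2 * (D / (4 * q.2.1)) := by
      rw [mem_product, mem_product, mem_Icc] at hq
      have h0 : (q.2.1 : ℝ) ≠ 0 := by
        have : 1 ≤ q.2.1 := (mem_Icc.1 hq.2.1).1
        positivity
      field_simp
      ring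
    rw [this]
  refine (sum_le_sum h1).trans ?_
  rw [sum_product]
  have h2 : ∀ b : ℤ, ∑ y ∈ (Icc 1 n) ×ˢ (univ : Finset Bool), (D / 2 * (1 / ((y.1 : ℕ) : ℝ)) + 1) ≤
      D * (1 + Real.log h) + 2 * h := by
    intro b
    rw [sum_product]
    have h3 : ∀ k ∈ Icc 1 n, ∑ _y ∈ (univ : Finset Bool), (D / 2 * (1 / ((k : ℕ) : ℝ)) + 1) =
        D * (1 / (k : ℝ)) + 2 := by
      intro k _
      rw [sum_const]
      simp
      ring
    rw [sum_congr rfl h3, sum_add_distrib, ← mul_sum, sum_const]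
    simp only [Nat.card_Icc, add_tsub_cancel_right, nsmul_eq_mul]
    have h4 := mul_le_mul_of_nonneg_left (harm n hh hn) hD
    linarith
  refine (sum_le_sum fun b _ => h2 b).trans ?_
  rw [sum_const, nsmul_eq_mul]
  have h5 : ((Icc (-(n : ℤ)) n).card : ℝ) ≤ 3 * h := by
    rw [Int.card_Icc]
    have : ((n : ℤ) + 1 - -(n : ℤ)).toNat = 2 * n + 1 := by omega
    rw [this]
    push_cast
    linarith
  refine mul_le_mul_of_nonneg_right h5 ?_
  have : 0 ≤ Real.log h := Real.log_nonneg hh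
  positivity

end Quad

open Quad in
theorem vQuad (h1 : S_Mar) (h2 : S_MxCard) : S_Quad := by
  classical
  obtain ⟨C0, hC0, hM⟩ := h1 2
  refine ⟨12 * (C0 ^ 2 + 4 * C0) + 24, by nlinarith, ?_⟩
  intro h ω t S hh hω ht ht1 htω hS
  unfold Cls at hS
  choose! P hP using hS
  set n : ℕ := ⌊h⌋₊ with hn
  have hnh : (n : ℝ) ≤ h := Nat.floor_le (by linarith)
  set D : ℝ := (C0 ^ 2 + 4 * C0) * (h ^ 2 * (ω / t) ^ 2) with hD
  have hD0 : 0 ≤ D := by positivity
  have hcoef : ∀ p ∈ S, ∀ i, |(P p).coeff i| ≤ (n : ℤ) := by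
    intro p hp i
    obtain ⟨-, -, hb, -⟩ := hP p hp
    have h3 := hb i
    have h4 : ((|(P p).coeff i| : ℤ) : ℝ) ≤ h := by push_cast; exact h3
    have h5 : (((P p).coeff i).natAbs : ℝ) ≤ h := by
      rw [Nat.cast_natAbs]
      exact h4
    have h7 : ((P p).coeff i).natAbs ≤ n := Nat.le_floor h5
    rw [← Int.natCast_natAbs]
    exact_mod_cast h7
  have hlead : ∀ p ∈ S, (P p).coeff 2 ≠ 0 := by
    intro p hp
    obtain ⟨hi, hd, -⟩ := hP p hp
    have h3 : (P p).leadingCoeff ≠ 0 := leadingCoeff_ne_zero.2 hi.ne_zero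
    rw [leadingCoeff, hd] at h3
    exact h3
  -- the discriminant
  have hdisc : ∀ p ∈ S, |(((P p).coeff 1 : ℝ)) ^ 2 - 4 * ((P p).coeff 2 : ℝ) * ((P p).coeff 0 : ℝ)| ≤ D := by
    intro p hp
    obtain ⟨-, hd, hb, hmx, hl1, -, -⟩ := hP p hp
    obtain ⟨hab, hsl, -⟩ := hmx
    have hdeg : (rp (P p)).natDegree ≤ 2 := by
      unfold rp
      exact (natDegree_map_le).trans hd.le
    have m0 := hM (rp (P p)) (h * ω) p.1 p.2 t p.1 hdeg ht hl1 hsl le_rfl hab.le 0
    have m1 := hM (rp (P p)) (h * ω) p.1 p.2 t p.1 hdeg ht hl1 hsl le_rfl hab.le 1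
    obtain ⟨t0, t1⟩ := taylor_two (P p) hd p.1
    rw [pow_zero, mul_one] at m0
    rw [pow_one] at m1
    rw [t0] at m0
    rw [t1] at m1
    set al : ℝ := ((P p).coeff 2 : ℝ) with hal
    set be : ℝ := ((P p).coeff 1 : ℝ) with hbe
    set ga : ℝ := ((P p).coeff 0 : ℝ) with hga
    have hal1 : |al| ≤ h := hb 2
    have e1 : be ^ 2 - 4 * al * ga = (2 * al * p.1 + be) ^ 2 - 4 * al * (al * p.1 ^ 2 + be * p.1 + ga) := by ring
    have e2 : |2 * al * p.1 + be| ≤ C0 * (h * (ω / t)) := by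
      have : C0 * (h * (ω / t)) = C0 * (h * ω) / t := by ring
      rw [this, le_div_iff₀ ht]
      exact m1
    have e3 : (2 * al * p.1 + be) ^ 2 ≤ C0 ^ 2 * (h ^ 2 * (ω / t) ^ 2) := by
      rw [← sq_abs]
      calc |2 * al * p.1 + be| ^ 2 ≤ (C0 * (h * (ω / t))) ^ 2 := pow_le_pow_left₀ (abs_nonneg _) e2 2
        _ = C0 ^ 2 * (h ^ 2 * (ω / t) ^ 2) := by ring
    have e4 : |4 * al * (al * p.1 ^ 2 + be * p.1 + ga)| ≤ 4 * C0 * (h ^ 2 * (ω / t) ^ 2) := by
      rw [abs_mul, abs_mul, abs_of_nonneg (by norm_num : (0 : ℝ) ≤ 4)]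
      have h3 : ω ≤ (ω / t) ^ 2 := by
        rw [div_pow, le_div_iff₀ (by positivity)]
        nlinarith
      calc 4 * |al| * |al * p.1 ^ 2 + be * p.1 + ga| ≤ 4 * h * (C0 * (h * ω)) :=
            mul_le_mul (by linarith) m0 (abs_nonneg _) (by linarith)
        _ = 4 * C0 * h ^ 2 * ω := by ring
        _ ≤ 4 * C0 * h ^ 2 * (ω / t) ^ 2 := mul_le_mul_of_nonneg_left h3 (by positivity)
        _ = 4 * C0 * (h ^ 2 * (ω / t) ^ 2) := by ring
    rw [e1]
    have e5 := abs_sub ((2 * al * p.1 + be) ^ 2) (4 * al * (al * p.1 ^ 2 + be * p.1 + ga))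
    have e6 : |(2 * al * p.1 + be) ^ 2| = (2 * al * p.1 + be) ^ 2 := abs_of_nonneg (sq_nonneg _)
    rw [e6] at e5
    rw [hD]
    linarith
  -- the map
  set f : ℝ × ℝ → (Σ _ : ℤ × ℕ × Bool, ℤ) := fun p =>
    ⟨((P p).coeff 1, ((P p).coeff 2).natAbs, decide (0 < (P p).coeff 2)), (P p).coeff 0⟩ with hf
  have hmap : ∀ p ∈ S, f p ∈ tri n D := by
    intro p hp
    have c0 := hcoef p hp 1
    have c2 := hcoef p hp 2
    have l2 := hlead p hp
    have dd := hdisc p hp
    unfold tri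
    rw [mem_sigma]
    simp only [hf]
    rw [mem_product, mem_product, mem_Icc, mem_Icc]
    refine ⟨⟨abs_le.1 c0, ⟨⟨?_, ?_⟩, mem_univ _⟩⟩, ?_⟩
    · have := Int.natAbs_pos.2 l2
      exact this
    · rw [← Int.natCast_natAbs] at c2
      exact_mod_cast c2
    · have hk0 : 0 < (((P p).coeff 2).natAbs : ℝ) := by
        have := Int.natAbs_pos.2 l2
        exact_mod_cast this
      have hsg : (if decide (0 < (P p).coeff 2) = true then (1 : ℝ) else -1) * (((P p).coeff 2).natAbs : ℝ) =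
          ((P p).coeff 2 : ℝ) := by
        rcases lt_or_gt_of_ne l2 with hneg | hpos
        · have h3 : decide (0 < (P p).coeff 2) = false := by simp; omega
          rw [h3]
          simp only [Bool.false_eq_true, if_false]
          have h5 : (((P p).coeff 2).natAbs : ℝ) = -((P p).coeff 2 : ℝ) := by
            rw [Nat.cast_natAbs, abs_of_neg hneg]
            push_cast
            ring
          rw [h5]
          ring
        · have h3 : decide (0 < (P p).coeff 2) = true := by simp; omega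
          rw [h3]
          simp only [if_true]
          have h5 : (((P p).coeff 2).natAbs : ℝ) = ((P p).coeff 2 : ℝ) := by
            rw [Nat.cast_natAbs, abs_of_pos hpos]
          rw [h5]
          ring
      have hkabs : |((P p).coeff 2 : ℝ)| = (((P p).coeff 2).natAbs : ℝ) := by
        rw [Nat.cast_natAbs]
        push_cast
        rfl
      have hal0 : ((P p).coeff 2 : ℝ) ≠ 0 := by exact_mod_cast l2
      have key : |((P p).coeff 0 : ℝ) - ((P p).coeff 1 : ℝ) ^ 2 / (4 * ((P p).coeff 2 : ℝ))| ≤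
          D / (4 * (((P p).coeff 2).natAbs : ℝ)) := by
        have h3 : ((P p).coeff 0 : ℝ) - ((P p).coeff 1 : ℝ) ^ 2 / (4 * ((P p).coeff 2 : ℝ)) =
            -(((P p).coeff 1 : ℝ) ^ 2 - 4 * ((P p).coeff 2 : ℝ) * ((P p).coeff 0 : ℝ)) /
              (4 * ((P p).coeff 2 : ℝ)) := by
          field_simp
          ring
        rw [h3, abs_div, abs_neg, abs_mul, hkabs, abs_of_nonneg (by norm_num : (0 : ℝ) ≤ 4)]
        exact div_le_div_of_nonneg_right dd (by positivity)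
      have h6 : 4 * (if decide (0 < (P p).coeff 2) = true then (1 : ℝ) else -1) *
          (((P p).coeff 2).natAbs : ℝ) = 4 * ((P p).coeff 2 : ℝ) := by
        rw [mul_assoc, hsg]
      rw [mem_Icc]
      simp only [h6]
      rw [abs_le] at key
      constructor
      · exact Int.ceil_le.2 (by linarith [key.1])
      · exact Int.le_floor.2 (by linarith [key.2])
  have hfib : ∀ y ∈ tri n D, (S.filter (fun p => f p = y)).card ≤ 4 := by
    intro y _
    rcases (S.filter (fun p => f p = y)).eq_empty_or_nonempty with he | ⟨p0, hp0⟩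
    · rw [he]; simp
    rw [mem_filter] at hp0
    obtain ⟨-, hd0, -⟩ := hP p0 hp0.1
    have heq : ∀ p ∈ S.filter (fun p => f p = y), P p = P p0 := by
      intro p hp
      rw [mem_filter] at hp
      have h3 : f p = f p0 := by rw [hp.2, hp0.2]
      obtain ⟨-, hd, -⟩ := hP p hp.1
      have l2 := hlead p hp.1
      have l20 := hlead p0 hp0.1
      simp only [hf] at h3
      rw [Sigma.mk.injEq] at h3
      obtain ⟨h4, h5⟩ := h3
      rw [Prod.mk.injEq, Prod.mk.injEq] at h4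
      obtain ⟨h6, h7, h8⟩ := h4
      have h5' : (P p).coeff 0 = (P p0).coeff 0 := eq_of_heq h5
      have h9 : (P p).coeff 2 = (P p0).coeff 2 := by
        have h10 : (0 < (P p).coeff 2) ↔ (0 < (P p0).coeff 2) := by
          have := decide_eq_decide.1 h8
          exact this
        omega
      ext i
      rcases Nat.lt_or_ge i 3 with hi | hi
      · interval_cases i
        · exact h5'
        · exact h6
        · exact h9
      · rw [coeff_eq_zero_of_natDegree_lt (by omega), coeff_eq_zero_of_natDegree_lt (by omega)]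
    have hdeg : (rp (P p0)).natDegree = 2 := by
      unfold rp
      rw [natDegree_map_eq_of_injective (RingHom.injective_int _), hd0]
    have h3 := h2 (rp (P p0)) (h * ω) (S.filter (fun p => f p = y)) (by rw [hdeg]; norm_num) (by
      intro p hp
      rw [← heq p hp]
      rw [mem_filter] at hp
      exact (hP p hp.1).2.2.2.1)
    rw [hdeg] at h3
    exact h3
  have hcard : S.card ≤ 4 * (tri n D).card :=
    card_le_mul_card_image_of_maps_to hmap 4 hfib
  have hcard' : (S.card : ℝ) ≤ 4 * ((tri n D).card : ℝ) := by exact_mod_cast hcard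
  have hlog : 0 ≤ Real.log h := Real.log_nonneg hh
  have hfin := tri_card n hh hnh hD0
  have hT0 : 0 ≤ h ^ 2 := by positivity
  calc (S.card : ℝ) ≤ 4 * (3 * h * (D * (1 + Real.log h) + 2 * h)) := by linarith
    _ = 12 * (C0 ^ 2 + 4 * C0) * (1 + Real.log h) * (h ^ 3 * (ω / t) ^ 2) + 24 * h ^ 2 := by
        rw [hD]
        ring
    _ ≤ 12 * (C0 ^ 2 + 4 * C0) * (1 + Real.log h) * (h ^ 2 + h ^ 3 * (ω / t) ^ 2) +
        24 * (1 + Real.log h) * (h ^ 2 + h ^ 3 * (ω / t) ^ 2) := by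
        have h3 : 12 * (C0 ^ 2 + 4 * C0) * (1 + Real.log h) * (h ^ 3 * (ω / t) ^ 2) ≤
            12 * (C0 ^ 2 + 4 * C0) * (1 + Real.log h) * (h ^ 2 + h ^ 3 * (ω / t) ^ 2) :=
          mul_le_mul_of_nonneg_left (by linarith) (by positivity)
        have h4 : 24 * h ^ 2 ≤ 24 * (1 + Real.log h) * (h ^ 2 + h ^ 3 * (ω / t) ^ 2) := by
          have h5 : h ^ 2 ≤ h ^ 2 + h ^ 3 * (ω / t) ^ 2 := by
            have : 0 ≤ h ^ 3 * (ω / t) ^ 2 := by positivity
            linarith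
          have h6 : 0 ≤ h ^ 2 + h ^ 3 * (ω / t) ^ 2 := by positivity
          nlinarith
        linarith
    _ = (12 * (C0 ^ 2 + 4 * C0) + 24) * (1 + Real.log h) * (h ^ 2 + h ^ 3 * (ω / t) ^ 2) := by ring

end Pool.Agent.MP211V
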