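import Pool.Agent.Lib.MP_211f72_nt.V.Spec

/-!
# MP_211f72_nt, module `R1`: the resultant of two different irreducible integer polynomials
-/

namespace Pool.Agent.MP211V

open Polynomial

/-- **R1.** -/
theorem vR1 : S_R1 := by
  intro d P Q hd hP hQ hPd hQd h1 h2
  have hPn : P.natDegree ≠ 0 := by omega
  have hQn : Q.natDegree ≠ 0 := by omega
  have hPp : P.IsPrimitive := hP.isPrimitive hPn
  have hQp : Q.IsPrimitive := hQ.isPrimitive hQn
  have hPi : Irreducible (P.map (Int.castRingHom ℚ)) :=
    (IsPrimitive.Int.irreducible_iff_irreducible_map_cast hPp).mp hP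
  have hnd : ¬ (P.map (Int.castRingHom ℚ)) ∣ (Q.map (Int.castRingHom ℚ)) := by
    intro h
    have h3 : P ∣ Q := (IsPrimitive.Int.dvd_iff_map_cast_dvd_map_cast P Q hPp).mpr h
    have h4 : Associated P Q := Irreducible.associated_of_dvd hP hQ h3
    obtain ⟨u, hu⟩ := h4
    obtain ⟨c, hc, hcu⟩ := Polynomial.isUnit_iff.mp u.isUnit
    rcases Int.isUnit_iff.mp hc with h5 | h5
    · apply h1
      rw [← hu, ← hcu, h5]
      simp
    · apply h2
      rw [← hu, ← hcu, h5]
      simp
  have hco : IsCoprime (P.map (Int.castRingHom ℚ)) (Q.map (Int.castRingHom ℚ)) :=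
    hPi.coprime_iff_not_dvd.mpr hnd
  have hinj : Function.Injective (Int.castRingHom ℚ) := Int.cast_injective
  have hres := resultant_ne_zero _ _ hco
  rw [natDegree_map_eq_of_injective hinj, natDegree_map_eq_of_injective hinj, hPd, hQd,
    resultant_map_map] at hres
  have hz : resultant P Q d d ≠ 0 := by
    intro h
    apply hres
    rw [h]
    simp
  have hr : resultant (rp P) (rp Q) d d = ((resultant P Q d d : ℤ) : ℝ) := by
    unfold rp
    rw [resultant_map_map]
    simp
  rw [hr, ← Int.cast_abs]
  exact_mod_cast Int.one_le_abs hz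

end Pool.Agent.MP211V
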