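import Pool.Agent.Lib.MP_211f72_nt.V.Spec

/-! # MP_211f72_nt, V: bad caps (`Red`) -/

namespace Pool.Agent.MP211V.Red

open Polynomial Filter Topology

/-- the finite set of the intervals of a class -/
lemma class_finite (h6 : S_Count) (d : ℕ) (hd : 1 ≤ d) (h c t : ℝ) (hh : 1 ≤ h) (hc : 0 < c)
    (ht : 0 < t) (ht1 : t ≤ 1) : {p : ℝ × ℝ | Cls d h c t p.1 p.2}.Finite := by
  obtain ⟨C, hC, hcount⟩ := h6 d hd
  by_contra hinf
  have hinf' : {p : ℝ × ℝ | Cls d h c t p.1 p.2}.Infinite := hinf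
  obtain ⟨S, hS, hcard⟩ := hinf'.exists_subset_card_eq (⌊C * h ^ (d + 1)⌋₊ + 1)
  have hne : h ≠ 0 := by linarith
  have h1 := (hcount h (c / h) t S hh (by positivity) ht ht1 (fun p hp => by
    have := hS hp
    have e : h * (c / h) = c := by field_simp
    rw [e]
    exact this)).1
  rw [hcard] at h1
  have h2 := Nat.lt_floor_add_one (C * h ^ (d + 1))
  push_cast at h1
  linarith

lemma sum_biUnion_le {ι : Type*} [DecidableEq ι] (I : Finset ι) (T : ι → Finset (ℝ × ℝ))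
    (f : ℝ × ℝ → ℝ) (hf : ∀ i ∈ I, ∀ p ∈ T i, 0 ≤ f p) (c : ℝ) (hc : ∀ i ∈ I, ∑ p ∈ T i, f p ≤ c) :
    ∑ p ∈ I.biUnion T, f p ≤ I.card * c := by
  classical
  induction I using Finset.induction_on with
  | empty => simp
  | insert i I hi ih =>
    have ih' := ih (fun j hj => hf j (Finset.mem_insert_of_mem hj))
      (fun j hj => hc j (Finset.mem_insert_of_mem hj))
    rw [Finset.biUnion_insert, Finset.card_insert_of_notMem hi]
    have h1 := Finset.sum_union_inter (s₁ := T i) (s₂ := I.biUnion T) (f := f)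
    have h2 : 0 ≤ ∑ p ∈ T i ∩ I.biUnion T, f p := Finset.sum_nonneg (fun p hp =>
      hf i (Finset.mem_insert_self _ _) p (Finset.mem_inter.1 hp).1)
    have h3 := hc i (Finset.mem_insert_self _ _)
    push_cast
    linarith

/-- polynomial growth of the number of classes -/
lemma growth (K c : ℝ) (hK : 0 ≤ K) (hc : 0 < c) :
    ∀ᶠ Y : ℝ in atTop, K * (1 + Real.log Y) ^ 3 * Y ^ (-c) ≤ Y ^ (-(c / 2)) := by
  have h1 : ∀ᶠ Y : ℝ in atTop, 1 ≤ Y := eventually_ge_atTop 1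
  have h2 : Tendsto (fun Y : ℝ => Y ^ (c / 4)) atTop atTop := tendsto_rpow_atTop (by positivity)
  have h3 : ∀ᶠ Y : ℝ in atTop, K * (1 + 1 / (c / 12)) ^ 3 ≤ Y ^ (c / 4) :=
    h2.eventually_ge_atTop _
  filter_upwards [h1, h3] with Y hY hY3
  have hY0 : 0 < Y := by linarith
  have hl0 : 0 ≤ Real.log Y := Real.log_nonneg hY
  have hl : Real.log Y ≤ Y ^ (c / 12) / (c / 12) := Real.log_le_rpow_div hY0.le (by positivity)
  have hp1 : 1 ≤ Y ^ (c / 12) := Real.one_le_rpow hY (by positivity)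
  have hb : 1 + Real.log Y ≤ (1 + 1 / (c / 12)) * Y ^ (c / 12) := by
    have : (1 + 1 / (c / 12)) * Y ^ (c / 12) = Y ^ (c / 12) + Y ^ (c / 12) / (c / 12) := by
      field_simp
    rw [this]; linarith
  have hb3 : (1 + Real.log Y) ^ 3 ≤ ((1 + 1 / (c / 12)) * Y ^ (c / 12)) ^ 3 :=
    pow_le_pow_left₀ (by linarith) hb 3
  have e1 : (Y ^ (c / 12)) ^ 3 = Y ^ (c / 4) := by
    rw [← Real.rpow_natCast, ← Real.rpow_mul hY0.le]
    congr 1
    push_cast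
    ring
  rw [mul_pow, e1] at hb3
  have hpc : 0 < Y ^ (-c) := Real.rpow_pos_of_pos hY0 _
  calc K * (1 + Real.log Y) ^ 3 * Y ^ (-c)
      ≤ K * ((1 + 1 / (c / 12)) ^ 3 * Y ^ (c / 4)) * Y ^ (-c) := by
        apply mul_le_mul_of_nonneg_right _ hpc.le
        exact mul_le_mul_of_nonneg_left hb3 hK
    _ = (K * (1 + 1 / (c / 12)) ^ 3) * (Y ^ (c / 4) * Y ^ (-c)) := by ring
    _ ≤ Y ^ (c / 4) * (Y ^ (c / 4) * Y ^ (-c)) := by
        apply mul_le_mul_of_nonneg_right hY3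
        positivity
    _ = Y ^ (-(c / 2)) := by
        rw [← Real.rpow_add hY0, ← Real.rpow_add hY0]
        congr 1
        ring

lemma rp_natDegree (P : ℤ[X]) : (rp P).natDegree = P.natDegree :=
  natDegree_map_eq_of_injective (RingHom.injective_int (Int.castRingHom ℝ)) P

lemma rp_coeff (P : ℤ[X]) (i : ℕ) : (rp P).coeff i = ((P.coeff i : ℤ) : ℝ) := by
  simp [rp]

lemma rp_C_mul_prod {r : ℕ} (k : ℤ) (F : Fin r → ℤ[X]) :
    rp (C k * ∏ i, F i) = C (k : ℝ) * ∏ i, rp (F i) := by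
  simp [rp, Polynomial.map_mul, Polynomial.map_prod]

/-- the product of the factors is small where `P` is -/
lemma sl_prod {r : ℕ} (P : ℤ[X]) (k : ℤ) (F : Fin r → ℤ[X]) (hk : k ≠ 0)
    (hP : P = C k * ∏ i, F i) (c a b : ℝ) (h : Sl (rp P) c a b) :
    Sl (∏ i, rp (F i)) c a b := by
  intro x hx1 hx2
  have h1 := h x hx1 hx2
  rw [hP, rp_C_mul_prod, eval_mul, eval_C, abs_mul] at h1
  have hk1 : (1 : ℝ) ≤ |(k : ℝ)| := by
    exact_mod_cast Int.one_le_abs hk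
  have h2 := abs_nonneg ((∏ i, rp (F i)).eval x)
  exact (le_mul_of_one_le_left h2 hk1).trans h1

/-- bound for the values from the coefficients -/
lemma eval_bound (P : ℤ[X]) (n : ℕ) (h R x : ℝ) (hn : P.natDegree ≤ n) (hh : Hb P h) (hR : 1 ≤ R)
    (hx : |x| ≤ R) : |(rp P).eval x| ≤ (n + 1) * R ^ n * h := by
  have h0 : 0 ≤ h := (abs_nonneg _).trans (hh 0)
  rw [eval_eq_sum_range' (n := n + 1) (by rw [rp_natDegree]; omega)]
  refine (Finset.abs_sum_le_sum_abs _ _).trans ?_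
  have : ∀ i ∈ Finset.range (n + 1), |(rp P).coeff i * x ^ i| ≤ R ^ n * h := by
    intro i hi
    rw [Finset.mem_range] at hi
    rw [abs_mul, abs_pow, rp_coeff]
    have h1 : |x| ^ i ≤ R ^ n :=
      (pow_le_pow_left₀ (abs_nonneg x) hx i).trans (pow_le_pow_right₀ hR (by omega))
    calc |((P.coeff i : ℤ) : ℝ)| * |x| ^ i ≤ h * R ^ n :=
          mul_le_mul (hh i) h1 (by positivity) h0
      _ = R ^ n * h := by ring
  refine (Finset.sum_le_sum this).trans ?_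
  rw [Finset.sum_const, Finset.card_range, nsmul_eq_mul]
  push_cast
  linarith

/-- dyadic height -/
lemma exists_height (F : ℤ[X]) (hF : F ≠ 0) : ∃ u : ℕ, Hb F (2 ^ u) ∧
    ∃ j : ℕ, (2 : ℝ) ^ u ≤ 2 * |((F.coeff j : ℤ) : ℝ)| := by
  classical
  have hex : ∃ u : ℕ, Hb F (2 ^ u) := by
    obtain ⟨u, hu⟩ := pow_unbounded_of_one_lt
      (∑ i ∈ Finset.range (F.natDegree + 1), |((F.coeff i : ℤ) : ℝ)|) (one_lt_two (α := ℝ))
    refine ⟨u, fun i => ?_⟩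
    rcases Nat.lt_or_ge i (F.natDegree + 1) with hi | hi
    · refine le_trans ?_ hu.le
      exact Finset.single_le_sum (f := fun i => |((F.coeff i : ℤ) : ℝ)|)
        (fun j _ => abs_nonneg _) (Finset.mem_range.2 hi)
    · rw [coeff_eq_zero_of_natDegree_lt (by omega)]
      simp
  obtain ⟨u, hu1, hu2⟩ : ∃ u, Hb F (2 ^ u) ∧ ∀ m < u, ¬ Hb F (2 ^ m) :=
    ⟨Nat.find hex, Nat.find_spec hex, fun m hm => Nat.find_min hex hm⟩
  refine ⟨u, hu1, ?_⟩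
  rcases Nat.eq_zero_or_pos u with h0 | h0
  · refine ⟨F.natDegree, ?_⟩
    rw [h0, pow_zero]
    have h1 : F.coeff F.natDegree ≠ 0 := by
      rw [coeff_natDegree]
      exact leadingCoeff_ne_zero.2 hF
    have h2 : (1 : ℝ) ≤ |((F.coeff F.natDegree : ℤ) : ℝ)| := by
      exact_mod_cast Int.one_le_abs h1
    linarith
  · have h1 := hu2 (u - 1) (by omega)
    unfold Hb at h1
    push Not at h1
    obtain ⟨j, hj⟩ := h1
    refine ⟨j, ?_⟩
    obtain ⟨v, rfl⟩ : ∃ v, u = v + 1 := ⟨u - 1, by omega⟩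
    rw [Nat.add_sub_cancel] at hj
    rw [pow_succ]
    linarith

/-- the cover by the intervals of the cheap classes -/
lemma cover (h6 : S_Count) (n Ub Vb Lb : ℕ) (θ τ s' c₀ : ℝ) (hθ : 0 < θ) (hτ : τ ≤ 1)
    (hs' : 0 < s') (hc₀ : 0 ≤ c₀) : ∃ T : Finset (ℝ × ℝ), (∀ p ∈ T, θ / 2 ≤ p.2) ∧
      ∑ p ∈ T, p.2 ^ s' ≤ (((n + 1) * ((Ub + 1) * ((2 * Vb + 1) * (Lb + 1))) : ℕ) : ℝ) * c₀ ∧
      ∀ (d u l : ℕ) (v : ℤ), 1 ≤ d → d ≤ n → u ≤ Ub → |v| ≤ (Vb : ℤ) → l ≤ Lb → θ * 2 ^ l ≤ τ →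
        ∃ S : Finset (ℝ × ℝ), (∀ p, p ∈ S ↔ Cls d (2 ^ u) ((2 : ℝ) ^ v) (θ * 2 ^ l) p.1 p.2) ∧
          ((∀ p ∈ S, ((p.1 + p.2) / 2, (p.2 - p.1) / 2) ∈ T) ∨
            c₀ < S.card * (θ * 2 ^ l) ^ s') := by
  classical
  have hfin : ∀ i : ℕ × ℕ × ℤ × ℕ, (1 ≤ i.1 ∧ θ * 2 ^ i.2.2.2 ≤ τ) →
      {p : ℝ × ℝ | Cls i.1 (2 ^ i.2.1) ((2 : ℝ) ^ i.2.2.1) (θ * 2 ^ i.2.2.2) p.1 p.2}.Finite := by
    intro i hi
    exact class_finite h6 i.1 hi.1 _ _ _ (one_le_pow₀ (by norm_num)) (by positivity)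
      (by positivity) (hi.2.trans hτ)
  let clsF : ℕ × ℕ × ℤ × ℕ → Finset (ℝ × ℝ) := fun i =>
    if hv : (1 ≤ i.1 ∧ θ * 2 ^ i.2.2.2 ≤ τ) then (hfin i hv).toFinset else ∅
  have hcls : ∀ i : ℕ × ℕ × ℤ × ℕ, (1 ≤ i.1 ∧ θ * 2 ^ i.2.2.2 ≤ τ) → ∀ p, p ∈ clsF i ↔
      Cls i.1 (2 ^ i.2.1) ((2 : ℝ) ^ i.2.2.1) (θ * 2 ^ i.2.2.2) p.1 p.2 := by
    intro i hi p
    simp only [clsF, dif_pos hi, Set.Finite.mem_toFinset, Set.mem_ofPred_eq]
  have hcls' : ∀ i : ℕ × ℕ × ℤ × ℕ, ∀ p ∈ clsF i, Cls i.1 (2 ^ i.2.1) ((2 : ℝ) ^ i.2.2.1)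
      (θ * 2 ^ i.2.2.2) p.1 p.2 := by
    intro i p hp
    by_cases hi : (1 ≤ i.1 ∧ θ * 2 ^ i.2.2.2 ≤ τ)
    · exact (hcls i hi p).1 hp
    · simp only [clsF, dif_neg hi] at hp
      simp at hp
  let I : Finset (ℕ × ℕ × ℤ × ℕ) := Finset.range (n + 1) ×ˢ (Finset.range (Ub + 1) ×ˢ
    (Finset.Icc (-(Vb : ℤ)) Vb ×ˢ Finset.range (Lb + 1)))
  have hIcard : I.card = (n + 1) * ((Ub + 1) * ((2 * Vb + 1) * (Lb + 1))) := by
    simp only [I, Finset.card_product, Finset.card_range, Int.card_Icc]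
    have : ((Vb : ℤ) + 1 - -(Vb : ℤ)).toNat = 2 * Vb + 1 := by omega
    rw [this]
  let T : ℕ × ℕ × ℤ × ℕ → Finset (ℝ × ℝ) := fun i =>
    if ((clsF i).card : ℝ) * (θ * 2 ^ i.2.2.2) ^ s' ≤ c₀ then
      (clsF i).image (fun p => ((p.1 + p.2) / 2, (p.2 - p.1) / 2)) else ∅
  have hTmem : ∀ i, ∀ q ∈ T i, ∃ p ∈ clsF i, q = ((p.1 + p.2) / 2, (p.2 - p.1) / 2) := by
    intro i q hq
    by_cases hi : ((clsF i).card : ℝ) * (θ * 2 ^ i.2.2.2) ^ s' ≤ c₀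
    · simp only [T, if_pos hi, Finset.mem_image] at hq
      obtain ⟨p, hp, rfl⟩ := hq
      exact ⟨p, hp, rfl⟩
    · simp only [T, if_neg hi] at hq
      simp at hq
  have hTrad : ∀ i, ∀ q ∈ T i, θ / 2 ≤ q.2 ∧ q.2 ≤ θ * 2 ^ i.2.2.2 := by
    intro i q hq
    obtain ⟨p, hp, rfl⟩ := hTmem i q hq
    obtain ⟨P, _, _, _, _, h1, h2, _⟩ := hcls' i p hp
    have h3 : θ ≤ θ * 2 ^ i.2.2.2 := by
      have : (1 : ℝ) ≤ 2 ^ i.2.2.2 := one_le_pow₀ (by norm_num)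
      nlinarith
    simp only
    constructor <;> linarith
  refine ⟨I.biUnion T, ?_, ?_, ?_⟩
  · intro q hq
    obtain ⟨i, _, hq⟩ := Finset.mem_biUnion.1 hq
    exact (hTrad i q hq).1
  · rw [← hIcard]
    apply sum_biUnion_le
    · intro i _ q hq
      exact Real.rpow_nonneg (by linarith [(hTrad i q hq).1]) _
    · intro i _
      by_cases hi : ((clsF i).card : ℝ) * (θ * 2 ^ i.2.2.2) ^ s' ≤ c₀
      · have h1 : ∀ q ∈ T i, q.2 ^ s' ≤ (θ * 2 ^ i.2.2.2) ^ s' := by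
          intro q hq
          exact Real.rpow_le_rpow (by linarith [(hTrad i q hq).1]) (hTrad i q hq).2 hs'.le
        refine (Finset.sum_le_card_nsmul _ _ _ h1).trans ?_
        rw [nsmul_eq_mul]
        have h2 : (T i).card ≤ (clsF i).card := by
          simp only [T, if_pos hi]
          exact Finset.card_image_le
        refine le_trans ?_ hi
        apply mul_le_mul_of_nonneg_right
        · exact_mod_cast h2
        · positivity
      · have : T i = ∅ := by simp only [T, if_neg hi]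
        rw [this, Finset.sum_empty]
        exact hc₀
  · intro d u l v hd hdn hu hv hl hlt
    have hval : (1 ≤ ((d, u, v, l) : ℕ × ℕ × ℤ × ℕ).1 ∧
        θ * 2 ^ ((d, u, v, l) : ℕ × ℕ × ℤ × ℕ).2.2.2 ≤ τ) := ⟨hd, hlt⟩
    refine ⟨clsF (d, u, v, l), hcls (d, u, v, l) hval, ?_⟩
    by_cases hi : ((clsF (d, u, v, l)).card : ℝ) * (θ * 2 ^ l) ^ s' ≤ c₀
    · left
      intro p hp
      rw [Finset.mem_biUnion]
      refine ⟨(d, u, v, l), ?_, ?_⟩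
      · simp only [I, Finset.mem_product, Finset.mem_range, Finset.mem_Icc]
        rw [abs_le] at hv
        omega
      · simp only [T]
        rw [if_pos hi]
        exact Finset.mem_image.2 ⟨p, hp, rfl⟩
    · right
      exact not_le.1 hi

/-- one factor: long interval or a member of a class -/
lemma factor_step (h2 : S_Int) (h3 : S_MxEx) (d : ℕ) (hd : 1 ≤ d) : ∃ CI : ℝ, 1 ≤ CI ∧
    ∀ (F : ℤ[X]) (u : ℕ) (c a θ τ : ℝ), Irreducible F → F.natDegree = d → Hb F (2 ^ u) →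
      (∃ j : ℕ, (2 : ℝ) ^ u ≤ 2 * |((F.coeff j : ℤ) : ℝ)|) → 0 ≤ a → a ≤ 1 → 0 < θ → θ ≤ 1 →
      0 < τ → τ ≤ 1 → Sl (rp F) c a (a + θ) →
      θ ^ d ≤ CI * c ∧
      ((2 : ℝ) ^ u * τ ^ d ≤ 2 * CI * c ∨
        ∃ (l : ℕ) (a' b' : ℝ), θ * 2 ^ l ≤ τ ∧ Cls d (2 ^ u) c (θ * 2 ^ l) a' b' ∧ a' ≤ a ∧
          a + θ ≤ b' ∧ (2 : ℝ) ^ u * (θ * 2 ^ l) ^ d ≤ 2 * CI * c) := by
  obtain ⟨CI, hCI, hInt⟩ := h2 d
  refine ⟨CI, hCI, ?_⟩
  intro F u c a θ τ hirr hdeg hHb ⟨j, hj⟩ ha0 ha1 hθ hθ1 hτ hτ1 hsl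
  have hF0 : F ≠ 0 := hirr.ne_zero
  constructor
  · exact (hInt F c a (a + θ) θ hdeg hF0 hθ hθ1 (by linarith) (by rw [abs_le]; constructor <;> linarith)
      hsl).2
  obtain ⟨a', b', ha', hb', hMx⟩ := h3 (rp F) c a (a + θ) (by rw [rp_natDegree]; omega)
    (by linarith) hsl
  have hMx' := hMx
  obtain ⟨hab, hslJ, -⟩ := hMx
  have key : ∀ (α t : ℝ), 0 < t → t ≤ 1 → a' ≤ α → α + t ≤ b' → |α| ≤ 3 →
      (2 : ℝ) ^ u * t ^ d ≤ 2 * CI * c := by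
    intro α t ht ht1 h1 h2 h3
    have hs : Sl (rp F) c α (α + t) := fun x hx1 hx2 => hslJ x (by linarith) (by linarith)
    have := (hInt F c α (α + t) t hdeg hF0 ht ht1 (by linarith) h3 hs).1 j
    have htd : 0 < t ^ d := by positivity
    calc (2 : ℝ) ^ u * t ^ d ≤ (2 * |((F.coeff j : ℤ) : ℝ)|) * t ^ d :=
          mul_le_mul_of_nonneg_right hj htd.le
      _ = 2 * (|((F.coeff j : ℤ) : ℝ)| * t ^ d) := by ring
      _ ≤ 2 * (CI * c) := by linarith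
      _ = 2 * CI * c := by ring
  rcases lt_or_ge τ (b' - a') with hlong | hshort
  · left
    rcases le_or_gt (a + τ) b' with h | h
    · exact key a τ hτ hτ1 ha' h (by rw [abs_le]; constructor <;> linarith)
    · exact key (b' - τ) τ hτ hτ1 (by linarith) (by linarith)
        (by rw [abs_le]; constructor <;> linarith)
  · right
    have hx : 1 ≤ (b' - a') / θ := by
      rw [le_div_iff₀ hθ]
      linarith
    obtain ⟨l, hl1, hl2⟩ := exists_nat_pow_near hx (one_lt_two (α := ℝ))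
    rw [le_div_iff₀ hθ] at hl1
    rw [div_lt_iff₀ hθ, pow_succ] at hl2
    have e1 : θ * 2 ^ l ≤ b' - a' := by linarith
    have e2 : b' - a' ≤ 2 * (θ * 2 ^ l) := by nlinarith
    have ht0 : 0 < θ * 2 ^ l := by positivity
    refine ⟨l, a', b', by linarith, ⟨F, hirr, hdeg, hHb, hMx', e1, e2, ?_⟩, ha', hb', ?_⟩
    · rw [abs_le]; constructor <;> linarith
    · exact key a' (θ * 2 ^ l) ht0 (by linarith) le_rfl (by linarith)
        (by rw [abs_le]; constructor <;> linarith)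

/-- elementary facts on the parameters -/
lemma param (n : ℕ) (lam : ℝ) (hn : 4 ≤ n) (h1 : 1 / (n : ℝ) < lam)
    (h2 : lam < 1 / ((n : ℝ) - 1)) :
    0 < lam ∧ lam < 1 ∧ 0 < sdim n lam ∧ sdim n lam ≤ 1 := by
  have hn' : (4 : ℝ) ≤ n := by exact_mod_cast hn
  have hn0 : (0 : ℝ) < n := by linarith
  have hn1 : (0 : ℝ) < (n : ℝ) - 1 := by linarith
  have hl0 : 0 < lam := lt_trans (by positivity) h1
  rw [div_lt_iff₀ hn0] at h1
  rw [lt_div_iff₀ hn1] at h2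
  have hl1 : lam < 1 := by nlinarith
  refine ⟨hl0, hl1, ?_, ?_⟩
  · unfold sdim
    apply div_pos <;> nlinarith
  · unfold sdim
    rw [div_le_one (by linarith)]
    nlinarith

lemma th_facts (lam Y : ℝ) (h0 : 0 < lam) (h1 : lam < 1) (hY : 1 ≤ Y) :
    0 < th lam Y ∧ th lam Y ≤ 1 ∧ Y⁻¹ ≤ th lam Y ∧
      Real.log (th lam Y) = -((1 + lam) / 2 * Real.log Y) := by
  have hY0 : 0 < Y := by linarith
  unfold th
  refine ⟨Real.rpow_pos_of_pos hY0 _, Real.rpow_le_one_of_one_le_of_nonpos hY (by linarith), ?_, ?_⟩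
  · rw [← Real.rpow_neg_one]
    exact Real.rpow_le_rpow_of_exponent_le hY (by linarith)
  · rw [Real.log_rpow hY0]
    ring

/-- every factor has degree at most `n - 1` -/
lemma deg_le (n : ℕ) (P : ℤ[X]) (k : ℤ) (r : ℕ) (F : Fin r → ℤ[X]) (hPF : P = C k * ∏ i, F i)
    (hirr : ∀ i, Irreducible (F i)) (hFd : ∀ i, 1 ≤ (F i).natDegree)
    (hsum : ∑ i, (F i).natDegree ≤ n)
    (hPn : ¬ ∃ (k : ℤ) (Q : ℤ[X]), P = C k * Q ∧ Irreducible Q ∧ Q.natDegree = n) (i : Fin r) :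
    (F i).natDegree ≤ n - 1 := by
  by_contra hcon
  have h1 : n ≤ (F i).natDegree := by omega
  have h2 : ∀ j, j = i := by
    intro j
    by_contra hj
    have h3 : (F i).natDegree + (F j).natDegree ≤ ∑ i, (F i).natDegree := by
      have h4 : ∑ x ∈ ({i, j} : Finset (Fin r)), (F x).natDegree ≤ ∑ i, (F i).natDegree :=
        Finset.sum_le_sum_of_subset (Finset.subset_univ _)
      rw [Finset.sum_pair (fun h => hj h.symm)] at h4
      exact h4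
    have := hFd j
    omega
  have h3 : ∏ j, F j = F i := by
    have hu : (Finset.univ : Finset (Fin r)) = {i} := by
      ext j
      simp [h2 j]
    rw [hu, Finset.prod_singleton]
  have h4 : (F i).natDegree ≤ ∑ i, (F i).natDegree :=
    Finset.single_le_sum (f := fun i => (F i).natDegree) (fun _ _ => Nat.zero_le _)
      (Finset.mem_univ i)
  exact hPn ⟨k, F i, by rw [hPF, h3], hirr i, by omega⟩

lemma exists_zpow (m : ℝ) (hm : 0 < m) : ∃ v : ℤ, m ≤ (2 : ℝ) ^ v ∧ (2 : ℝ) ^ v ≤ 2 * m := by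
  obtain ⟨v, hv⟩ := exists_mem_Ioc_zpow hm (one_lt_two (α := ℝ))
  refine ⟨v + 1, hv.2, ?_⟩
  rw [zpow_add_one₀ (by norm_num)]
  linarith [hv.1]

lemma logpow (l : ℕ) (x : ℝ) (h : (2 : ℝ) ^ l ≤ x) :
    l ≤ ⌊2 * Real.log x⌋₊ := by
  apply Nat.le_floor
  have h1 := Real.log_le_log (by positivity) h
  rw [Real.log_pow] at h1
  have h2 := Real.log_two_gt_d9
  have h3 : (0 : ℝ) ≤ l := Nat.cast_nonneg l
  nlinarith

/-- the counting constants -/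
lemma card_bound (n : ℕ) (L : ℝ) (hL : 0 ≤ L) :
    (((n + 1) * ((⌊2 * L⌋₊ + 1) * ((2 * ⌊2 * ((n : ℝ) + 1) * L⌋₊ + 1) * (⌊2 * L⌋₊ + 1))) : ℕ) : ℝ)
      ≤ (16 * ((n : ℝ) + 1) ^ 2) * (1 + L) ^ 3 := by
  have h1 : (⌊2 * L⌋₊ : ℝ) + 1 ≤ 2 * (1 + L) := by
    have := Nat.floor_le (show 0 ≤ 2 * L by positivity)
    linarith
  have h2 : 2 * (⌊2 * ((n : ℝ) + 1) * L⌋₊ : ℝ) + 1 ≤ 4 * ((n : ℝ) + 1) * (1 + L) := by
    have := Nat.floor_le (show 0 ≤ 2 * ((n : ℝ) + 1) * L by positivity)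
    have hn : (0 : ℝ) ≤ n := Nat.cast_nonneg n
    nlinarith
  push_cast
  have h3 : (0 : ℝ) ≤ (⌊2 * L⌋₊ : ℝ) := Nat.cast_nonneg _
  have h4 : (0 : ℝ) ≤ (⌊2 * ((n : ℝ) + 1) * L⌋₊ : ℝ) := Nat.cast_nonneg _
  calc ((n : ℝ) + 1) * (((⌊2 * L⌋₊ : ℝ) + 1) * ((2 * (⌊2 * ((n : ℝ) + 1) * L⌋₊ : ℝ) + 1) *
        ((⌊2 * L⌋₊ : ℝ) + 1)))
      ≤ ((n : ℝ) + 1) * ((2 * (1 + L)) * ((4 * ((n : ℝ) + 1) * (1 + L)) * (2 * (1 + L)))) := by
        gcongr
    _ = (16 * ((n : ℝ) + 1) ^ 2) * (1 + L) ^ 3 := by ring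

/-- the inequalities for one factor -/
lemma factor_ineq (n d u : ℕ) (v : ℤ) (lam s Y θ τ a ξ ε₀ ε₁ K₁ K₃ K s' c₀ CI : ℝ)
    (T : Finset (ℝ × ℝ)) (hd1 : 1 ≤ d) (hdn : d ≤ n) (hY1 : 1 ≤ Y) (hL0 : 0 ≤ Real.log Y)
    (hlam : 0 < lam) (hτ0 : 0 < τ) (hθ0 : 0 < θ) (hθY : Y⁻¹ ≤ θ) (hθlog : Real.log θ = -((1 + lam) / 2 * Real.log Y)) (hτ1 : τ ≤ 1)
    (hτlog : Real.log τ = -(ε₁ * Real.log Y)) (hε₀ : 0 < ε₀) (hε₁ : 0 < ε₁)
    (hε₁n : (n : ℝ) * ε₁ ≤ ε₀) (hK₁ : 1 ≤ K₁) (hKK₁ : K₁ ≤ K) (hKK₃ : K₃ ≤ K)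
    (hCI1 : 1 ≤ CI) (hCIY : CI ≤ Y) (hlogCI : Real.log (2 * CI) ≤ K₃) (huY : (2 : ℝ) ^ u ≤ Y)
    (hvY : (2 : ℝ) ^ v ≤ Y * Y) (g1 : θ ^ d ≤ CI * 2 ^ v)
    (g2 : (2 : ℝ) ^ u * τ ^ d ≤ 2 * CI * 2 ^ v ∨
        ∃ (l : ℕ) (a' b' : ℝ), θ * 2 ^ l ≤ τ ∧ Cls d (2 ^ u) (2 ^ v) (θ * 2 ^ l) a' b' ∧ a' ≤ a ∧
          a + θ ≤ b' ∧ (2 : ℝ) ^ u * (θ * 2 ^ l) ^ d ≤ 2 * CI * 2 ^ v)
    (hξ1 : a ≤ ξ) (hξ2 : ξ ≤ a + θ) (hcon : ∀ p ∈ T, p.2 < |ξ - p.1|)
    (hT3 : ∀ l : ℕ, u ≤ ⌊2 * Real.log Y⌋₊ → |v| ≤ ((⌊2 * ((n : ℝ) + 1) * Real.log Y⌋₊ : ℕ) : ℤ) →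
      l ≤ ⌊2 * Real.log Y⌋₊ → θ * 2 ^ l ≤ τ →
        ∃ S : Finset (ℝ × ℝ), (∀ p, p ∈ S ↔ Cls d (2 ^ u) ((2 : ℝ) ^ v) (θ * 2 ^ l) p.1 p.2) ∧
          ((∀ p ∈ S, ((p.1 + p.2) / 2, (p.2 - p.1) / 2) ∈ T) ∨
            c₀ < S.card * (θ * 2 ^ l) ^ s'))
    (hCh : ∀ (ω t : ℝ) (S : Finset (ℝ × ℝ)), 0 < ω → 0 < t → t ≤ τ →
      (∀ p ∈ S, Cls d (2 ^ u) (2 ^ u * ω) t p.1 p.2) → c₀ < S.card * t ^ s' →
      s * -Real.log t ≤ ((d : ℝ) + 1) * Real.log (2 ^ u) + ε₀ * Real.log Y + K₁ ∧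
      (2 ≤ d → s * -Real.log t + 3 * (-Real.log ω - -Real.log t) ≤ 2 * d * Real.log (2 ^ u) + K₁ ∨
        s * -Real.log ω ≤ d * Real.log (2 ^ u) + K₁) ∧
      (d = 2 → s * -Real.log ω ≤ 2 * Real.log (2 ^ u) + K₁ ∨
        s * -Real.log t ≤ 2 * Real.log (2 ^ u) + ε₀ * Real.log Y + K₁ ∨
        s * -Real.log t ≤ 3 * Real.log (2 ^ u) - 2 * (-Real.log ω - -Real.log t) +
          ε₀ * Real.log Y + K₁)) :
    ∃ p : ℝ, p ≤ (1 + lam) / 2 * Real.log Y + K ∧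
      (Real.log ((2 : ℝ) ^ u) - Real.log ((2 : ℝ) ^ v) ≤ ε₀ * Real.log Y + K ∨
      (s * p ≤ ((d : ℝ) + 1) * Real.log ((2 : ℝ) ^ u) + ε₀ * Real.log Y + K ∧
        Real.log ((2 : ℝ) ^ u) - Real.log ((2 : ℝ) ^ v) ≤ d * p + K ∧
        (2 ≤ d →
          s * p + 3 * ((Real.log ((2 : ℝ) ^ u) - Real.log ((2 : ℝ) ^ v)) - p) ≤
            2 * d * Real.log ((2 : ℝ) ^ u) + ε₀ * Real.log Y + K ∨
          s * (Real.log ((2 : ℝ) ^ u) - Real.log ((2 : ℝ) ^ v)) ≤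
            d * Real.log ((2 : ℝ) ^ u) + ε₀ * Real.log Y + K) ∧
        (d = 2 →
          s * (Real.log ((2 : ℝ) ^ u) - Real.log ((2 : ℝ) ^ v)) ≤
            2 * Real.log ((2 : ℝ) ^ u) + ε₀ * Real.log Y + K ∨
          s * p ≤ 2 * Real.log ((2 : ℝ) ^ u) + ε₀ * Real.log Y + K ∨
          s * p ≤ 3 * Real.log ((2 : ℝ) ^ u) -
            2 * ((Real.log ((2 : ℝ) ^ u) - Real.log ((2 : ℝ) ^ v)) - p) + ε₀ * Real.log Y + K))) := by
  have hY0 : 0 < Y := by linarith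
  have hlog : ∀ t : ℝ, 0 < t → (2 : ℝ) ^ u * t ^ d ≤ 2 * CI * 2 ^ v →
      Real.log ((2 : ℝ) ^ u) - Real.log ((2 : ℝ) ^ v) ≤ d * -Real.log t + K₃ := by
    intro t ht h
    have h1 := Real.log_le_log (by positivity) h
    rw [Real.log_mul (by positivity) (by positivity), Real.log_mul (by positivity) (by positivity),
      Real.log_pow t d] at h1
    linarith
  rcases g2 with hlong | ⟨l, a', b', hl, hcls, ha', hb', hw⟩
  · have h1 := hlog τ hτ0 hlong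
    rw [hτlog] at h1
    have hdn' : (d : ℝ) ≤ n := by exact_mod_cast hdn
    have h2 : (d : ℝ) * ε₁ ≤ ε₀ := (mul_le_mul_of_nonneg_right hdn' hε₁.le).trans hε₁n
    have h3 := mul_le_mul_of_nonneg_right h2 hL0
    have h4 : 0 ≤ ε₀ * Real.log Y := mul_nonneg hε₀.le hL0
    have h5 : 0 ≤ (1 + lam) / 2 * Real.log Y := mul_nonneg (by linarith) hL0
    refine ⟨0, by linarith, Or.inl ?_⟩
    have h6 : (d : ℝ) * -(-(ε₁ * Real.log Y)) = d * ε₁ * Real.log Y := by ring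
    rw [h6] at h1
    linarith
  · have hub : u ≤ ⌊2 * Real.log Y⌋₊ := logpow u Y huY
    have hlY : (2 : ℝ) ^ l ≤ Y := by
      have e1 : Y⁻¹ * 2 ^ l ≤ θ * 2 ^ l := mul_le_mul_of_nonneg_right hθY (by positivity)
      have e2 : Y⁻¹ * 2 ^ l ≤ 1 := by linarith
      rw [inv_mul_le_iff₀ hY0] at e2
      linarith
    have hlb : l ≤ ⌊2 * Real.log Y⌋₊ := logpow l Y hlY
    have hl2 := Real.log_two_gt_d9
    have hv0 : (0 : ℝ) < 2 ^ v := by positivity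
    have hlogv : Real.log ((2 : ℝ) ^ v) = v * Real.log 2 := Real.log_zpow 2 v
    have hvb : |v| ≤ ((⌊2 * ((n : ℝ) + 1) * Real.log Y⌋₊ : ℕ) : ℤ) := by
      have hn0 : (0 : ℝ) ≤ n := Nat.cast_nonneg n
      have hnL : 0 ≤ (n : ℝ) * Real.log Y := mul_nonneg hn0 hL0
      have up : v * Real.log 2 ≤ 2 * Real.log Y := by
        have := Real.log_le_log hv0 hvY
        rw [hlogv, Real.log_mul (by positivity) (by positivity)] at this
        linarith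
      have lo : -(((n : ℝ) + 1) * Real.log Y) ≤ v * Real.log 2 := by
        have h1 := Real.log_le_log (by positivity) g1
        rw [Real.log_pow, Real.log_mul (by linarith) (by positivity), hlogv] at h1
        have h2 : Real.log CI ≤ Real.log Y := Real.log_le_log (by linarith) hCIY
        have h3 : -Real.log Y ≤ Real.log θ := by
          rw [← Real.log_inv]
          exact Real.log_le_log (by positivity) hθY
        have hdn' : (d : ℝ) ≤ n := by exact_mod_cast hdn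
        have h4 : -((n : ℝ) * Real.log Y) ≤ d * Real.log θ := by
          have e1 : (d : ℝ) * -Real.log Y ≤ d * Real.log θ :=
            mul_le_mul_of_nonneg_left h3 (Nat.cast_nonneg d)
          have e2 : (d : ℝ) * Real.log Y ≤ n * Real.log Y := mul_le_mul_of_nonneg_right hdn' hL0
          linarith
        linarith
      have habs : |(v : ℝ)| ≤ 2 * ((n : ℝ) + 1) * Real.log Y := by
        rw [abs_le]
        constructor
        · by_contra hneg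
          push Not at hneg
          have e1 : (v : ℝ) * Real.log 2 < -(2 * ((n : ℝ) + 1) * Real.log Y) * Real.log 2 :=
            mul_lt_mul_of_pos_right hneg (by linarith)
          have e2 : (2 * ((n : ℝ) + 1) * Real.log Y) * (1 / 2) ≤
              (2 * ((n : ℝ) + 1) * Real.log Y) * Real.log 2 :=
            mul_le_mul_of_nonneg_left (by linarith) (by positivity)
          linarith
        · by_contra hneg
          push Not at hneg
          have e1 : (2 * ((n : ℝ) + 1) * Real.log Y) * Real.log 2 < v * Real.log 2 :=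
            mul_lt_mul_of_pos_right hneg (by linarith)
          have hn1 : (1 : ℝ) ≤ n := by exact_mod_cast hd1.trans hdn
          have e3 : 1 * Real.log Y ≤ n * Real.log Y := mul_le_mul_of_nonneg_right hn1 hL0
          have e2 : (2 * ((n : ℝ) + 1) * Real.log Y) * (1 / 2) ≤
              (2 * ((n : ℝ) + 1) * Real.log Y) * Real.log 2 :=
            mul_le_mul_of_nonneg_left (by linarith) (by positivity)
          linarith
      rw [Int.abs_eq_natAbs]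
      have e1 : ((v.natAbs : ℕ) : ℝ) = |(v : ℝ)| := by
        rw [Nat.cast_natAbs, Int.cast_abs]
      have e2 : v.natAbs ≤ ⌊2 * ((n : ℝ) + 1) * Real.log Y⌋₊ := Nat.le_floor (by rw [e1]; exact habs)
      exact_mod_cast e2
    obtain ⟨S, hS1, hS2⟩ := hT3 l hub hvb hlb hl
    have ht0 : 0 < θ * 2 ^ l := by positivity
    rcases hS2 with hcheap | hexp
    · exfalso
      have h1 := hcon _ (hcheap (a', b') ((hS1 _).2 hcls))
      simp only at h1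
      have h2 : |ξ - (a' + b') / 2| ≤ (b' - a') / 2 := by
        rw [abs_le]; constructor <;> linarith
      linarith
    · have h2u : (0 : ℝ) < 2 ^ u := by positivity
      have h9 := hCh ((2 : ℝ) ^ v / 2 ^ u) (θ * 2 ^ l) S (by positivity) ht0 hl
        (fun p hp => by
          have h1 := (hS1 p).1 hp
          have e : (2 : ℝ) ^ u * ((2 : ℝ) ^ v / 2 ^ u) = 2 ^ v := by field_simp
          rw [e]
          exact h1) hexp
      have hω : Real.log ((2 : ℝ) ^ v / 2 ^ u) = Real.log ((2 : ℝ) ^ v) - Real.log ((2 : ℝ) ^ u) :=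
        Real.log_div (by positivity) (by positivity)
      rw [hω] at h9
      obtain ⟨c1, c2, c3⟩ := h9
      have h4 : 0 ≤ ε₀ * Real.log Y := mul_nonneg hε₀.le hL0
      refine ⟨-Real.log (θ * 2 ^ l), ?_, Or.inr ⟨by linarith, ?_, ?_, ?_⟩⟩
      · have h1 : θ ≤ θ * 2 ^ l := le_mul_of_one_le_right hθ0.le (one_le_pow₀ (by norm_num))
        have h2 := Real.log_le_log hθ0 h1
        rw [hθlog] at h2
        linarith
      · have := hlog _ ht0 hw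
        linarith
      · intro h2d
        rcases c2 h2d with h | h
        · left
          linarith
        · right
          have e : s * (Real.log ((2 : ℝ) ^ u) - Real.log ((2 : ℝ) ^ v)) =
              s * -(Real.log ((2 : ℝ) ^ v) - Real.log ((2 : ℝ) ^ u)) := by ring
          rw [e]
          linarith
      · intro hd2
        rcases c3 hd2 with h | h | h
        · left
          have e : s * (Real.log ((2 : ℝ) ^ u) - Real.log ((2 : ℝ) ^ v)) =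
              s * -(Real.log ((2 : ℝ) ^ v) - Real.log ((2 : ℝ) ^ u)) := by ring
          rw [e]
          linarith
        · right; left
          linarith
        · right; right
          linarith

end Pool.Agent.MP211V.Red

namespace Pool.Agent.MP211V

open Polynomial Filter Topology Red

theorem vRed (h1 : S_Coef) (h2 : S_Int) (h3 : S_MxEx) (h4 : S_Gel) (h5 : S_Fact) (h6 : S_Count)
    (h7 : S_LP) (h8 : S_Cheap) : S_Red := by
  classical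
  intro n lam s' A hn hlam1 hlam2 hs hs' hA
  have hn' : (4 : ℝ) ≤ n := by exact_mod_cast hn
  have hn0 : (0 : ℝ) < n := by linarith
  obtain ⟨hl0, hl1, hs0, hs1⟩ := param n lam hn hlam1 hlam2
  obtain ⟨ε₀, hε₀, hLP⟩ := h7 n lam hn hlam1 hlam2
  set ε₁ : ℝ := min (ε₀ / n) (1 / 4) with hε₁def
  have hε₁ : 0 < ε₁ := lt_min (by positivity) (by norm_num)
  have hε₁n : (n : ℝ) * ε₁ ≤ ε₀ := by
    have : ε₁ ≤ ε₀ / n := min_le_left _ _
    rw [le_div_iff₀ hn0] at this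
    linarith
  obtain ⟨c, K₁, hc, hK₁, hCh⟩ := h8 n (sdim n lam) s' ε₁ ε₀ hs0 hs hs1 hε₁ hε₀
  obtain ⟨CG, hCG, hGel⟩ := h4 n
  obtain ⟨CC, hCC, hCoef⟩ := h1 n
  have hstep : ∀ d : ℕ, ∃ CI : ℝ, 1 ≤ CI ∧ (1 ≤ d → ∀ (F : ℤ[X]) (u : ℕ) (c a θ τ : ℝ),
      Irreducible F → F.natDegree = d → Hb F (2 ^ u) →
      (∃ j : ℕ, (2 : ℝ) ^ u ≤ 2 * |((F.coeff j : ℤ) : ℝ)|) → 0 ≤ a → a ≤ 1 → 0 < θ → θ ≤ 1 →
      0 < τ → τ ≤ 1 → Sl (rp F) c a (a + θ) →
      θ ^ d ≤ CI * c ∧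
      ((2 : ℝ) ^ u * τ ^ d ≤ 2 * CI * c ∨
        ∃ (l : ℕ) (a' b' : ℝ), θ * 2 ^ l ≤ τ ∧ Cls d (2 ^ u) c (θ * 2 ^ l) a' b' ∧ a' ≤ a ∧
          a + θ ≤ b' ∧ (2 : ℝ) ^ u * (θ * 2 ^ l) ^ d ≤ 2 * CI * c)) := by
    intro d
    by_cases hd : 1 ≤ d
    · obtain ⟨CI, hCI, h⟩ := factor_step h2 h3 d hd
      exact ⟨CI, hCI, fun _ => h⟩
    · exact ⟨1, le_rfl, fun h => absurd h hd⟩
  choose CI hCI1 hCI2 using hstep
  set κ₁ : ℝ := (2 * CC + 1) ^ n * (CG * ((n + 1) * A)) with hκ₁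
  set κ₂ : ℝ := 2 ^ n * (CG * A) with hκ₂
  have hκ₁1 : 1 ≤ κ₁ := by
    exact one_le_mul_of_one_le_of_one_le (one_le_pow₀ (by linarith))
      (one_le_mul_of_one_le_of_one_le hCG (one_le_mul_of_one_le_of_one_le (by linarith) hA))
  have hκ₂1 : 1 ≤ κ₂ := by
    exact one_le_mul_of_one_le_of_one_le (one_le_pow₀ (by norm_num))
      (one_le_mul_of_one_le_of_one_le hCG hA)
  set SI : ℝ := ∑ d ∈ Finset.range (n + 1), CI d with hSI
  set K₃ : ℝ := ∑ d ∈ Finset.range (n + 1), Real.log (2 * CI d) with hK₃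
  have hCIle : ∀ d, d ≤ n → CI d ≤ SI := fun d hd =>
    Finset.single_le_sum (f := CI) (fun i _ => by linarith [hCI1 i]) (Finset.mem_range.2 (by omega))
  have hlogCI : ∀ d, 0 ≤ Real.log (2 * CI d) := fun d => Real.log_nonneg (by linarith [hCI1 d])
  have hlogle : ∀ d, d ≤ n → Real.log (2 * CI d) ≤ K₃ := fun d hd =>
    Finset.single_le_sum (f := fun d => Real.log (2 * CI d)) (fun i _ => hlogCI i)
      (Finset.mem_range.2 (by omega))
  have hK₃0 : 0 ≤ K₃ := Finset.sum_nonneg fun i _ => hlogCI i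
  set K : ℝ := K₁ + Real.log κ₁ + Real.log κ₂ + K₃ with hK
  have hlκ₁ := Real.log_nonneg hκ₁1
  have hlκ₂ := Real.log_nonneg hκ₂1
  have hK0 : 0 ≤ K := by linarith
  obtain ⟨L₀, hL₀⟩ := hLP K hK0
  -- conditions on `Y`
  have hev : ∀ᶠ Y : ℝ in atTop, 1 ≤ Y ∧ K₁ ≤ Y ∧ L₀ ≤ Real.log Y ∧ κ₁ * Y ^ lam ≤ Y ∧
      (n + 1) * 2 ^ (n + 1) ≤ Y ∧ SI ≤ Y ∧
      (16 * ((n : ℝ) + 1) ^ 2) * (1 + Real.log Y) ^ 3 * Y ^ (-c) ≤ Y ^ (-(c / 2)) := by
    have e1 : Tendsto (fun Y : ℝ => Y ^ (1 - lam)) atTop atTop := tendsto_rpow_atTop (by linarith)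
    filter_upwards [eventually_ge_atTop 1, eventually_ge_atTop K₁,
      Real.tendsto_log_atTop.eventually_ge_atTop L₀, e1.eventually_ge_atTop κ₁,
      eventually_ge_atTop (((n : ℝ) + 1) * 2 ^ (n + 1)), eventually_ge_atTop SI,
      growth (16 * ((n : ℝ) + 1) ^ 2) c (by positivity) hc] with Y g1 g2 g3 g4 g5 g6 g7
    refine ⟨g1, g2, g3, ?_, g5, g6, g7⟩
    have hY0 : 0 < Y := by linarith
    have hYl : 0 < Y ^ lam := Real.rpow_pos_of_pos hY0 _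
    calc κ₁ * Y ^ lam ≤ Y ^ (1 - lam) * Y ^ lam := mul_le_mul_of_nonneg_right g4 hYl.le
      _ = Y := by
        rw [← Real.rpow_add hY0]
        simp
  obtain ⟨Y₀, hY₀⟩ := eventually_atTop.1 hev
  refine ⟨c / 2, max Y₀ 1, by positivity, le_max_right _ _, ?_⟩
  intro Y hYY
  obtain ⟨hY1, hYK, hYL, hYκ, hYn, hYS, hYg⟩ := hY₀ Y ((le_max_left _ _).trans hYY)
  have hY0 : 0 < Y := by linarith
  obtain ⟨hθ0, hθ1, hθY, hθlog⟩ := th_facts lam Y hl0 hl1 hY1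
  set θ : ℝ := th lam Y with hθdef
  set L : ℝ := Real.log Y with hLdef
  have hL0 : 0 ≤ L := Real.log_nonneg hY1
  set τ : ℝ := Y ^ (-ε₁) with hτdef
  have hτ0 : 0 < τ := Real.rpow_pos_of_pos hY0 _
  have hτ1 : τ ≤ 1 := Real.rpow_le_one_of_one_le_of_nonpos hY1 (by linarith)
  have hτlog : Real.log τ = -(ε₁ * L) := by
    rw [hτdef, Real.log_rpow hY0]
    ring
  set c₀ : ℝ := Y ^ (-c) with hc₀def
  have hc₀ : 0 < c₀ := Real.rpow_pos_of_pos hY0 _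
  obtain ⟨T, hT1, hT2, hT3⟩ := cover h6 n ⌊2 * L⌋₊ ⌊2 * ((n : ℝ) + 1) * L⌋₊ ⌊2 * L⌋₊ θ τ s' c₀
    hθ0 hτ1 (by linarith) hc₀.le
  refine ⟨T, hT1, ?_, ?_⟩
  · refine hT2.trans (le_trans ?_ hYg)
    exact mul_le_mul_of_nonneg_right (card_bound n L hL0) hc₀.le
  intro a ha0 ha1 hBad ξ hξ1 hξ2
  by_contra hcon
  push Not at hcon
  obtain ⟨P, hP0, hPdeg, hPH, hPS, hPn⟩ := hBad
  obtain ⟨k, r, F, hk, hPF, hirr, hFd, hsum⟩ := h5 P hP0
  have hsum' : ∑ i, (F i).natDegree ≤ n := hsum.le.trans hPdeg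
  have hdle : ∀ i, (F i).natDegree ≤ n - 1 := deg_le n P k r F hPF hirr hFd hsum' hPn
  have hrn : r ≤ n := by
    have : ∑ _i : Fin r, 1 ≤ ∑ i, (F i).natDegree := Finset.sum_le_sum fun i _ => hFd i
    simp at this
    omega
  -- heights
  have hheight : ∀ i, ∃ u : ℕ, Hb (F i) (2 ^ u) ∧
    ∃ j : ℕ, (2 : ℝ) ^ u ≤ 2 * |(((F i).coeff j : ℤ) : ℝ)| := fun i =>
    exists_height (F i) (hirr i).ne_zero
  choose u hu1 hu2 using hheight
  have hFd' : ∀ i, 1 ≤ (rp (F i)).natDegree := fun i => by rw [rp_natDegree]; exact hFd i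
  have hsum'' : ∑ i, (rp (F i)).natDegree ≤ n := by
    simpa only [rp_natDegree] using hsum'
  have hAY : 0 < A * Y ^ lam := by positivity
  have hs01 : Sl (∏ i, rp (F i)) ((n + 1) * (A * Y ^ lam)) 0 1 := by
    apply sl_prod P k F hk hPF
    intro x hx0 hx1
    have := eval_bound P n (A * Y ^ lam) 1 x hPdeg hPH le_rfl (by rw [abs_le]; constructor <;> linarith)
    simpa using this
  obtain ⟨m', hm'0, hm'1, -, hm'2⟩ := hGel r (fun i => rp (F i)) _ 0 1 hFd' hsum'' (by norm_num) hs01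
  have hCC2 : (1 : ℝ) ≤ 2 * CC + 1 := by linarith
  have hu3 : ∀ i, (2 : ℝ) ^ u i ≤ (2 * CC + 1) * m' i := by
    intro i
    obtain ⟨j, hj⟩ := hu2 i
    have hdn : (rp (F i)).natDegree ≤ n := by
      rw [rp_natDegree]
      exact (hdle i).trans (by omega)
    have e1 := hCoef (rp (F i)) (m' i) hdn (hm'1 i) j
    rw [rp_coeff] at e1
    have e2 := hm'0 i
    calc (2 : ℝ) ^ u i ≤ 2 * |(((F i).coeff j : ℤ) : ℝ)| := hj
      _ ≤ 2 * (CC * m' i) := by linarith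
      _ ≤ (2 * CC + 1) * m' i := by linarith
  have hprodU : ∏ i, (2 : ℝ) ^ u i ≤ κ₁ * Y ^ lam := by
    calc ∏ i, (2 : ℝ) ^ u i ≤ ∏ i, ((2 * CC + 1) * m' i) :=
          Finset.prod_le_prod (fun i _ => by positivity) (fun i _ => hu3 i)
      _ = (2 * CC + 1) ^ r * ∏ i, m' i := by
          rw [Finset.prod_mul_distrib]
          simp
      _ ≤ (2 * CC + 1) ^ n * (CG * ((n + 1) * (A * Y ^ lam))) := by
          have e1 : (2 * CC + 1) ^ r ≤ (2 * CC + 1) ^ n := pow_le_pow_right₀ hCC2 hrn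
          exact mul_le_mul e1 hm'2 (Finset.prod_nonneg fun i _ => (hm'0 i).le) (by positivity)
      _ = κ₁ * Y ^ lam := by rw [hκ₁]; ring
  -- levels
  have hcap : Sl (∏ i, rp (F i)) (A / Y) a (a + θ) := sl_prod P k F hk hPF _ _ _ hPS
  obtain ⟨m, hm0, hm1, hm2, hm3⟩ := hGel r (fun i => rp (F i)) _ a (a + θ) hFd' hsum''
    (by linarith) hcap
  have hlev : ∀ i, ∃ v : ℤ, m i ≤ (2 : ℝ) ^ v ∧ (2 : ℝ) ^ v ≤ 2 * m i := fun i =>
    exists_zpow (m i) (hm0 i)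
  choose v hv1 hv2 using hlev
  have hprodC : ∏ i, (2 : ℝ) ^ v i ≤ κ₂ / Y := by
    calc ∏ i, (2 : ℝ) ^ v i ≤ ∏ i, (2 * m i) :=
          Finset.prod_le_prod (fun i _ => by positivity) (fun i _ => hv2 i)
      _ = 2 ^ r * ∏ i, m i := by
          rw [Finset.prod_mul_distrib]
          simp
      _ ≤ 2 ^ n * (CG * (A / Y)) := by
          have e1 : (2 : ℝ) ^ r ≤ 2 ^ n := pow_le_pow_right₀ (by norm_num) hrn
          exact mul_le_mul e1 hm3 (Finset.prod_nonneg fun i _ => (hm0 i).le) (by positivity)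
      _ = κ₂ / Y := by rw [hκ₂]; ring
  -- logarithms
  have hU0 : ∀ i, 0 ≤ Real.log ((2 : ℝ) ^ u i) := fun i =>
    Real.log_nonneg (one_le_pow₀ (by norm_num))
  have hUsum : ∑ i, Real.log ((2 : ℝ) ^ u i) ≤ lam * L + Real.log κ₁ := by
    rw [← Real.log_prod (fun i _ => by positivity)]
    have := Real.log_le_log (Finset.prod_pos fun i _ => by positivity) hprodU
    rw [Real.log_mul (by linarith) (by positivity), Real.log_rpow hY0] at this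
    linarith
  have hCsum : ∑ i, Real.log ((2 : ℝ) ^ v i) ≤ Real.log κ₂ - L := by
    rw [← Real.log_prod (fun i _ => by positivity)]
    have := Real.log_le_log (Finset.prod_pos fun i _ => by positivity) hprodC
    rw [Real.log_div (by linarith) (by linarith)] at this
    linarith
  have huY : ∀ i, (2 : ℝ) ^ u i ≤ Y := by
    intro i
    have e1 : (2 : ℝ) ^ u i ≤ ∏ i, (2 : ℝ) ^ u i := by
      rw [← Finset.mul_prod_erase _ _ (Finset.mem_univ i)]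
      have : (1 : ℝ) ≤ ∏ x ∈ Finset.univ.erase i, (2 : ℝ) ^ u x := by
        have h := Finset.prod_le_prod (s := Finset.univ.erase i) (f := fun _ => (1 : ℝ))
          (g := fun x => (2 : ℝ) ^ u x) (fun _ _ => zero_le_one)
          (fun x _ => one_le_pow₀ (by norm_num))
        simpa using h
      exact le_mul_of_one_le_right (by positivity) this
    linarith
  -- the inequalities for each factor
  have hfac : ∀ i, ∃ p : ℝ, p ≤ (1 + lam) / 2 * L + K ∧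
      (Real.log ((2 : ℝ) ^ u i) - Real.log ((2 : ℝ) ^ v i) ≤ ε₀ * L + K ∨
      (sdim n lam * p ≤ (((F i).natDegree : ℝ) + 1) * Real.log ((2 : ℝ) ^ u i) + ε₀ * L + K ∧
        Real.log ((2 : ℝ) ^ u i) - Real.log ((2 : ℝ) ^ v i) ≤ (F i).natDegree * p + K ∧
        (2 ≤ (F i).natDegree →
          sdim n lam * p + 3 * ((Real.log ((2 : ℝ) ^ u i) - Real.log ((2 : ℝ) ^ v i)) - p) ≤
            2 * (F i).natDegree * Real.log ((2 : ℝ) ^ u i) + ε₀ * L + K ∨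
          sdim n lam * (Real.log ((2 : ℝ) ^ u i) - Real.log ((2 : ℝ) ^ v i)) ≤
            (F i).natDegree * Real.log ((2 : ℝ) ^ u i) + ε₀ * L + K) ∧
        ((F i).natDegree = 2 →
          sdim n lam * (Real.log ((2 : ℝ) ^ u i) - Real.log ((2 : ℝ) ^ v i)) ≤
            2 * Real.log ((2 : ℝ) ^ u i) + ε₀ * L + K ∨
          sdim n lam * p ≤ 2 * Real.log ((2 : ℝ) ^ u i) + ε₀ * L + K ∨
          sdim n lam * p ≤ 3 * Real.log ((2 : ℝ) ^ u i) -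
            2 * ((Real.log ((2 : ℝ) ^ u i) - Real.log ((2 : ℝ) ^ v i)) - p) + ε₀ * L + K))) := by
    intro i
    have hd1 : 1 ≤ (F i).natDegree := hFd i
    have hdn : (F i).natDegree ≤ n := (hdle i).trans (by omega)
    obtain ⟨g1, g2⟩ := hCI2 (F i).natDegree hd1 (F i) (u i) (2 ^ v i) a θ τ (hirr i) rfl (hu1 i)
      (hu2 i) ha0 ha1 hθ0 hθ1 hτ0 hτ1 (fun x h1 h2 => (hm1 i x h1 h2).trans (hv1 i))
    exact factor_ineq n (F i).natDegree (u i) (v i) lam (sdim n lam) Y θ τ a ξ ε₀ ε₁ K₁ K₃ K s' c₀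
      (CI (F i).natDegree) T hd1 hdn hY1 hL0 hl0 hτ0 hθ0 hθY hθlog hτ1 hτlog hε₀ hε₁ hε₁n hK₁
      (by linarith) (by linarith) (hCI1 _) ((hCIle _ hdn).trans hYS) (hlogle _ hdn) (huY i)
      (by
        obtain ⟨x, hx1, hx2, hx3⟩ := hm2 i
        have e1 := eval_bound (F i) n (2 ^ u i) 2 x hdn (hu1 i) (by norm_num)
          (by rw [abs_le]; constructor <;> linarith)
        rw [hx3] at e1
        have e2 := hv2 i
        have e3 := huY i
        have e4 : ((n : ℝ) + 1) * 2 ^ n * 2 ^ u i ≤ ((n : ℝ) + 1) * 2 ^ n * Y :=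
          mul_le_mul_of_nonneg_left e3 (by positivity)
        calc (2 : ℝ) ^ v i ≤ 2 * (((n : ℝ) + 1) * 2 ^ n * Y) := by linarith
          _ = (((n : ℝ) + 1) * 2 ^ (n + 1)) * Y := by ring
          _ ≤ Y * Y := mul_le_mul_of_nonneg_right hYn hY0.le) g1 g2 hξ1 hξ2 hcon
      (fun l hub hvb hlb hl => hT3 (F i).natDegree (u i) l (v i) hd1 hdn hub hvb hlb hl)
      (fun ω t S e1 e2 e3 e4 e5 => hCh Y (F i).natDegree (2 ^ u i) ω t S hYK hd1 hdn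
        (one_le_pow₀ (by norm_num)) (huY i) e1 e2 e3 e4 e5)
  choose p hp1 hp2 using hfac
  refine hL₀ L hYL r (fun i => (F i).natDegree) (fun i => Real.log ((2 : ℝ) ^ u i))
    (fun i => Real.log ((2 : ℝ) ^ u i) - Real.log ((2 : ℝ) ^ v i)) p hFd hsum' hdle hU0 ?_ ?_ hp1 hp2
  · linarith
  · have e : ∀ i, Real.log ((2 : ℝ) ^ u i) - Real.log ((2 : ℝ) ^ v i) - Real.log ((2 : ℝ) ^ u i)
        = -Real.log ((2 : ℝ) ^ v i) := fun i => by ring
    simp only [e, Finset.sum_neg_distrib]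
    linarith

end Pool.Agent.MP211V
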