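import Pool.Agent.Lib.MP_211f72_nt.V.Spec

/-!
# MP_211f72_nt, module V/Sep (task 8558): separation of intervals of two irreducible polynomials
-/

namespace Pool.Agent.MP211V

open Polynomial

namespace Sep

/-- the minimum `min(1, ω t^(-j))` -/
noncomputable def mm (ω t : ℝ) (j : ℕ) : ℝ := min 1 (ω / t ^ j)

/-- the sum `W_i` -/
noncomputable def WW (d : ℕ) (ω t T : ℝ) (i : ℕ) : ℝ :=
  ∑ j ∈ Finset.Icc i d, mm ω t j * T ^ (j - i)

lemma mm_pos {ω t : ℝ} (hω : 0 < ω) (ht : 0 < t) (j : ℕ) : 0 < mm ω t j :=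
  lt_min one_pos (div_pos hω (pow_pos ht j))

lemma mm_le_one (ω t : ℝ) (j : ℕ) : mm ω t j ≤ 1 := min_le_left _ _

lemma mm_le_div (ω t : ℝ) (j : ℕ) : mm ω t j ≤ ω / t ^ j := min_le_right _ _

lemma mm_mono {ω t : ℝ} (hω : 0 < ω) (ht : 0 < t) (ht1 : t ≤ 1) (j : ℕ) :
    mm ω t j ≤ mm ω t (j + 1) := by
  apply min_le_min le_rfl
  apply div_le_div_of_nonneg_left hω.le (pow_pos ht _)
  exact pow_le_pow_of_le_one ht.le ht1 (Nat.le_succ j)

lemma WW_nonneg {ω t T : ℝ} (hω : 0 < ω) (ht : 0 < t) (hT : 0 ≤ T) (d i : ℕ) :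
    0 ≤ WW d ω t T i :=
  Finset.sum_nonneg fun j _ => mul_nonneg (mm_pos hω ht j).le (pow_nonneg hT _)

/-- a sum over `Icc i d` with all terms at most `c` -/
lemma sum_le_card (d i : ℕ) (f : ℕ → ℝ) (c : ℝ) (hc : 0 ≤ c)
    (h : ∀ j ∈ Finset.Icc i d, f j ≤ c) : ∑ j ∈ Finset.Icc i d, f j ≤ ((d : ℝ) + 1) * c := by
  calc ∑ j ∈ Finset.Icc i d, f j ≤ ∑ _j ∈ Finset.Icc i d, c := Finset.sum_le_sum h
    _ = ((Finset.Icc i d).card : ℝ) * c := by rw [Finset.sum_const, nsmul_eq_mul]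
    _ ≤ ((d : ℝ) + 1) * c := by
        apply mul_le_mul_of_nonneg_right _ hc
        rw [Nat.card_Icc]
        have : d + 1 - i ≤ d + 1 := Nat.sub_le _ _
        exact_mod_cast this

lemma WW_le {ω t T : ℝ} (_hω : 0 < ω) (_ht : 0 < t) (hT : 0 ≤ T) (hT1 : T ≤ 1) (d i : ℕ) :
    WW d ω t T i ≤ (d : ℝ) + 1 := by
  have := sum_le_card d i (fun j => mm ω t j * T ^ (j - i)) 1 zero_le_one (fun j _ => by
    calc mm ω t j * T ^ (j - i) ≤ 1 * 1 :=
          mul_le_mul (mm_le_one _ _ _) (pow_le_one₀ hT hT1) (pow_nonneg hT _) zero_le_one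
      _ = 1 := one_mul 1)
  simpa [WW] using this

lemma WW_rec (d i : ℕ) (ω t T : ℝ) (hi : i ≤ d) :
    WW d ω t T i = mm ω t i + T * WW d ω t T (i + 1) := by
  unfold WW
  rw [← Finset.insert_Icc_add_one_left_eq_Icc hi, Finset.sum_insert (by simp)]
  simp only [Nat.sub_self, pow_zero, mul_one]
  congr 1
  rw [Finset.mul_sum]
  apply Finset.sum_congr rfl
  intro j hj
  rw [Finset.mem_Icc] at hj
  have : j - i = (j - (i + 1)) + 1 := by omega
  rw [this, pow_succ]
  ring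

lemma mm_le_WW {ω t T : ℝ} (hω : 0 < ω) (ht : 0 < t) (hT : 0 ≤ T) (d i : ℕ) (hi : i ≤ d) :
    mm ω t i ≤ WW d ω t T i := by
  rw [WW_rec d i ω t T hi]
  have := mul_nonneg hT (WW_nonneg hω ht hT d (i + 1))
  linarith

lemma WW_two {ω t T : ℝ} (hω : 0 < ω) (ht : 0 < t) (ht1 : t ≤ 1) (hT : 0 ≤ T) (hT1 : T ≤ 1)
    (d i : ℕ) (hi : i + 1 ≤ d) : WW d ω t T i ≤ 2 * WW d ω t T (i + 1) := by
  rw [WW_rec d i ω t T (by omega)]
  have h1 := mm_mono hω ht ht1 i
  have h2 := mm_le_WW hω ht hT d (i + 1) hi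
  have h3 : T * WW d ω t T (i + 1) ≤ 1 * WW d ω t T (i + 1) :=
    mul_le_mul_of_nonneg_right hT1 (WW_nonneg hω ht hT d (i + 1))
  linarith

/-- the quantity `E` -/
noncomputable def EE (d : ℕ) (ω t T : ℝ) : ℝ :=
  WW d ω t T 0 * max (WW d ω t T 1 ^ 2) (WW d ω t T 0 * WW d ω t T 2)

lemma EE_le {ω t T D a b c M : ℝ} (d : ℕ) (hω : 0 < ω) (ht : 0 < t) (hT : 0 ≤ T) (hD : 0 ≤ D)
    (ha : 0 ≤ a) (_hb : 0 ≤ b)
    (h0 : WW d ω t T 0 ≤ D * a) (h1 : WW d ω t T 1 ≤ D * b) (h2 : WW d ω t T 2 ≤ D * c)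
    (hM1 : a * b ^ 2 ≤ M) (hM2 : a * (a * c) ≤ M) : EE d ω t T ≤ D ^ 3 * M := by
  have w0 := WW_nonneg hω ht hT d 0
  have w1 := WW_nonneg hω ht hT d 1
  have w2 := WW_nonneg hω ht hT d 2
  unfold EE
  rw [mul_max_of_nonneg _ _ w0]
  apply max_le
  · calc WW d ω t T 0 * WW d ω t T 1 ^ 2 ≤ (D * a) * (D * b) ^ 2 :=
          mul_le_mul h0 (pow_le_pow_left₀ w1 h1 2) (by positivity) (by positivity)
      _ = D ^ 3 * (a * b ^ 2) := by ring
      _ ≤ D ^ 3 * M := mul_le_mul_of_nonneg_left hM1 (by positivity)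
  · have hDc : 0 ≤ D * c := w2.trans h2
    calc WW d ω t T 0 * (WW d ω t T 0 * WW d ω t T 2) ≤ (D * a) * ((D * a) * (D * c)) :=
          mul_le_mul h0 (mul_le_mul h0 h2 w2 (by positivity)) (by positivity) (by positivity)
      _ = D ^ 3 * (a * (a * c)) := by ring
      _ ≤ D ^ 3 * M := mul_le_mul_of_nonneg_left hM2 (by positivity)

/-- `min(1, y) ≤ y^β` -/
lemma min_le_rpow {y β : ℝ} (hy : 0 < y) (hβ : 0 < β) (hβ1 : β ≤ 1) : min 1 y ≤ y ^ β := by
  rcases le_total y 1 with h | h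
  · calc min 1 y ≤ y := min_le_right _ _
      _ = y ^ (1 : ℝ) := (Real.rpow_one y).symm
      _ ≤ y ^ β := Real.rpow_le_rpow_of_exponent_ge hy h hβ1
  · exact (min_le_left _ _).trans (Real.one_le_rpow h hβ.le)

/-- the first estimate, with `T = t^β`, `A = ω^β` -/
lemma WW_A {ω t β : ℝ} (hω : 0 < ω) (ht : 0 < t) (hβ : 0 < β) (hβ1 : β ≤ 1) (d i : ℕ) :
    WW d ω t (t ^ β) i ≤ ((d : ℝ) + 1) * (ω ^ β / (t ^ β) ^ i) := by
  have hT : 0 < t ^ β := Real.rpow_pos_of_pos ht β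
  have hA : 0 < ω ^ β := Real.rpow_pos_of_pos hω β
  apply sum_le_card d i _ _ (by positivity)
  intro j hj
  rw [Finset.mem_Icc] at hj
  have h1 : mm ω t j ≤ ω ^ β / (t ^ β) ^ j := by
    have := min_le_rpow (div_pos hω (pow_pos ht j)) hβ hβ1
    have e : (ω / t ^ j) ^ β = ω ^ β / (t ^ β) ^ j := by
      rw [Real.div_rpow hω.le (pow_pos ht j).le, ← Real.rpow_natCast t j, ← Real.rpow_mul ht.le,
        mul_comm (j : ℝ) β, Real.rpow_mul ht.le, Real.rpow_natCast]
    rw [e] at this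
    exact this
  calc mm ω t j * (t ^ β) ^ (j - i) ≤ ω ^ β / (t ^ β) ^ j * (t ^ β) ^ (j - i) :=
        mul_le_mul_of_nonneg_right h1 (by positivity)
    _ = ω ^ β / (t ^ β) ^ i := by
        have e : (t ^ β) ^ j = (t ^ β) ^ (j - i) * (t ^ β) ^ i := by
          rw [← pow_add]
          congr 1
          omega
        rw [e]
        field_simp

lemma EE_one {ω t β : ℝ} (hω : 0 < ω) (ht : 0 < t) (hβ : 0 < β) (hβ1 : β ≤ 1) (d : ℕ) :
    EE d ω t (t ^ β) ≤ ((d : ℝ) + 1) ^ 3 * ((ω ^ β) ^ 3 / (t ^ β) ^ 2) := by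
  have hT : 0 < t ^ β := Real.rpow_pos_of_pos ht β
  have hA : 0 < ω ^ β := Real.rpow_pos_of_pos hω β
  refine EE_le d hω ht hT.le (by positivity) (a := ω ^ β / (t ^ β) ^ 0)
    (b := ω ^ β / (t ^ β) ^ 1) (c := ω ^ β / (t ^ β) ^ 2) (by positivity) (by positivity)
    (WW_A hω ht hβ hβ1 d 0) (WW_A hω ht hβ hβ1 d 1) (WW_A hω ht hβ hβ1 d 2) ?_ ?_
  · apply le_of_eq
    field_simp
  · apply le_of_eq
    field_simp

/-- the second estimate in the case `t² ≤ ω` -/
lemma EE_two {ω t T : ℝ} (hω : 0 < ω) (ht : 0 < t) (hT : 0 < T) (hT1 : T ≤ 1)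
    (htT : t ≤ T) (hle : ω ≤ t * T) (d : ℕ) : EE d ω t T ≤ ((d : ℝ) + 1) ^ 3 * T ^ 4 := by
  have hT0 := hT.le
  have hdiv : ω / t ≤ T := by
    rw [div_le_iff₀ ht]
    linarith
  refine EE_le d hω ht hT.le (by positivity) (a := T ^ 2) (b := T) (c := 1) (by positivity)
    (by positivity) ?_ ?_ ?_ ?_ ?_
  · apply sum_le_card d 0 _ _ (by positivity)
    intro j _
    rw [Nat.sub_zero]
    rcases j with _ | _ | j
    · have h1 := mm_le_div ω t 0
      rw [pow_zero, div_one] at h1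
      rw [pow_zero, mul_one]
      nlinarith
    · have h1 := mm_le_div ω t 1
      rw [pow_one] at h1
      rw [zero_add, pow_one]
      nlinarith
    · calc mm ω t (j + 1 + 1) * T ^ (j + 1 + 1) ≤ 1 * T ^ (j + 1 + 1) :=
            mul_le_mul_of_nonneg_right (mm_le_one _ _ _) (by positivity)
        _ = T ^ (j + 1 + 1) := one_mul _
        _ ≤ T ^ 2 := pow_le_pow_of_le_one hT0 hT1 (by omega)
  · apply sum_le_card d 1 _ _ (by positivity)
    intro j hj
    rw [Finset.mem_Icc] at hj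
    rcases Nat.lt_or_ge 1 j with h | h
    · calc mm ω t j * T ^ (j - 1) ≤ 1 * T ^ (j - 1) :=
            mul_le_mul_of_nonneg_right (mm_le_one _ _ _) (by positivity)
        _ = T ^ (j - 1) := one_mul _
        _ ≤ T ^ 1 := pow_le_pow_of_le_one hT0 hT1 (by omega)
        _ = T := pow_one T
    · have hj1 : j = 1 := by omega
      subst hj1
      have h1 := mm_le_div ω t 1
      rw [pow_one] at h1
      rw [Nat.sub_self, pow_zero, mul_one]
      linarith
  · have := WW_le hω ht hT0 hT1 d 2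
    linarith
  · apply le_of_eq
    ring
  · apply le_of_eq
    ring

/-- the third estimate -/
lemma EE_three {ω t T : ℝ} (hω : 0 < ω) (ht : 0 < t) (hT : 0 < T) (hT1 : T ≤ 1)
    (htT : t ≤ T) (hle : t * T ≤ ω) (d : ℕ) :
    EE d ω t T ≤ ((d : ℝ) + 1) ^ 3 * (T * (ω / t) ^ 3) := by
  have hT0 := hT.le
  have hdiv : T ≤ ω / t := by
    rw [le_div_iff₀ ht]
    linarith
  have hq : 0 < ω / t := div_pos hω ht
  have hωt : ω = ω / t * t := by field_simp
  refine EE_le d hω ht hT.le (by positivity) (a := ω / t * T) (b := ω / t) (c := 1)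
    (by positivity) (by positivity) ?_ ?_ ?_ ?_ ?_
  · apply sum_le_card d 0 _ _ (by positivity)
    intro j _
    rw [Nat.sub_zero]
    rcases j with _ | _ | j
    · have h1 := mm_le_div ω t 0
      rw [pow_zero, div_one] at h1
      rw [pow_zero, mul_one]
      calc mm ω t 0 ≤ ω := h1
        _ = ω / t * t := hωt
        _ ≤ ω / t * T := mul_le_mul_of_nonneg_left htT hq.le
    · have h1 := mm_le_div ω t 1
      rw [pow_one] at h1
      rw [zero_add, pow_one]
      exact mul_le_mul_of_nonneg_right h1 hT0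
    · calc mm ω t (j + 1 + 1) * T ^ (j + 1 + 1) ≤ 1 * T ^ (j + 1 + 1) :=
            mul_le_mul_of_nonneg_right (mm_le_one _ _ _) (by positivity)
        _ = T ^ (j + 1 + 1) := one_mul _
        _ ≤ T ^ 2 := pow_le_pow_of_le_one hT0 hT1 (by omega)
        _ = T * T := by ring
        _ ≤ ω / t * T := mul_le_mul_of_nonneg_right hdiv hT0
  · apply sum_le_card d 1 _ _ (by positivity)
    intro j hj
    rw [Finset.mem_Icc] at hj
    rcases Nat.lt_or_ge 1 j with h | h
    · calc mm ω t j * T ^ (j - 1) ≤ 1 * T ^ (j - 1) :=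
            mul_le_mul_of_nonneg_right (mm_le_one _ _ _) (by positivity)
        _ = T ^ (j - 1) := one_mul _
        _ ≤ T ^ 1 := pow_le_pow_of_le_one hT0 hT1 (by omega)
        _ = T := pow_one T
        _ ≤ ω / t := hdiv
    · have hj1 : j = 1 := by omega
      subst hj1
      have h1 := mm_le_div ω t 1
      rw [pow_one] at h1
      rw [Nat.sub_self, pow_zero, mul_one]
      exact h1
  · have := WW_le hω ht hT0 hT1 d 2
    linarith
  · apply le_of_eq
    ring
  · calc ω / t * T * (ω / t * T * 1) = T * (ω / t) ^ 2 * T := by ring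
      _ ≤ T * (ω / t) ^ 2 * (ω / t) := mul_le_mul_of_nonneg_left hdiv (by positivity)
      _ = T * (ω / t) ^ 3 := by ring

lemma rp_natDegree (P : ℤ[X]) : (rp P).natDegree = P.natDegree :=
  natDegree_map_eq_of_injective (RingHom.injective_int (Int.castRingHom ℝ)) P

lemma tc_zero (P : ℤ[X]) (j : ℕ) : tc (rp P) 0 j = ((P.coeff j : ℤ) : ℝ) := by
  unfold tc rp
  rw [taylor_zero, coeff_map]
  rfl

/-- the bound of the Taylor coefficients at a point near the interval -/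
lemma taylor_bound {d : ℕ} {C₁ C₂ : ℝ} (hC1 : 0 < C₁) (hC2 : 0 < C₂)
    (hMar : ∀ (P : ℝ[X]) (c a b t x : ℝ), P.natDegree ≤ d →
      0 < t → t ≤ b - a → Sl P c a b → a ≤ x → x ≤ b → ∀ j : ℕ, |tc P x j| * t ^ j ≤ C₁ * c)
    (hShift : ∀ (P : ℝ[X]) (x y : ℝ) (i : ℕ), P.natDegree ≤ d →
      |tc P y i| ≤ C₂ * ∑ j ∈ Finset.Icc i d, |tc P x j| * |y - x| ^ (j - i))
    (P : ℤ[X]) (h ω t T a b x : ℝ) (hd : P.natDegree = d) (hh : 1 ≤ h) (hω : 0 < ω)
    (ht : 0 < t) (ha : |a| ≤ 3) (hP : Hb P h) (hS : Sl (rp P) (h * ω) a b)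
    (htb : t ≤ b - a) (hx : |x - a| ≤ T) (i : ℕ) :
    |tc (rp P) x i| ≤ C₂ * (C₁ + C₂ * (((d : ℝ) + 1) * 3 ^ d)) * h * WW d ω t T i := by
  have hdeg : (rp P).natDegree ≤ d := by rw [rp_natDegree, hd]
  have hT : 0 ≤ T := (abs_nonneg _).trans hx
  have hh0 : 0 < h := by linarith
  -- the coefficients at `a`
  have key : ∀ j : ℕ, |tc (rp P) a j| ≤ (C₁ + C₂ * (((d : ℝ) + 1) * 3 ^ d)) * h * mm ω t j := by
    intro j
    have e1 : |tc (rp P) a j| ≤ C₁ * h * (ω / t ^ j) := by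
      have := hMar (rp P) (h * ω) a b t a hdeg ht htb hS le_rfl (by linarith) j
      rw [← le_div_iff₀ (pow_pos ht j)] at this
      calc |tc (rp P) a j| ≤ C₁ * (h * ω) / t ^ j := this
        _ = C₁ * h * (ω / t ^ j) := by ring
    have e2 : |tc (rp P) a j| ≤ C₂ * (((d : ℝ) + 1) * 3 ^ d) * h := by
      refine (hShift (rp P) 0 a j hdeg).trans ?_
      have : ∑ k ∈ Finset.Icc j d, |tc (rp P) 0 k| * |a - 0| ^ (k - j) ≤
          ((d : ℝ) + 1) * (h * 3 ^ d) := by
        apply sum_le_card d j _ _ (by positivity)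
        intro k hk
        rw [Finset.mem_Icc] at hk
        rw [tc_zero, sub_zero]
        apply mul_le_mul (hP k) _ (by positivity) hh0.le
        calc |a| ^ (k - j) ≤ 3 ^ (k - j) := pow_le_pow_left₀ (abs_nonneg a) ha _
          _ ≤ 3 ^ d := pow_le_pow_right₀ (by norm_num) (by omega)
      calc C₂ * ∑ k ∈ Finset.Icc j d, |tc (rp P) 0 k| * |a - 0| ^ (k - j) ≤
          C₂ * (((d : ℝ) + 1) * (h * 3 ^ d)) := mul_le_mul_of_nonneg_left this hC2.le
        _ = C₂ * (((d : ℝ) + 1) * 3 ^ d) * h := by ring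
    have hK1 : 0 ≤ C₂ * (((d : ℝ) + 1) * 3 ^ d) := by positivity
    unfold mm
    rw [mul_min_of_nonneg _ _ (by positivity)]
    apply le_min
    · rw [mul_one]
      refine e2.trans ?_
      apply mul_le_mul_of_nonneg_right _ hh0.le
      linarith
    · refine e1.trans ?_
      apply mul_le_mul_of_nonneg_right _ (by positivity)
      apply mul_le_mul_of_nonneg_right _ hh0.le
      linarith
  refine (hShift (rp P) a x i hdeg).trans ?_
  rw [mul_assoc, mul_assoc]
  apply mul_le_mul_of_nonneg_left _ hC2.le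
  unfold WW
  rw [Finset.mul_sum, Finset.mul_sum]
  apply Finset.sum_le_sum
  intro j _
  have hm := mm_pos hω ht j
  calc |tc (rp P) a j| * |x - a| ^ (j - i) ≤
      ((C₁ + C₂ * (((d : ℝ) + 1) * 3 ^ d)) * h * mm ω t j) * T ^ (j - i) := by
        apply mul_le_mul (key j) (pow_le_pow_left₀ (abs_nonneg _) hx _) (by positivity)
        have : 0 ≤ C₂ * (((d : ℝ) + 1) * 3 ^ d) := by positivity
        positivity
    _ = (C₁ + C₂ * (((d : ℝ) + 1) * 3 ^ d)) * (h * (mm ω t j * T ^ (j - i))) := by ring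

end Sep

open Pool.Agent.MP211V.Sep in
theorem vSep (h1 : S_Mar) (h2 : S_Shift) (h3 : S_R1) (h4 : S_R3) : S_Sep := by
  intro d hd2
  obtain ⟨C₁, hC1, hMar⟩ := h1 d
  obtain ⟨C₂, hC2, hShift⟩ := h2 d
  obtain ⟨C₄, hC4, hR3⟩ := h4 d hd2
  set K : ℝ := 4 * (C₂ * (C₁ + C₂ * (((d : ℝ) + 1) * 3 ^ d))) with hK
  have hKpos : 0 < K := by
    rw [hK]
    positivity
  set D : ℝ := (d : ℝ) + 1 with hD
  have hDpos : 0 < D := by
    rw [hD]
    positivity
  set C' : ℝ := C₄ * (K ^ (2 * d) * D ^ (2 * d - 3)) with hC'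
  have hC'pos : 0 < C' := by
    rw [hC']
    positivity
  refine ⟨C' * D ^ 3, by positivity, ?_⟩
  intro P Q h ω t β a₁ b₁ a₂ b₂ hPi hQi hPd hQd hne hne' hh hω ht ht1 hβ hβ1 ha1 ha2 hPh hQh
    hPs hQs htb1 htb2 hclose
  have hh0 : 0 < h := by linarith
  set T : ℝ := t ^ β with hT
  have hTpos : 0 < T := Real.rpow_pos_of_pos ht β
  have hT1 : T ≤ 1 := Real.rpow_le_one ht.le ht1 hβ.le
  have htT : t ≤ T := by
    calc t = t ^ (1 : ℝ) := (Real.rpow_one t).symm
      _ ≤ t ^ β := Real.rpow_le_rpow_of_exponent_ge ht ht1 hβ1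
  have ht1T : t ^ (1 + β) = t * T := by
    rw [Real.rpow_add ht, Real.rpow_one]
  -- the main inequality
  have main : 1 ≤ C' * h ^ (2 * d) * EE d ω t T := by
    have hPb : ∀ i, |tc (rp P) a₁ i| ≤ K / 4 * h * WW d ω t T i := by
      intro i
      have := taylor_bound hC1 hC2 hMar hShift P h ω t T a₁ b₁ a₁ hPd hh hω ht ha1 hPh hPs htb1
        (by rw [sub_self, abs_zero]; exact hTpos.le) i
      rw [hK]
      calc |tc (rp P) a₁ i| ≤ _ := this
        _ = _ := by ring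
    have hQb : ∀ i, |tc (rp Q) a₁ i| ≤ K / 4 * h * WW d ω t T i := by
      intro i
      have := taylor_bound hC1 hC2 hMar hShift Q h ω t T a₂ b₂ a₁ hQd hh hω ht ha2 hQh hQs htb2
        hclose i
      rw [hK]
      calc |tc (rp Q) a₁ i| ≤ _ := this
        _ = _ := by ring
    have w0 := WW_nonneg hω ht hTpos.le d 0
    have w1 := WW_nonneg hω ht hTpos.le d 1
    have w2 := WW_nonneg hω ht hTpos.le d 2
    have w01 := WW_two hω ht ht1 hTpos.le hT1 d 0 (by omega)
    have w12 := WW_two hω ht ht1 hTpos.le hT1 d 1 (by omega)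
    have w2D := WW_le hω ht hTpos.le hT1 d 2
    rw [zero_add] at w01
    have hKh : 0 < K / 4 * h := by positivity
    have hres := hR3 (taylor a₁ (rp P)) (taylor a₁ (rp Q)) (K / 4 * h * WW d ω t T 0)
      (K / 4 * h * (2 * WW d ω t T 1)) (K / 4 * h * (4 * WW d ω t T 2)) (K * h * D)
      (mul_nonneg hKh.le w0) (mul_le_mul_of_nonneg_left w01 hKh.le)
      (mul_le_mul_of_nonneg_left (by linarith) hKh.le) (by
        calc K / 4 * h * (4 * WW d ω t T 2) = K * h * WW d ω t T 2 := by ring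
          _ ≤ K * h * D := mul_le_mul_of_nonneg_left w2D (by positivity))
      (by
        intro i
        have hi : K / 4 * h * WW d ω t T i ≤ K * h * D := by
          have := WW_le hω ht hTpos.le hT1 d i
          calc K / 4 * h * WW d ω t T i ≤ K / 4 * h * D :=
                mul_le_mul_of_nonneg_left this hKh.le
            _ ≤ K * h * D := by
                apply mul_le_mul_of_nonneg_right _ hDpos.le
                apply mul_le_mul_of_nonneg_right _ hh0.le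
                linarith
        exact ⟨(hPb i).trans hi, (hQb i).trans hi⟩)
      ⟨hPb 0, hQb 0⟩
      ⟨(hPb 1).trans (mul_le_mul_of_nonneg_left (by linarith) hKh.le),
        (hQb 1).trans (mul_le_mul_of_nonneg_left (by linarith) hKh.le)⟩
      ⟨(hPb 2).trans (mul_le_mul_of_nonneg_left (by linarith) hKh.le),
        (hQb 2).trans (mul_le_mul_of_nonneg_left (by linarith) hKh.le)⟩
    have hpd : (rp P).natDegree = d := by rw [rp_natDegree, hPd]
    have hqd : (rp Q).natDegree = d := by rw [rp_natDegree, hQd]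
    have hrt : resultant (taylor a₁ (rp P)) (taylor a₁ (rp Q)) d d =
        resultant (rp P) (rp Q) d d := by
      have := resultant_taylor (rp P) (rp Q) a₁
      rw [natDegree_taylor, natDegree_taylor, hpd, hqd] at this
      exact this
    rw [hrt] at hres
    have hR1 := h3 d P Q (by omega) hPi hQi hPd hQd hne hne'
    refine (hR1.trans hres).trans ?_
    have hmax : max ((K / 4 * h * (2 * WW d ω t T 1)) ^ 2)
        (K / 4 * h * WW d ω t T 0 * (K / 4 * h * (4 * WW d ω t T 2))) ≤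
        (K * h) ^ 2 * max (WW d ω t T 1 ^ 2) (WW d ω t T 0 * WW d ω t T 2) := by
      rw [mul_max_of_nonneg _ _ (by positivity)]
      apply max_le_max
      · have : (K / 4 * h * (2 * WW d ω t T 1)) ^ 2 =
            1 / 4 * ((K * h) ^ 2 * WW d ω t T 1 ^ 2) := by ring
        rw [this]
        have h0 : 0 ≤ (K * h) ^ 2 * WW d ω t T 1 ^ 2 := by positivity
        linarith
      · have : K / 4 * h * WW d ω t T 0 * (K / 4 * h * (4 * WW d ω t T 2)) =
            1 / 4 * ((K * h) ^ 2 * (WW d ω t T 0 * WW d ω t T 2)) := by ring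
        rw [this]
        have h0 : 0 ≤ (K * h) ^ 2 * (WW d ω t T 0 * WW d ω t T 2) := by positivity
        linarith
    have hmax0 : 0 ≤ max ((K / 4 * h * (2 * WW d ω t T 1)) ^ 2)
        (K / 4 * h * WW d ω t T 0 * (K / 4 * h * (4 * WW d ω t T 2))) :=
      le_max_of_le_left (sq_nonneg _)
    have hp0 : K / 4 * h * WW d ω t T 0 ≤ K * h * WW d ω t T 0 := by
      apply mul_le_mul_of_nonneg_right _ w0
      apply mul_le_mul_of_nonneg_right _ hh0.le
      linarith
    have hd3 : 2 * d = (2 * d - 3) + 3 := by omega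
    calc C₄ * ((K * h * D) ^ (2 * d - 3) * (K / 4 * h * WW d ω t T 0 *
          max ((K / 4 * h * (2 * WW d ω t T 1)) ^ 2)
            (K / 4 * h * WW d ω t T 0 * (K / 4 * h * (4 * WW d ω t T 2)))))
        ≤ C₄ * ((K * h * D) ^ (2 * d - 3) * (K * h * WW d ω t T 0 *
          ((K * h) ^ 2 * max (WW d ω t T 1 ^ 2) (WW d ω t T 0 * WW d ω t T 2)))) := by
          apply mul_le_mul_of_nonneg_left _ hC4.le
          apply mul_le_mul_of_nonneg_left _ (by positivity)
          exact mul_le_mul hp0 hmax hmax0 (by positivity)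
      _ = C' * h ^ (2 * d) * EE d ω t T := by
          unfold EE
          rw [hC', hd3]
          rw [show 2 * d - 3 + 3 - 3 = 2 * d - 3 from by omega]
          rw [pow_add K, pow_add h, mul_pow, mul_pow]
          ring
  have hfin : ∀ M : ℝ, EE d ω t T ≤ D ^ 3 * M → 1 ≤ C' * D ^ 3 * h ^ (2 * d) * M := by
    intro M hM
    calc (1 : ℝ) ≤ C' * h ^ (2 * d) * EE d ω t T := main
      _ ≤ C' * h ^ (2 * d) * (D ^ 3 * M) := mul_le_mul_of_nonneg_left hM (by positivity)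
      _ = C' * D ^ 3 * h ^ (2 * d) * M := by ring
  have hApos : 0 < ω ^ β := Real.rpow_pos_of_pos hω β
  have hA2 : ω ^ (2 * β) = (ω ^ β) ^ 2 := by
    rw [mul_comm, Real.rpow_mul hω.le]
    exact Real.rpow_natCast _ 2
  refine ⟨?_, ?_, ?_⟩
  · have e : (ω ^ 3 / t ^ 2) ^ β = (ω ^ β) ^ 3 / T ^ 2 := by
      rw [Real.div_rpow (by positivity) (by positivity), ← Real.rpow_natCast ω 3,
        ← Real.rpow_natCast t 2, ← Real.rpow_mul hω.le, ← Real.rpow_mul ht.le,
        mul_comm _ β, mul_comm _ β, Real.rpow_mul hω.le, Real.rpow_mul ht.le,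
        Real.rpow_natCast, Real.rpow_natCast]
    rw [e]
    exact hfin _ (EE_one hω ht hβ hβ1 d)
  · intro hle
    rw [ht1T] at hle
    rw [hA2]
    rcases lt_or_ge ω (t ^ 2) with hlt | hge
    · refine hfin _ ((EE_one hω ht hβ hβ1 d).trans ?_)
      apply mul_le_mul_of_nonneg_left _ (by positivity)
      have hA : ω ^ β ≤ T ^ 2 := by
        calc ω ^ β ≤ (t ^ 2) ^ β := Real.rpow_le_rpow hω.le hlt.le hβ.le
          _ = T ^ 2 := by
              rw [← Real.rpow_natCast t 2, ← Real.rpow_mul ht.le, mul_comm _ β,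
                Real.rpow_mul ht.le, Real.rpow_natCast]
      rw [div_le_iff₀ (by positivity)]
      calc (ω ^ β) ^ 3 = (ω ^ β) ^ 2 * ω ^ β := by ring
        _ ≤ (ω ^ β) ^ 2 * T ^ 2 := mul_le_mul_of_nonneg_left hA (by positivity)
    · refine hfin _ ((EE_two hω ht hTpos hT1 htT hle d).trans ?_)
      apply mul_le_mul_of_nonneg_left _ (by positivity)
      have hA : T ^ 2 ≤ ω ^ β := by
        calc T ^ 2 = (t ^ 2) ^ β := by
              rw [← Real.rpow_natCast t 2, ← Real.rpow_mul ht.le, mul_comm _ β,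
                Real.rpow_mul ht.le, Real.rpow_natCast]
          _ ≤ ω ^ β := Real.rpow_le_rpow (by positivity) hge hβ.le
      calc T ^ 4 = (T ^ 2) ^ 2 := by ring
        _ ≤ (ω ^ β) ^ 2 := pow_le_pow_left₀ (by positivity) hA 2
  · intro hle
    rw [ht1T] at hle
    exact hfin _ (EE_three hω ht hTpos hT1 htT hle d)

end Pool.Agent.MP211V
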