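import Pool.Agent.Lib.MP_211f72_nt.V.Spec

/-!
# MP_211f72_nt, second theorem: change of the base point of the Taylor coefficients
-/

namespace Pool.Agent.MP211V

open Polynomial

theorem vShift : S_Shift := by
  intro n
  refine ⟨2 ^ n, by positivity, ?_⟩
  intro P x y i hP
  by_cases hi : i ≤ n
  · have e1 : tc P y i = (hasseDeriv i (taylor x P)).eval (y - x) := by
      unfold tc
      rw [← taylor_coeff, taylor_taylor]
      congr 2
      ring_nf
    have hdeg : (hasseDeriv i (taylor x P)).natDegree < n + 1 - i := by
      have h1 := natDegree_hasseDeriv_le (taylor x P) i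
      rw [natDegree_taylor] at h1
      omega
    rw [e1, eval_eq_sum_range' hdeg]
    have e2 : ∑ j ∈ Finset.Icc i n, |tc P x j| * |y - x| ^ (j - i) =
        ∑ k ∈ Finset.range (n + 1 - i), |tc P x (i + k)| * |y - x| ^ k := by
      rw [← Finset.Ico_add_one_right_eq_Icc, Finset.sum_Ico_eq_sum_range]
      apply Finset.sum_congr rfl
      intro k _
      rw [Nat.add_sub_cancel_left]
    rw [e2, Finset.mul_sum]
    refine (Finset.abs_sum_le_sum_abs _ _).trans (Finset.sum_le_sum ?_)
    intro k hk
    rw [Finset.mem_range] at hk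
    rw [hasseDeriv_coeff, abs_mul, abs_mul, abs_pow, Nat.add_comm k i]
    have h2 : |(((i + k).choose i : ℕ) : ℝ)| ≤ 2 ^ n := by
      rw [abs_of_nonneg (Nat.cast_nonneg _)]
      have h3 : (i + k).choose i ≤ 2 ^ n :=
        (Nat.choose_le_two_pow _ _).trans (Nat.pow_le_pow_right (by norm_num) (by omega))
      exact_mod_cast h3
    rw [mul_assoc]
    exact mul_le_mul_of_nonneg_right h2 (by positivity)
  · have h0 : tc P y i = 0 := by
      unfold tc
      apply coeff_eq_zero_of_natDegree_lt
      rw [natDegree_taylor]
      omega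
    rw [h0, abs_zero]
    positivity

end Pool.Agent.MP211V
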