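import Pool.Agent.Lib.MP_211f72_nt.V.Spec

/-!
# MP_211f72_nt, second theorem: on one cap at most one irreducible polynomial of degree `n` is small
-/

namespace Pool.Agent.MP211V

open Polynomial

theorem vTwo (h1 : S_Sep) : S_Two := by
  intro n lam A hn hlam hlam2 hA
  obtain ⟨C, hC, hsep⟩ := h1 n hn
  have hn' : (2 : ℝ) ≤ n := by exact_mod_cast hn
  have hγ : 0 < 1 - ((n : ℝ) - 1) * lam := by
    have h2 : (0 : ℝ) < (n : ℝ) - 1 := by linarith
    have h3 : lam * ((n : ℝ) - 1) < 1 := (lt_div_iff₀ h2).1 hlam2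
    linarith
  obtain ⟨γ, hγe⟩ : ∃ γ : ℝ, γ = 2 * (1 - ((n : ℝ) - 1) * lam) := ⟨_, rfl⟩
  have hγ0 : 0 < γ := by rw [hγe]; linarith
  obtain ⟨Y₁, hY₁⟩ := Filter.eventually_atTop.1
    ((tendsto_rpow_atTop hγ0).eventually_ge_atTop (C * A ^ (2 * n) + 1))
  refine ⟨max Y₁ 1, le_max_right _ _, ?_⟩
  intro Y a P Q hY ha hPi hQi hPd hQd hPh hQh hPs hQs
  have hY1 : Y₁ ≤ Y := (le_max_left _ _).trans hY
  have hY2 : 1 ≤ Y := (le_max_right _ _).trans hY
  have hY0 : 0 < Y := by linarith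
  have hbig := hY₁ Y hY1
  by_contra hcon
  push Not at hcon
  obtain ⟨hPQ, hPQ'⟩ := hcon
  have hθ0 : 0 < th lam Y := by unfold th; positivity
  have hθ1 : th lam Y ≤ 1 := by
    unfold th
    apply Real.rpow_le_one_of_one_le_of_nonpos hY2
    linarith
  have hθ2 : th lam Y ^ 2 = Y ^ (-1 - lam) := by
    unfold th
    rw [← Real.rpow_natCast, ← Real.rpow_mul hY0.le]
    congr 1
    push_cast
    ring
  have hω0 : 0 < Y ^ (-1 - lam) := by positivity
  have hh1 : 1 ≤ A * Y ^ lam := by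
    have h2 : 1 ≤ Y ^ lam := Real.one_le_rpow hY2 hlam.le
    nlinarith
  have hprod : A * Y ^ lam * Y ^ (-1 - lam) = A / Y := by
    rw [mul_assoc, ← Real.rpow_add hY0]
    have : lam + (-1 - lam) = -1 := by ring
    rw [this, Real.rpow_neg_one]
    rfl
  have hst : th lam Y ≤ a + th lam Y - a := by linarith
  obtain ⟨hs, -, -⟩ := hsep P Q (A * Y ^ lam) (Y ^ (-1 - lam)) (th lam Y) 1 a (a + th lam Y) a
    (a + th lam Y) hPi hQi hPd hQd hPQ hPQ' hh1 hω0 hθ0 hθ1 one_pos le_rfl (by linarith) (by linarith)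
    hPh hQh (by rw [hprod]; exact hPs) (by rw [hprod]; exact hQs) hst hst
    (by rw [sub_self, abs_zero]; positivity)
  rw [Real.rpow_one, hθ2] at hs
  have e1 : (Y ^ (-1 - lam)) ^ 3 / Y ^ (-1 - lam) = Y ^ (2 * (-1 - lam)) := by
    rw [pow_succ, mul_div_assoc, div_self hω0.ne', mul_one, ← Real.rpow_natCast, ← Real.rpow_mul hY0.le]
    congr 1
    push_cast
    ring
  have e2 : (A * Y ^ lam) ^ (2 * n) = A ^ (2 * n) * Y ^ (2 * (n : ℝ) * lam) := by
    rw [mul_pow, ← Real.rpow_natCast (Y ^ lam), ← Real.rpow_mul hY0.le]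
    congr 2
    push_cast
    ring
  rw [e1, e2] at hs
  have e3 : C * (A ^ (2 * n) * Y ^ (2 * (n : ℝ) * lam)) * Y ^ (2 * (-1 - lam)) =
      C * A ^ (2 * n) * Y ^ (-γ) := by
    rw [mul_assoc C, mul_assoc (A ^ (2 * n)), ← Real.rpow_add hY0, ← mul_assoc]
    congr 2
    rw [hγe]
    ring
  rw [e3, Real.rpow_neg hY0.le] at hs
  have hp : 0 < Y ^ γ := by positivity
  have h5 : Y ^ γ ≤ C * A ^ (2 * n) := by
    have h6 := mul_le_mul_of_nonneg_right hs hp.le
    rw [one_mul, mul_assoc, inv_mul_cancel₀ hp.ne', mul_one] at h6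
    exact h6
  linarith

end Pool.Agent.MP211V
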