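import Pool.Agent.Lib.MP_211f72_nt.V.Spec
import Pool.Agent.Lib.MP_211f72_nt.Expo

/-!
# MP_211f72_nt, second theorem: upper bound for the level sets
-/

namespace Pool.Agent.MP211V

open MeasureTheory Filter Topology

theorem UpEqN.continuousAt_sdim (n : ℕ) (lam : ℝ) (h : 0 < 1 + lam) :
    ContinuousAt (fun l => sdim n l) lam := by
  unfold sdim
  exact ContinuousAt.div (by fun_prop) (by fun_prop) h.ne'

theorem vUpEqN (h1 : S_UpperN) : S_UpEqN := by
  intro n lam hn hlam hlam'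
  have hn0 : (0 : ℝ) < n := by
    have : 0 < n := by omega
    exact_mod_cast this
  have hl0 : 0 < lam := lt_trans (by positivity) hlam
  have hstep : ∀ mu : ℝ, 1 / (n : ℝ) < mu → mu < lam →
      dimH {ξ : ℝ | MP_211f72_nt.lambdaExp n ξ = (lam : EReal)} ≤ ENNReal.ofReal (sdim n mu) := by
    intro mu hmu1 hmu2
    refine le_trans (dimH_mono ?_) (h1 n mu hn hmu1 (hmu2.trans hlam'))
    intro ξ hξ
    exact MP_211f72_nt.expo.1 n ξ lam mu hξ hmu2
  have hcont : Tendsto (fun l => ENNReal.ofReal (sdim n l)) (𝓝[<] lam)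
      (𝓝 (ENNReal.ofReal (sdim n lam))) := by
    apply ENNReal.tendsto_ofReal
    exact (UpEqN.continuousAt_sdim n lam (by linarith)).tendsto.mono_left nhdsWithin_le_nhds
  refine ge_of_tendsto hcont ?_
  have : ∀ᶠ l in 𝓝[<] lam, l ∈ Set.Ioo (1 / (n : ℝ)) lam := Ioo_mem_nhdsLT hlam
  filter_upwards [this] with l hl
  exact hstep l hl.1 hl.2

end Pool.Agent.MP211V
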