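import Pool.Agent.Lib.MP_211f72_nt.V.Spec

/-!
# MP_211f72_nt, second theorem: the upper bound for `{Approx n ξ λ}` (`UpperN`)
-/

namespace Pool.Agent.MP211V

open MeasureTheory Filter

/-- the integer point translated by `m` -/
def upShift (n : ℕ) (x : Fin (n + 1) → ℤ) (m : ℤ) (j : Fin (n + 1)) : ℤ :=
  ∑ i : Fin (n + 1), ((j : ℕ).choose (i : ℕ) : ℤ) * (-m) ^ ((j : ℕ) - (i : ℕ)) * x i

theorem upShift_cast (n : ℕ) (x : Fin (n + 1) → ℤ) (m : ℤ) (j : Fin (n + 1)) :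
    ((upShift n x m j : ℤ) : ℝ) = yc n x m j := by
  unfold upShift yc
  push_cast
  rfl

theorem upShift_zero (hY : S_Yc) (n : ℕ) (x : Fin (n + 1) → ℤ) (m : ℤ) :
    upShift n x m 0 = x 0 := by
  have h1 := (hY n x).1 (m : ℝ)
  rw [← upShift_cast] at h1
  exact_mod_cast h1

/-- binomial sums over `Fin (n + 1)` -/
theorem up_binom (n : ℕ) (a b : ℝ) (j : Fin (n + 1)) :
    ∑ i : Fin (n + 1), ((j : ℕ).choose (i : ℕ) : ℝ) * b ^ ((j : ℕ) - (i : ℕ)) * a ^ (i : ℕ) =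
      (a + b) ^ (j : ℕ) := by
  rw [Fin.sum_univ_eq_sum_range
    (fun i => ((j : ℕ).choose i : ℝ) * b ^ ((j : ℕ) - i) * a ^ i) (n + 1)]
  rw [add_pow]
  symm
  have hj : (j : ℕ) + 1 ≤ n + 1 := j.2
  refine (Finset.sum_subset (Finset.range_subset_range.mpr hj) ?_).trans ?_
  · intro i _ hi
    rw [Finset.mem_range, not_lt] at hi
    rw [Nat.choose_eq_zero_of_lt (by omega)]
    simp
  · refine Finset.sum_congr rfl fun i _ => ?_
    ring

/-- the errors after the translation -/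
theorem up_err (hY : S_Yc) (n : ℕ) (x : Fin (n + 1) → ℤ) (m : ℤ) (ξ δ : ℝ) (hδ : 0 ≤ δ)
    (h : ∀ j : Fin (n + 1), 1 ≤ (j : ℕ) → |(x 0 : ℝ) * ξ ^ (j : ℕ) - (x j : ℝ)| ≤ δ)
    (j : Fin (n + 1)) :
    |(upShift n x m 0 : ℝ) * (ξ - m) ^ (j : ℕ) - (upShift n x m j : ℝ)| ≤
      (1 + |(m : ℝ)|) ^ n * δ := by
  rw [upShift_zero hY, upShift_cast]
  have e1 : (ξ - m) ^ (j : ℕ) =
      ∑ i : Fin (n + 1), ((j : ℕ).choose (i : ℕ) : ℝ) * (-(m : ℝ)) ^ ((j : ℕ) - (i : ℕ)) *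
        ξ ^ (i : ℕ) := by
    rw [up_binom, sub_eq_add_neg]
  have e2 : (x 0 : ℝ) * (ξ - m) ^ (j : ℕ) - yc n x m j =
      ∑ i : Fin (n + 1), ((j : ℕ).choose (i : ℕ) : ℝ) * (-(m : ℝ)) ^ ((j : ℕ) - (i : ℕ)) *
        ((x 0 : ℝ) * ξ ^ (i : ℕ) - x i) := by
    rw [e1, yc, Finset.mul_sum, ← Finset.sum_sub_distrib]
    refine Finset.sum_congr rfl fun i _ => ?_
    ring
  rw [e2]
  have hall : ∀ i : Fin (n + 1), |(x 0 : ℝ) * ξ ^ (i : ℕ) - x i| ≤ δ := by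
    intro i
    rcases Nat.eq_zero_or_pos (i : ℕ) with h0 | h0
    · have : i = 0 := Fin.ext h0
      rw [this]
      simpa using hδ
    · exact h i h0
  calc |∑ i : Fin (n + 1), ((j : ℕ).choose (i : ℕ) : ℝ) * (-(m : ℝ)) ^ ((j : ℕ) - (i : ℕ)) *
        ((x 0 : ℝ) * ξ ^ (i : ℕ) - x i)|
      ≤ ∑ i : Fin (n + 1), |((j : ℕ).choose (i : ℕ) : ℝ) * (-(m : ℝ)) ^ ((j : ℕ) - (i : ℕ)) *
        ((x 0 : ℝ) * ξ ^ (i : ℕ) - x i)| := Finset.abs_sum_le_sum_abs _ _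
    _ ≤ ∑ i : Fin (n + 1), ((j : ℕ).choose (i : ℕ) : ℝ) * |(m : ℝ)| ^ ((j : ℕ) - (i : ℕ)) *
        (1 : ℝ) ^ (i : ℕ) * δ := by
      refine Finset.sum_le_sum fun i _ => ?_
      rw [abs_mul, abs_mul, Nat.abs_cast, abs_pow, abs_neg, one_pow, mul_one]
      exact mul_le_mul_of_nonneg_left (hall i) (by positivity)
    _ = (1 + |(m : ℝ)|) ^ (j : ℕ) * δ := by
      rw [← Finset.sum_mul, up_binom]
    _ ≤ (1 + |(m : ℝ)|) ^ n * δ := by
      refine mul_le_mul_of_nonneg_right ?_ hδ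
      have h1 : (1 : ℝ) ≤ 1 + |(m : ℝ)| := by
        have := abs_nonneg (m : ℝ)
        linarith
      exact pow_le_pow_right₀ h1 (Nat.lt_succ_iff.mp j.2)

/-- a number with `GdN n λ M` for all `M`, translated, is near the curve at arbitrarily large scales -/
theorem up_nr (hY : S_Yc) (n : ℕ) (lam lam' ξ : ℝ) (m : ℤ) (hl' : 0 < lam') (hl : lam' < lam)
    (hG : ∀ M : ℕ, GdN n lam M ξ) (K : ℕ) :
    ∃ k : ℕ, K ≤ k ∧ ∃ x : Fin (n + 1) → ℤ, Nr n (2 ^ (k + 1)) lam' (ξ - m) x := by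
  have hC := (tendsto_rpow_atTop (sub_pos.mpr hl)).eventually_ge_atTop ((1 + |(m : ℝ)|) ^ n)
  rw [eventually_atTop] at hC
  obtain ⟨A, hA⟩ := hC
  obtain ⟨x, hxM, hx0, herr⟩ := hG (max (2 ^ K) ⌈A⌉₊)
  have hpos : (x 0).natAbs ≠ 0 := Int.natAbs_ne_zero.2 hx0
  have hcast : (((x 0).natAbs : ℕ) : ℝ) = |(x 0 : ℝ)| := by
    rw [Nat.cast_natAbs, Int.cast_abs]
  rw [Nat.cast_max, max_le_iff] at hxM
  obtain ⟨hxK, hxA⟩ := hxM
  have hxA' : A ≤ |(x 0 : ℝ)| := (Nat.le_ceil A).trans hxA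
  have hk1 : 2 ^ Nat.log 2 (x 0).natAbs ≤ (x 0).natAbs := Nat.pow_log_le_self 2 hpos
  have hk2 : (x 0).natAbs < 2 ^ (Nat.log 2 (x 0).natAbs + 1) :=
    Nat.lt_pow_succ_log_self (by norm_num) _
  have hK : 2 ^ K ≤ (x 0).natAbs := by
    rw [← hcast] at hxK
    exact_mod_cast hxK
  have hKk : K ≤ Nat.log 2 (x 0).natAbs := Nat.le_log_of_pow_le (by norm_num) hK
  have hk1' : (2 : ℝ) ^ (Nat.log 2 (x 0).natAbs) ≤ |(x 0 : ℝ)| := by
    rw [← hcast]; exact_mod_cast hk1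
  have hk2' : |(x 0 : ℝ)| ≤ (2 : ℝ) ^ (Nat.log 2 (x 0).natAbs + 1) := by
    rw [← hcast]; exact_mod_cast hk2.le
  have hxpos : 0 < |(x 0 : ℝ)| := by
    rw [abs_pos]
    exact_mod_cast hx0
  have hhalf : (2 : ℝ) ^ (Nat.log 2 (x 0).natAbs + 1) / 2 = 2 ^ (Nat.log 2 (x 0).natAbs) := by
    rw [pow_succ]
    ring
  refine ⟨Nat.log 2 (x 0).natAbs, hKk, upShift n x m, ?_, ?_, ?_⟩
  · rw [upShift_zero hY, hhalf]
    exact hk1'
  · rw [upShift_zero hY]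
    exact hk2'
  · intro j
    refine (up_err hY n x m ξ (|(x 0 : ℝ)| ^ (-lam)) (by positivity) herr j).trans ?_
    rw [hhalf]
    calc (1 + |(m : ℝ)|) ^ n * |(x 0 : ℝ)| ^ (-lam)
        ≤ |(x 0 : ℝ)| ^ (lam - lam') * |(x 0 : ℝ)| ^ (-lam) := by
          have := hA _ hxA'
          gcongr
      _ = |(x 0 : ℝ)| ^ (-lam') := by
          rw [← Real.rpow_add hxpos]
          congr 1
          ring
      _ ≤ (2 ^ (Nat.log 2 (x 0).natAbs)) ^ (-lam') :=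
          Real.rpow_le_rpow_of_nonpos (by positivity) hk1' (by linarith)

/-- **UpperN.** -/
theorem vUpperN (hL : S_Level) (hE : S_ExpoN) (hY : S_Yc) : S_UpperN := by
  intro n lam hn hl1 hl2
  have hn0 : (0 : ℝ) < n := by
    have : (4 : ℝ) ≤ n := by exact_mod_cast hn
    linarith
  have hlam0 : 0 < lam := lt_trans (by positivity) hl1
  obtain ⟨hE1, _, _⟩ := hE
  have key : ∀ lam' : ℝ, 1 / (n : ℝ) < lam' → lam' < lam →
      dimH {ξ : ℝ | MP_211f72_nt.Approx n ξ lam} ≤ ENNReal.ofReal (sdim n lam') := by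
    intro lam' h1 h2
    have hlam'0 : 0 < lam' := lt_trans (by positivity) h1
    set E : Set ℝ := {ξ : ℝ | 0 ≤ ξ ∧ ξ ≤ 1 ∧ ∀ K : ℕ, ∃ k : ℕ, K ≤ k ∧
      ∃ x : Fin (n + 1) → ℤ, Nr n (2 ^ (k + 1)) lam' ξ x} with hEd
    have hsub : {ξ : ℝ | MP_211f72_nt.Approx n ξ lam} ⊆
        Set.range ((↑) : ℚ → ℝ) ∪ ⋃ m : ℤ, (IsometryEquiv.addRight (m : ℝ)) '' E := by
      intro ξ hξ
      by_cases hirr : Irrational ξ
      · right
        rw [Set.mem_iUnion]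
        refine ⟨⌊ξ⌋, ξ - ⌊ξ⌋, ⟨?_, ?_, ?_⟩, ?_⟩
        · have := Int.floor_le ξ
          linarith
        · have := Int.lt_floor_add_one ξ
          linarith
        · exact up_nr hY n lam lam' ξ ⌊ξ⌋ hlam'0 h2
            (hE1 n ξ lam (by omega) hirr hlam0 hξ)
        · simp
      · left
        unfold Irrational at hirr
        exact not_not.1 hirr
    refine (dimH_mono hsub).trans ?_
    rw [dimH_union, dimH_iUnion, (Set.countable_range _).dimH_zero]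
    refine max_le zero_le (iSup_le fun m => ?_)
    rw [IsometryEquiv.dimH_image]
    exact hL n lam' hn h1 (h2.trans hl2)
  have hc : ContinuousAt (fun l : ℝ => ENNReal.ofReal (sdim n l)) lam := by
    have h1 : ContinuousAt (fun l : ℝ => sdim n l) lam := by
      unfold sdim
      refine ContinuousAt.div (by fun_prop) (by fun_prop) ?_
      have : 0 < 1 + lam := by linarith
      exact this.ne'
    exact ENNReal.continuous_ofReal.continuousAt.comp h1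
  have hc2 : Tendsto (fun l : ℝ => ENNReal.ofReal (sdim n l)) (nhdsWithin lam (Set.Iio lam))
      (nhds (ENNReal.ofReal (sdim n lam))) := hc.tendsto.mono_left nhdsWithin_le_nhds
  refine ge_of_tendsto hc2 ?_
  have hI : Set.Ioo (1 / (n : ℝ)) lam ∈ nhdsWithin lam (Set.Iio lam) := Ioo_mem_nhdsLT hl1
  filter_upwards [hI] with l hl
  exact key l hl.1 hl.2

end Pool.Agent.MP211V
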