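import Pool.Agent.Lib.MP_211f72_nt.V.Spec

/-!
# MP_211f72_nt, second theorem: identities for the coordinates `y_j(ξ)`
-/

namespace Pool.Agent.MP211V

open Polynomial

namespace Yc

/-- sums with binomial coefficients over `Fin (n+1)` and over `range (j+1)` -/
theorem sum_choose (n j : ℕ) (hj : j < n + 1) (f : ℕ → ℝ) :
    ∑ i : Fin (n + 1), (j.choose (i : ℕ) : ℝ) * f i =
      ∑ i ∈ Finset.range (j + 1), (j.choose i : ℝ) * f i := by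
  rw [Fin.sum_univ_eq_sum_range (fun i => (j.choose i : ℝ) * f i) (n + 1)]
  symm
  apply Finset.sum_subset
  · intro i hi
    simp only [Finset.mem_range] at hi ⊢
    omega
  · intro i _ hi
    rw [Nat.choose_eq_zero_of_lt (by simpa using hi), Nat.cast_zero, zero_mul]

/-- the binomial theorem over `Fin (n+1)` -/
theorem binom (n j : ℕ) (hj : j < n + 1) (a b : ℝ) :
    ∑ i : Fin (n + 1), (j.choose (i : ℕ) : ℝ) * (a ^ (j - (i : ℕ)) * b ^ (i : ℕ)) = (b + a) ^ j := by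
  rw [sum_choose n j hj (fun i => a ^ (j - i) * b ^ i), add_pow]
  refine Finset.sum_congr rfl fun i _ => ?_
  ring

/-- the functional `T^i ↦ x_i` -/
noncomputable def ph (n : ℕ) (x : Fin (n + 1) → ℤ) : ℝ[X] →ₗ[ℝ] ℝ :=
  ∑ i : Fin (n + 1), (x i : ℝ) • lcoeff ℝ (i : ℕ)

theorem ph_apply (n : ℕ) (x : Fin (n + 1) → ℤ) (P : ℝ[X]) :
    ph n x P = ∑ i : Fin (n + 1), (x i : ℝ) * P.coeff (i : ℕ) := by
  simp [ph, LinearMap.sum_apply]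

theorem yc_eq (n : ℕ) (x : Fin (n + 1) → ℤ) (ξ : ℝ) (j : Fin (n + 1)) :
    yc n x ξ j = ph n x ((X - C ξ) ^ (j : ℕ)) := by
  rw [ph_apply, yc]
  refine Finset.sum_congr rfl fun i _ => ?_
  rw [sub_eq_add_neg X, ← C_neg, coeff_X_add_C_pow]
  ring

theorem yc_add (n : ℕ) (x : Fin (n + 1) → ℤ) (ξ τ : ℝ) (j : Fin (n + 1)) :
    yc n x (ξ + τ) j =
    ∑ i : Fin (n + 1), ((j : ℕ).choose (i : ℕ) : ℝ) * (-τ) ^ ((j : ℕ) - (i : ℕ)) * yc n x ξ i := by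
  have h1 : ∀ i : Fin (n + 1), ((j : ℕ).choose (i : ℕ) : ℝ) * (-τ) ^ ((j : ℕ) - (i : ℕ)) *
      yc n x ξ i = ((j : ℕ).choose (i : ℕ) : ℝ) *
        ((fun m : ℕ => (-τ) ^ ((j : ℕ) - m) * ph n x ((X - C ξ) ^ m)) (i : ℕ)) := by
    intro i
    rw [yc_eq, mul_assoc]
  rw [Finset.sum_congr rfl (fun i _ => h1 i),
    sum_choose n j j.2 (fun m : ℕ => (-τ) ^ ((j : ℕ) - m) * ph n x ((X - C ξ) ^ m)), yc_eq]
  have h2 : (X - C (ξ + τ) : ℝ[X]) = (X - C ξ) + C (-τ) := by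
    rw [C_add, C_neg]
    ring
  rw [h2, add_pow, map_sum]
  refine Finset.sum_congr rfl fun m _ => ?_
  have h3 : (X - C ξ : ℝ[X]) ^ m * C (-τ) ^ ((j : ℕ) - m) * (((j : ℕ).choose m : ℕ) : ℝ[X]) =
      (((j : ℕ).choose m : ℝ) * (-τ) ^ ((j : ℕ) - m)) • (X - C ξ : ℝ[X]) ^ m := by
    rw [smul_eq_C_mul, C_mul, C_pow, C_eq_natCast]
    ring
  rw [h3, map_smul, smul_eq_mul, mul_assoc]

theorem yc_at_zero (n : ℕ) (x : Fin (n + 1) → ℤ) (j : Fin (n + 1)) : yc n x 0 j = x j := by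
  rw [yc_eq, ph_apply]
  simp only [C_0, sub_zero, coeff_X_pow]
  rw [Finset.sum_eq_single j]
  · simp
  · intro i _ hij
    rw [if_neg (fun h => hij (Fin.ext h)), mul_zero]
  · intro h
    exact absurd (Finset.mem_univ j) h

theorem yc_zero (n : ℕ) (x : Fin (n + 1) → ℤ) (ξ : ℝ) : yc n x ξ 0 = x 0 := by
  rw [← yc_at_zero n x 0, yc_eq, yc_eq]
  simp

theorem yc_shift (n : ℕ) (x : Fin (n + 1) → ℤ) (ξ : ℝ) (j : Fin (n + 1)) :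
    (x j : ℝ) =
    ∑ i : Fin (n + 1), ((j : ℕ).choose (i : ℕ) : ℝ) * ξ ^ ((j : ℕ) - (i : ℕ)) * yc n x ξ i := by
  have h := yc_add n x ξ (-ξ) j
  rw [add_neg_cancel, yc_at_zero, neg_neg] at h
  exact h

theorem four (n : ℕ) (x : Fin (n + 1) → ℤ) (ξ : ℝ) (j : Fin (n + 1)) :
    (x j : ℝ) - (x 0 : ℝ) * ξ ^ (j : ℕ) =
    ∑ i : Fin (n + 1), if (i : ℕ) = 0 then 0 else
      ((j : ℕ).choose (i : ℕ) : ℝ) * ξ ^ ((j : ℕ) - (i : ℕ)) * yc n x ξ i := by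
  rw [yc_shift n x ξ j, Fin.sum_univ_succ, Fin.sum_univ_succ]
  simp [yc_zero]
  ring

theorem choose_le (n : ℕ) (j : Fin (n + 1)) (ξ δ : ℝ) (hδ : 0 ≤ δ) :
    ∑ i : Fin (n + 1), ((j : ℕ).choose (i : ℕ) : ℝ) * |ξ| ^ ((j : ℕ) - (i : ℕ)) * δ ≤
      (1 + |ξ|) ^ n * δ := by
  have h := binom n j j.2 |ξ| 1
  have h1 : ∑ i : Fin (n + 1), ((j : ℕ).choose (i : ℕ) : ℝ) * |ξ| ^ ((j : ℕ) - (i : ℕ)) * δ =
      (1 + |ξ|) ^ (j : ℕ) * δ := by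
    rw [← h, Finset.sum_mul]
    refine Finset.sum_congr rfl fun i _ => ?_
    rw [one_pow, mul_one]
  rw [h1]
  refine mul_le_mul_of_nonneg_right ?_ hδ
  exact pow_le_pow_right₀ (by linarith [abs_nonneg ξ]) (by omega)

theorem five (n : ℕ) (x : Fin (n + 1) → ℤ) (ξ δ : ℝ) (hδ : 0 ≤ δ)
    (h : ∀ i : Fin (n + 1), |(x 0 : ℝ) * ξ ^ (i : ℕ) - (x i : ℝ)| ≤ δ) (j : Fin (n + 1))
    (hj : (j : ℕ) ≠ 0) : |yc n x ξ j| ≤ (1 + |ξ|) ^ n * δ := by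
  have h0 : ∑ i : Fin (n + 1), ((j : ℕ).choose (i : ℕ) : ℝ) *
      ((-ξ) ^ ((j : ℕ) - (i : ℕ)) * ξ ^ (i : ℕ)) = 0 := by
    rw [binom n j j.2 (-ξ) ξ, add_neg_cancel, zero_pow hj]
  have h1 : yc n x ξ j = ∑ i : Fin (n + 1), ((j : ℕ).choose (i : ℕ) : ℝ) *
      (-ξ) ^ ((j : ℕ) - (i : ℕ)) * ((x i : ℝ) - (x 0 : ℝ) * ξ ^ (i : ℕ)) := by
    have h2 : yc n x ξ j = yc n x ξ j - (x 0 : ℝ) * ∑ i : Fin (n + 1),
        ((j : ℕ).choose (i : ℕ) : ℝ) * ((-ξ) ^ ((j : ℕ) - (i : ℕ)) * ξ ^ (i : ℕ)) := by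
      rw [h0, mul_zero, sub_zero]
    rw [h2, yc, Finset.mul_sum, ← Finset.sum_sub_distrib]
    refine Finset.sum_congr rfl fun i _ => ?_
    ring
  rw [h1]
  refine (Finset.abs_sum_le_sum_abs _ _).trans ?_
  refine (Finset.sum_le_sum fun i _ => ?_).trans (choose_le n j ξ δ hδ)
  rw [abs_mul, abs_mul, abs_pow, abs_neg, Nat.abs_cast, abs_sub_comm]
  exact mul_le_mul_of_nonneg_left (h i) (by positivity)

theorem six (n : ℕ) (x : Fin (n + 1) → ℤ) (ξ δ : ℝ) (hδ : 0 ≤ δ)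
    (h : ∀ i : Fin (n + 1), (i : ℕ) ≠ 0 → |yc n x ξ i| ≤ δ) (j : Fin (n + 1)) :
    |(x 0 : ℝ) * ξ ^ (j : ℕ) - (x j : ℝ)| ≤ (1 + |ξ|) ^ n * δ := by
  rw [abs_sub_comm, four n x ξ j]
  refine (Finset.abs_sum_le_sum_abs _ _).trans ?_
  refine (Finset.sum_le_sum fun i _ => ?_).trans (choose_le n j ξ δ hδ)
  by_cases hi : (i : ℕ) = 0
  · rw [if_pos hi, abs_zero]
    positivity
  · rw [if_neg hi, abs_mul, abs_mul, abs_pow, Nat.abs_cast]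
    exact mul_le_mul_of_nonneg_left (h i hi) (by positivity)

end Yc

theorem vYc : S_Yc := by
  intro n x
  refine ⟨Yc.yc_zero n x, ?_, Yc.yc_add n x, Yc.four n x, ?_, ?_⟩
  · intro ξ j i hj hi
    have hi0 : i = 0 := Fin.ext hi
    rw [← Yc.yc_at_zero n x j, ← Yc.yc_at_zero n x i, Yc.yc_eq, Yc.yc_eq, Yc.yc_eq, hj, hi]
    have h : ((X - C ξ : ℝ[X]) ^ 1) = (X - C 0) ^ 1 - ξ • (X - C 0 : ℝ[X]) ^ 0 := by
      rw [smul_eq_C_mul]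
      simp
    rw [h, map_sub, map_smul, smul_eq_mul]
  · intro ξ δ hδ h j hj
    exact Yc.five n x ξ δ hδ h j hj
  · intro ξ δ hδ h j
    exact Yc.six n x ξ δ hδ h j

end Pool.Agent.MP211V
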