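import Pool.Agent.Lib.MP_211f72_nt.V.Spec
import Pool.Agent.Lib.MP_211f72_nt.V.Coef
import Pool.Agent.Lib.MP_211f72_nt.V.Mar
import Pool.Agent.Lib.MP_211f72_nt.V.Shift
import Pool.Agent.Lib.MP_211f72_nt.V.Int
import Pool.Agent.Lib.MP_211f72_nt.V.MxEx
import Pool.Agent.Lib.MP_211f72_nt.V.MxCard
import Pool.Agent.Lib.MP_211f72_nt.V.Gel
import Pool.Agent.Lib.MP_211f72_nt.V.Fact
import Pool.Agent.Lib.MP_211f72_nt.V.R1
import Pool.Agent.Lib.MP_211f72_nt.V.R3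
import Pool.Agent.Lib.MP_211f72_nt.V.Sep
import Pool.Agent.Lib.MP_211f72_nt.V.Count
import Pool.Agent.Lib.MP_211f72_nt.V.Quad
import Pool.Agent.Lib.MP_211f72_nt.V.Two
import Pool.Agent.Lib.MP_211f72_nt.V.Irr
import Pool.Agent.Lib.MP_211f72_nt.V.Dual
import Pool.Agent.Lib.MP_211f72_nt.V.Yc
import Pool.Agent.Lib.MP_211f72_nt.V.Pts
import Pool.Agent.Lib.MP_211f72_nt.V.LP
import Pool.Agent.Lib.MP_211f72_nt.V.Cheap
import Pool.Agent.Lib.MP_211f72_nt.V.Red
import Pool.Agent.Lib.MP_211f72_nt.V.Cnt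
import Pool.Agent.Lib.MP_211f72_nt.V.Level
import Pool.Agent.Lib.MP_211f72_nt.V.ExpoN
import Pool.Agent.Lib.MP_211f72_nt.V.UpperN
import Pool.Agent.Lib.MP_211f72_nt.V.MinkN
import Pool.Agent.Lib.MP_211f72_nt.V.BadM
import Pool.Agent.Lib.MP_211f72_nt.V.KidsN
import Pool.Agent.Lib.MP_211f72_nt.V.LowerN
import Pool.Agent.Lib.MP_211f72_nt.V.DirN
import Pool.Agent.Lib.MP_211f72_nt.V.UpEqN

/-!
# MP_211f72_nt, second theorem: assembly
-/

namespace Pool.Agent.MP211V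

theorem m_mar : S_Mar := vMar vCoef
theorem m_int : S_Int := vInt m_mar vShift
theorem m_gel : S_Gel := vGel vCoef
theorem m_sep : S_Sep := vSep m_mar vShift vR1 vR3
theorem m_count : S_Count := vCount m_sep vMxCard
theorem m_quad : S_Quad := vQuad m_mar vMxCard
theorem m_two : S_Two := vTwo m_sep
theorem m_irr : S_Irr := vIrr m_count
theorem m_pts : S_Pts := vPts vDual vYc
theorem m_cheap : S_Cheap := vCheap m_count m_quad
theorem m_red : S_Red := vRed vCoef m_int vMxEx m_gel vFact m_count vLP m_cheap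
theorem m_cnt : S_Cnt := vCnt m_int vMxEx m_count m_pts m_two m_irr m_red
theorem m_upper : S_UpperN := vUpperN (vLevel m_cnt) vExpoN vYc
theorem m_badM : S_BadM := vBadM m_cnt vYc
theorem m_kids : S_KidsN := vKidsN vMinkN m_badM vYc
theorem m_lower : S_LowerN := vLowerN vExpoN m_upper
theorem m_dir : S_DirN := vDirN m_upper vExpoN
theorem m_upEq : S_UpEqN := vUpEqN m_upper

theorem main (n : ℕ) (lam : ℝ) (hn : 4 ≤ n) (h1 : 1 / (n : ℝ) ≤ lam)
    (h2 : lam < 1 / ((n : ℝ) - 1)) :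
    dimH {ξ : ℝ | MP_211f72_nt.lambdaExp n ξ = (lam : EReal)} =
      ENNReal.ofReal ((2 - ((n : ℝ) - 1) * lam) / (1 + lam)) := by
  rcases eq_or_lt_of_le h1 with h | h
  · rw [← h, m_dir n hn]
    have hn' : (4 : ℝ) ≤ n := by exact_mod_cast hn
    have hn0 : (n : ℝ) ≠ 0 := by linarith
    have hn1 : (n : ℝ) + 1 ≠ 0 := by linarith
    have e : (2 - ((n : ℝ) - 1) * (1 / (n : ℝ))) / (1 + 1 / (n : ℝ)) = 1 := by
      field_simp
      ring
    rw [e, ENNReal.ofReal_one]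
  · exact le_antisymm (m_upEq n lam hn h h2) (m_lower n lam hn h h2 (m_kids n lam hn h h2))

end Pool.Agent.MP211V
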