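import Pool.Agent.Lib.MP_211f72_nt.V.Spec

/-!
# MP_211f72_nt, second theorem: bound for a resultant of polynomials with small low coefficients
-/

namespace Pool.Agent.MP211V

open Polynomial

namespace R3

/-- the index of a column inside its block -/
def q (d : ℕ) (j : Fin (d + d)) : ℕ := if (j : ℕ) < d then (j : ℕ) else (j : ℕ) - d

/-- the bounds for the coefficients -/
noncomputable def pb (p₀ p₁ p₂ h : ℝ) (m : ℕ) : ℝ :=
  if m = 0 then p₀ else if m = 1 then p₁ else if m = 2 then p₂ else h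

theorem ent (d : ℕ) (f g : ℝ[X]) (P : ℕ → ℝ) (hf : ∀ m, |f.coeff m| ≤ P m)
    (hg : ∀ m, |g.coeff m| ≤ P m) (i j : Fin (d + d)) :
    |sylvester f g d d i j| ≤ if q d j ≤ (i : ℕ) then P ((i : ℕ) - q d j) else 0 := by
  have hP : ∀ m, 0 ≤ P m := fun m => (abs_nonneg _).trans (hf m)
  refine Fin.addCases (fun j₁ => ?_) (fun j₁ => ?_) j
  · have hq : q d (Fin.castAdd d j₁) = (j₁ : ℕ) := by
      simp [q]
    rw [hq]
    simp only [sylvester, Matrix.of_apply, Fin.addCases_left, Set.mem_Icc]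
    by_cases h1 : (j₁ : ℕ) ≤ (i : ℕ)
    · rw [if_pos h1]
      by_cases h2 : (i : ℕ) ≤ (j₁ : ℕ) + d
      · rw [if_pos ⟨h1, h2⟩]
        exact hg _
      · rw [if_neg (fun h => h2 h.2), abs_zero]
        exact hP _
    · rw [if_neg h1, if_neg (fun h => h1 h.1), abs_zero]
  · have hq : q d (Fin.natAdd d j₁) = (j₁ : ℕ) := by
      simp [q]
    rw [hq]
    simp only [sylvester, Matrix.of_apply, Fin.addCases_right, Set.mem_Icc]
    by_cases h1 : (j₁ : ℕ) ≤ (i : ℕ)
    · rw [if_pos h1]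
      by_cases h2 : (i : ℕ) ≤ (j₁ : ℕ) + d
      · rw [if_pos ⟨h1, h2⟩]
        exact hf _
      · rw [if_neg (fun h => h2 h.2), abs_zero]
        exact hP _
    · rw [if_neg h1, if_neg (fun h => h1 h.1), abs_zero]

theorem q_zero {d : ℕ} {j : Fin (d + d)} (h : q d j = 0) : (j : ℕ) = 0 ∨ (j : ℕ) = d := by
  unfold q at h
  split_ifs at h with h1 <;> omega

/-- the product of the entries of the first three rows -/
theorem three {d : ℕ} {p₀ p₁ p₂ h : ℝ} (h0 : 0 ≤ p₀) (h01 : p₀ ≤ p₁) (h12 : p₁ ≤ p₂)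
    {a b c : Fin (d + d)} (hab : a ≠ b) (hac : a ≠ c) (hbc : b ≠ c) {e₀ e₁ e₂ : ℝ}
    (n0 : 0 ≤ e₀) (n1 : 0 ≤ e₁) (n2 : 0 ≤ e₂)
    (b0 : e₀ ≤ if q d a ≤ 0 then pb p₀ p₁ p₂ h (0 - q d a) else 0)
    (b1 : e₁ ≤ if q d b ≤ 1 then pb p₀ p₁ p₂ h (1 - q d b) else 0)
    (b2 : e₂ ≤ if q d c ≤ 2 then pb p₀ p₁ p₂ h (2 - q d c) else 0) :
    e₀ * e₁ * e₂ ≤ p₀ * max (p₁ ^ 2) (p₀ * p₂) := by
  have hp1 : 0 ≤ p₁ := h0.trans h01
  have hp2 : 0 ≤ p₂ := hp1.trans h12
  have hB : 0 ≤ p₀ * max (p₁ ^ 2) (p₀ * p₂) :=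
    mul_nonneg h0 (le_max_of_le_left (by positivity))
  by_cases qa : q d a = 0
  swap
  · rw [if_neg (by omega)] at b0
    have : e₀ = 0 := le_antisymm b0 n0
    rw [this, zero_mul, zero_mul]
    exact hB
  have c0 : e₀ ≤ p₀ := by
    rw [qa] at b0
    simpa [pb] using b0
  have c2 : e₂ ≤ p₂ := by
    by_cases q2 : q d c ≤ 2
    · rw [if_pos q2] at b2
      have : q d c = 0 ∨ q d c = 1 ∨ q d c = 2 := by omega
      rcases this with h1 | h1 | h1 <;> rw [h1] at b2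
      · simpa [pb] using b2
      · have b3 : e₂ ≤ p₁ := by simpa [pb] using b2
        exact b3.trans h12
      · have b3 : e₂ ≤ p₀ := by simpa [pb] using b2
        exact (b3.trans h01).trans h12
    · rw [if_neg q2] at b2
      exact b2.trans hp2
  by_cases qb : q d b ≤ 1
  swap
  · rw [if_neg qb] at b1
    have : e₁ = 0 := le_antisymm b1 n1
    rw [this, mul_zero, zero_mul]
    exact hB
  rw [if_pos qb] at b1
  have : q d b = 0 ∨ q d b = 1 := by omega
  rcases this with h1 | h1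
  · rw [h1] at b1
    have c1 : e₁ ≤ p₁ := by simpa [pb] using b1
    have qc : q d c ≠ 0 := by
      intro h2
      have ha := q_zero qa
      have hb := q_zero h1
      have hc := q_zero h2
      have hab' : (a : ℕ) ≠ (b : ℕ) := fun h => hab (Fin.ext h)
      have hac' : (a : ℕ) ≠ (c : ℕ) := fun h => hac (Fin.ext h)
      have hbc' : (b : ℕ) ≠ (c : ℕ) := fun h => hbc (Fin.ext h)
      omega
    have c2' : e₂ ≤ p₁ := by
      by_cases q2 : q d c ≤ 2
      · rw [if_pos q2] at b2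
        have : q d c = 1 ∨ q d c = 2 := by omega
        rcases this with h1 | h1 <;> rw [h1] at b2
        · simpa [pb] using b2
        · have b3 : e₂ ≤ p₀ := by simpa [pb] using b2
          exact b3.trans h01
      · rw [if_neg q2] at b2
        exact b2.trans hp1
    calc e₀ * e₁ * e₂ ≤ p₀ * p₁ * p₁ := by gcongr
      _ = p₀ * p₁ ^ 2 := by ring
      _ ≤ _ := mul_le_mul_of_nonneg_left (le_max_left _ _) h0
  · rw [h1] at b1
    have c1 : e₁ ≤ p₀ := by simpa [pb] using b1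
    calc e₀ * e₁ * e₂ ≤ p₀ * p₀ * p₂ := by gcongr
      _ = p₀ * (p₀ * p₂) := by ring
      _ ≤ _ := mul_le_mul_of_nonneg_left (le_max_right _ _) h0

/-- one term of the expansion of the determinant -/
theorem term {d : ℕ} (hd : 2 ≤ d) (M : Matrix (Fin (d + d)) (Fin (d + d)) ℝ) {p₀ p₁ p₂ h : ℝ}
    (h0 : 0 ≤ p₀) (h01 : p₀ ≤ p₁) (h12 : p₁ ≤ p₂) (h2h : p₂ ≤ h)
    (hM : ∀ i j, |M i j| ≤
      if q d j ≤ (i : ℕ) then pb p₀ p₁ p₂ h ((i : ℕ) - q d j) else 0)
    (σ : Equiv.Perm (Fin (d + d))) :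
    |∏ i, M i (σ i)| ≤ h ^ (2 * d - 3) * (p₀ * max (p₁ ^ 2) (p₀ * p₂)) := by
  have hp1 : 0 ≤ p₁ := h0.trans h01
  have hp2 : 0 ≤ p₂ := hp1.trans h12
  have hh : 0 ≤ h := hp2.trans h2h
  have hall : ∀ i j, |M i j| ≤ h := by
    intro i j
    refine (hM i j).trans ?_
    split_ifs
    · unfold pb
      split_ifs <;> linarith
    · exact hh
  set r0 : Fin (d + d) := ⟨0, by omega⟩ with hr0
  set r1 : Fin (d + d) := ⟨1, by omega⟩ with hr1
  set r2 : Fin (d + d) := ⟨2, by omega⟩ with hr2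
  have n01 : r0 ≠ r1 := by simp [hr0, hr1, Fin.ext_iff]
  have n02 : r0 ≠ r2 := by simp [hr0, hr2, Fin.ext_iff]
  have n12 : r1 ≠ r2 := by simp [hr1, hr2, Fin.ext_iff]
  rw [Finset.abs_prod]
  set F : Fin (d + d) → ℝ := fun i => |M i (σ i)| with hF
  have m1 : r1 ∈ (Finset.univ : Finset (Fin (d + d))).erase r0 :=
    Finset.mem_erase.2 ⟨n01.symm, Finset.mem_univ _⟩
  have m2 : r2 ∈ ((Finset.univ : Finset (Fin (d + d))).erase r0).erase r1 :=
    Finset.mem_erase.2 ⟨n12.symm, Finset.mem_erase.2 ⟨n02.symm, Finset.mem_univ _⟩⟩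
  have hsplit : ∏ i, F i = F r0 * F r1 * F r2 *
      ∏ i ∈ (((Finset.univ : Finset (Fin (d + d))).erase r0).erase r1).erase r2, F i := by
    rw [← Finset.mul_prod_erase Finset.univ F (Finset.mem_univ r0),
      ← Finset.mul_prod_erase _ F m1, ← Finset.mul_prod_erase _ F m2]
    ring
  have hcard : ((((Finset.univ : Finset (Fin (d + d))).erase r0).erase r1).erase r2).card =
      2 * d - 3 := by
    rw [Finset.card_erase_of_mem m2, Finset.card_erase_of_mem m1,
      Finset.card_erase_of_mem (Finset.mem_univ r0), Finset.card_univ, Fintype.card_fin]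
    omega
  have hrest : ∏ i ∈ (((Finset.univ : Finset (Fin (d + d))).erase r0).erase r1).erase r2, F i ≤
      h ^ (2 * d - 3) := by
    rw [← hcard, ← Finset.prod_const]
    exact Finset.prod_le_prod (fun i _ => abs_nonneg _) (fun i _ => hall i (σ i))
  have hfirst : F r0 * F r1 * F r2 ≤ p₀ * max (p₁ ^ 2) (p₀ * p₂) :=
    three h0 h01 h12 (σ.injective.ne n01) (σ.injective.ne n02) (σ.injective.ne n12)
      (abs_nonneg _) (abs_nonneg _) (abs_nonneg _) (hM r0 (σ r0)) (hM r1 (σ r1)) (hM r2 (σ r2))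
  rw [hsplit, mul_comm (h ^ (2 * d - 3))]
  refine mul_le_mul hfirst hrest (Finset.prod_nonneg fun i _ => abs_nonneg _) ?_
  exact mul_nonneg h0 (le_max_of_le_left (by positivity))

end R3

theorem vR3 : S_R3 := by
  intro d hd
  refine ⟨((d + d).factorial : ℝ), by exact_mod_cast Nat.factorial_pos _, ?_⟩
  intro f g p₀ p₁ p₂ h h0 h01 h12 h2h hco hc0 hc1 hc2
  have hf : ∀ m, |f.coeff m| ≤ R3.pb p₀ p₁ p₂ h m := by
    intro m
    unfold R3.pb
    split_ifs with h1 h2 h3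
    · rw [h1]; exact hc0.1
    · rw [h2]; exact hc1.1
    · rw [h3]; exact hc2.1
    · exact (hco m).1
  have hg : ∀ m, |g.coeff m| ≤ R3.pb p₀ p₁ p₂ h m := by
    intro m
    unfold R3.pb
    split_ifs with h1 h2 h3
    · rw [h1]; exact hc0.2
    · rw [h2]; exact hc1.2
    · rw [h3]; exact hc2.2
    · exact (hco m).2
  have hM := R3.ent d f g (R3.pb p₀ p₁ p₂ h) hf hg
  have hdet : resultant f g d d =
      ∑ σ : Equiv.Perm (Fin (d + d)), ((Equiv.Perm.sign σ : ℤ) : ℝ) *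
        ∏ i, sylvester f g d d i (σ i) := by
    rw [resultant, ← Matrix.det_transpose, Matrix.det_apply']
    rfl
  rw [hdet]
  refine (Finset.abs_sum_le_sum_abs _ _).trans ?_
  have hterm : ∀ σ ∈ (Finset.univ : Finset (Equiv.Perm (Fin (d + d)))),
      |((Equiv.Perm.sign σ : ℤ) : ℝ) * ∏ i, sylvester f g d d i (σ i)| ≤
        h ^ (2 * d - 3) * (p₀ * max (p₁ ^ 2) (p₀ * p₂)) := by
    intro σ _
    rw [abs_mul]
    have hs : |((Equiv.Perm.sign σ : ℤ) : ℝ)| = 1 := by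
      rcases Int.units_eq_one_or (Equiv.Perm.sign σ) with hs | hs <;> rw [hs] <;> simp
    rw [hs, one_mul]
    exact R3.term hd (sylvester f g d d) h0 h01 h12 h2h hM σ
  refine (Finset.sum_le_card_nsmul _ _ _ hterm).trans (le_of_eq ?_)
  rw [Finset.card_univ, Fintype.card_perm, Fintype.card_fin, nsmul_eq_mul]

end Pool.Agent.MP211V
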