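import Pool.Agent.Lib.MP_211f72_nt.V.Defs

/-!
# MP_211f72_nt, second theorem: statements

THEOREM.  For all `n ≥ 4` and `1/n ≤ λ < 1/(n-1)`:
`dim_H {ξ : λ_n(ξ) = λ} = (2 - (n-1)λ)/(1+λ)`.

Every statement `S_Xxx` is a `Prop`, proved in its own file (`theorem vXxx`), with the statements it uses as
hypotheses.  The complete proofs are in the docstrings.  Notation of the docstrings: `L = log Y`,
`θ = th λ Y = Y^(-(1+λ)/2)` (so `θ² = Y^(-1-λ)`), `s = sdim n λ`, so `(1+λ)s = 2-(n-1)λ`,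
`γ = 1-(n-1)λ > 0`; for `1/n < λ < 1/(n-1)`: `(n-1)/n < s < 1`.  For a class `Cls d h (hω) t` we put
`U = log h`, `w = -log ω`, `p = -log t`.
-/

namespace Pool.Agent.MP211V

open Polynomial

/-! ## Part A: polynomials on intervals -/

/-- **Coef.**  Coefficients are bounded by the maximum on `[0,1]`.

Proof.  Lagrange interpolation at the `n+1` points `x_i = i/(n+1) ∈ [0,1]` (`Lagrange.eq_interpolate`, or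
`Polynomial.eq_of_...` on `n+1` distinct points): `P = ∑_i P(x_i) L_i`, so
`|P.coeff j| ≤ a ∑_i |L_i.coeff j|`, and `C = 1 + ∑_i ∑_{k ≤ n} |L_i.coeff k|` works (`a ≥ |P(0)| ≥ 0`; for
`j > n` the coefficient is 0).  (Another way: inverse of the Vandermonde matrix.) -/
def S_Coef : Prop := ∀ n : ℕ, ∃ C : ℝ, 0 < C ∧ ∀ (P : ℝ[X]) (a : ℝ), P.natDegree ≤ n → Sl P a 0 1 →
  ∀ j : ℕ, |P.coeff j| ≤ C * a

/-- **Mar** (from `Coef`).  Taylor coefficients of a polynomial which is small on an interval.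

Proof.  One of `[x, x+t/2]`, `[x-t/2, x]` lies in `[a,b]` (otherwise `b - a < t`).  Let `σ = t/2` or `-t/2`
accordingly and `R(y) = P(x + σ y)`, i.e. `R = (taylor x P).comp (C σ * X)`: `R.coeff j = σ^j * tc P x j`,
`|R| ≤ c` on `[0,1]`.  By `Coef` (constant `C₀`) `(t/2)^j |tc P x j| ≤ C₀ c`, so `C = 2^n C₀` works for
`j ≤ n`; `tc P x j = 0` for `j > n` (and `c ≥ 0`). -/
def S_Mar : Prop := ∀ n : ℕ, ∃ C : ℝ, 0 < C ∧ ∀ (P : ℝ[X]) (c a b t x : ℝ), P.natDegree ≤ n →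
  0 < t → t ≤ b - a → Sl P c a b → a ≤ x → x ≤ b → ∀ j : ℕ, |tc P x j| * t ^ j ≤ C * c

/-- **Shift.**  Change of the base point.

Proof.  `taylor y P = taylor (y - x) (taylor x P)` (`Polynomial.taylor_taylor`), and the coefficient `i` of
`taylor r f` is `∑_j (j choose i) f_j r^(j-i)` (`Polynomial.taylor_coeff`, `hasseDeriv`).  `C = 2^n`. -/
def S_Shift : Prop := ∀ n : ℕ, ∃ C : ℝ, 0 < C ∧ ∀ (P : ℝ[X]) (x y : ℝ) (i : ℕ), P.natDegree ≤ n →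
  |tc P y i| ≤ C * ∑ j ∈ Finset.Icc i n, |tc P x j| * |y - x| ^ (j - i)

/-- **Int** (from `Mar`, `Shift`).  An integer polynomial cannot be too small on an interval.

Proof.  `Mar` at `x = a`: `|tc (rp P) a j| t^j ≤ C₀ c`, so `|tc (rp P) a j| t^d ≤ C₀ c` for `j ≤ d` (`t ≤ 1`).
`Shift` from `a` to `0` (`tc P 0 i = P.coeff i`): `|P.coeff i| t^d ≤ C₁ (d+1) 3^d C₀ c`.  The second assertion:
some coefficient of `P` is a nonzero integer. -/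
def S_Int : Prop := ∀ d : ℕ, ∃ C : ℝ, 1 ≤ C ∧ ∀ (P : ℤ[X]) (c a b t : ℝ), P.natDegree = d → P ≠ 0 →
  0 < t → t ≤ 1 → t ≤ b - a → |a| ≤ 3 → Sl (rp P) c a b →
  (∀ i : ℕ, |((P.coeff i : ℤ) : ℝ)| * t ^ d ≤ C * c) ∧ t ^ d ≤ C * c

/-- **MxEx.**  Maximal intervals exist.

Proof.  `B = {β ≥ b : Sl P c a β}` contains `b`, is bounded above (`|P(x)| → ∞` as `x → ∞`, as
`natDegree P > 0`) ; let `b' = sSup B`.  By continuity `Sl P c a b'`.  In the same way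
`a' = sInf {α ≤ a : Sl P c α b}`, `Sl P c a' b`.  So `Sl P c a' b'`.  If `a'' ≤ a'`, `b' ≤ b''` and
`Sl P c a'' b''` then `b'' ∈ B` and `a''` is in the other set, so `b'' = b'`, `a'' = a'`. -/
def S_MxEx : Prop := ∀ (P : ℝ[X]) (c a b : ℝ), 0 < P.natDegree → a < b → Sl P c a b →
  ∃ a' b' : ℝ, a' ≤ a ∧ b ≤ b' ∧ Mx P c a' b'

/-- **MxCard.**  The number of maximal intervals of one polynomial.

Proof.  Let `Mx P c a b`.  Then `|P(b)| = c` (if `|P(b)| < c` then `|P| ≤ c` on `[b, b+δ]` by continuity,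
against maximality), so `b` is a root of `P - C c` or of `P + C c`, which are nonzero with at most `natDegree P`
roots each.  If `Mx P c a₁ b`, `Mx P c a₂ b` with `a₁ ≤ a₂` then maximality of the second gives `a₁ = a₂`.
So `p ↦ p.2` is injective on `S` with values in a set of at most `2 natDegree P` numbers. -/
def S_MxCard : Prop := ∀ (P : ℝ[X]) (c : ℝ) (S : Finset (ℝ × ℝ)), 0 < P.natDegree →
  (∀ p ∈ S, Mx P c p.1 p.2) → S.card ≤ 2 * P.natDegree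

/-- **Gel** (from `Coef`).  Gelfond's inequality: the maxima of the factors multiply, up to a constant.

Proof.  `m i = max_{[a,b]} |F i| > 0` (attained, compactness; positive as `F i ≠ 0` has finitely many roots).
It remains to prove `∏ m i ≤ C c`, with `C` depending only on `n`.  Note `r ≤ n` and we may replace `[a,b]` by
`[0,1]` (affine substitution `x ↦ a + (b-a)x`, which preserves degrees).  Let `‖f‖ = max_{[0,1]} |f|`.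
Claim: there is `C_n` with `‖f‖ ‖g‖ ≤ C_n ‖f g‖` for all real polynomials `f, g` of degree `≤ n`.  Then by
induction on the number of factors `∏ ‖F i‖ ≤ C_n^r ‖∏ F i‖ ≤ C_n^n c` (take `C_n ≥ 1`).
Proof of the claim.  By homogeneity we may assume `∑_j |f_j| = ∑_j |g_j| = 1` (`f, g ≠ 0`).  The set of these pairs
`(f,g) ∈ ℝ^(n+1) × ℝ^(n+1)` is compact; the function `(f,g) ↦ ∑_k |(f g).coeff k|` is continuous and positive on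
it, so it is `≥ δ > 0`.  By `Coef` (degree `2n`) `δ ≤ ∑_{k ≤ 2n} |(fg).coeff k| ≤ (2n+1) C ‖f g‖`, while
`‖f‖ ≤ 1`, `‖g‖ ≤ 1`. -/
def S_Gel : Prop := ∀ n : ℕ, ∃ C : ℝ, 1 ≤ C ∧ ∀ (r : ℕ) (F : Fin r → ℝ[X]) (c a b : ℝ),
  (∀ i, 1 ≤ (F i).natDegree) → ∑ i, (F i).natDegree ≤ n → a < b → Sl (∏ i, F i) c a b →
  ∃ m : Fin r → ℝ, (∀ i, 0 < m i) ∧ (∀ i, Sl (F i) (m i) a b) ∧
    (∀ i, ∃ x : ℝ, a ≤ x ∧ x ≤ b ∧ |(F i).eval x| = m i) ∧ ∏ i, m i ≤ C * c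

/-- **Fact.**  Factorisation in `ℤ[X]`.

Proof.  `ℤ[X]` is a unique factorisation domain (`WfDvdMonoid.exists_factors`, or strong induction on the
degree and `WfDvdMonoid.induction_on_irreducible`): `P = u ∏ q` with `q` irreducible, `u` a unit (`u = ±1`).
The `q` with `natDegree q = 0` are constants `C z`; collect them and `u` in `k`.  The degrees add up
(`natDegree_prod`, `k ≠ 0`). -/
def S_Fact : Prop := ∀ P : ℤ[X], P ≠ 0 → ∃ (k : ℤ) (r : ℕ) (F : Fin r → ℤ[X]), k ≠ 0 ∧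
  P = C k * ∏ i, F i ∧ (∀ i, Irreducible (F i)) ∧ (∀ i, 1 ≤ (F i).natDegree) ∧
  ∑ i, (F i).natDegree = P.natDegree

/-! ## Part B: resultants, separation and counting of intervals -/

/-- **R1.**  The resultant of two different irreducible integer polynomials of degree `d`.

Proof.  `resultant (rp P) (rp Q) d d` is the image of the integer `resultant P Q d d`
(`Polynomial.resultant_map_map`), so it is enough that it is not 0.  Irreducible polynomials of positive degree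
in `ℤ[X]` are primitive, and irreducible in `ℚ[X]` (Gauss: `IsPrimitive.Int.irreducible_iff_irreducible_map_cast`,
`Irreducible.isPrimitive`).  If the resultant (with `natDegree` indices) over `ℚ` were 0 the polynomials would not
be coprime over `ℚ` (`Polynomial.resultant_ne_zero`), so they would be associated over `ℚ`, `P = q Q` with
`q ∈ ℚ`; both being primitive, `q = ±1` (`IsPrimitive.Int.dvd_iff_map_cast_dvd_map_cast`: `P ∣ Q` and `Q ∣ P`,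
units of `ℤ[X]` are `±1`). -/
def S_R1 : Prop := ∀ (d : ℕ) (P Q : ℤ[X]), 1 ≤ d → Irreducible P → Irreducible Q → P.natDegree = d →
  Q.natDegree = d → P ≠ Q → P ≠ -Q → 1 ≤ |resultant (rp P) (rp Q) d d|

/-- **R3.**  Bound for a resultant of two polynomials with small low coefficients.

Proof.  `resultant f g d d` is the determinant of the Sylvester matrix of size `2d` (`Polynomial.sylvester`): the
entry in row `i` and column `j₁` of either block (`j₁ < d`) is `g.coeff (i - j₁)` (or `f.coeff (i - j₁)`) if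
`j₁ ≤ i ≤ j₁ + d` and 0 otherwise.  Expand the determinant (`Matrix.det_apply'`): `(2d)!` products, one entry
`e_i` from each row `i`, in different columns.  All entries are `≤ h` in absolute value.  Row 0: nonzero entries
only in the two columns with `j₁ = 0`, `|e_0| ≤ p₀`.  Row 1: columns with `j₁ = 0` (`≤ p₁`) or `j₁ = 1` (`≤ p₀`).
Row 2: columns with `j₁ = 0` (`≤ p₂`), `j₁ = 1` (`≤ p₁`), `j₁ = 2` (`≤ p₀`).  There are only two columns with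
`j₁ = 0` and one is used in row 0.  So if row 1 uses the other one, row 2 uses `j₁ ≥ 1` and
`|e_0 e_1 e_2| ≤ p₀ p₁ p₁`; otherwise `|e_1| ≤ p₀`, `|e_2| ≤ p₂` and `|e_0 e_1 e_2| ≤ p₀ p₀ p₂`.  The other
`2d-3` entries are `≤ h`.  `C = (2d)!`. -/
def S_R3 : Prop := ∀ d : ℕ, 2 ≤ d → ∃ C : ℝ, 0 < C ∧ ∀ (f g : ℝ[X]) (p₀ p₁ p₂ h : ℝ),
  0 ≤ p₀ → p₀ ≤ p₁ → p₁ ≤ p₂ → p₂ ≤ h → (∀ i : ℕ, |f.coeff i| ≤ h ∧ |g.coeff i| ≤ h) →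
  (|f.coeff 0| ≤ p₀ ∧ |g.coeff 0| ≤ p₀) → (|f.coeff 1| ≤ p₁ ∧ |g.coeff 1| ≤ p₁) →
  (|f.coeff 2| ≤ p₂ ∧ |g.coeff 2| ≤ p₂) →
  |resultant f g d d| ≤ C * (h ^ (2 * d - 3) * (p₀ * max (p₁ ^ 2) (p₀ * p₂)))

/-- **Sep** (from `Mar`, `Shift`, `R1`, `R3`).  Two different irreducible polynomials cannot both be very
small on close intervals.

Proof.  Write `x = a₁`.  By `Mar` at the left endpoints and by `Shift` from `0` (coefficients `≤ h`,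
`|a_i| ≤ 3`; `tc (rp P) 0 j = P.coeff j`), with constants `C` depending only on `d`:
`|tc (rp P) a₁ j| ≤ C h min(1, ω t^(-j))`, `|tc (rp Q) a₂ j| ≤ C h min(1, ω t^(-j))`.  By `Shift` from `a₂` to `x`
(`|a₁ - a₂| ≤ t^β`): `|tc (rp P) x i|, |tc (rp Q) x i| ≤ C h W_i`, `W_i = ∑_{j=i}^d min(1, ω t^(-j)) t^(β(j-i))`.
We have `W_i = min(1, ω t^(-i)) + t^β W_(i+1)` and `min(1, ω t^(-i)) ≤ min(1, ω t^(-i-1)) ≤ W_(i+1)` for `i < d`,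
so `W_0 ≤ 2 W_1`, `W_1 ≤ 2 W_2`, `W_2 ≤ d+1`.  Apply `R3` to `f = taylor x (rp P)`, `g = taylor x (rp Q)`
(degree `d`; all coefficients `≤ C h (d+1)`), `p₀ = C h W_0`, `p₁ = 2 C h W_1`, `p₂ = 4 C h W_2`, height
`4 C h (d+1)`; `resultant (taylor x p) (taylor x q) = resultant p q` is `Polynomial.resultant_taylor`, and
`R1`: `1 ≤ C' h^(2d) E`, `E = W_0 max(W_1², W_0 W_2)`.
(1) `min(1,y) ≤ y^β` (`y > 0`, `0 < β ≤ 1`) gives `min(1, ω t^(-j)) t^(β(j-i)) ≤ ω^β t^(-βj) t^(βj-βi) = ω^β t^(-βi)`: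
`W_i ≤ (d+1) ω^β t^(-βi)`, so `E ≤ (d+1)³ ω^(3β) t^(-2β) = (d+1)³ (ω³/t²)^β`.
(2) `ω ≤ t^(1+β)`.  If `ω < t²` then `(ω³/t²)^β ≤ ω^(2β)` and (1) suffices.  If `t² ≤ ω`: `W_0 ≤ (d+1) t^(2β)`
(terms: `j = 0`: `≤ ω ≤ t^(1+β) ≤ t^(2β)`; `j = 1`: `≤ (ω/t) t^β ≤ t^(2β)`; `j ≥ 2`: `≤ t^(βj) ≤ t^(2β)`),
`W_1 ≤ (d+1) t^β` (`j = 1`: `ω/t ≤ t^β`; `j ≥ 2`: `t^(β(j-1)) ≤ t^β`), so
`E ≤ (d+1)³ t^(2β) max(t^(2β), t^(2β)) = (d+1)³ t^(4β) ≤ (d+1)³ ω^(2β)`.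
(3) `t^(1+β) ≤ ω`: `W_0 ≤ (d+1) ω t^(β-1)` (`j = 0`: `ω ≤ ω t^(β-1)`; `j = 1`: `(ω/t) t^β`; `j ≥ 2`:
`t^(2β) = t^(1+β) t^(β-1) ≤ ω t^(β-1)`), `W_1 ≤ (d+1) ω/t` (`j ≥ 2`: `t^β ≤ ω/t`), and `ω t^(β-1) ≤ (ω/t)²`
(`t^(1+β) ≤ ω`), so `E ≤ (d+1)³ ω t^(β-1) (ω/t)² = (d+1)³ t^β (ω/t)³`. -/
def S_Sep : Prop := ∀ d : ℕ, 2 ≤ d → ∃ C : ℝ, 0 < C ∧
  ∀ (P Q : ℤ[X]) (h ω t β a₁ b₁ a₂ b₂ : ℝ), Irreducible P → Irreducible Q → P.natDegree = d →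
  Q.natDegree = d → P ≠ Q → P ≠ -Q → 1 ≤ h → 0 < ω → 0 < t → t ≤ 1 → 0 < β → β ≤ 1 →
  |a₁| ≤ 3 → |a₂| ≤ 3 → Hb P h → Hb Q h → Sl (rp P) (h * ω) a₁ b₁ → Sl (rp Q) (h * ω) a₂ b₂ →
  t ≤ b₁ - a₁ → t ≤ b₂ - a₂ → |a₁ - a₂| ≤ t ^ β →
  1 ≤ C * h ^ (2 * d) * (ω ^ 3 / t ^ 2) ^ β ∧
  (ω ≤ t ^ (1 + β) → 1 ≤ C * h ^ (2 * d) * ω ^ (2 * β)) ∧
  (t ^ (1 + β) ≤ ω → 1 ≤ C * h ^ (2 * d) * (t ^ β * (ω / t) ^ 3))

/-- **Count** (from `Sep`, `MxCard`).  The number of intervals of a class.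

Proof.  (i) For `p ∈ S` choose `P_p`; it is determined by its coefficients `0, ..., d`, integers in `[-h, h]`: at
most `(2h+1)^(d+1) ≤ (3h)^(d+1)` polynomials, and each one occurs for at most `2d` elements `p` (`MxCard` for
`rp P`, whose degree is `d`).
(ii) Let `d ≥ 2` and suppose one of the three inequalities, with `C` at least the constant of `Sep`.  Cells:
`k(p) = ⌊(p.1 + 2)/t^β⌋ ∈ {0, ..., ⌊4/t^β⌋}`, at most `5 t^(-β)` cells.  If `p, q ∈ S` are in the same cell then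
`|p.1 - q.1| ≤ t^β`, so by `Sep` (contraposition) `P_p = ± P_q`.  Since `Mx (rp (-P)) c a b ↔ Mx (rp P) c a b`,
all elements of the cell are maximal intervals of one polynomial: at most `2d`.  So `#S ≤ 10 d t^(-β)`. -/
def S_Count : Prop := ∀ d : ℕ, 1 ≤ d → ∃ C : ℝ, 1 ≤ C ∧
  ∀ (h ω t : ℝ) (S : Finset (ℝ × ℝ)), 1 ≤ h → 0 < ω → 0 < t → t ≤ 1 →
  (∀ p ∈ S, Cls d h (h * ω) t p.1 p.2) →
  (S.card : ℝ) ≤ C * h ^ (d + 1) ∧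
  (2 ≤ d → ∀ β : ℝ, 0 < β → β ≤ 1 →
    (C * h ^ (2 * d) * (ω ^ 3 / t ^ 2) ^ β < 1 ∨
      (ω ≤ t ^ (1 + β) ∧ C * h ^ (2 * d) * ω ^ (2 * β) < 1) ∨
      (t ^ (1 + β) ≤ ω ∧ C * h ^ (2 * d) * (t ^ β * (ω / t) ^ 3) < 1)) →
    (S.card : ℝ) ≤ C * t ^ (-β))

/-- **Quad** (from `Mar`, `MxCard`).  Counting for quadratic polynomials.

Proof.  For `p = (a,b) ∈ S` let `P = αX² + βX + δ`, `α ≠ 0`, `|α|, |β|, |δ| ≤ h`.  By `Mar` (`n = 2`, `x = a`):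
`|P(a)| ≤ hω`, `|P'(a)| ≤ C₀ h ω/t`.  Since `β² - 4αδ = P'(a)² - 4αP(a)` (and `ω ≤ (ω/t)²` as `t² ≤ ω`):
`|β² - 4αδ| ≤ D := (C₀² + 4) h² (ω/t)²`.  Given `β` and `α ≠ 0` the number of integers `δ` with
`|4αδ - β²| ≤ D` is `≤ D/(2|α|) + 1`.  Sum over `1 ≤ |α| ≤ h`: `≤ D (1 + log h) + 2h`
(`harmonic_le_one_add_log`), and over the at most `2h+1 ≤ 3h` values of `β`: `≤ 3h (D(1 + log h) + 2h)`
polynomials.  Each polynomial belongs to at most 4 elements of `S` (`MxCard`). -/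
def S_Quad : Prop := ∃ C : ℝ, 1 ≤ C ∧ ∀ (h ω t : ℝ) (S : Finset (ℝ × ℝ)), 1 ≤ h → 0 < ω → 0 < t →
  t ≤ 1 → t ^ 2 ≤ ω → (∀ p ∈ S, Cls 2 h (h * ω) t p.1 p.2) →
  (S.card : ℝ) ≤ C * (1 + Real.log h) * (h ^ 2 + h ^ 3 * (ω / t) ^ 2)

/-- **Two** (from `Sep`).  On one cap at most one irreducible polynomial of degree `n` is small.

Proof.  Suppose `P ≠ ±Q`.  `Sep` with `d = n`, `β = 1`, `t = θ = th λ Y ≤ 1`, `a₁ = a₂ = a`, `h = A Y^λ ≥ 1`,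
`ω = Y^(-1-λ) = θ²` (`hω = A/Y`): the first inequality is
`1 ≤ C (A Y^λ)^(2n) θ⁶/θ² = C A^(2n) Y^(2nλ - 2(1+λ)) = C A^(2n) Y^(-2γ)`, false for large `Y`
(`γ = 1 - (n-1)λ > 0`). -/
def S_Two : Prop := ∀ (n : ℕ) (lam A : ℝ), 2 ≤ n → 0 < lam → lam < 1 / ((n : ℝ) - 1) → 1 ≤ A →
  ∃ Y₀ : ℝ, 1 ≤ Y₀ ∧ ∀ (Y a : ℝ) (P Q : ℤ[X]), Y₀ ≤ Y → |a| ≤ 1 → Irreducible P → Irreducible Q →
  P.natDegree = n → Q.natDegree = n → Hb P (A * Y ^ lam) → Hb Q (A * Y ^ lam) →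
  Sl (rp P) (A / Y) a (a + th lam Y) → Sl (rp Q) (A / Y) a (a + th lam Y) → P = Q ∨ P = -Q

/-- **Irr** (from `Count`).  The classes of degree `n`.

Proof.  `h = A Y^λ/M`, `A/(YM) = hω` with `ω = Y^(-1-λ)`.  We may assume `S ≠ ∅`; then `h ≥ 1` (a nonzero
integer coefficient is `≤ h`).  Put `y = -log t ∈ [log 2, Λ/2]`, `Λ = (1+λ) log Y` (as `t ≥ θ`), `μ = log M ≥ 0`,
`C` the constant of `Count` for `d = n`, `c₀ = log C + 2n log A`.  Note `2nλ log Y - 2Λ = -2γ log Y`.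
(a) `M ≤ t^(-3/10)`, i.e. `μ ≤ (3/10)y`.  Take `β = 1 - μ/y ∈ [7/10, 1]`.  Then
`log (C h^(2n) (ω³/t²)^β) = c₀ + 2nλ log Y - 2nμ - β(3Λ - 2y)
  = c₀ - 2γ log Y - (Λ - 2y) - (2n+2)μ + 3Λμ/y`.  With `μ = ρy`, `0 ≤ ρ ≤ 3/10`:
`-(Λ-2y) - (2n+2)ρy + 3Λρ = -Λ(1-3ρ) + 2y - (2n+2)ρy ≤ -2y(1-3ρ) + 2y - (2n+2)ρy = (4-2n)ρy ≤ 0`.  So the
logarithm is `≤ c₀ - 2γ log Y < 0` for large `Y`, and `Count` gives
`#S ≤ C t^(-β) = C t^(-1) t^(μ/y) = C/(tM)`.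
(b) `t^(-3/10) ≤ M`, `μ ≥ (3/10) y`, `β = 7/10`: the logarithm is
`c₀ + 2nλ log Y - 2nμ - (7/10)(3Λ - 2y) ≤ c₀ - 2γ log Y - Λ/10 + (14/10)y - (6/10)n y ≤ c₀ - 2γ log Y < 0` (as
`n ≥ 3`), so `#S ≤ C t^(-7/10)`. -/
def S_Irr : Prop := ∀ (n : ℕ) (lam A : ℝ), 4 ≤ n → 1 / (n : ℝ) < lam → lam < 1 / ((n : ℝ) - 1) →
  1 ≤ A → ∃ K Y₀ : ℝ, 1 ≤ K ∧ 1 ≤ Y₀ ∧ ∀ (Y M t : ℝ) (S : Finset (ℝ × ℝ)), Y₀ ≤ Y → 1 ≤ M →
  th lam Y ≤ t → t ≤ 1 / 2 → (∀ p ∈ S, Cls n (A * Y ^ lam / M) (A / (Y * M)) t p.1 p.2) →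
  (M ≤ t ^ (-(3 / 10) : ℝ) → (S.card : ℝ) ≤ K / (t * M)) ∧
  (t ^ (-(3 / 10) : ℝ) ≤ M → (S.card : ℝ) ≤ K * t ^ (-(7 / 10) : ℝ))

/-! ## Part C: duality -/

/-- **Dual.**  The number of integer points in a box is at most a constant times the volume times the number
of integer points in the dual box.

Proof.  `F(β) = ∑_{x ∈ S} exp(2πi ⟨x, β⟩)` on `ℝ^N`, periodic modulo `ℤ^N`.  Let `c = 1/(8N)`,
`V = {β : |(B'β)_j| ≤ c/A_j for all j}`.  For `x ∈ S`, `β ∈ V`: `⟨x, β⟩ = ∑_j (Bx)_j (B'β)_j`,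
`|⟨x,β⟩| ≤ Nc = 1/8`, so `Re exp(2πi⟨x,β⟩) ≥ cos(π/4) ≥ 1/2` and `|F(β)| ≥ #S/2` on `V`.  The volume of `V` is
`∏_j (2c/A_j)` (`|det B'| = 1`; e.g. `MeasureTheory.Measure.addHaar_preimage_linearMap`, `Real.volume_pi_Icc`).  So
`∫_V |F|² ≥ (#S)²/4 · ∏ (2c/A_j)`.  On the other hand, by periodicity,
`∫_V |F|² = ∫_{[0,1)^N} |F(β)|² #{p ∈ ℤ^N : β + p ∈ V} dβ`.  If `p, p₀` are both in this set then
`|(B'(p - p₀))_j| ≤ 2c/A_j ≤ 1/A_j`; so its cardinality is at most `#M`, `M = {p ∈ ℤ^N : |(B'p)_j| ≤ 1/A_j}`, which is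
finite (`B'` is invertible, so `p` is bounded).  And `∫_{[0,1)^N} |F|² = #S` (orthogonality of the characters).
So `(#S)²/4 · ∏(2c/A_j) ≤ #M #S`, i.e. `#S ≤ 4 (4N)^N ∏ A_j #M`.  (A proof with finite sums over the grid
`(1/m)ℤ^N/ℤ^N`, `m → ∞`, is possible too.) -/
def S_Dual : Prop := ∀ N : ℕ, 1 ≤ N → ∃ C : ℝ, 1 ≤ C ∧ ∀ (B B' : Matrix (Fin N) (Fin N) ℝ)
  (A : Fin N → ℝ) (S : Finset (Fin N → ℤ)),
  (∀ x y : Fin N → ℝ, ∑ j, (B.mulVec x) j * (B'.mulVec y) j = ∑ j, x j * y j) →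
  |B'.det| = 1 → (∀ j, 0 < A j) →
  (∀ x ∈ S, ∀ j, |(B.mulVec fun i => (x i : ℝ)) j| ≤ A j) →
  ∃ M : Finset (Fin N → ℤ), (∀ p ∈ M, ∀ j, |(B'.mulVec fun i => (p i : ℝ)) j| ≤ 1 / A j) ∧
    (S.card : ℝ) ≤ C * (∏ j, A j) * M.card

/-- **Yc.**  Identities for the coordinates `y_j(ξ)`.

Proof.  `yc n x ξ j` is the image of the polynomial `(T - ξ)^j` under the linear map `T^i ↦ x_i` (binomial theorem;
terms with `i > j` vanish because `j.choose i = 0`).  (1) `j = 0`.  (2) `j = 1`.  (3) `(T-ξ-τ)^j` expanded in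
powers of `T - ξ`.  (4) `T^j = ((T - ξ) + ξ)^j`, and separate the term `i = 0`, which is `x_0 ξ^j`.
(5) For `j ≥ 1`, `yc n x ξ j = ∑_i (j choose i)(-ξ)^(j-i)(x_i - x_0 ξ^i)` because `∑_i (j choose i)(-ξ)^(j-i) ξ^i =
(ξ-ξ)^j = 0`; take absolute values: `∑_i (j choose i)|ξ|^(j-i) = (1+|ξ|)^j ≤ (1+|ξ|)^n`.  (6) from (4) in the same
way (`δ ≥ 0` follows from the hypothesis if there is an index `i ≥ 1`; for `j = 0` the left side is 0).  All sums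
are over `i : Fin (n+1)`; convert them to `Finset.range (j+1)` (`Fin.sum_univ_eq_sum_range`,
`Finset.sum_subset`). -/
def S_Yc : Prop := ∀ (n : ℕ) (x : Fin (n + 1) → ℤ),
  (∀ ξ : ℝ, yc n x ξ 0 = x 0) ∧
  (∀ (ξ : ℝ) (j : Fin (n + 1)) (i : Fin (n + 1)), (j : ℕ) = 1 → (i : ℕ) = 0 →
    yc n x ξ j = x j - ξ * x i) ∧
  (∀ (ξ τ : ℝ) (j : Fin (n + 1)), yc n x (ξ + τ) j =
    ∑ i : Fin (n + 1), ((j : ℕ).choose (i : ℕ) : ℝ) * (-τ) ^ ((j : ℕ) - (i : ℕ)) * yc n x ξ i) ∧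
  (∀ (ξ : ℝ) (j : Fin (n + 1)), (x j : ℝ) - (x 0 : ℝ) * ξ ^ (j : ℕ) =
    ∑ i : Fin (n + 1), if (i : ℕ) = 0 then 0 else
      ((j : ℕ).choose (i : ℕ) : ℝ) * ξ ^ ((j : ℕ) - (i : ℕ)) * yc n x ξ i) ∧
  (∀ (ξ δ : ℝ), 0 ≤ δ → (∀ i : Fin (n + 1), |(x 0 : ℝ) * ξ ^ (i : ℕ) - (x i : ℝ)| ≤ δ) →
    ∀ j : Fin (n + 1), (j : ℕ) ≠ 0 → |yc n x ξ j| ≤ (1 + |ξ|) ^ n * δ) ∧
  (∀ (ξ δ : ℝ), 0 ≤ δ → (∀ i : Fin (n + 1), (i : ℕ) ≠ 0 → |yc n x ξ i| ≤ δ) →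
    ∀ j : Fin (n + 1), |(x 0 : ℝ) * ξ ^ (j : ℕ) - (x j : ℝ)| ≤ (1 + |ξ|) ^ n * δ)

/-- **Pts** (from `Dual`, `Yc`).  The number of points near the curve in a cap is controlled by the number of
integer polynomials which are small on the cap.

Proof.  `θ = th λ Y`.  Let `x ∈ S`, `ξ ∈ [ξ₀, ξ₀+θ]` with `Nr n Y λ ξ x`, `δ = (Y/2)^(-λ) ≤ 2Y^(-λ)`.  As
`|ξ| ≤ 1 + θ ≤ 2`: `|yc n x ξ j| ≤ 3^n δ` for `j ≥ 1` (`Yc` (5)), and by `Yc` (3) with `τ = ξ₀ - ξ`, `|τ| ≤ θ ≤ 1`: `yc_j(ξ₀) = ∑_i (j choose i)(-τ)^(j-i) yc_i(ξ)`, the term `i = 0` is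
`≤ Y θ^j`, the others sum to `≤ 6^n δ`.  So `|yc_0| ≤ Y`; `|yc_1(ξ₀)| ≤ Yθ + 6^n δ ≤ 2Yθ` for large `Y`
(`Yθ = Y^((1-λ)/2) → ∞`, `δ ≤ 2`); `|yc_j(ξ₀)| ≤ Yθ² + 6^n δ ≤ (1 + 2·6^n) Y^(-λ)` for `j ≥ 2` (`Yθ² = Y^(-λ)`).
Put `A₀ = 1 + 2·6^n`, `A_0 = Y`, `A_1 = 2Yθ`, `A_j = A₀ Y^(-λ)` (`j ≥ 2`): `∏ A_j = 2A₀^(n-1) Y^(2-(n-1)λ) θ`.
`B_{ji} = (j choose i)(-ξ₀)^(j-i)` for `i ≤ j` (so `Bx = yc(ξ₀)`), `B'_{ji} = (i choose j) ξ₀^(i-j)` for `j ≤ i`, so that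
for `P = ∑ y_i T^i` one has `(B'y)_j = tc P ξ₀ j`.  `∑_j (Bx)_j (B'y)_j = ∑ x_i y_i` (`B^T B' = 1`, i.e. apply `T^i ↦ x_i`
to `P(T) = ∑_j tc P ξ₀ j (T-ξ₀)^j`), `B'` is triangular with diagonal 1.  `Dual` gives `M`; turn `p ∈ M` into
`P = ∑ p_i X^i ∈ ℤ[X]` (injective), of degree `≤ n`, with `|tc P ξ₀ 0| ≤ 1/Y`, `|tc P ξ₀ 1| ≤ 1/(2Yθ)`,
`|tc P ξ₀ j| ≤ Y^λ` (`j ≥ 2`).  For `ξ ∈ [ξ₀, ξ₀+θ]`: `|P(ξ)| ≤ 1/Y + 1/(2Y) + n Y^λ θ² ≤ (n+2)/Y` (`Y^λθ² = 1/Y`,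
`θ ≤ 1`).  Coefficients: all `|tc P ξ₀ j| ≤ Y^λ` (`1/(2Yθ) ≤ 1 ≤ Y^λ`), so `|P.coeff i| ≤ ∑_j (j choose i)|ξ₀|^(j-i) Y^λ ≤
(n+1) 2^n Y^λ`. -/
def S_Pts : Prop := ∀ (n : ℕ) (lam : ℝ), 2 ≤ n → 0 < lam → lam < 1 → ∃ A Y₀ : ℝ, 1 ≤ A ∧ 1 ≤ Y₀ ∧
  ∀ (Y ξ₀ : ℝ) (S : Finset (Fin (n + 1) → ℤ)), Y₀ ≤ Y → |ξ₀| ≤ 1 →
  (∀ x ∈ S, ∃ ξ : ℝ, ξ₀ ≤ ξ ∧ ξ ≤ ξ₀ + th lam Y ∧ Nr n Y lam ξ x) →
  ∃ M : Finset ℤ[X], (∀ P ∈ M, P.natDegree ≤ n ∧ Hb P (A * Y ^ lam) ∧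
      Sl (rp P) (A / Y) ξ₀ (ξ₀ + th lam Y)) ∧
    (S.card : ℝ) ≤ A * (Y ^ (2 - ((n : ℝ) - 1) * lam) * th lam Y) * M.card

/-! ## Part D: reducible polynomials -/

/-- **LP.**  The system of inequalities for the factors of a reducible polynomial has no solution.

Proof.  `s = sdim n λ`, `s(1+λ) = 2-(n-1)λ`, `(n-1)/n < s < 1`.  First the leading order (`L = 1`, `ε = K = 0`); all
inequalities below have a strictly positive margin depending only on `n, λ` (finitely many values of `d_i`), and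
the errors add up to at most `C(n,λ)(εL + K)` (`r ≤ n` as `d_i ≥ 1`, divisions by `s ≥ 3/4`; `r = 0` is trivial), so `ε` small in terms of the
margin and then `L` large in terms of `K` give the result.  (`Θ = (1+λ)/2`.)

Bounds for `w = w_i` in terms of `U = U_i`, `d = d_i`, `p = p_i`.  If `w ≤ 0` (first alternative) then `sw ≤ (n-1)U`.  Else
 * `d = 1`: `w ≤ p`, `sp ≤ 2U`: `sw ≤ 2U`.
 * (II): `sw ≤ dU`.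
 * (I), `d ≥ 2`: `3w ≤ 2dU + (3-s)p` and `sp ≤ (d+1)U`: `3sw ≤ (2ds + (3-s)(d+1))U = ((d-1)s + 3(d+1))U ≤ (4d+2)U`.
 * `d = 2` (and not (II), so (I) holds): r1 `sp ≤ 2U`: `3sw ≤ 4sU + (3-s)2U ≤ 8U`; r2: `2w ≤ 3U + (2-s)p`, `sp ≤ 3U`:
   `2sw ≤ 3sU + 3(2-s)U = 6U`.  In all cases `sw ≤ 3U`.
Call `i` small if `s w_i ≤ (n-1) U_i`.  `i` is small in the first alternative, for `d_i = 1`, for (II) (`d_i ≤ n-1`),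
for (I) with `4d_i + 2 ≤ 3(n-1)`, and for `d_i = 2` (`3 ≤ n-1`).  So if `i` is not small then (I) holds,
`4d_i ≥ 3n-4` and `d_i ≥ 3`.  Always `s w_i ≤ ((4d_i+2)/3) U_i` (if `w_i > 0`).
Case A: all `i` small.  `∑(w_i - U_i) ≤ ((n-1)/s - 1) ∑U_i ≤ ((n-1)/s - 1)λ < 1` because
`(n-1)λ < s(1+λ) = 2-(n-1)λ` (`(n-1)λ < 1`).
Case B: some `b` not small.  It is the only one: two would need `2(3n-4)/4 ≤ n`, so `n ≤ 4`, and for `n = 4` `d_i ≥ 3`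
twice.  Let `D = d_b`, `U = U_b`, `V = ∑_{i≠b} U_i ≤ λ - U`.  For `i ≠ b`: `d_i ≤ n - D`, `s w_i ≤ κ U_i`,
`κ = (4(n-D)+2)/3 ≥ 2`.  So `∑(w_i - U_i) ≤ w_b - U + (κ/s - 1)V ≤ w_b - U + (κ/s-1)(λ-U)`.  We have two bounds
`w_b ≤ ((4D+2)/(3s)) U` and (from (I) and `p ≤ Θ`) `w_b ≤ ((3-s)Θ + 2DU)/3`, giving `G₁(U)` and `G₂(U)`:
`G₁(U) = ((4D+2)/(3s))U - U + (κ/s-1)(λ-U)`, increasing in `U` (`4D+2 ≥ 4(n-D)+2`, since `D ≥ n-D`);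
`G₂(U) = (1+(n+2)λ)/6 + (2D/3)U - U + (κ/s-1)(λ-U)` (`(3-s)Θ/3 = (3(1+λ)-(2-(n-1)λ))/6`), affine in `U`.
`G₂(λ) = (1+(n+4D-4)λ)/6 < 1` as `(n+4D-4)λ ≤ (5n-8)λ < 5` (`λ < 1/(n-1)`).
We also use `λ/s ≤ n/(n-1)²`: `λ(1+λ)(n-1)² = ((n-1)λ)((n-1)(1+λ)) ≤ 1·n ≤ n(2-(n-1)λ)`, as `(n-1)λ ≤ 1`.
`n ≥ 5`: split at `λ/2`.  `U ≤ λ/2`: `G₁(U) ≤ G₁(λ/2) = λ(2n+2)/(3s) - λ < 1` iff `λ(2n+2)/3 < 2-(n-1)λ` iff
`λ < 6/(5n-1)`, true as `1/(n-1) ≤ 6/(5n-1)`.  `U ≥ λ/2`: `G₂(U) ≤ max(G₂(λ), G₂(λ/2))`, and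
`G₂(λ/2) = (1+(n+2D-4)λ)/6 + (2(n-D)+1)λ/(3s) < 1`: it is at most (strictly, `λ < 1/(n-1)`)
`(1+(n+2D-4)/(n-1))/6 + (2(n-D)+1)n/(3(n-1)²) ≤ 1` iff `7n-1 ≤ 2D(n+1)`, true for `n = 5` (`D ≥ 3`) and, as
`D ≥ (3n-4)/4`, for `n ≥ 6` (`3n²-15n-2 > 0`).
`n = 4`: `D = 3`, all other `d_i = 1`, `κ = 2`; split at `3λ/10`.  `G₁(U) = (8/3)U/s + 2λ/s - λ`, so `G₁(3λ/10) < 1` iff
`(4/5)λ + 2λ < s(1+λ) = 2-3λ` iff `(29/5)λ < 2`, true (`λ < 1/3`).  `G₂(3λ/10) = 1/6 + λ + (3/10)λ - (7/10)λ + (14/10)λ/s = 1/6 + (6/10)λ + (14/10)λ/s ≤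
1/6 + 1/5 + (14/10)(4/9) = 0.9889 < 1`. -/
def S_LP : Prop := ∀ (n : ℕ) (lam : ℝ), 4 ≤ n → 1 / (n : ℝ) < lam → lam < 1 / ((n : ℝ) - 1) →
  ∃ ε : ℝ, 0 < ε ∧ ∀ K : ℝ, 0 ≤ K → ∃ L₀ : ℝ, ∀ L : ℝ, L₀ ≤ L →
  ∀ (r : ℕ) (d : Fin r → ℕ) (U w p : Fin r → ℝ), (∀ i, 1 ≤ d i) → ∑ i, d i ≤ n →
  (∀ i, d i ≤ n - 1) → (∀ i, 0 ≤ U i) → ∑ i, U i ≤ lam * L + K → L - K ≤ ∑ i, (w i - U i) →
  (∀ i, p i ≤ (1 + lam) / 2 * L + K) →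
  (∀ i, w i ≤ ε * L + K ∨
    (sdim n lam * p i ≤ ((d i : ℝ) + 1) * U i + ε * L + K ∧ w i ≤ d i * p i + K ∧
      (2 ≤ d i → sdim n lam * p i + 3 * (w i - p i) ≤ 2 * d i * U i + ε * L + K ∨
        sdim n lam * w i ≤ d i * U i + ε * L + K) ∧
      (d i = 2 → sdim n lam * w i ≤ 2 * U i + ε * L + K ∨ sdim n lam * p i ≤ 2 * U i + ε * L + K ∨
        sdim n lam * p i ≤ 3 * U i - 2 * (w i - p i) + ε * L + K))) → False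

/-- **Cheap** (from `Count`, `Quad`).  Inequalities for a class whose intervals are expensive.

Proof.  `c = min(ε₂/2, (s'-s)ε₁/2)`; `K` large (in terms of everything; it bounds from below both the additive
constants and `Y`).  Put `L = log Y`, `U = log h ∈ [0, L]`, `p = -log t ≥ ε₁ L > 0`, `w = -log ω`.  Taking logarithms in
the hypothesis: (*) `s' p < log #S + cL` (`#S ≥ 1`).
(1) `Count` (i): `log #S ≤ log C + (d+1)U`, and `s p ≤ s' p`.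
(2) Let `d ≥ 2`.  If `w ≥ (1+s)p`, i.e. `ω ≤ t^(1+s)`, and `s w > dU + K` then `C h^(2d) ω^(2s) < 1` (`K > log C`), so `Count`
(ii) with `β = s`: `#S ≤ C t^(-s)`, `log #S ≤ log C + s p`, and (*) gives `(s'-s)ε₁ L ≤ (s'-s)p < log C + cL ≤
log C + (s'-s)ε₁L/2`: false for `Y ≥ K`.  If `w ≤ (1+s)p`, i.e. `t^(1+s) ≤ ω`, and `s p + 3(w-p) > 2dU + K` then
`C h^(2d) t^s (ω/t)³ < 1` and again `#S ≤ C t^(-s)`: contradiction.  So: if `w ≥ (1+s)p` the second alternative of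
(2) holds, otherwise the first one.
(3) `d = 2`.  If `w > 2p` then `w ≥ (1+s)p` and the second alternative of (2) holds.  Else `t² ≤ ω` and `Quad`:
`#S ≤ C(1+U)(h² + h³(ω/t)²) ≤ 2C(1+L) max(h², h³(ω/t)²)`, so by (*)
`s p ≤ cL + log(2C(1+L)) + max(2U, 3U - 2(w-p))`, and `cL + log(2C(1+L)) ≤ ε₂L + K` for `Y ≥ K`. -/
def S_Cheap : Prop := ∀ (n : ℕ) (s s' ε₁ ε₂ : ℝ), 0 < s → s < s' → s ≤ 1 → 0 < ε₁ → 0 < ε₂ →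
  ∃ c K : ℝ, 0 < c ∧ 1 ≤ K ∧ ∀ (Y : ℝ) (d : ℕ) (h ω t : ℝ) (S : Finset (ℝ × ℝ)), K ≤ Y → 1 ≤ d →
  d ≤ n → 1 ≤ h → h ≤ Y → 0 < ω → 0 < t → t ≤ Y ^ (-ε₁) →
  (∀ p ∈ S, Cls d h (h * ω) t p.1 p.2) → Y ^ (-c) < S.card * t ^ s' →
  s * -Real.log t ≤ ((d : ℝ) + 1) * Real.log h + ε₂ * Real.log Y + K ∧
  (2 ≤ d → s * -Real.log t + 3 * (-Real.log ω - -Real.log t) ≤ 2 * d * Real.log h + K ∨
    s * -Real.log ω ≤ d * Real.log h + K) ∧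
  (d = 2 → s * -Real.log ω ≤ 2 * Real.log h + K ∨
    s * -Real.log t ≤ 2 * Real.log h + ε₂ * Real.log Y + K ∨
    s * -Real.log t ≤ 3 * Real.log h - 2 * (-Real.log ω - -Real.log t) + ε₂ * Real.log Y + K)

/-- **Red** (from `Coef`, `Int`, `MxEx`, `Gel`, `Fact`, `Count`, `LP`, `Cheap`).  The caps which are bad (a small
polynomial is not a multiple of an irreducible polynomial of degree `n`) are covered by few balls.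

Proof.  `s = sdim n λ ∈ ((n-1)/n, 1)`, `L = log Y`, `θ = th λ Y`.  `ε₀` from `LP`; `ε₁ = min(ε₀/n, 1/4)`; `c, K₁` from
`Cheap n s s' ε₁ ε₀`.  `Y` is large throughout; `K, C` denote constants independent of `Y`.
Classes.  For `1 ≤ d ≤ n`, integers `u ≥ 0`, `v`, `l ≥ 0` put `h = 2^u`, `c_v = 2^v`, `t = θ 2^l`, with `2^u ≤ Y`,
`|v| ≤ V := 2n² log₂ Y`, `t ≤ Y^(-ε₁)`.  By `Count` (i) (with `ω = c_v/h`) the set of the pairs `(a,b)` with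
`Cls d h c_v t a b` is finite (all its finite subsets have bounded cardinality); let `S(d,u,v,l)` be the finset.  The
class is cheap if `#S t^(s') ≤ Y^(-c)`.  `T` is the union over the cheap classes of the images of `S(d,u,v,l)` under
`(a,b) ↦ ((a+b)/2, (b-a)/2)`.  Radii: `θ/2 ≤ t/2 ≤ (b-a)/2 ≤ t`; so `∑_T r^(s') ≤ (number of classes) Y^(-c) ≤
C (1+L)³ Y^(-c) ≤ Y^(-c/2)`.
Now let `[a, a+θ]`, `0 ≤ a ≤ 1`, be bad, through `P`.  `Fact`: `P = C k * ∏_{i<r} F_i`, `d_i = natDegree F_i ≥ 1`,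
`∑ d_i = natDegree P ≤ n`.  Moreover `d_i ≤ n-1` for all `i`: if `r ≥ 2` clear, if `r = 1` and `d_0 = n` then
`P = C k * F_0` is an integer multiple of an irreducible polynomial of degree `n`, excluded.
Heights.  `H_i = max_j |coeff_j F_i| ≥ 1`, `u_i` minimal with `2^(u_i) ≥ H_i`, `h_i = 2^(u_i) ≤ 2H_i`.  `|∏ F_i| = |P/k| ≤
(n+1) A Y^λ` on `[0,1]` (`|k| ≥ 1`), so by `Gel` on `[0,1]` there are `m'_i` with `|F_i| ≤ m'_i` on `[0,1]`,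
`∏ m'_i ≤ C Y^λ`, and `H_i ≤ C m'_i` by `Coef`.  So `∏ h_i ≤ C Y^λ`: with `U_i = log h_i ≥ 0`: `∑ U_i ≤ λL + K`, and
`h_i ≤ C Y^λ ≤ Y`.
Levels.  `|∏ F_i| ≤ A/Y` on the cap; `Gel` gives `m_i > 0`, `|F_i| ≤ m_i` on the cap, attained, `∏ m_i ≤ C/Y`.
`v_i` with `2^(v_i - 1) < m_i ≤ 2^(v_i) =: c_i`, `ω_i = c_i/h_i`, `w_i = -log ω_i = U_i - log c_i`.  So
`∑(w_i - U_i) = -∑ log c_i ≥ L - K`.  Range: `m_i ≤ (n+1) 2^n H_i` (attained at a point of `[0,2]`) and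
`θ^(d_i) ≤ C m_i` (`Int` with `t = θ`), `θ ≥ Y^(-1)`: so `|v_i| ≤ V`.
Intervals.  `J_i = [a', b']` from `MxEx` (for `rp F_i`, level `c_i`), containing the cap.
Long case, `b' - a' > τ := Y^(-ε₁)`: `J_i` contains an interval `[a'', a''+τ]` with `|a''| ≤ 3` (`a'' = a` if
`a + τ ≤ b'`; else `a' < b' - τ < a` and `a'' = b' - τ ≥ a - τ + θ ≥ -1`).  `Int` with `t = τ`: `H_i τ^(d_i) ≤ C c_i`, so
`w_i ≤ d_i ε₁ L + K ≤ ε₀ L + K`.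
Short case, `θ ≤ b' - a' ≤ τ`: let `l ≥ 0` with `t := θ2^l ≤ b' - a' < 2t`, `p_i = -log t`.  `|a'| ≤ 2`.  So `(a',b')` is in
`S(d_i, u_i, v_i, l)`.  If this class is cheap then every `ξ` in the cap is in the ball `((a'+b')/2, (b'-a')/2)` of `T`
and we are done.  If not, `Cheap` applies with `#S t^(s') > Y^(-c)`, and gives the inequalities of `LP` for
`(d_i, U_i, w_i, p_i)` with `ε = ε₀` and a constant `K`; moreover `w_i ≤ d_i p_i + K` (`Int` with this `t`: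
`H_i t^(d_i) ≤ C c_i`) and `p_i ≤ ((1+λ)/2)L` (`t ≥ θ`).
If every `i` is in the long case or in an expensive class then `LP` (with `K` the maximum of all constants; put
`p_i = 0` in the long case) gives a contradiction for large `Y`. -/
def S_Red : Prop := ∀ (n : ℕ) (lam s' A : ℝ), 4 ≤ n → 1 / (n : ℝ) < lam →
  lam < 1 / ((n : ℝ) - 1) → sdim n lam < s' → s' ≤ 1 → 1 ≤ A → ∃ ε Y₀ : ℝ, 0 < ε ∧ 1 ≤ Y₀ ∧
  ∀ Y : ℝ, Y₀ ≤ Y → ∃ T : Finset (ℝ × ℝ), (∀ p ∈ T, th lam Y / 2 ≤ p.2) ∧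
    ∑ p ∈ T, p.2 ^ s' ≤ Y ^ (-ε) ∧
    ∀ a : ℝ, 0 ≤ a → a ≤ 1 → Bad n (A * Y ^ lam) (A / Y) a (a + th lam Y) →
      ∀ ξ : ℝ, a ≤ ξ → ξ ≤ a + th lam Y → ∃ p ∈ T, |ξ - p.1| ≤ p.2

/-! ## Part E: counting points near the curve and the upper bound -/

/-- **Cnt** (from `Int`, `MxEx`, `Count`, `Pts`, `Two`, `Irr`, `Red`).  Up to a small exceptional set there are at
most `Y^(2-(n-1)λ+κ)` integer points near the curve.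

Proof.  `A` from `Pts n λ`; then `Two`, `Irr`, `Red` for this `A`.  `θ = th λ Y`.  Classes for `m, l ≥ 0`: `M = 2^m ≤ A Y^λ`,
`t = θ2^l ≤ 1/2`; `S(m,l)` = the finite set (`Count` (i)) of the pairs with `Cls n (A Y^λ/M) (A/(YM)) t`.  If it is
nonempty then `t ≤ (C A/Y)^(1/n)` (`Int`: `t^n ≤ C A/(YM)`).  `T = T_Red ∪ T_b`, `T_b` = the images under
`(a,b) ↦ ((a+b)/2, (b-a)/2)` of the `S(m,l)` with `t^(-3/10) < M`.  By `Irr` (b), `∑_{T_b} r^(s') ≤ ∑_{m,l} K t^(-7/10) t^(s')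
≤ K (CA/Y)^(1/(20n)) C(1+L)²` (`s' > s > (n-1)/n ≥ 3/4`, so `s' - 7/10 ≥ 1/20`), so the total is `≤ Y^(-ε)`.
Let `S` be as in the statement, `ξ_x` the number of `x ∈ S`.  Caps `[jθ, (j+1)θ]`, `j = ⌊ξ_x/θ⌋`, `0 ≤ jθ ≤ 1`;
`S_j` = the `x ∈ S` with this `j`.  Let `S_j ≠ ∅`.  The cap is not bad (otherwise `T_Red` covers `ξ_x`).  `Pts`:
`#S_j ≤ A Y^(2-(n-1)λ) θ #M_j`.  The nonzero `P ∈ M_j` are `C k * Q`, `Q` irreducible of degree `n`, `k ≠ 0`; `Q` satisfies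
the same bounds (`|k| ≥ 1`), so by `Two` `Q = ±Q_j` with one `Q_j`.  Let `M_0(j)` be the largest `|k|` with
`C k * Q_j ∈ M_j ∪ -M_j` (`M_0 = 0` if there is none): `#M_j ≤ 2M_0 + 1`.
If `M_0 ≥ 1` let `M = 2^m ≤ M_0 < 2M`.  `Q_j` has coefficients `≤ A Y^λ/M_0 ≤ A Y^λ/M` and is `≤ A/(YM_0) ≤ A/(YM)` on the
cap.  `J` = the maximal interval at level `A/(YM)` containing the cap (`MxEx`); `|J| < 1` for large `Y` (`Int` on a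
subinterval of length 1 of `J` with left endpoint in `[-2,2]` gives `1 ≤ CA/Y`), `t = θ2^l ≤ |J| < 2t`, `t ≤ 1/2` by `Int`
again, left endpoint in `[-1, 1]`: `J ∈ S(m,l)`.  If `t^(-3/10) < M` then `J` is in `T_b` and covers `ξ_x`: impossible.  So
`M ≤ t^(-3/10)` and `Irr` (a): `#S(m,l) ≤ K/(tM)`.  Each `J` contains at most `|J|/θ ≤ 2t/θ` caps `[jθ,(j+1)θ]`.
Hence `∑_j #M_j ≤ (number of j) + ∑_{m,l} #S(m,l) (2t/θ)(3·2M) ≤ 2/θ + 1 + ∑_{m,l} 12K/θ ≤ C(1+L)²/θ`, where we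
used `2M_0+1 ≤ 3M_0 ≤ 6M`.  So `#S ≤ A Y^(2-(n-1)λ) C (1+L)² ≤ Y^(2-(n-1)λ+κ)` for large `Y`. -/
def S_Cnt : Prop := ∀ (n : ℕ) (lam s' κ : ℝ), 4 ≤ n → 1 / (n : ℝ) < lam →
  lam < 1 / ((n : ℝ) - 1) → sdim n lam < s' → s' ≤ 1 → 0 < κ → ∃ ε Y₀ : ℝ, 0 < ε ∧ 1 ≤ Y₀ ∧
  ∀ Y : ℝ, Y₀ ≤ Y → ∃ T : Finset (ℝ × ℝ), (∀ p ∈ T, th lam Y / 2 ≤ p.2) ∧
    ∑ p ∈ T, p.2 ^ s' ≤ Y ^ (-ε) ∧
    ∀ S : Finset (Fin (n + 1) → ℤ),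
      (∀ x ∈ S, ∃ ξ : ℝ, 0 ≤ ξ ∧ ξ ≤ 1 ∧ Nr n Y lam ξ x ∧ ∀ p ∈ T, p.2 < |ξ - p.1|) →
      (S.card : ℝ) ≤ Y ^ (2 - ((n : ℝ) - 1) * lam + κ)

/-- **Level** (from `Cnt`, `MP_211f72_nt.Limsup`).

Proof.  `s = sdim n λ < 1`.  Let `s < s' < 1`, `κ = (1+λ)(s'-s)/2`.  For `k` with `Y = 2^(k+1) ≥ Y₀` let `T` be the family of
`Cnt`, `S` the set of all `x` such that there is `ξ ∈ [0,1]`, not covered by `T`, with `Nr n Y λ ξ x`; it is finite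
(`|x_0| ≤ Y`, `|x_j| ≤ Y + 1` as `(Y/2)^(-λ) ≤ 1`).  `T_k = T ∪ {(x_1/x_0, (Y/2)^(-1-λ)) : x ∈ S}` (where `x_1 = x (1 : Fin (n+1))`);
`T_k = ∅` for the other `k`.  `∑_{T_k} r^(s') ≤ Y^(-ε) + Y^((1+λ)s+κ) (Y/2)^(-(1+λ)s') ≤ Y^(-ε) + 4 Y^(-κ)`
(`2-(n-1)λ = (1+λ)s`), summable (geometric).  If `ξ ∈ [0,1]` and `Nr n Y λ ξ x` then `ξ` is covered by `T` or `x ∈ S` and
`|ξ - x_1/x_0| ≤ (Y/2)^(-λ)/(Y/2)`.  `Limsup`: the dimension is `≤ s'`; let `s' → s` (e.g.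
`le_of_forall_gt_imp_ge_of_dense`, or `ENNReal.ofReal` and `ge_of_tendsto`). -/
def S_Level : Prop := ∀ (n : ℕ) (lam : ℝ), 4 ≤ n → 1 / (n : ℝ) < lam → lam < 1 / ((n : ℝ) - 1) →
  dimH {ξ : ℝ | 0 ≤ ξ ∧ ξ ≤ 1 ∧ ∀ K : ℕ, ∃ k : ℕ, K ≤ k ∧ ∃ x : Fin (n + 1) → ℤ,
    Nr n (2 ^ (k + 1)) lam ξ x} ≤ ENNReal.ofReal (sdim n lam)

/-- **ExpoN.**  Approximations with `|x_0|` large.

Proof.  (1) As `expo_three` in `Pool/Agent/Lib/MP_211f72_nt/Expo.lean` (case `n = 3`): given `M`, `ξ` irrational,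
`c = min_{1 ≤ |q| < M, p} |q ξ - p| > 0`; take `X₀ ≥ 1` with `X₀^(-λ) < c` and a solution with `X ≥ X₀`: by the inequality for
`j = 1` (`n ≥ 1`), `|x_0| ≥ M`; and `X^(-λ) ≤ |x_0|^(-λ)`.  (2) Take `X = |x_0|` with `M ≥ X₀`.  (3) Antitone: in a solution
`X ≥ |x_0| ≥ 1` (one may take `X₀ ≥ 1`). -/
def S_ExpoN : Prop :=
  (∀ (n : ℕ) (ξ lam : ℝ), 1 ≤ n → Irrational ξ → 0 < lam → MP_211f72_nt.Approx n ξ lam →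
    ∀ M : ℕ, GdN n lam M ξ) ∧
  (∀ (n : ℕ) (ξ lam : ℝ), (∀ M : ℕ, GdN n lam M ξ) → MP_211f72_nt.Approx n ξ lam) ∧
  (∀ (n : ℕ) (ξ lam lam' : ℝ), lam' ≤ lam → MP_211f72_nt.Approx n ξ lam →
    MP_211f72_nt.Approx n ξ lam')

/-- **UpperN** (from `Level`, `ExpoN`, `Yc`).

Proof.  Let `1/n < λ' < λ`.  `{Approx n ξ λ} ⊆ ℚ ∪ ⋃_{m ∈ ℤ} {ξ : ξ - m ∈ E_{λ'}}`, `E_{λ'}` the set of `Level` for `λ'`.
Indeed let `ξ` be irrational with `Approx n ξ λ`, `m = ⌊ξ⌋`, `ξ' = ξ - m ∈ [0,1]`.  By `ExpoN` (1) there are `x` with `|x_0|` as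
large as we like and `|x_0 ξ^j - x_j| ≤ |x_0|^(-λ)` for `j ≥ 1`.  Let `x'_j = ∑_i (j choose i) (-m)^(j-i) x_i ∈ ℤ` (so
`x'_0 = x_0`); `x_0 ξ'^j - x'_j = ∑_i (j choose i)(-m)^(j-i) (x_0 ξ^i - x_i)`, at most `(1+|m|)^n |x_0|^(-λ) ≤ |x_0|^(-λ')` for
`|x_0|` large.  With `2^k ≤ |x_0| < 2^(k+1) = Y`: `|x_0|^(-λ') ≤ (2^k)^(-λ') = (Y/2)^(-λ')`, i.e. `Nr n (2^(k+1)) λ' ξ' x'`, and
`k` is as large as we like.  Translations preserve the dimension (`IsometryEquiv`/`dimH_image`...), a countable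
union has dimension the supremum (`dimH_iUnion`), `dimH ℚ = 0` (`dimH_countable`).  So
`dimH {Approx n ξ λ} ≤ ofReal (sdim n λ')`; let `λ' → λ` (continuity of `sdim n`). -/
def S_UpperN : Prop := ∀ (n : ℕ) (lam : ℝ), 4 ≤ n → 1 / (n : ℝ) < lam → lam < 1 / ((n : ℝ) - 1) →
  dimH {ξ : ℝ | MP_211f72_nt.Approx n ξ lam} ≤ ENNReal.ofReal (sdim n lam)

/-! ## Part F: the lower bound -/

/-- **MinkN.**  Minkowski's theorem for the box.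

Proof.  As `Pool/Agent/Lib/MP_211f72_nt/Mink.lean` (`n = 3`).  The linear map `x ↦ (yc_j)_j` on `ℝ^(n+1)` is triangular with
diagonal 1 (determinant 1); the preimage of the box `|y_0| ≤ Q`, `|y_1| ≤ Q^((n-1)λ-1)`, `|y_j| ≤ Q^(-λ)` (`j ≥ 2`) is a
compact convex symmetric set of volume `2^(n+1) Q·Q^((n-1)λ-1)·Q^(-(n-1)λ) = 2^(n+1)`:
`MeasureTheory.exists_ne_zero_mem_lattice_of_measure_mul_two_pow_le_measure` with the standard lattice. -/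
def S_MinkN : Prop := ∀ (n : ℕ) (ξ Q lam : ℝ), 2 ≤ n → 1 ≤ Q → ∃ x : Fin (n + 1) → ℤ, x ≠ 0 ∧
  |(x 0 : ℝ)| ≤ Q ∧ BoxN n x ξ Q lam

/-- **BadM** (from `Cnt`, `Yc`).  For most `ξ` the point of Minkowski's theorem has a large first coordinate.

Proof.  `γ = 1-(n-1)λ > 0`, `η = Q^((n-1)λ-1) = Q^(-γ)`, `δ = Q^(-λ)`, `Q` large.  Let `ξ ∈ [κ, 1-κ]` and `x ≠ 0` be as in the
set, `q = |x_0|`.
`x_0 ≠ 0`: if `x_0 = 0` then `yc_1 = x_1`, `|x_1| ≤ η < 1`, so `x_1 = 0`, and inductively `yc_j = x_j`, `|x_j| ≤ δ < 1`,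
`x_j = 0` for all `j`.
Let `k ≥ 1` with `Y/2 ≤ q < Y = 2^k`; `Y ≤ 2Q^(1-ε)`; `ζ = x_1/x_0`.  `|ξ - ζ| = |yc_1|/q ≤ η/q ≤ 2η/Y ≤ κ`, so `ζ ∈ [0,1]`.
`yc_1(ζ) = 0` and by `Yc` (3) (`τ = ζ - ξ`) for `j ≥ 2`: `|yc_j(ζ)| ≤ 2^n (q (η/q)^j + η (η/q)^(j-1) + δ) ≤ 2^n(4η²/Y + δ)`
(`η/q ≤ 1`).  By `Yc` (6): `|x_0 ζ^j - x_j| ≤ 4^n (4η²/Y + δ)` for all `j`.
Small scales: `Y < Q^(γ/2)`.  `ξ` is within `η/q` of a fraction `x_1/x_0 ∈ [0,1]` with `|x_0| = q ≤ Y`: the measure of these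
`ξ` is `≤ ∑_{q ≤ Q^(γ/2)} (q+1)·2η/q ≤ 4 η Q^(γ/2) → 0`.
Large scales: `Q^(γ/2) ≤ Y ≤ 2Q^(1-ε)`, at most `2 + 2 log Q` values of `Y`.  Let `κ' = min(ε, γ)/(16 n)` and
`λ = λ_0 < λ_1 < ... < λ_m < 1/(n-1)` a finite grid with steps `≤ κ'` and `1/(n-1) - λ_m ≤ κ'`.  (`κ'` and the grid do not
depend on `Q`.)  Let `σ = log Y/log Q ≤ 1 - ε + log 2/log Q`, and let `i` be maximal with `λ_i ≤ λ/σ - κ'` (`i = 0` is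
allowed: `λ/σ - λ ≥ λ(1-σ) ≥ λε/2 ≥ κ'`, as `λ > 1/n` and `κ' ≤ ε/(16n)`).  Then
`(Y/2)^(-λ_i) ≥ 4^n(4η²/Y + δ)`: `Y^(-λ_i) ≥ Y^(-λ/σ+κ') = Q^(-λ) Y^(κ') ≥ 2·4^n δ`, and `Y^(-λ_i) ≥ Y^(-1) ≥ 4^n·8 Q^(-2γ)/Y`.  So
`Nr n Y λ_i ζ x`.
Use `Cnt` with `λ_i`, `κ'`, `s' = 1` (`sdim n λ_i < 1`): `T`, `ε_i`, valid for `Y ≥ Q^(γ/2) ≥ max_i Y₀(i)`.  Either `ζ` is covered
by `p ∈ T`; then `|ξ - p.1| ≤ p.2 + 2η/Y ≤ p.2 + 2 th λ_i Y ≤ 5 p.2` (`Y^(-1) ≤ th λ_i Y` as `λ_i ≤ 1`); the measure of these `ξ` is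
`≤ 10 ∑_T p.2 ≤ 10 Y^(-ε_i) ≤ 10 Q^(-γε_i/2)`.  Or `x` belongs to the set `S` of all `x` with `Nr n Y λ_i ζ x` for some uncovered
`ζ ∈ [0,1]` (finite), and `|ξ - x_1/x_0| ≤ 2η/Y`; the measure is `≤ (4η/Y) Y^(2-(n-1)λ_i+κ')`, whose exponent of `Q` is
`σ(1-(n-1)λ_i+κ') - γ` (up to the factor 4).  If `λ_i ≥ λ/σ - 2κ'` it is `≤ σ - (n-1)λ + (2n-1)κ'σ - 1 + (n-1)λ ≤ -ε/2` (for
large `Q`); otherwise `i = m` (as `λ_{i+1} > λ/σ - κ'` would give `λ_i ≥ λ/σ - 2κ'`), `1-(n-1)λ_m ≤ (n-1)κ'` and the exponent is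
`≤ nκ' - γ ≤ -γ/2`.  Sum over the `≤ 2 + 2 log Q` scales (and the finitely many `i`): everything tends to 0. -/
def S_BadM : Prop := ∀ (n : ℕ) (lam ε κ τ : ℝ), 4 ≤ n → 1 / (n : ℝ) < lam →
  lam < 1 / ((n : ℝ) - 1) → 0 < ε → ε < 1 → 0 < κ → 0 < τ → ∃ Q₀ : ℝ, ∀ Q : ℝ, Q₀ ≤ Q →
  MeasureTheory.volume {ξ : ℝ | κ ≤ ξ ∧ ξ ≤ 1 - κ ∧ ∃ x : Fin (n + 1) → ℤ, x ≠ 0 ∧
    |(x 0 : ℝ)| ≤ Q ^ (1 - ε) ∧ BoxN n x ξ Q lam} ≤ ENNReal.ofReal τ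

/-- **KidsN** (from `MinkN`, `BadM`, `Yc`).

Proof.  Follows `Pool/Agent/Lib/MP_211f72_nt/KidsMink.lean` (`n = 3`, 540 lines), which may be copied.
`s = sdim n λ`, `0 < t < s`.  Choose `λ₁ ∈ (λ, 1/(n-1))` with `(1+λ₁)t < 2-(n-1)λ₁` and then `ε ∈ (0, 1/2)` with
`(1+λ₁)t < 2-(n-1)λ₁-ε`.  `Q` large, `δ = Q^(-λ₁)`, `η = Q^((n-1)λ₁-1)`, `w = Q^((n-1)λ₁-2+ε)` (so `w = η/Q^(1-ε)`, small).
Work in the middle half `[u', v'] = [u+(v-u)/4, v-(v-u)/4] ⊆ [κ, 1-κ]`, `κ = (v-u)/4`; the bad set of `BadM` (for `λ₁, ε, κ`) has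
measure `≤ τ = (v-u)/64`.  For a good `ξ ∈ [u',v']` (not bad) `MinkN` (for `λ₁`) gives `x ≠ 0` with `Q^(1-ε) < |x_0| ≤ Q`, so
`|ξ - x_1/x_0| ≤ η/|x_0| ≤ w`.  Cells `[u'+4wj, u'+4w(j+1)]`, `0 ≤ j < m₀ = ⌊(v'-u')/(4w)⌋`; call `j` good if
`[u'+4wj+w, u'+4wj+2w]` contains a `ξ_j` which is not bad: at most `τ/w` of the `j` are not good, so at least
`(v-u)/(8w) - 1 - (v-u)/(64w) ≥ (v-u)/(16w)` are good.  Let `ζ_j = x_1/x_0 ∈ [u'+4wj, u'+4wj+3w]`: the `ζ_j` are `≥ w` apart.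
Children `[ζ_j - ρ, ζ_j + ρ]`, `ρ = Q^(-1-λ₁)/2`, `l = 2ρ`, `C = {ζ_j - ρ}`; contained in `[u,v]`; `w > 2l` for large `Q`
(`(n-1)λ₁ - 2 + ε > -1-λ₁` because `nλ₁ > 1`).
Errors.  At `ζ = ζ_j` (`τ' = ζ - ξ`, `|τ'| ≤ η/|x_0|`): `yc_1(ζ) = 0`, `|yc_j(ζ)| ≤ 2^n(2η²/|x_0| + δ) ≤ 2^n·3δ` (`j ≥ 2`; `Yc` (3), and
`η²/Q^(1-ε) ≤ δ` because `(2n-1)λ₁ < (2n-1)/(n-1) ≤ 7/3`, `(2n-1)λ₁ - 3 + ε ≤ -1/6 < 0`).  At `ξ' = ζ + τ''`, `|τ''| ≤ ρ`: `|yc_1| ≤ ρQ ≤ δ`,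
`|yc_j(ξ')| ≤ 2^n(Qρ^j + 2^n·3δ) ≤ C δ`.  `Yc` (6): `|x_0 ξ'^j - x_j| ≤ C' δ ≤ Q^(-λ) ≤ |x_0|^(-λ)` for large `Q` (`ξ' ∈ [0,1]`, `λ < λ₁`).
`|x_0| > Q^(1-ε) ≥ M`.  So `GdN n λ M` on the children.
`#C l^t ≥ ((v-u)/16) Q^(2-(n-1)λ₁-ε-(1+λ₁)t) → ∞`.  Windows: `count ≤ r/w + 1 ≤ (16 r/(v-u)) #C + 1` and `1 ≤ l^t #C ≤ r^t #C`. -/
def S_KidsN : Prop := ∀ (n : ℕ) (lam : ℝ), 4 ≤ n → 1 / (n : ℝ) < lam →
  lam < 1 / ((n : ℝ) - 1) → KidsForN n (sdim n lam) lam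

/-- **LowerN** (from `ExpoN`, `UpperN`, `MP_211f72_nt.ContentZero`, `MP_211f72_nt.Avoid`).

Proof.  As `Pool/Agent/Lib/MP_211f72_nt/Lower.lean`.  `s = sdim n λ ∈ (0,1)`.  Suppose `dimH Z < s`, `Z = {lambdaExp n ξ = λ}`.
`ContentZero` gives `τ_0` with `CZ τ_0 Z`.  For `k : ℕ` let `N_k = {Approx n ξ (λ + 1/(k+1))}`.  With
`λ'' = min(λ + 1/(k+1), (λ + 1/(n-1))/2) ∈ (λ, 1/(n-1))`: `N_k ⊆ {Approx n ξ λ''}` (`ExpoN` (3)), so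
`dimH N_k ≤ ofReal (sdim n λ'') < ofReal s` (`UpperN`; `sdim n` is strictly decreasing), so `CZ τ_k N_k` with `τ_k < s`.  `Avoid` (with
`G M = GdN n λ M`) gives `ξ` with `∀ M, GdN n λ M ξ`, so `Approx n ξ λ`, and `¬ Approx n ξ (λ + 1/(k+1))` for all `k`, so
`lambdaExp n ξ = λ` (`MP_211f72_nt.Expo`, second part, proved in `Expo.lean`), but `ξ ∉ Z`: contradiction. -/
def S_LowerN : Prop := ∀ (n : ℕ) (lam : ℝ), 4 ≤ n → 1 / (n : ℝ) < lam →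
  lam < 1 / ((n : ℝ) - 1) → KidsForN n (sdim n lam) lam →
  ENNReal.ofReal (sdim n lam) ≤ dimH {ξ : ℝ | MP_211f72_nt.lambdaExp n ξ = (lam : EReal)}

/-- **DirN** (from `UpperN`, `ExpoN`): the case `λ = 1/n`.

Proof.  As `Pool/Agent/Lib/MP_211f72_nt/Third.lean` (`n = 3`).  Dirichlet: for `N ≥ 1` there are `1 ≤ q ≤ N^n` and integers `x_j`
with `|q ξ^j - x_j| ≤ 1/N` (`N^n + 1` points of `[0,1)^n`, `N^n` cubes of side `1/N`; functions `Fin n → ℕ`), so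
`Approx n ξ (1/n)` with `X = N^n` for all `ξ`.  So the complement of `Z = {lambdaExp n ξ = 1/n}` is contained in
`⋃_k {Approx n ξ (1/n + 1/(k+1))}` (`Expo`, second part), each of dimension `< 1` (compare with
`λ'' = min(1/n + 1/(k+1), (1/n + 1/(n-1))/2)`, `sdim n λ'' < 1`), hence of Lebesgue measure 0 (`μH[1] = volume` on `ℝ`).  So
`Z` has full measure and dimension 1. -/
def S_DirN : Prop := ∀ n : ℕ, 4 ≤ n →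
  dimH {ξ : ℝ | MP_211f72_nt.lambdaExp n ξ = ((1 / (n : ℝ) : ℝ) : EReal)} = 1

/-- **UpEqN** (from `UpperN`): upper bound for the level sets (`MP_211f72_nt.Expo`, first part, and continuity).

Proof.  As `main_level_upper` in `Pool/Agent/Lib/MP_211f72_nt/MainThm.lean`: `{lambdaExp n ξ = λ} ⊆ {Approx n ξ λ'}` for all
`λ' < λ`; let `λ' → λ`. -/
def S_UpEqN : Prop := ∀ (n : ℕ) (lam : ℝ), 4 ≤ n → 1 / (n : ℝ) < lam →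
  lam < 1 / ((n : ℝ) - 1) →
  dimH {ξ : ℝ | MP_211f72_nt.lambdaExp n ξ = (lam : EReal)} ≤ ENNReal.ofReal (sdim n lam)

end Pool.Agent.MP211V
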